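import Mathlib

set_option autoImplicit false

open scoped Classical

namespace Pool.Agent.Helper17.SCD

/-- unit vectors, distinct inner products negative or `α` -/
def Code {d : ℕ} (α : ℝ) (S : Finset (EuclideanSpace ℝ (Fin d))) : Prop :=
  (∀ x ∈ S, ‖x‖ = 1) ∧ ∀ x ∈ S, ∀ y ∈ S, x ≠ y → ((inner ℝ x y : ℝ) < 0 ∨ inner ℝ x y = α)

/-- a finite set of unit vectors with a family of lines: cliques (all inner products `α`), two lines meet in at
most one point, every point is on at most `m` lines, points not on a common line have inner product `≤ 0` -/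
structure LineSys {d : ℕ} (α : ℝ) (m : ℕ) (P : Finset (EuclideanSpace ℝ (Fin d)))
    (LL : Finset (Finset (EuclideanSpace ℝ (Fin d)))) : Prop where
  sub : ∀ L ∈ LL, L ⊆ P
  two : ∀ L ∈ LL, 2 ≤ L.card
  unit : ∀ x ∈ P, ‖x‖ = 1
  adj : ∀ L ∈ LL, ∀ x ∈ L, ∀ y ∈ L, x ≠ y → (inner ℝ x y : ℝ) = α
  non : ∀ x ∈ P, ∀ y ∈ P, x ≠ y → (∀ L ∈ LL, x ∈ L → y ∉ L) → (inner ℝ x y : ℝ) ≤ 0
  meet : ∀ L ∈ LL, ∀ L' ∈ LL, L ≠ L' → (L ∩ L').card ≤ 1
  deg : ∀ x ∈ P, (LL.filter (fun L => x ∈ L)).card ≤ m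

/-- the class condition: all lines have fewer than `2K` points, every point is on a line with at least `K` points -/
structure Cls {d : ℕ} (α : ℝ) (m K : ℕ) (P : Finset (EuclideanSpace ℝ (Fin d)))
    (LL : Finset (Finset (EuclideanSpace ℝ (Fin d)))) : Prop where
  sys : LineSys α m P LL
  lt : ∀ L ∈ LL, L.card < 2 * K
  big : ∀ x ∈ P, ∃ L ∈ LL, x ∈ L ∧ K ≤ L.card

/-- big lines -/
noncomputable def bg {d : ℕ} (LL : Finset (Finset (EuclideanSpace ℝ (Fin d)))) (K : ℕ) :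
    Finset (Finset (EuclideanSpace ℝ (Fin d))) := LL.filter (fun L => K ≤ L.card)

/-- medium lines -/
noncomputable def md {d : ℕ} (LL : Finset (Finset (EuclideanSpace ℝ (Fin d)))) (k0 K : ℕ) :
    Finset (Finset (EuclideanSpace ℝ (Fin d))) := LL.filter (fun L => k0 ≤ L.card ∧ L.card < K)

/-- average of `w` over `L` -/
noncomputable def cen {d : ℕ} (w : EuclideanSpace ℝ (Fin d) → EuclideanSpace ℝ (Fin d))
    (L : Finset (EuclideanSpace ℝ (Fin d))) : EuclideanSpace ℝ (Fin d) :=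
  (L.card : ℝ)⁻¹ • ∑ y ∈ L, w y

/-- `w` minus the averages over the members of `F` through `x` -/
noncomputable def sb {d : ℕ} (w : EuclideanSpace ℝ (Fin d) → EuclideanSpace ℝ (Fin d))
    (F : Finset (Finset (EuclideanSpace ℝ (Fin d)))) (x : EuclideanSpace ℝ (Fin d)) :
    EuclideanSpace ℝ (Fin d) :=
  w x - ∑ J ∈ F.filter (fun L => x ∈ L), cen w J

/-- `w` plus the averages over the members of `F` through `x` -/
noncomputable def ad {d : ℕ} (w : EuclideanSpace ℝ (Fin d) → EuclideanSpace ℝ (Fin d))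
    (F : Finset (Finset (EuclideanSpace ℝ (Fin d)))) (x : EuclideanSpace ℝ (Fin d)) :
    EuclideanSpace ℝ (Fin d) :=
  w x + ∑ J ∈ F.filter (fun L => x ∈ L), cen w J

/-- the vectors centred by the big lines -/
noncomputable def rr {d : ℕ} (LL : Finset (Finset (EuclideanSpace ℝ (Fin d)))) (K : ℕ)
    (x : EuclideanSpace ℝ (Fin d)) : EuclideanSpace ℝ (Fin d) :=
  sb (fun y => y) (bg LL K) x

/-- the vectors centred by the big and then the medium lines -/
noncomputable def r2 {d : ℕ} (LL : Finset (Finset (EuclideanSpace ℝ (Fin d)))) (k0 K : ℕ)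
    (x : EuclideanSpace ℝ (Fin d)) : EuclideanSpace ℝ (Fin d) :=
  sb (rr LL K) (md LL k0 K) x

/-- the companion of `r2` -/
noncomputable def tt {d : ℕ} (LL : Finset (Finset (EuclideanSpace ℝ (Fin d)))) (k0 K : ℕ)
    (x : EuclideanSpace ℝ (Fin d)) : EuclideanSpace ℝ (Fin d) :=
  ad (rr LL K) (md LL k0 K) x

/-- distinct points on a common line with fewer than `K` points -/
def sm {d : ℕ} (LL : Finset (Finset (EuclideanSpace ℝ (Fin d)))) (K : ℕ)
    (x y : EuclideanSpace ℝ (Fin d)) : Prop :=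
  x ≠ y ∧ ∃ L ∈ LL, L.card < K ∧ x ∈ L ∧ y ∈ L

/-- constants -/
noncomputable def c3 (m : ℕ) : ℝ := 2 + 4 * m + 8 * (m : ℝ) ^ 2

noncomputable def c4 (m : ℕ) : ℝ := 2 + 2 * m * c3 m

end Pool.Agent.Helper17.SCD
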