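import Mathlib
import Pool.Agent.Helper17.SCD.Defs

set_option autoImplicit false

open scoped Classical

namespace Pool.Agent.Helper17.SCD

/-
SCD-AbsSum (0.5 h, Mathlib only). Plan: sb w F x = sum_{z in P} A(x,z) w z for x in P, A(x,z) = [x = z] - sum_{J in F, x in J, z in J} 1/|J|
(J ⊆ P). sum_{z in P} |A(x,z)| ≤ 1 + #{J ∋ x} ≤ m + 1; A is symmetric. Then sum_{x,y} |<sb x, sb y>| ≤ sum_{z,w} |<w z, w w'>| sum_x |A(x,z)| sum_y |A(y,w')|
≤ (m+1)² sum. The same for ad (entries [x=z] + ...). Do it once for a general matrix A with row sums of absolute values ≤ B and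
symmetric.
-/

private lemma abs_sum_mat {d : ℕ} (P : Finset (EuclideanSpace ℝ (Fin d)))
    (w f : EuclideanSpace ℝ (Fin d) → EuclideanSpace ℝ (Fin d))
    (A : EuclideanSpace ℝ (Fin d) → EuclideanSpace ℝ (Fin d) → ℝ) (B : ℝ)
    (hf : ∀ x ∈ P, f x = ∑ z ∈ P, A x z • w z)
    (hB : ∀ z ∈ P, ∑ x ∈ P, |A x z| ≤ B) :
    ∑ x ∈ P, ∑ y ∈ P, |(inner ℝ (f x) (f y) : ℝ)| ≤
      B ^ 2 * ∑ x ∈ P, ∑ y ∈ P, |(inner ℝ (w x) (w y) : ℝ)| := by
  have h1 : ∀ x ∈ P, ∀ y ∈ P, |(inner ℝ (f x) (f y) : ℝ)| ≤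
      ∑ z ∈ P, ∑ z' ∈ P, |A x z| * |A y z'| * |(inner ℝ (w z) (w z') : ℝ)| := by
    intro x hx y hy
    have e : (inner ℝ (f x) (f y) : ℝ) =
        ∑ z ∈ P, ∑ z' ∈ P, A x z * A y z' * (inner ℝ (w z) (w z') : ℝ) := by
      rw [hf x hx, hf y hy, sum_inner]
      refine Finset.sum_congr rfl (fun z hz => ?_)
      rw [inner_sum]
      refine Finset.sum_congr rfl (fun z' hz' => ?_)
      rw [real_inner_smul_left, real_inner_smul_right]
      ring
    rw [e]
    refine (Finset.abs_sum_le_sum_abs _ _).trans (Finset.sum_le_sum (fun z hz => ?_))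
    refine (Finset.abs_sum_le_sum_abs _ _).trans (Finset.sum_le_sum (fun z' hz' => ?_))
    rw [abs_mul, abs_mul]
  calc ∑ x ∈ P, ∑ y ∈ P, |(inner ℝ (f x) (f y) : ℝ)|
      ≤ ∑ x ∈ P, ∑ y ∈ P, ∑ z ∈ P, ∑ z' ∈ P, |A x z| * |A y z'| * |(inner ℝ (w z) (w z') : ℝ)| :=
        Finset.sum_le_sum (fun x hx => Finset.sum_le_sum (fun y hy => h1 x hx y hy))
    _ = ∑ z ∈ P, ∑ z' ∈ P, ∑ x ∈ P, ∑ y ∈ P, |A x z| * |A y z'| * |(inner ℝ (w z) (w z') : ℝ)| := by
        have e1 : ∀ x : EuclideanSpace ℝ (Fin d), ∑ y ∈ P, ∑ z ∈ P, ∑ z' ∈ P,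
            |A x z| * |A y z'| * |(inner ℝ (w z) (w z') : ℝ)| =
            ∑ z ∈ P, ∑ z' ∈ P, ∑ y ∈ P, |A x z| * |A y z'| * |(inner ℝ (w z) (w z') : ℝ)| := by
          intro x
          rw [Finset.sum_comm]
          refine Finset.sum_congr rfl (fun z _ => ?_)
          rw [Finset.sum_comm]
        simp_rw [e1]
        rw [Finset.sum_comm]
        refine Finset.sum_congr rfl (fun z _ => ?_)
        rw [Finset.sum_comm]
    _ = ∑ z ∈ P, ∑ z' ∈ P, (∑ x ∈ P, |A x z|) * (∑ y ∈ P, |A y z'|) *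
          |(inner ℝ (w z) (w z') : ℝ)| := by
        refine Finset.sum_congr rfl (fun z _ => Finset.sum_congr rfl (fun z' _ => ?_))
        rw [Finset.sum_mul_sum, Finset.sum_mul]
        refine Finset.sum_congr rfl (fun x _ => ?_)
        rw [Finset.sum_mul]
    _ ≤ ∑ z ∈ P, ∑ z' ∈ P, B * B * |(inner ℝ (w z) (w z') : ℝ)| := by
        refine Finset.sum_le_sum (fun z hz => Finset.sum_le_sum (fun z' hz' => ?_))
        have hz0 : 0 ≤ ∑ x ∈ P, |A x z| := Finset.sum_nonneg (fun _ _ => abs_nonneg _)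
        have hz0' : 0 ≤ ∑ x ∈ P, |A x z'| := Finset.sum_nonneg (fun _ _ => abs_nonneg _)
        have hB0 : 0 ≤ B := hz0.trans (hB z hz)
        exact mul_le_mul_of_nonneg_right (mul_le_mul (hB z hz) (hB z' hz') hz0' hB0) (abs_nonneg _)
    _ = B ^ 2 * ∑ x ∈ P, ∑ y ∈ P, |(inner ℝ (w x) (w y) : ℝ)| := by
        rw [Finset.mul_sum]
        refine Finset.sum_congr rfl (fun z _ => ?_)
        rw [Finset.mul_sum]
        refine Finset.sum_congr rfl (fun z' _ => ?_)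
        ring

theorem abs_sum {d : ℕ} (P : Finset (EuclideanSpace ℝ (Fin d)))
    (F : Finset (Finset (EuclideanSpace ℝ (Fin d)))) (m : ℕ) (hF : ∀ J ∈ F, J ⊆ P)
    (hdeg : ∀ x ∈ P, (F.filter (fun L => x ∈ L)).card ≤ m)
    (w : EuclideanSpace ℝ (Fin d) → EuclideanSpace ℝ (Fin d)) :
    ∑ x ∈ P, ∑ y ∈ P, |(inner ℝ (sb w F x) (sb w F y) : ℝ)| ≤
      (m + 1) ^ 2 * ∑ x ∈ P, ∑ y ∈ P, |(inner ℝ (w x) (w y) : ℝ)| := by
  refine abs_sum_mat P w (sb w F)
    (fun x z => (if x = z then (1 : ℝ) else 0) -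
      ∑ J ∈ F.filter (fun L => x ∈ L), if z ∈ J then (J.card : ℝ)⁻¹ else 0) (m + 1) ?_ ?_
  · intro x hx
    have e1 : ∀ z ∈ P, ((if x = z then (1 : ℝ) else 0) -
        ∑ J ∈ F.filter (fun L => x ∈ L), if z ∈ J then (J.card : ℝ)⁻¹ else 0) • w z =
        (if x = z then w z else 0) -
        ∑ J ∈ F.filter (fun L => x ∈ L), if z ∈ J then (J.card : ℝ)⁻¹ • w z else 0 := by
      intro z _
      rw [sub_smul, Finset.sum_smul]
      congr 1
      · split_ifs <;> simp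
      · refine Finset.sum_congr rfl (fun J _ => ?_)
        split_ifs <;> simp
    rw [Finset.sum_congr rfl e1, Finset.sum_sub_distrib, Finset.sum_ite_eq P x w, if_pos hx,
      Finset.sum_comm]
    unfold sb
    congr 1
    refine Finset.sum_congr rfl (fun J hJ => ?_)
    have hJP : J ⊆ P := hF J (Finset.mem_filter.1 hJ).1
    unfold cen
    rw [Finset.smul_sum, ← Finset.sum_filter, Finset.filter_mem_eq_inter,
      Finset.inter_eq_right.2 hJP]
  · intro z hz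
    have h1 : ∀ x ∈ P, |(if x = z then (1 : ℝ) else 0) -
        ∑ J ∈ F.filter (fun L => x ∈ L), if z ∈ J then (J.card : ℝ)⁻¹ else 0| ≤
        (if x = z then (1 : ℝ) else 0) +
        ∑ J ∈ F.filter (fun L => z ∈ L), if x ∈ J then (J.card : ℝ)⁻¹ else 0 := by
      intro x _
      have e2 : ∑ J ∈ F.filter (fun L => x ∈ L), (if z ∈ J then (J.card : ℝ)⁻¹ else 0) =
          ∑ J ∈ F.filter (fun L => z ∈ L), if x ∈ J then (J.card : ℝ)⁻¹ else 0 := by
        rw [Finset.sum_filter, Finset.sum_filter]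
        refine Finset.sum_congr rfl (fun J _ => ?_)
        by_cases h1 : x ∈ J <;> by_cases h2 : z ∈ J <;> simp [h1, h2]
      rw [e2]
      have h0 : 0 ≤ ∑ J ∈ F.filter (fun L => z ∈ L), (if x ∈ J then (J.card : ℝ)⁻¹ else 0) := by
        refine Finset.sum_nonneg (fun J _ => ?_)
        split_ifs
        · positivity
        · exact le_rfl
      have h01 : 0 ≤ (if x = z then (1 : ℝ) else 0) := by split_ifs <;> norm_num
      rw [abs_le]
      constructor <;> linarith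
    refine (Finset.sum_le_sum h1).trans ?_
    rw [Finset.sum_add_distrib, Finset.sum_comm]
    have h2 : ∑ x ∈ P, (if x = z then (1 : ℝ) else 0) = 1 := by
      rw [Finset.sum_ite_eq' P z (fun _ => (1 : ℝ)), if_pos hz]
    have h3 : ∀ J ∈ F.filter (fun L => z ∈ L),
        ∑ x ∈ P, (if x ∈ J then (J.card : ℝ)⁻¹ else 0) ≤ 1 := by
      intro J hJ
      have hJP : J ⊆ P := hF J (Finset.mem_filter.1 hJ).1
      have hzJ : z ∈ J := (Finset.mem_filter.1 hJ).2
      rw [← Finset.sum_filter, Finset.filter_mem_eq_inter, Finset.inter_eq_right.2 hJP,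
        Finset.sum_const, nsmul_eq_mul, mul_inv_cancel₀]
      have : 0 < J.card := Finset.card_pos.2 ⟨z, hzJ⟩
      positivity
    have h4 := Finset.sum_le_sum h3
    rw [Finset.sum_const, nsmul_eq_mul, mul_one] at h4
    have h5 : ((F.filter (fun L => z ∈ L)).card : ℝ) ≤ m := by exact_mod_cast hdeg z hz
    linarith

end Pool.Agent.Helper17.SCD
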