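import Mathlib
import Pool.Agent.Helper17.SCD.Defs

set_option autoImplicit false

open scoped Classical

namespace Pool.Agent.Helper17.SCD

/-
SCD-GramSum (0.5 h, Mathlib only). Plan.
pos_row: the term y = x gives 1 (h.unit); for y ≠ x with max ≠ 0 the inner product is positive, so by h.non there is a line L with
x, y in L, the value is α ≤ 1; the number of such y is ≤ sum over the ≤ m lines through x of (L.card - 1) ≤ m (2K-1) (the set is
contained in the biUnion of the L.erase x). Total ≤ 1 + m (2K-1) ≤ 1 + 2 m K.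
gram_sum: |a| = 2 max(a,0) - a; sum sum <x,y> = ‖sum x‖² ≥ 0; so the sum is ≤ 2 N (1 + 2 m K) ≤ (2 + 4m) K N (K ≥ 1).
-/
theorem pos_row {d : ℕ} {α : ℝ} {m K : ℕ} {P : Finset (EuclideanSpace ℝ (Fin d))}
    {LL : Finset (Finset (EuclideanSpace ℝ (Fin d)))} (h0 : 0 < α) (h1 : α < 1) (hK : 1 ≤ K)
    (h : LineSys α m P LL) (hlt : ∀ L ∈ LL, L.card < 2 * K) (x : EuclideanSpace ℝ (Fin d)) (hx : x ∈ P) :
    ∑ y ∈ P, max (inner ℝ x y : ℝ) 0 ≤ 1 + 2 * m * K := by
  set T : Finset (EuclideanSpace ℝ (Fin d)) :=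
    (LL.filter (fun L => x ∈ L)).biUnion (fun L => L.erase x) with hT
  have hpt : ∀ y ∈ P, max (inner ℝ x y : ℝ) 0 ≤
      (if y = x then (1 : ℝ) else 0) + (if y ∈ T then (1 : ℝ) else 0) := by
    intro y hy
    by_cases hyx : y = x
    · subst hyx
      have e : (inner ℝ y y : ℝ) = 1 := by
        rw [real_inner_self_eq_norm_sq, h.unit y hy]
        norm_num
      rw [e, if_pos rfl, max_eq_left (by norm_num : (0 : ℝ) ≤ 1)]
      have : (0 : ℝ) ≤ (if y ∈ T then (1 : ℝ) else 0) := by split_ifs <;> norm_num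
      linarith
    · rw [if_neg hyx, zero_add]
      by_cases hL : ∀ L ∈ LL, x ∈ L → y ∉ L
      · have hle := h.non x hx y hy (fun e => hyx e.symm) hL
        rw [max_eq_right hle]
        split_ifs <;> norm_num
      · push Not at hL
        obtain ⟨L, hLL, hxL, hyL⟩ := hL
        have hyT : y ∈ T := by
          rw [hT, Finset.mem_biUnion]
          exact ⟨L, Finset.mem_filter.mpr ⟨hLL, hxL⟩, Finset.mem_erase.mpr ⟨hyx, hyL⟩⟩
        rw [if_pos hyT, h.adj L hLL x hxL y hyL (fun e => hyx e.symm)]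
        exact max_le h1.le (by norm_num)
  have hTcard : T.card ≤ m * (2 * K) := by
    refine le_trans Finset.card_biUnion_le ?_
    refine le_trans (Finset.sum_le_card_nsmul _ _ (2 * K) (fun L hL => ?_)) ?_
    · have hLL := (Finset.mem_filter.mp hL).1
      exact le_trans (Finset.card_le_card (Finset.erase_subset _ _)) (hlt L hLL).le
    · rw [smul_eq_mul]
      exact Nat.mul_le_mul_right _ (h.deg x hx)
  have hsum1 : ∑ y ∈ P, (if y = x then (1 : ℝ) else 0) = 1 := by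
    rw [Finset.sum_ite_eq' P x (fun _ => (1 : ℝ)), if_pos hx]
  have hsum2 : ∑ y ∈ P, (if y ∈ T then (1 : ℝ) else 0) ≤ (T.card : ℝ) := by
    rw [← Finset.sum_filter, Finset.sum_const, nsmul_eq_mul, mul_one]
    have : P.filter (fun y => y ∈ T) ⊆ T := fun y hy => (Finset.mem_filter.mp hy).2
    exact_mod_cast Finset.card_le_card this
  have hT' : (T.card : ℝ) ≤ m * (2 * K) := by exact_mod_cast hTcard
  calc ∑ y ∈ P, max (inner ℝ x y : ℝ) 0
      ≤ ∑ y ∈ P, ((if y = x then (1 : ℝ) else 0) + (if y ∈ T then (1 : ℝ) else 0)) :=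
        Finset.sum_le_sum hpt
    _ = 1 + ∑ y ∈ P, (if y ∈ T then (1 : ℝ) else 0) := by
        rw [Finset.sum_add_distrib, hsum1]
    _ ≤ 1 + 2 * m * K := by linarith

theorem gram_sum {d : ℕ} {α : ℝ} {m K : ℕ} {P : Finset (EuclideanSpace ℝ (Fin d))}
    {LL : Finset (Finset (EuclideanSpace ℝ (Fin d)))} (h0 : 0 < α) (h1 : α < 1) (hK : 1 ≤ K)
    (h : LineSys α m P LL) (hlt : ∀ L ∈ LL, L.card < 2 * K) :
    ∑ x ∈ P, ∑ y ∈ P, |(inner ℝ x y : ℝ)| ≤ (2 + 4 * m) * K * P.card := by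
  have habs : ∀ a : ℝ, |a| = 2 * max a 0 - a := by
    intro a
    rcases le_total 0 a with ha | ha
    · rw [abs_of_nonneg ha, max_eq_left ha]
      ring
    · rw [abs_of_nonpos ha, max_eq_right ha]
      ring
  have hsq : 0 ≤ ∑ x ∈ P, ∑ y ∈ P, (inner ℝ x y : ℝ) := by
    have e : ∑ x ∈ P, ∑ y ∈ P, (inner ℝ x y : ℝ) =
        inner ℝ (∑ x ∈ P, x) (∑ y ∈ P, y) := by
      rw [sum_inner]
      refine Finset.sum_congr rfl (fun x _ => ?_)
      rw [inner_sum]
    rw [e]
    exact real_inner_self_nonneg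
  have hK' : (1 : ℝ) ≤ K := by exact_mod_cast hK
  calc ∑ x ∈ P, ∑ y ∈ P, |(inner ℝ x y : ℝ)|
      = 2 * ∑ x ∈ P, ∑ y ∈ P, max (inner ℝ x y : ℝ) 0 -
          ∑ x ∈ P, ∑ y ∈ P, (inner ℝ x y : ℝ) := by
        rw [Finset.mul_sum, ← Finset.sum_sub_distrib]
        refine Finset.sum_congr rfl (fun x _ => ?_)
        rw [Finset.mul_sum, ← Finset.sum_sub_distrib]
        exact Finset.sum_congr rfl (fun y _ => habs _)
    _ ≤ 2 * ∑ x ∈ P, ∑ y ∈ P, max (inner ℝ x y : ℝ) 0 := by linarith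
    _ ≤ 2 * ∑ x ∈ P, (1 + 2 * m * K : ℝ) := by
        have := Finset.sum_le_sum (fun x hx => pos_row h0 h1 hK h hlt x hx)
        linarith
    _ = (2 + 4 * m * K) * P.card := by
        rw [Finset.sum_const, nsmul_eq_mul]
        ring
    _ ≤ (2 + 4 * m) * K * P.card := by
        apply mul_le_mul_of_nonneg_right _ (Nat.cast_nonneg _)
        have : (0 : ℝ) ≤ m := Nat.cast_nonneg m
        nlinarith

end Pool.Agent.Helper17.SCD
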