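import Mathlib
import Pool.Agent.Helper17.SCD.Defs

set_option autoImplicit false

open scoped Classical

namespace Pool.Agent.Helper17.SCD

/-
SCD-Obt (0.5 h, Mathlib only). Plan: G_ij = <c_i, c_j>.
(1) for t : kappa -> R: ‖sum t_i c_i‖² = sum_ij t_i t_j G_ij ≤ sum_ij |t_i||t_j||G_ij|; for i ≠ j
|G_ij| = 2 max(G_ij,0) - G_ij, and for i = j |G_ii| = 2 G_ii - G_ii; so the sum is
2 sum_i t_i² G_ii + 2 sum_{i ≠ j} |t_i||t_j| max(G_ij,0) - sum_ij |t_i||t_j| G_ij, the last sum is ‖sum |t_i| c_i‖² ≥ 0,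
and |t_i||t_j| ≤ (t_i² + t_j²)/2 with symmetry of max(G_ij,0) (real_inner_comm) gives ≤ 2 (D + ρ) sum t_i².
(2) t_i = <c_i, u>: sum t_i² = <sum t_i c_i, u> ≤ ‖sum t_i c_i‖ ‖u‖, square it: T² ≤ 2 (D + ρ) T ‖u‖², T = sum t_i².
-/
private lemma nsq {d : ℕ} {κ : Type*} (I : Finset κ) (c : κ → EuclideanSpace ℝ (Fin d)) (t : κ → ℝ) :
    ‖∑ i ∈ I, t i • c i‖ ^ 2 = ∑ i ∈ I, ∑ j ∈ I, t i * t j * (inner ℝ (c i) (c j) : ℝ) := by
  rw [← real_inner_self_eq_norm_sq, sum_inner]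
  refine Finset.sum_congr rfl fun i _ => ?_
  rw [inner_sum]
  refine Finset.sum_congr rfl fun j _ => ?_
  rw [real_inner_smul_left, real_inner_smul_right]
  ring

private lemma main1 {d : ℕ} {κ : Type*} (I : Finset κ) (c : κ → EuclideanSpace ℝ (Fin d)) (D ρ : ℝ)
    (hD : ∀ i ∈ I, ‖c i‖ ^ 2 ≤ D)
    (hρ : ∀ i ∈ I, ∑ j ∈ I.erase i, max (inner ℝ (c i) (c j) : ℝ) 0 ≤ ρ) (t : κ → ℝ) :
    ‖∑ i ∈ I, t i • c i‖ ^ 2 ≤ 2 * (D + ρ) * ∑ i ∈ I, t i ^ 2 := by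
  have h0 : 0 ≤ ‖∑ i ∈ I, |t i| • c i‖ ^ 2 := by positivity
  rw [nsq] at h0
  rw [nsq]
  -- row bounds
  have hrow : ∀ i ∈ I, ∑ j ∈ I, max (inner ℝ (c i) (c j) : ℝ) 0 ≤ D + ρ := by
    intro i hi
    rw [← Finset.add_sum_erase I _ hi]
    refine add_le_add ?_ (hρ i hi)
    rw [real_inner_self_eq_norm_sq]
    exact max_le (hD i hi) ((sq_nonneg _).trans (hD i hi))
  have hpt : ∀ i ∈ I, ∀ j ∈ I, t i * t j * (inner ℝ (c i) (c j) : ℝ)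
      ≤ (t i ^ 2 + t j ^ 2) * max (inner ℝ (c i) (c j) : ℝ) 0
        - |t i| * |t j| * (inner ℝ (c i) (c j) : ℝ) := by
    intro i _ j _
    have h1 : t i * t j * (inner ℝ (c i) (c j) : ℝ) ≤ |t i| * |t j| * |(inner ℝ (c i) (c j) : ℝ)| := by
      rw [← abs_mul, ← abs_mul]
      exact le_abs_self _
    have h2 : |(inner ℝ (c i) (c j) : ℝ)|
        = 2 * max (inner ℝ (c i) (c j) : ℝ) 0 - (inner ℝ (c i) (c j) : ℝ) := by
      rcases le_total 0 (inner ℝ (c i) (c j) : ℝ) with h | h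
      · rw [abs_of_nonneg h, max_eq_left h]; ring
      · rw [abs_of_nonpos h, max_eq_right h]; ring
    rw [h2] at h1
    have h3 : 2 * (|t i| * |t j|) ≤ t i ^ 2 + t j ^ 2 := by
      have := two_mul_le_add_sq |t i| |t j|
      rw [sq_abs, sq_abs] at this
      linarith
    have h4 : 0 ≤ max (inner ℝ (c i) (c j) : ℝ) 0 := le_max_right _ _
    have h5 := mul_le_mul_of_nonneg_right h3 h4
    nlinarith [h1, h5]
  have hsum : ∑ i ∈ I, ∑ j ∈ I, t i * t j * (inner ℝ (c i) (c j) : ℝ)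
      ≤ ∑ i ∈ I, ∑ j ∈ I, ((t i ^ 2 + t j ^ 2) * max (inner ℝ (c i) (c j) : ℝ) 0
        - |t i| * |t j| * (inner ℝ (c i) (c j) : ℝ)) :=
    Finset.sum_le_sum fun i hi => Finset.sum_le_sum fun j hj => hpt i hi j hj
  simp only [Finset.sum_sub_distrib, add_mul, Finset.sum_add_distrib] at hsum
  have hA : ∑ i ∈ I, ∑ j ∈ I, t i ^ 2 * max (inner ℝ (c i) (c j) : ℝ) 0
      ≤ (D + ρ) * ∑ i ∈ I, t i ^ 2 := by
    rw [Finset.mul_sum]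
    refine Finset.sum_le_sum fun i hi => ?_
    rw [← Finset.mul_sum, mul_comm]
    exact mul_le_mul_of_nonneg_right (hrow i hi) (sq_nonneg _)
  have hB : ∑ i ∈ I, ∑ j ∈ I, t j ^ 2 * max (inner ℝ (c i) (c j) : ℝ) 0
      ≤ (D + ρ) * ∑ i ∈ I, t i ^ 2 := by
    rw [Finset.sum_comm]
    refine le_trans (le_of_eq ?_) hA
    refine Finset.sum_congr rfl fun j _ => Finset.sum_congr rfl fun i _ => ?_
    rw [real_inner_comm]
  linarith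

theorem obtuse {d : ℕ} {κ : Type*} (I : Finset κ) (c : κ → EuclideanSpace ℝ (Fin d)) (D ρ : ℝ)
    (hD0 : 0 ≤ D) (hρ0 : 0 ≤ ρ) (hD : ∀ i ∈ I, ‖c i‖ ^ 2 ≤ D)
    (hρ : ∀ i ∈ I, ∑ j ∈ I.erase i, max (inner ℝ (c i) (c j) : ℝ) 0 ≤ ρ)
    (u : EuclideanSpace ℝ (Fin d)) :
    ∑ i ∈ I, (inner ℝ (c i) u : ℝ) ^ 2 ≤ 2 * (D + ρ) * ‖u‖ ^ 2 := by
  have h1 := main1 I c D ρ hD hρ (fun i => (inner ℝ (c i) u : ℝ))
  set T := ∑ i ∈ I, (inner ℝ (c i) u : ℝ) ^ 2 with hT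
  have h2 : T = inner ℝ (∑ i ∈ I, (inner ℝ (c i) u : ℝ) • c i) u := by
    rw [sum_inner, hT]
    refine Finset.sum_congr rfl fun i _ => ?_
    rw [real_inner_smul_left, sq]
  have hT0 : 0 ≤ T := Finset.sum_nonneg fun i _ => sq_nonneg _
  have h3 : T ≤ ‖∑ i ∈ I, (inner ℝ (c i) u : ℝ) • c i‖ * ‖u‖ := by
    rw [h2]
    exact real_inner_le_norm _ _
  have h4 : T ^ 2 ≤ 2 * (D + ρ) * T * ‖u‖ ^ 2 := by
    calc T ^ 2 ≤ (‖∑ i ∈ I, (inner ℝ (c i) u : ℝ) • c i‖ * ‖u‖) ^ 2 :=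
          pow_le_pow_left₀ hT0 h3 2
      _ = ‖∑ i ∈ I, (inner ℝ (c i) u : ℝ) • c i‖ ^ 2 * ‖u‖ ^ 2 := by rw [mul_pow]
      _ ≤ _ := mul_le_mul_of_nonneg_right h1 (sq_nonneg _)
  rcases hT0.eq_or_lt with h5 | h5
  · rw [← h5]
    positivity
  · have h6 : T * T ≤ T * (2 * (D + ρ) * ‖u‖ ^ 2) := by nlinarith [h4]
    exact le_of_mul_le_mul_left h6 h5

end Pool.Agent.Helper17.SCD
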