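import Mathlib
import Pool.Agent.Helper17.SCD.Obt
import Pool.Agent.Helper17.SCD.GramSum

set_option autoImplicit false

open scoped Classical

namespace Pool.Agent.Helper17.SCD

/-
SCD-BigRow (0.7 h). Plan.
cen_pos: <cen J, cen J'> = (1/(k k')) sum_{z in J, w in J'} <z,w> ≤ (1/K²) sum_{z in J} sum_{w in J'} max(<z,w>,0) (k, k' ≥ K ≥ 1), the
right side is ≥ 0, so the same bound holds for max(..,0).
big_row: sum over J' in bg \ {J}: ≤ (1/K²) sum_{z in J} sum_{J' in bg} sum_{w in J'} max(<z,w>,0), exchange: every w in P is in at most m of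
the J' (h.deg), J' ⊆ P (h.sub), so ≤ (m/K²) sum_{z in J} sum_{w in P} max(<z,w>,0) ≤ (m/K²) (2K) (1 + 2mK) ≤ 2m (1 + 2m)
(pos_row, J.card < 2K, 1/K ≤ 1).
bessel: obtuse with I = bg LL K, c = cen id, D = 1, ρ = 2m(1+2m): 2 (1 + 2m + 4m²) = c3 m. ‖cen id J‖ ≤ 1: triangle
inequality (J nonempty: h.two).
num_big: K * card (bg) ≤ sum_{J in bg} J.card = sum_{x in P} #{J in bg : x in J} ≤ m * P.card.
sum_lines: the same for any subfamily F of LL.
-/
/-- double counting: every point is on at most `m` members of `F`. -/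
private theorem dcount {d : ℕ} {α : ℝ} {m : ℕ} {P : Finset (EuclideanSpace ℝ (Fin d))}
    {LL : Finset (Finset (EuclideanSpace ℝ (Fin d)))}
    (h : LineSys α m P LL) (F : Finset (Finset (EuclideanSpace ℝ (Fin d)))) (hF : F ⊆ LL)
    (g : EuclideanSpace ℝ (Fin d) → ℝ) (hg : ∀ w, 0 ≤ g w) :
    ∑ J ∈ F, ∑ w ∈ J, g w ≤ m * ∑ w ∈ P, g w := by
  have h1 : ∀ J ∈ F, ∑ w ∈ J, g w = ∑ w ∈ P, if w ∈ J then g w else 0 := by
    intro J hJ
    rw [← Finset.sum_filter]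
    refine Finset.sum_congr ?_ (fun _ _ => rfl)
    ext w
    rw [Finset.mem_filter]
    exact ⟨fun hw => ⟨h.sub J (hF hJ) hw, hw⟩, fun hw => hw.2⟩
  rw [Finset.sum_congr rfl h1, Finset.sum_comm, Finset.mul_sum]
  refine Finset.sum_le_sum (fun w hw => ?_)
  rw [← Finset.sum_filter, Finset.sum_const, nsmul_eq_mul]
  refine mul_le_mul_of_nonneg_right ?_ (hg w)
  have h2 : (F.filter (fun L => w ∈ L)).card ≤ m :=
    (Finset.card_le_card (Finset.filter_subset_filter _ hF)).trans (h.deg w hw)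
  exact_mod_cast h2

theorem cen_pos {d : ℕ} {α : ℝ} {m K : ℕ} {P : Finset (EuclideanSpace ℝ (Fin d))}
    {LL : Finset (Finset (EuclideanSpace ℝ (Fin d)))} (hK : 1 ≤ K)
    (h : LineSys α m P LL) (J J' : Finset (EuclideanSpace ℝ (Fin d))) (hJ : J ∈ bg LL K)
    (hJ' : J' ∈ bg LL K) :
    max (inner ℝ (cen (fun y => y) J) (cen (fun y => y) J') : ℝ) 0 ≤
      ((K : ℝ) ^ 2)⁻¹ * ∑ z ∈ J, ∑ w ∈ J', max (inner ℝ z w : ℝ) 0 := by
  have hK0 : (0 : ℝ) < K := by exact_mod_cast hK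
  have hJK : (K : ℝ) ≤ J.card := by
    have := (Finset.mem_filter.1 hJ).2
    exact_mod_cast this
  have hJK' : (K : ℝ) ≤ J'.card := by
    have := (Finset.mem_filter.1 hJ').2
    exact_mod_cast this
  have hS0 : 0 ≤ ∑ z ∈ J, ∑ w ∈ J', max (inner ℝ z w : ℝ) 0 :=
    Finset.sum_nonneg (fun z _ => Finset.sum_nonneg (fun w _ => le_max_right _ _))
  have hR0 : 0 ≤ ((K : ℝ) ^ 2)⁻¹ * ∑ z ∈ J, ∑ w ∈ J', max (inner ℝ z w : ℝ) 0 :=
    mul_nonneg (by positivity) hS0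
  refine max_le ?_ hR0
  rw [cen, cen, real_inner_smul_left, real_inner_smul_right, sum_inner]
  simp only [inner_sum]
  have h1 : ∑ z ∈ J, ∑ w ∈ J', (inner ℝ z w : ℝ) ≤ ∑ z ∈ J, ∑ w ∈ J', max (inner ℝ z w : ℝ) 0 :=
    Finset.sum_le_sum (fun z _ => Finset.sum_le_sum (fun w _ => le_max_left _ _))
  have h2 : ((J.card : ℝ)⁻¹ * ((J'.card : ℝ)⁻¹ * ∑ z ∈ J, ∑ w ∈ J', (inner ℝ z w : ℝ))) ≤
      (J.card : ℝ)⁻¹ * ((J'.card : ℝ)⁻¹ * ∑ z ∈ J, ∑ w ∈ J', max (inner ℝ z w : ℝ) 0) := by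
    apply mul_le_mul_of_nonneg_left _ (by positivity)
    exact mul_le_mul_of_nonneg_left h1 (by positivity)
  refine h2.trans ?_
  rw [← mul_assoc]
  apply mul_le_mul_of_nonneg_right _ hS0
  have h3 : (J.card : ℝ)⁻¹ ≤ (K : ℝ)⁻¹ := inv_anti₀ hK0 hJK
  have h4 : (J'.card : ℝ)⁻¹ ≤ (K : ℝ)⁻¹ := inv_anti₀ hK0 hJK'
  calc (J.card : ℝ)⁻¹ * (J'.card : ℝ)⁻¹ ≤ (K : ℝ)⁻¹ * (K : ℝ)⁻¹ :=
        mul_le_mul h3 h4 (by positivity) (by positivity)
    _ = ((K : ℝ) ^ 2)⁻¹ := by rw [← mul_inv, pow_two]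

theorem big_row {d : ℕ} {α : ℝ} {m K : ℕ} {P : Finset (EuclideanSpace ℝ (Fin d))}
    {LL : Finset (Finset (EuclideanSpace ℝ (Fin d)))} (h0 : 0 < α) (h1 : α < 1) (hK : 1 ≤ K)
    (h : LineSys α m P LL) (hlt : ∀ L ∈ LL, L.card < 2 * K) (J : Finset (EuclideanSpace ℝ (Fin d)))
    (hJ : J ∈ bg LL K) :
    ∑ J' ∈ (bg LL K).erase J, max (inner ℝ (cen (fun y => y) J) (cen (fun y => y) J') : ℝ) 0 ≤
      2 * m * (1 + 2 * m) := by
  have hK0 : (0 : ℝ) < K := by exact_mod_cast hK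
  have hK1 : (1 : ℝ) ≤ K := by exact_mod_cast hK
  have hJL : J ∈ LL := (Finset.mem_filter.1 hJ).1
  have hm0 : (0 : ℝ) ≤ m := Nat.cast_nonneg m
  have e1 : ∑ J' ∈ (bg LL K).erase J,
      max (inner ℝ (cen (fun y => y) J) (cen (fun y => y) J') : ℝ) 0 ≤
      ∑ J' ∈ bg LL K, ((K : ℝ) ^ 2)⁻¹ * ∑ z ∈ J, ∑ w ∈ J', max (inner ℝ z w : ℝ) 0 := by
    refine (Finset.sum_le_sum (fun J' hJ' =>
      cen_pos hK h J J' hJ (Finset.mem_of_mem_erase hJ'))).trans ?_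
    refine Finset.sum_le_sum_of_subset_of_nonneg (Finset.erase_subset _ _) (fun J' _ _ => ?_)
    exact mul_nonneg (by positivity)
      (Finset.sum_nonneg (fun z _ => Finset.sum_nonneg (fun w _ => le_max_right _ _)))
  refine e1.trans ?_
  rw [← Finset.mul_sum, Finset.sum_comm]
  have e2 : ∀ z ∈ J, ∑ J' ∈ bg LL K, ∑ w ∈ J', max (inner ℝ z w : ℝ) 0 ≤ m * (1 + 2 * m * K) := by
    intro z hz
    refine (dcount h (bg LL K) (Finset.filter_subset _ _) (fun w => max (inner ℝ z w : ℝ) 0)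
      (fun w => le_max_right _ _)).trans ?_
    exact mul_le_mul_of_nonneg_left (pos_row h0 h1 hK h hlt z (h.sub J hJL hz)) hm0
  have e3 : ∑ z ∈ J, ∑ J' ∈ bg LL K, ∑ w ∈ J', max (inner ℝ z w : ℝ) 0 ≤
      (2 * K) * (m * (1 + 2 * m * K)) := by
    refine (Finset.sum_le_sum e2).trans ?_
    rw [Finset.sum_const, nsmul_eq_mul]
    refine mul_le_mul_of_nonneg_right ?_ (by positivity)
    have := (hlt J hJL).le
    exact_mod_cast this
  refine (mul_le_mul_of_nonneg_left e3 (by positivity)).trans ?_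
  have e4 : ((K : ℝ) ^ 2)⁻¹ * ((2 * K) * (m * (1 + 2 * m * K))) = 2 * m * (1 / K + 2 * m) := by
    field_simp
  rw [e4]
  have e5 : (1 : ℝ) / K ≤ 1 := by
    rw [div_le_iff₀ hK0]
    linarith
  exact mul_le_mul_of_nonneg_left (by linarith) (by positivity)

theorem bessel {d : ℕ} {α : ℝ} {m K : ℕ} {P : Finset (EuclideanSpace ℝ (Fin d))}
    {LL : Finset (Finset (EuclideanSpace ℝ (Fin d)))} (h0 : 0 < α) (h1 : α < 1) (hK : 1 ≤ K)
    (h : LineSys α m P LL) (hlt : ∀ L ∈ LL, L.card < 2 * K) (u : EuclideanSpace ℝ (Fin d)) :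
    ∑ J ∈ bg LL K, (inner ℝ (cen (fun y => y) J) u : ℝ) ^ 2 ≤ c3 m * ‖u‖ ^ 2 := by
  have hm0 : (0 : ℝ) ≤ m := Nat.cast_nonneg m
  have hD : ∀ J ∈ bg LL K, ‖cen (fun y => y) J‖ ^ 2 ≤ 1 := by
    intro J hJ
    have hJL : J ∈ LL := (Finset.mem_filter.1 hJ).1
    have hc : (0 : ℝ) < J.card := by
      have := h.two J hJL
      have h2 : 0 < J.card := by omega
      exact_mod_cast h2
    have h3 : ‖cen (fun y => y) J‖ ≤ 1 := by
      rw [cen, norm_smul, norm_inv, Real.norm_of_nonneg hc.le]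
      have h4 : ‖∑ y ∈ J, y‖ ≤ J.card := by
        refine (norm_sum_le _ _).trans ?_
        rw [Finset.sum_congr rfl (fun y hy => h.unit y (h.sub J hJL hy)), Finset.sum_const,
          nsmul_eq_mul, mul_one]
      calc (J.card : ℝ)⁻¹ * ‖∑ y ∈ J, y‖ ≤ (J.card : ℝ)⁻¹ * J.card :=
            mul_le_mul_of_nonneg_left h4 (by positivity)
        _ = 1 := inv_mul_cancel₀ hc.ne'
    exact pow_le_one₀ (norm_nonneg _) h3
  have h5 := obtuse (bg LL K) (cen (fun y => y)) 1 (2 * m * (1 + 2 * m)) zero_le_one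
    (by positivity) hD (fun J hJ => (le_of_eq (Finset.sum_congr (by ext; simp only [Finset.mem_erase])
      (fun _ _ => rfl))).trans (big_row h0 h1 hK h hlt J hJ)) u
  refine h5.trans (le_of_eq ?_)
  rw [c3]
  ring

theorem sum_lines {d : ℕ} {α : ℝ} {m : ℕ} {P : Finset (EuclideanSpace ℝ (Fin d))}
    {LL : Finset (Finset (EuclideanSpace ℝ (Fin d)))}
    (h : LineSys α m P LL) (F : Finset (Finset (EuclideanSpace ℝ (Fin d)))) (hF : F ⊆ LL) :
    ∑ J ∈ F, J.card ≤ m * P.card := by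
  have h1 := dcount h F hF (fun _ => 1) (fun _ => zero_le_one)
  simp only [Finset.sum_const, nsmul_eq_mul, mul_one] at h1
  exact_mod_cast h1

theorem num_big {d : ℕ} {α : ℝ} {m K : ℕ} {P : Finset (EuclideanSpace ℝ (Fin d))}
    {LL : Finset (Finset (EuclideanSpace ℝ (Fin d)))} (h : LineSys α m P LL) :
    K * (bg LL K).card ≤ m * P.card := by
  refine le_trans ?_ (sum_lines h (bg LL K) (Finset.filter_subset _ _))
  rw [mul_comm, ← smul_eq_mul]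
  exact Finset.card_nsmul_le_sum _ _ _ (fun J hJ => (Finset.mem_filter.1 hJ).2)

end Pool.Agent.Helper17.SCD
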