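import Mathlib
import Pool.Agent.Helper17.SCD.Defs

set_option autoImplicit false

open scoped Classical

namespace Pool.Agent.Helper17.SCD

/-
SCD-Clq (0.5 h, Mathlib only). Plan: k = L.card, c = cen id L. <x, c> = (1 + (k-1) α)/k = α + (1-α)/k (split off y = x in
the sum), ‖c‖² = (1/k) sum_x <x,c> = the same. With y_x = x - c: <y_x, y_z> = <x,z> - 2(α + (1-α)/k) + α + (1-α)/k
= (1-α)([x=z] - 1/k). For t_x = <y_x, u>: ‖sum t_x y_x‖² = (1-α)(sum t² - (sum t)²/k) ≤ sum t², and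
sum t² = <sum t_x y_x, u> ≤ ‖..‖ ‖u‖, so T² ≤ T ‖u‖².
clq_cen_le: ‖cen id L‖ ≤ 1 also follows from the triangle inequality.
-/
theorem clq_inner {d : ℕ} {α : ℝ} (L : Finset (EuclideanSpace ℝ (Fin d)))
    (hu : ∀ x ∈ L, ‖x‖ = 1) (hc : ∀ x ∈ L, ∀ y ∈ L, x ≠ y → (inner ℝ x y : ℝ) = α)
    (x : EuclideanSpace ℝ (Fin d)) (hx : x ∈ L) :
    (inner ℝ x (cen (fun y => y) L) : ℝ) = α + (1 - α) / L.card := by
  have hk : 0 < L.card := Finset.card_pos.2 ⟨x, hx⟩
  have hk' : (0 : ℝ) < L.card := by exact_mod_cast hk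
  unfold cen
  rw [real_inner_smul_right, inner_sum, ← Finset.add_sum_erase L _ hx]
  have h1 : ∑ y ∈ L.erase x, (inner ℝ x y : ℝ) = ∑ y ∈ L.erase x, α :=
    Finset.sum_congr rfl (fun y hy =>
      hc x hx y (Finset.mem_of_mem_erase hy) (Finset.ne_of_mem_erase hy).symm)
  rw [h1, Finset.sum_const, Finset.card_erase_of_mem hx, nsmul_eq_mul,
    real_inner_self_eq_norm_sq, hu x hx, Nat.cast_sub hk]
  field_simp
  push_cast
  ring

theorem clq_norm {d : ℕ} {α : ℝ} (L : Finset (EuclideanSpace ℝ (Fin d))) (hL : L.Nonempty)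
    (hu : ∀ x ∈ L, ‖x‖ = 1) (hc : ∀ x ∈ L, ∀ y ∈ L, x ≠ y → (inner ℝ x y : ℝ) = α) :
    ‖cen (fun y => y) L‖ ^ 2 = α + (1 - α) / L.card := by
  have hk : 0 < L.card := Finset.card_pos.2 hL
  have hk' : (L.card : ℝ) ≠ 0 := by positivity
  rw [← real_inner_self_eq_norm_sq]
  have h1 : (inner ℝ (cen (fun y => y) L) (cen (fun y => y) L) : ℝ) =
      (L.card : ℝ)⁻¹ * ∑ x ∈ L, (inner ℝ x (cen (fun y => y) L) : ℝ) := by
    conv_lhs => enter [2]; unfold cen
    rw [real_inner_smul_left, sum_inner]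
  rw [h1, Finset.sum_congr rfl (fun x hx => clq_inner L hu hc x hx), Finset.sum_const,
    nsmul_eq_mul, inv_mul_cancel_left₀ hk']

theorem clq_contr {d : ℕ} {α : ℝ} (h0 : 0 < α) (h1 : α < 1)
    (L : Finset (EuclideanSpace ℝ (Fin d)))
    (hu : ∀ x ∈ L, ‖x‖ = 1) (hc : ∀ x ∈ L, ∀ y ∈ L, x ≠ y → (inner ℝ x y : ℝ) = α)
    (u : EuclideanSpace ℝ (Fin d)) :
    ∑ x ∈ L, (inner ℝ (x - cen (fun y => y) L) u : ℝ) ^ 2 ≤ ‖u‖ ^ 2 := by
  rcases L.eq_empty_or_nonempty with hL | hL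
  · subst hL
    simp
  have hk : 0 < L.card := Finset.card_pos.2 hL
  have hk' : (0 : ℝ) < L.card := by exact_mod_cast hk
  set c := cen (fun y => y) L with hcdef
  set t : EuclideanSpace ℝ (Fin d) → ℝ := fun x => (inner ℝ (x - c) u : ℝ) with ht
  set T : ℝ := ∑ x ∈ L, t x ^ 2 with hT
  set V : EuclideanSpace ℝ (Fin d) := ∑ x ∈ L, t x • (x - c) with hV
  have hT0 : 0 ≤ T := Finset.sum_nonneg (fun _ _ => sq_nonneg _)
  have e1 : (inner ℝ V u : ℝ) = T := by
    rw [hV, sum_inner, hT]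
    refine Finset.sum_congr rfl (fun x _ => ?_)
    rw [real_inner_smul_left, pow_two]
  have e2 : ∀ x ∈ L, ∀ z ∈ L, (inner ℝ (x - c) (z - c) : ℝ) =
      (if x = z then (1 - α) else 0) - (1 - α) / L.card := by
    intro x hx z hz
    have a1 := clq_inner L hu hc x hx
    have a2 := clq_inner L hu hc z hz
    have a3 := clq_norm L hL hu hc
    rw [← real_inner_self_eq_norm_sq] at a3
    rw [← hcdef] at a1 a2 a3
    have a4 : (inner ℝ c z : ℝ) = α + (1 - α) / L.card := by rw [real_inner_comm]; exact a2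
    rw [inner_sub_left, inner_sub_right, inner_sub_right, a1, a4, a3]
    by_cases hxz : x = z
    · subst hxz
      rw [if_pos rfl, real_inner_self_eq_norm_sq, hu x hx]
      ring
    · rw [if_neg hxz, hc x hx z hz hxz]
      ring
  have e3 : ‖V‖ ^ 2 = (1 - α) * T - (1 - α) / L.card * (∑ x ∈ L, t x) ^ 2 := by
    rw [← real_inner_self_eq_norm_sq]
    have b1 : (inner ℝ V V : ℝ) = ∑ x ∈ L, ∑ z ∈ L, t x * t z *
        ((if x = z then (1 - α) else 0) - (1 - α) / L.card) := by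
      conv_lhs => rw [hV]
      rw [sum_inner]
      refine Finset.sum_congr rfl (fun x hx => ?_)
      rw [inner_sum]
      refine Finset.sum_congr rfl (fun z hz => ?_)
      rw [real_inner_smul_left, real_inner_smul_right, e2 x hx z hz]
      ring
    have b2 : ∀ x ∈ L, ∑ z ∈ L, t x * t z *
        ((if x = z then (1 - α) else 0) - (1 - α) / L.card) =
        (1 - α) * t x ^ 2 - (1 - α) / L.card * (t x * ∑ z ∈ L, t z) := by
      intro x hx
      have b3 : ∀ z ∈ L, t x * t z * ((if x = z then (1 - α) else 0) - (1 - α) / L.card) =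
          (if x = z then (1 - α) * t x * t z else 0) - (1 - α) / L.card * (t x * t z) := by
        intro z _
        split_ifs <;> ring
      rw [Finset.sum_congr rfl b3, Finset.sum_sub_distrib, Finset.sum_ite_eq L x, if_pos hx,
        ← Finset.mul_sum, ← Finset.mul_sum]
      ring
    rw [b1, Finset.sum_congr rfl b2, Finset.sum_sub_distrib, ← Finset.mul_sum, ← Finset.mul_sum,
      ← Finset.sum_mul]
    ring
  have e4 : ‖V‖ ^ 2 ≤ T := by
    rw [e3]
    have c1 : 0 ≤ (1 - α) / L.card * (∑ x ∈ L, t x) ^ 2 := by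
      have : 0 < 1 - α := by linarith
      positivity
    nlinarith
  have e5 : T ≤ ‖V‖ * ‖u‖ := by
    rw [← e1]
    exact real_inner_le_norm V u
  have e6 : T ^ 2 ≤ T * ‖u‖ ^ 2 := by
    calc T ^ 2 ≤ (‖V‖ * ‖u‖) ^ 2 := pow_le_pow_left₀ hT0 e5 2
      _ = ‖V‖ ^ 2 * ‖u‖ ^ 2 := by ring
      _ ≤ T * ‖u‖ ^ 2 := mul_le_mul_of_nonneg_right e4 (sq_nonneg _)
  rcases hT0.eq_or_lt with h | h
  · rw [← h]; positivity
  · have : T * T ≤ T * ‖u‖ ^ 2 := by rw [← pow_two]; exact e6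
    exact le_of_mul_le_mul_left this h

end Pool.Agent.Helper17.SCD
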