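import Mathlib
import Pool.Agent.Helper17.SCD.Clq
import Pool.Agent.Helper17.SCD.BigRow

set_option autoImplicit false

open scoped Classical

namespace Pool.Agent.Helper17.SCD

/-
SCD-BSum (0.8 h). Plan: N = P.card, b(x,J) = -<x, cen J>. B = bg LL K.
(1) sum_{x in P} sum_{J in B} b(x,J) = -<sum_{x in P} x, sum_{J in B} cen J> ≤ ‖X‖ ‖C‖, ‖X‖² ≤ sum |<x,y>| ≤ (2+4m) K N (gram_sum),
‖C‖² ≤ sum_J ‖cen J‖² + sum_J sum_{J' ≠ J} max(<cen J, cen J'>,0) ≤ #B (1 + 2m(1+2m)) (clq_norm or triangle inequality, big_row), #B K ≤ m N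
(num_big); so ‖X‖²‖C‖² ≤ (2+4m)(1+2m+4m²) m N².
(2) the terms with x in J: b(x,J) = -(α + (1-α)/|J|) ≥ -1 (clq_inner), their number is sum |J| ≤ m N (sum_lines):
sum_{x, J not∋ x} b ≤ ‖X‖‖C‖ + m N.
(3) negative parts for x not in J: max(-b,0) = max(<x, cen J>,0) ≤ (1/K) sum_{w in J} max(<x,w>,0); sum over J in B (every w in at most
m of them) and x: ≤ (m/K) sum_x (1 + 2mK) ≤ m(1+2m) N (pos_row).
(4) max(b,0) = b + max(-b,0). Constant C = sqrt((2+4m)(1+2m+4m²)m) + m + m(1+2m) + 1.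
-/
private theorem swap_deg {d : ℕ} {α : ℝ} {m : ℕ} (K : ℕ) {P : Finset (EuclideanSpace ℝ (Fin d))}
    {LL : Finset (Finset (EuclideanSpace ℝ (Fin d)))} (h : LineSys α m P LL)
    (f : EuclideanSpace ℝ (Fin d) → ℝ) (hf : ∀ w, 0 ≤ f w) :
    ∑ J ∈ bg LL K, ∑ w ∈ J, f w ≤ m * ∑ w ∈ P, f w := by
  have h1 : ∀ J ∈ bg LL K, ∑ w ∈ J, f w = ∑ w ∈ P, if w ∈ J then f w else 0 := by
    intro J hJ
    have hJL : J ∈ LL := (Finset.mem_filter.mp hJ).1
    rw [← Finset.sum_filter]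
    congr 1
    ext w
    simp only [Finset.mem_filter]
    exact ⟨fun hw => ⟨h.sub J hJL hw, hw⟩, fun hw => hw.2⟩
  rw [Finset.sum_congr rfl h1, Finset.sum_comm, Finset.mul_sum]
  apply Finset.sum_le_sum
  intro w hw
  rw [← Finset.sum_filter, Finset.sum_const, nsmul_eq_mul]
  apply mul_le_mul_of_nonneg_right _ (hf w)
  have h2 : ((bg LL K).filter (fun L => w ∈ L)).card ≤ (LL.filter (fun L => w ∈ L)).card := by
    apply Finset.card_le_card
    intro L hL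
    rw [Finset.mem_filter] at hL ⊢
    exact ⟨(Finset.mem_filter.mp hL.1).1, hL.2⟩
  exact_mod_cast h2.trans (h.deg w hw)

private theorem cen_pos1 {d : ℕ} {K : ℕ} (hK : 1 ≤ K) (J : Finset (EuclideanSpace ℝ (Fin d)))
    (hJ : K ≤ J.card) (x : EuclideanSpace ℝ (Fin d)) :
    max (inner ℝ x (cen (fun y => y) J) : ℝ) 0 ≤ (K : ℝ)⁻¹ * ∑ w ∈ J, max (inner ℝ x w : ℝ) 0 := by
  have hK0 : (0 : ℝ) < K := by exact_mod_cast hK
  have hJ0 : (0 : ℝ) < J.card := by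
    have : 0 < J.card := by omega
    exact_mod_cast this
  have hs : 0 ≤ ∑ w ∈ J, max (inner ℝ x w : ℝ) 0 := Finset.sum_nonneg (fun w _ => le_max_right _ _)
  apply max_le
  · unfold cen
    rw [inner_smul_right, inner_sum]
    have h1 : ∑ w ∈ J, (inner ℝ x w : ℝ) ≤ ∑ w ∈ J, max (inner ℝ x w : ℝ) 0 :=
      Finset.sum_le_sum (fun w _ => le_max_left _ _)
    calc (J.card : ℝ)⁻¹ * ∑ w ∈ J, (inner ℝ x w : ℝ)
        ≤ (J.card : ℝ)⁻¹ * ∑ w ∈ J, max (inner ℝ x w : ℝ) 0 :=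
          mul_le_mul_of_nonneg_left h1 (inv_nonneg.mpr hJ0.le)
      _ ≤ (K : ℝ)⁻¹ * ∑ w ∈ J, max (inner ℝ x w : ℝ) 0 := by
          apply mul_le_mul_of_nonneg_right _ hs
          apply inv_anti₀ hK0
          exact_mod_cast hJ
  · exact mul_nonneg (inv_nonneg.mpr hK0.le) hs

private theorem cen_norm1 {d : ℕ} (J : Finset (EuclideanSpace ℝ (Fin d)))
    (hu : ∀ x ∈ J, ‖x‖ = 1) : ‖cen (fun y => y) J‖ ≤ 1 := by
  unfold cen
  rw [norm_smul]
  have h1 : ‖∑ y ∈ J, y‖ ≤ J.card := by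
    refine (norm_sum_le _ _).trans ?_
    rw [Finset.sum_congr rfl hu]
    simp
  rw [norm_inv, Real.norm_natCast]
  rcases Nat.eq_zero_or_pos J.card with h0 | h0
  · rw [h0]; simp
  · have : (0 : ℝ) < J.card := by exact_mod_cast h0
    calc (J.card : ℝ)⁻¹ * ‖∑ y ∈ J, y‖ ≤ (J.card : ℝ)⁻¹ * J.card :=
          mul_le_mul_of_nonneg_left h1 (inv_nonneg.mpr this.le)
      _ = 1 := inv_mul_cancel₀ this.ne'

private theorem c_norm {d : ℕ} {α : ℝ} {m K : ℕ} {P : Finset (EuclideanSpace ℝ (Fin d))}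
    {LL : Finset (Finset (EuclideanSpace ℝ (Fin d)))} (h0 : 0 < α) (h1 : α < 1) (hK : 1 ≤ K)
    (h : LineSys α m P LL) (hlt : ∀ L ∈ LL, L.card < 2 * K) :
    ‖∑ J ∈ bg LL K, cen (fun y => y) J‖ ^ 2 ≤ (bg LL K).card * (1 + 2 * m * (1 + 2 * m)) := by
  rw [← real_inner_self_eq_norm_sq, sum_inner]
  have hrow : ∀ J ∈ bg LL K, (inner ℝ (cen (fun y => y) J) (∑ J' ∈ bg LL K, cen (fun y => y) J') : ℝ) ≤
      1 + 2 * m * (1 + 2 * m) := by
    intro J hJ
    have hJL : J ∈ LL := (Finset.mem_filter.mp hJ).1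
    rw [inner_sum, ← Finset.add_sum_erase _ _ hJ]
    apply add_le_add
    · rw [real_inner_self_eq_norm_sq]
      have hn := cen_norm1 J (fun x hx => h.unit x (h.sub J hJL hx))
      have hn0 := norm_nonneg (cen (fun y => y) J)
      nlinarith
    · refine le_trans ?_ (big_row h0 h1 hK h hlt J hJ)
      exact Finset.sum_le_sum (fun J' _ => le_max_left _ _)
  refine (Finset.sum_le_sum hrow).trans ?_
  rw [Finset.sum_const, nsmul_eq_mul]

private theorem x_norm {d : ℕ} {α : ℝ} {m K : ℕ} {P : Finset (EuclideanSpace ℝ (Fin d))}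
    {LL : Finset (Finset (EuclideanSpace ℝ (Fin d)))} (h0 : 0 < α) (h1 : α < 1) (hK : 1 ≤ K)
    (h : LineSys α m P LL) (hlt : ∀ L ∈ LL, L.card < 2 * K) :
    ‖∑ x ∈ P, x‖ ^ 2 ≤ (2 + 4 * m) * K * P.card := by
  rw [← real_inner_self_eq_norm_sq, sum_inner]
  refine le_trans ?_ (gram_sum h0 h1 hK h hlt)
  apply Finset.sum_le_sum
  intro x _
  rw [inner_sum]
  exact Finset.sum_le_sum (fun y _ => le_abs_self _)

private theorem le_of_sq_le_sq_aux {a b : ℝ} (h : a ^ 2 ≤ b ^ 2) (hb : 0 ≤ b) : a ≤ b :=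
  le_trans (le_abs_self a) (abs_le_of_sq_le_sq h hb)

private theorem xc_le {d : ℕ} {α : ℝ} {m K : ℕ} {P : Finset (EuclideanSpace ℝ (Fin d))}
    {LL : Finset (Finset (EuclideanSpace ℝ (Fin d)))} (h0 : 0 < α) (h1 : α < 1) (hK : 1 ≤ K)
    (h : LineSys α m P LL) (hlt : ∀ L ∈ LL, L.card < 2 * K) :
    ‖∑ x ∈ P, x‖ * ‖∑ J ∈ bg LL K, cen (fun y => y) J‖ ≤
      Real.sqrt ((2 + 4 * m) * (1 + 2 * m * (1 + 2 * m)) * m) * P.card := by
  have hx := x_norm h0 h1 hK h hlt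
  have hc := c_norm h0 h1 hK h hlt
  have hn : (K : ℝ) * (bg LL K).card ≤ m * P.card := by exact_mod_cast num_big h (K := K)
  have hm0 : (0 : ℝ) ≤ m := Nat.cast_nonneg m
  have hP0 : (0 : ℝ) ≤ P.card := Nat.cast_nonneg _
  have hA : (0 : ℝ) ≤ (2 + 4 * m) * (1 + 2 * m * (1 + 2 * m)) := by positivity
  refine le_of_sq_le_sq_aux ?_ (by positivity)
  have hsq : (Real.sqrt ((2 + 4 * m) * (1 + 2 * m * (1 + 2 * m)) * m) * P.card) ^ 2 =
      (2 + 4 * m) * (1 + 2 * m * (1 + 2 * m)) * m * (P.card : ℝ) ^ 2 := by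
    rw [mul_pow, Real.sq_sqrt (by positivity)]
  rw [hsq, mul_pow]
  calc ‖∑ x ∈ P, x‖ ^ 2 * ‖∑ J ∈ bg LL K, cen (fun y => y) J‖ ^ 2
      ≤ ((2 + 4 * m) * K * P.card) * ((bg LL K).card * (1 + 2 * m * (1 + 2 * m))) :=
        mul_le_mul hx hc (sq_nonneg _) (by positivity)
    _ = (2 + 4 * m) * (1 + 2 * m * (1 + 2 * m)) * P.card * (K * (bg LL K).card) := by ring
    _ ≤ (2 + 4 * m) * (1 + 2 * m * (1 + 2 * m)) * P.card * (m * P.card) :=
        mul_le_mul_of_nonneg_left hn (by positivity)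
    _ = (2 + 4 * m) * (1 + 2 * m * (1 + 2 * m)) * m * (P.card : ℝ) ^ 2 := by ring

private theorem pos_part {d : ℕ} {α : ℝ} {m K : ℕ} {P : Finset (EuclideanSpace ℝ (Fin d))}
    {LL : Finset (Finset (EuclideanSpace ℝ (Fin d)))} (h0 : 0 < α) (h1 : α < 1) (hK : 1 ≤ K)
    (h : LineSys α m P LL) (hlt : ∀ L ∈ LL, L.card < 2 * K) (x : EuclideanSpace ℝ (Fin d)) (hx : x ∈ P) :
    ∑ J ∈ bg LL K, max (inner ℝ x (cen (fun y => y) J) : ℝ) 0 ≤ m * (1 + 2 * m) := by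
  have hK0 : (0 : ℝ) < K := by exact_mod_cast hK
  have hm0 : (0 : ℝ) ≤ m := Nat.cast_nonneg m
  calc ∑ J ∈ bg LL K, max (inner ℝ x (cen (fun y => y) J) : ℝ) 0
      ≤ ∑ J ∈ bg LL K, (K : ℝ)⁻¹ * ∑ w ∈ J, max (inner ℝ x w : ℝ) 0 := by
        apply Finset.sum_le_sum
        intro J hJ
        exact cen_pos1 hK J (Finset.mem_filter.mp hJ).2 x
    _ = (K : ℝ)⁻¹ * ∑ J ∈ bg LL K, ∑ w ∈ J, max (inner ℝ x w : ℝ) 0 := by rw [Finset.mul_sum]
    _ ≤ (K : ℝ)⁻¹ * (m * ∑ w ∈ P, max (inner ℝ x w : ℝ) 0) := by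
        apply mul_le_mul_of_nonneg_left _ (inv_nonneg.mpr hK0.le)
        exact swap_deg K h _ (fun w => le_max_right _ _)
    _ ≤ (K : ℝ)⁻¹ * (m * (1 + 2 * m * K)) := by
        apply mul_le_mul_of_nonneg_left _ (inv_nonneg.mpr hK0.le)
        exact mul_le_mul_of_nonneg_left (pos_row h0 h1 hK h hlt x hx) hm0
    _ ≤ m * (1 + 2 * m) := by
        rw [inv_mul_le_iff₀ hK0]
        have hK1 : (1 : ℝ) ≤ K := by exact_mod_cast hK
        nlinarith [mul_nonneg hm0 (sub_nonneg.mpr hK1)]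

theorem b_sum (m : ℕ) : ∃ C : ℝ, 0 < C ∧ ∀ {d : ℕ} {α : ℝ} {K : ℕ} {P : Finset (EuclideanSpace ℝ (Fin d))}
    {LL : Finset (Finset (EuclideanSpace ℝ (Fin d)))}, 0 < α → α < 1 → 1 ≤ K →
    LineSys α m P LL → (∀ L ∈ LL, L.card < 2 * K) →
    ∑ x ∈ P, ∑ J ∈ (bg LL K).filter (fun J => x ∉ J), max (-(inner ℝ x (cen (fun y => y) J) : ℝ)) 0 ≤
      C * P.card := by
  refine ⟨Real.sqrt ((2 + 4 * m) * (1 + 2 * m * (1 + 2 * m)) * m) + m + m * (1 + 2 * m) + 1, by positivity, ?_⟩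
  intro d α K P LL h0 h1 hK h hlt
  have hP0 : (0 : ℝ) ≤ P.card := Nat.cast_nonneg _
  -- total
  have hT : ∑ x ∈ P, ∑ J ∈ bg LL K, (-(inner ℝ x (cen (fun y => y) J) : ℝ)) ≤
      Real.sqrt ((2 + 4 * m) * (1 + 2 * m * (1 + 2 * m)) * m) * P.card := by
    refine le_trans ?_ (xc_le h0 h1 hK h hlt)
    have e : ∑ x ∈ P, ∑ J ∈ bg LL K, (-(inner ℝ x (cen (fun y => y) J) : ℝ)) =
        -(inner ℝ (∑ x ∈ P, x) (∑ J ∈ bg LL K, cen (fun y => y) J) : ℝ) := by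
      rw [sum_inner, ← Finset.sum_neg_distrib]
      apply Finset.sum_congr rfl
      intro x _
      rw [inner_sum, Finset.sum_neg_distrib]
    rw [e]
    have := abs_real_inner_le_norm (∑ x ∈ P, x) (∑ J ∈ bg LL K, cen (fun y => y) J)
    exact (neg_le_abs _).trans this
  -- terms with x in J
  have hin : -((m : ℝ) * P.card) ≤ ∑ x ∈ P, ∑ J ∈ (bg LL K).filter (fun J => x ∈ J),
      (-(inner ℝ x (cen (fun y => y) J) : ℝ)) := by
    have hle : ∀ x ∈ P, -(((bg LL K).filter (fun J => x ∈ J)).card : ℝ) ≤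
        ∑ J ∈ (bg LL K).filter (fun J => x ∈ J), (-(inner ℝ x (cen (fun y => y) J) : ℝ)) := by
      intro x hx
      have : ∑ J ∈ (bg LL K).filter (fun J => x ∈ J), (-1 : ℝ) ≤
          ∑ J ∈ (bg LL K).filter (fun J => x ∈ J), (-(inner ℝ x (cen (fun y => y) J) : ℝ)) := by
        apply Finset.sum_le_sum
        intro J hJ
        have hJ1 := (Finset.mem_filter.mp hJ).1
        have hJL : J ∈ LL := (Finset.mem_filter.mp hJ1).1
        have hn := cen_norm1 J (fun x hx => h.unit x (h.sub J hJL hx))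
        have hi := abs_real_inner_le_norm x (cen (fun y => y) J)
        rw [h.unit x hx, one_mul] at hi
        have := le_abs_self (inner ℝ x (cen (fun y => y) J) : ℝ)
        linarith
      rw [Finset.sum_const, nsmul_eq_mul] at this
      linarith
    refine le_trans ?_ (Finset.sum_le_sum hle)
    rw [Finset.sum_neg_distrib]
    apply neg_le_neg
    have hd : ∀ x ∈ P, ((((bg LL K).filter (fun J => x ∈ J)).card : ℕ) : ℝ) ≤ m := by
      intro x hx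
      have h2 : ((bg LL K).filter (fun L => x ∈ L)).card ≤ (LL.filter (fun L => x ∈ L)).card := by
        apply Finset.card_le_card
        intro L hL
        rw [Finset.mem_filter] at hL ⊢
        exact ⟨(Finset.mem_filter.mp hL.1).1, hL.2⟩
      exact_mod_cast h2.trans (h.deg x hx)
    refine (Finset.sum_le_sum hd).trans ?_
    rw [Finset.sum_const, nsmul_eq_mul, mul_comm]
  -- split
  have hsplit : ∑ x ∈ P, ∑ J ∈ (bg LL K).filter (fun J => x ∉ J), (-(inner ℝ x (cen (fun y => y) J) : ℝ)) =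
      ∑ x ∈ P, ∑ J ∈ bg LL K, (-(inner ℝ x (cen (fun y => y) J) : ℝ)) -
      ∑ x ∈ P, ∑ J ∈ (bg LL K).filter (fun J => x ∈ J), (-(inner ℝ x (cen (fun y => y) J) : ℝ)) := by
    rw [← Finset.sum_sub_distrib]
    apply Finset.sum_congr rfl
    intro x _
    rw [← Finset.sum_filter_add_sum_filter_not (bg LL K) (fun J => x ∈ J)]
    ring
  -- negative parts
  have hneg : ∑ x ∈ P, ∑ J ∈ (bg LL K).filter (fun J => x ∉ J), max (inner ℝ x (cen (fun y => y) J) : ℝ) 0 ≤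
      m * (1 + 2 * m) * P.card := by
    have hle : ∀ x ∈ P, ∑ J ∈ (bg LL K).filter (fun J => x ∉ J), max (inner ℝ x (cen (fun y => y) J) : ℝ) 0 ≤
        m * (1 + 2 * m) := by
      intro x hx
      refine le_trans ?_ (pos_part h0 h1 hK h hlt x hx)
      exact Finset.sum_le_sum_of_subset_of_nonneg (Finset.filter_subset _ _) (fun J _ _ => le_max_right _ _)
    refine (Finset.sum_le_sum hle).trans ?_
    rw [Finset.sum_const, nsmul_eq_mul, mul_comm]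
  have hmax : ∀ a : ℝ, max (-a) 0 = -a + max a 0 := by
    intro a
    rcases le_total a 0 with ha | ha
    · rw [max_eq_left (by linarith), max_eq_right ha]; ring
    · rw [max_eq_right (by linarith), max_eq_left ha]; ring
  have hfin : ∑ x ∈ P, ∑ J ∈ (bg LL K).filter (fun J => x ∉ J), max (-(inner ℝ x (cen (fun y => y) J) : ℝ)) 0 =
      ∑ x ∈ P, ∑ J ∈ (bg LL K).filter (fun J => x ∉ J), (-(inner ℝ x (cen (fun y => y) J) : ℝ)) +
      ∑ x ∈ P, ∑ J ∈ (bg LL K).filter (fun J => x ∉ J), max (inner ℝ x (cen (fun y => y) J) : ℝ) 0 := by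
    rw [← Finset.sum_add_distrib]
    apply Finset.sum_congr rfl
    intro x _
    rw [← Finset.sum_add_distrib]
    exact Finset.sum_congr rfl (fun J _ => hmax _)
  rw [hfin, hsplit]
  nlinarith

end Pool.Agent.Helper17.SCD
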