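import Mathlib
import Pool.Agent.Helper17.SCD.Clq
import Pool.Agent.Helper17.SCD.BigRow

set_option autoImplicit false

open scoped Classical

namespace Pool.Agent.Helper17.SCD

/-
SCD-Contr (0.7 h). Plan.
other: for L in LL, u: sum_{x in L} (sum_{J in bg, x in J, J ≠ L} <cen J, u>)² ≤ m sum_{x in L} sum_{J in bg, x in J, J ≠ L} <cen J,u>²
(Cauchy-Schwarz, at most m lines through x) ≤ m sum_{J in bg} <cen J, u>² (every J ≠ L contains at most one x in L by h.meet) ≤ m c3 ‖u‖²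
(bessel).
contr_big: L in bg: rr x = (x - cen L) - sum_{J in bg, x in J, J ≠ L} cen J, (a-b)² ≤ 2a² + 2b², clq_contr: ≤ 2‖u‖² + 2 m c3 ‖u‖² = c4 ‖u‖².
contr_small: L not in bg (L.card < K): f(x) = <rr x, u>, mean f̄ = <cen rr L, u>; sum (f - f̄)² ≤ sum (f - c)² for every constant c,
take c = <cen id L, u>: f - c = <x - cen L, u> - <s_x, u>, s_x = sum_{J in bg, x in J} cen J (J ≠ L automatically); same estimate.
-/
private theorem sq2 (a b : ℝ) : (a - b) ^ 2 ≤ 2 * a ^ 2 + 2 * b ^ 2 := by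
  nlinarith [sq_nonneg (a + b)]

private theorem mean_le {ι : Type*} (s : Finset ι) (hs : 0 < s.card) (f : ι → ℝ) (c : ℝ) :
    ∑ x ∈ s, (f x - (s.card : ℝ)⁻¹ * ∑ y ∈ s, f y) ^ 2 ≤ ∑ x ∈ s, (f x - c) ^ 2 := by
  have hk : (0 : ℝ) < s.card := by exact_mod_cast hs
  have key : ∀ a : ℝ, ∑ x ∈ s, (f x - a) ^ 2 =
      ∑ x ∈ s, f x ^ 2 - 2 * a * ∑ x ∈ s, f x + s.card * a ^ 2 := by
    intro a
    have : ∀ x ∈ s, (f x - a) ^ 2 = f x ^ 2 - 2 * a * f x + a ^ 2 := by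
      intro x _
      ring
    rw [Finset.sum_congr rfl this, Finset.sum_add_distrib, Finset.sum_sub_distrib,
      ← Finset.mul_sum, Finset.sum_const, nsmul_eq_mul]
  rw [key, key]
  set T := ∑ x ∈ s, f x with hT
  have h1 : (s.card : ℝ) * ((s.card : ℝ)⁻¹ * T) ^ 2 = (s.card : ℝ)⁻¹ * T ^ 2 := by
    field_simp
  have h2 : 2 * ((s.card : ℝ)⁻¹ * T) * T = 2 * ((s.card : ℝ)⁻¹ * T ^ 2) := by ring
  rw [h1, h2]
  have h3 : 0 ≤ (s.card : ℝ) * (c - (s.card : ℝ)⁻¹ * T) ^ 2 :=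
    mul_nonneg hk.le (sq_nonneg _)
  have h4 : (s.card : ℝ) * (c - (s.card : ℝ)⁻¹ * T) ^ 2 =
      s.card * c ^ 2 - 2 * c * T + (s.card : ℝ)⁻¹ * T ^ 2 := by
    field_simp
    ring
  linarith

theorem other_sum {d : ℕ} {α : ℝ} {m K : ℕ} {P : Finset (EuclideanSpace ℝ (Fin d))}
    {LL : Finset (Finset (EuclideanSpace ℝ (Fin d)))} (h0 : 0 < α) (h1 : α < 1) (hK : 1 ≤ K)
    (h : LineSys α m P LL) (hlt : ∀ L ∈ LL, L.card < 2 * K) (L : Finset (EuclideanSpace ℝ (Fin d)))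
    (hL : L ∈ LL) (u : EuclideanSpace ℝ (Fin d)) :
    ∑ x ∈ L, (inner ℝ (∑ J ∈ (bg LL K).filter (fun J => x ∈ J ∧ J ≠ L), cen (fun y => y) J) u : ℝ) ^ 2 ≤
      m * c3 m * ‖u‖ ^ 2 := by
  have hLP := h.sub L hL
  have step1 : ∀ x ∈ L, (inner ℝ (∑ J ∈ (bg LL K).filter (fun J => x ∈ J ∧ J ≠ L),
      cen (fun y => y) J) u : ℝ) ^ 2 ≤
      m * ∑ J ∈ (bg LL K).filter (fun J => x ∈ J ∧ J ≠ L),
        (inner ℝ (cen (fun y => y) J) u : ℝ) ^ 2 := by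
    intro x hx
    rw [sum_inner]
    have h1 := sq_sum_le_card_mul_sum_sq (s := (bg LL K).filter (fun J => x ∈ J ∧ J ≠ L))
      (f := fun J => (inner ℝ (cen (fun y => y) J) u : ℝ))
    have h2 : ((bg LL K).filter (fun J => x ∈ J ∧ J ≠ L)).card ≤ m := by
      refine le_trans (Finset.card_le_card ?_) (h.deg x (hLP hx))
      intro J hJ
      rw [Finset.mem_filter] at hJ ⊢
      exact ⟨(Finset.mem_filter.mp hJ.1).1, hJ.2.1⟩
    refine h1.trans ?_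
    apply mul_le_mul_of_nonneg_right
    · exact_mod_cast h2
    · exact Finset.sum_nonneg (fun _ _ => sq_nonneg _)
  have step2 : ∑ x ∈ L, ∑ J ∈ (bg LL K).filter (fun J => x ∈ J ∧ J ≠ L),
        (inner ℝ (cen (fun y => y) J) u : ℝ) ^ 2 ≤
      ∑ J ∈ bg LL K, (inner ℝ (cen (fun y => y) J) u : ℝ) ^ 2 := by
    have e : ∑ x ∈ L, ∑ J ∈ (bg LL K).filter (fun J => x ∈ J ∧ J ≠ L),
        (inner ℝ (cen (fun y => y) J) u : ℝ) ^ 2 =
        ∑ J ∈ bg LL K, ∑ x ∈ L.filter (fun x => x ∈ J ∧ J ≠ L),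
          (inner ℝ (cen (fun y => y) J) u : ℝ) ^ 2 := by
      simp only [Finset.sum_filter]
      rw [Finset.sum_comm]
    rw [e]
    apply Finset.sum_le_sum
    intro J hJ
    rw [Finset.sum_const, nsmul_eq_mul]
    have hc : (L.filter (fun x => x ∈ J ∧ J ≠ L)).card ≤ 1 := by
      by_cases hJL : J = L
      · have : L.filter (fun x => x ∈ J ∧ J ≠ L) = ∅ := by
          apply Finset.filter_false_of_mem
          intro x _ hx
          exact hx.2 hJL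
        rw [this]
        simp
      · refine le_trans (Finset.card_le_card ?_)
          (h.meet L hL J (Finset.mem_filter.mp hJ).1 (fun e => hJL e.symm))
        intro x hx
        rw [Finset.mem_filter] at hx
        exact Finset.mem_inter.mpr ⟨hx.1, hx.2.1⟩
    have hc' : ((L.filter (fun x => x ∈ J ∧ J ≠ L)).card : ℝ) ≤ 1 := by exact_mod_cast hc
    nlinarith [sq_nonneg (inner ℝ (cen (fun y => y) J) u : ℝ)]
  have step3 := bessel h0 h1 hK h hlt u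
  calc ∑ x ∈ L, (inner ℝ (∑ J ∈ (bg LL K).filter (fun J => x ∈ J ∧ J ≠ L),
      cen (fun y => y) J) u : ℝ) ^ 2
      ≤ ∑ x ∈ L, m * ∑ J ∈ (bg LL K).filter (fun J => x ∈ J ∧ J ≠ L),
        (inner ℝ (cen (fun y => y) J) u : ℝ) ^ 2 := Finset.sum_le_sum step1
    _ = m * ∑ x ∈ L, ∑ J ∈ (bg LL K).filter (fun J => x ∈ J ∧ J ≠ L),
        (inner ℝ (cen (fun y => y) J) u : ℝ) ^ 2 := by rw [Finset.mul_sum]
    _ ≤ m * (c3 m * ‖u‖ ^ 2) :=
        mul_le_mul_of_nonneg_left (step2.trans step3) (Nat.cast_nonneg m)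
    _ = m * c3 m * ‖u‖ ^ 2 := by ring

theorem contr_big {d : ℕ} {α : ℝ} {m K : ℕ} {P : Finset (EuclideanSpace ℝ (Fin d))}
    {LL : Finset (Finset (EuclideanSpace ℝ (Fin d)))} (h0 : 0 < α) (h1 : α < 1) (hK : 1 ≤ K)
    (h : LineSys α m P LL) (hlt : ∀ L ∈ LL, L.card < 2 * K) (L : Finset (EuclideanSpace ℝ (Fin d)))
    (hL : L ∈ bg LL K) (u : EuclideanSpace ℝ (Fin d)) :
    ∑ x ∈ L, (inner ℝ (rr LL K x) u : ℝ) ^ 2 ≤ c4 m * ‖u‖ ^ 2 := by
  have hLL : L ∈ LL := (Finset.mem_filter.mp hL).1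
  have hLP := h.sub L hLL
  have hA := clq_contr h0 h1 L (fun x hx => h.unit x (hLP hx)) (h.adj L hLL) u
  have hB := other_sum h0 h1 hK h hlt L hLL u
  have hx : ∀ x ∈ L, (inner ℝ (rr LL K x) u : ℝ) ^ 2 ≤
      2 * (inner ℝ (x - cen (fun y => y) L) u : ℝ) ^ 2 +
      2 * (inner ℝ (∑ J ∈ (bg LL K).filter (fun J => x ∈ J ∧ J ≠ L),
        cen (fun y => y) J) u : ℝ) ^ 2 := by
    intro x hx
    have e1 : (bg LL K).filter (fun J => x ∈ J) =
        insert L ((bg LL K).filter (fun J => x ∈ J ∧ J ≠ L)) := by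
      ext J
      simp only [Finset.mem_filter, Finset.mem_insert]
      constructor
      · rintro ⟨a, b⟩
        by_cases hJ : J = L
        · exact Or.inl hJ
        · exact Or.inr ⟨a, b, hJ⟩
      · rintro (rfl | ⟨a, b, _⟩)
        · exact ⟨hL, hx⟩
        · exact ⟨a, b⟩
    have e2 : rr LL K x = (x - cen (fun y => y) L) -
        ∑ J ∈ (bg LL K).filter (fun J => x ∈ J ∧ J ≠ L), cen (fun y => y) J := by
      unfold rr sb
      rw [e1, Finset.sum_insert (by simp)]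
      abel
    rw [e2, inner_sub_left]
    exact sq2 _ _
  calc ∑ x ∈ L, (inner ℝ (rr LL K x) u : ℝ) ^ 2
      ≤ ∑ x ∈ L, (2 * (inner ℝ (x - cen (fun y => y) L) u : ℝ) ^ 2 +
      2 * (inner ℝ (∑ J ∈ (bg LL K).filter (fun J => x ∈ J ∧ J ≠ L),
        cen (fun y => y) J) u : ℝ) ^ 2) := Finset.sum_le_sum hx
    _ = 2 * ∑ x ∈ L, (inner ℝ (x - cen (fun y => y) L) u : ℝ) ^ 2 +
      2 * ∑ x ∈ L, (inner ℝ (∑ J ∈ (bg LL K).filter (fun J => x ∈ J ∧ J ≠ L),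
        cen (fun y => y) J) u : ℝ) ^ 2 := by
        rw [Finset.sum_add_distrib, Finset.mul_sum, Finset.mul_sum]
    _ ≤ 2 * ‖u‖ ^ 2 + 2 * (m * c3 m * ‖u‖ ^ 2) := by linarith
    _ = c4 m * ‖u‖ ^ 2 := by unfold c4; ring

theorem contr_small {d : ℕ} {α : ℝ} {m K : ℕ} {P : Finset (EuclideanSpace ℝ (Fin d))}
    {LL : Finset (Finset (EuclideanSpace ℝ (Fin d)))} (h0 : 0 < α) (h1 : α < 1) (hK : 1 ≤ K)
    (h : LineSys α m P LL) (hlt : ∀ L ∈ LL, L.card < 2 * K) (L : Finset (EuclideanSpace ℝ (Fin d)))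
    (hL : L ∈ LL) (hLK : L.card < K) (u : EuclideanSpace ℝ (Fin d)) :
    ∑ x ∈ L, (inner ℝ (rr LL K x - cen (rr LL K) L) u : ℝ) ^ 2 ≤ c4 m * ‖u‖ ^ 2 := by
  have hLP := h.sub L hL
  have hcard : 0 < L.card := by have := h.two L hL; omega
  have hA := clq_contr h0 h1 L (fun x hx => h.unit x (hLP hx)) (h.adj L hL) u
  have hB := other_sum h0 h1 hK h hlt L hL u
  have hx : ∀ x ∈ L, ((inner ℝ (rr LL K x) u : ℝ) - inner ℝ (cen (fun y => y) L) u) ^ 2 ≤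
      2 * (inner ℝ (x - cen (fun y => y) L) u : ℝ) ^ 2 +
      2 * (inner ℝ (∑ J ∈ (bg LL K).filter (fun J => x ∈ J ∧ J ≠ L),
        cen (fun y => y) J) u : ℝ) ^ 2 := by
    intro x hx
    have e1 : (bg LL K).filter (fun J => x ∈ J) =
        (bg LL K).filter (fun J => x ∈ J ∧ J ≠ L) := by
      apply Finset.filter_congr
      intro J hJ
      constructor
      · intro b
        refine ⟨b, ?_⟩
        rintro rfl
        have := (Finset.mem_filter.mp hJ).2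
        omega
      · exact fun b => b.1
    have e2 : (inner ℝ (rr LL K x) u : ℝ) - inner ℝ (cen (fun y => y) L) u =
        inner ℝ (x - cen (fun y => y) L) u -
        inner ℝ (∑ J ∈ (bg LL K).filter (fun J => x ∈ J ∧ J ≠ L), cen (fun y => y) J) u := by
      unfold rr sb
      rw [e1, inner_sub_left, inner_sub_left]
      ring
    rw [e2]
    exact sq2 _ _
  have hm : (inner ℝ (cen (rr LL K) L) u : ℝ) =
      (L.card : ℝ)⁻¹ * ∑ x ∈ L, (inner ℝ (rr LL K x) u : ℝ) := by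
    unfold cen
    rw [real_inner_smul_left, sum_inner]
  calc ∑ x ∈ L, (inner ℝ (rr LL K x - cen (rr LL K) L) u : ℝ) ^ 2
      = ∑ x ∈ L, ((inner ℝ (rr LL K x) u : ℝ) -
          (L.card : ℝ)⁻¹ * ∑ y ∈ L, (inner ℝ (rr LL K y) u : ℝ)) ^ 2 := by
        apply Finset.sum_congr rfl
        intro x _
        rw [inner_sub_left, hm]
    _ ≤ ∑ x ∈ L, ((inner ℝ (rr LL K x) u : ℝ) - inner ℝ (cen (fun y => y) L) u) ^ 2 :=
        mean_le L hcard _ _
    _ ≤ ∑ x ∈ L, (2 * (inner ℝ (x - cen (fun y => y) L) u : ℝ) ^ 2 +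
      2 * (inner ℝ (∑ J ∈ (bg LL K).filter (fun J => x ∈ J ∧ J ≠ L),
        cen (fun y => y) J) u : ℝ) ^ 2) := Finset.sum_le_sum hx
    _ = 2 * ∑ x ∈ L, (inner ℝ (x - cen (fun y => y) L) u : ℝ) ^ 2 +
      2 * ∑ x ∈ L, (inner ℝ (∑ J ∈ (bg LL K).filter (fun J => x ∈ J ∧ J ≠ L),
        cen (fun y => y) J) u : ℝ) ^ 2 := by
        rw [Finset.sum_add_distrib, Finset.mul_sum, Finset.mul_sum]
    _ ≤ 2 * ‖u‖ ^ 2 + 2 * (m * c3 m * ‖u‖ ^ 2) := by linarith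
    _ = c4 m * ‖u‖ ^ 2 := by unfold c4; ring

end Pool.Agent.Helper17.SCD
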