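import Mathlib
import Pool.Agent.Helper17.SCD.Defs

set_option autoImplicit false

open scoped Classical

namespace Pool.Agent.Helper17.SCD

/-
SCD-Norms (0.4 h, Mathlib only). Triangle inequality; the lines are nonempty subsets of P (h.two, h.sub), at most m of them pass
through x (h.deg; subfamilies have at most as many).
rr_center: the average of w - (constant) : (1/k) sum_{x in L} (w x - cen w L) = 0, i.e. sum_{x in L} (w x - cen w L) = 0.
-/
theorem cen_norm {d : ℕ} (w : EuclideanSpace ℝ (Fin d) → EuclideanSpace ℝ (Fin d)) (B : ℝ) (hB : 0 ≤ B)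
    (L : Finset (EuclideanSpace ℝ (Fin d))) (hw : ∀ x ∈ L, ‖w x‖ ≤ B) : ‖cen w L‖ ≤ B := by
  unfold cen
  rw [norm_smul, norm_inv, Real.norm_of_nonneg (Nat.cast_nonneg L.card)]
  rcases Nat.eq_zero_or_pos L.card with h0 | h0
  · rw [h0]; simpa using hB
  have h1 : ‖∑ y ∈ L, w y‖ ≤ L.card * B := by
    refine (norm_sum_le _ _).trans ((Finset.sum_le_sum hw).trans (le_of_eq ?_))
    rw [Finset.sum_const, nsmul_eq_mul]
  have h2 : (0 : ℝ) < L.card := by exact_mod_cast h0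
  rw [inv_mul_le_iff₀ h2]
  exact h1

private lemma sum_cen_norm {d : ℕ} {α : ℝ} {m : ℕ} {P : Finset (EuclideanSpace ℝ (Fin d))}
    {LL : Finset (Finset (EuclideanSpace ℝ (Fin d)))} (h : LineSys α m P LL)
    (F : Finset (Finset (EuclideanSpace ℝ (Fin d)))) (hF : F ⊆ LL)
    (w : EuclideanSpace ℝ (Fin d) → EuclideanSpace ℝ (Fin d)) (B : ℝ) (hB : 0 ≤ B)
    (hw : ∀ y ∈ P, ‖w y‖ ≤ B)
    (x : EuclideanSpace ℝ (Fin d)) (hx : x ∈ P) :
    ‖∑ J ∈ F.filter (fun L => x ∈ L), cen w J‖ ≤ m * B := by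
  have h1 : ∀ J ∈ F.filter (fun L => x ∈ L), ‖cen w J‖ ≤ B := by
    intro J hJ
    have hJ' := hF (Finset.mem_filter.1 hJ).1
    exact cen_norm w B hB J fun y hy => hw y (h.sub J hJ' hy)
  refine (norm_sum_le _ _).trans ((Finset.sum_le_sum h1).trans ?_)
  rw [Finset.sum_const, nsmul_eq_mul]
  refine mul_le_mul_of_nonneg_right ?_ hB
  have h2 : (F.filter (fun L => x ∈ L)).card ≤ m :=
    (Finset.card_le_card (Finset.filter_subset_filter _ hF)).trans (h.deg x hx)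
  exact_mod_cast h2

private lemma sb_norm {d : ℕ} {α : ℝ} {m : ℕ} {P : Finset (EuclideanSpace ℝ (Fin d))}
    {LL : Finset (Finset (EuclideanSpace ℝ (Fin d)))} (h : LineSys α m P LL)
    (F : Finset (Finset (EuclideanSpace ℝ (Fin d)))) (hF : F ⊆ LL)
    (w : EuclideanSpace ℝ (Fin d) → EuclideanSpace ℝ (Fin d)) (B : ℝ) (hB : 0 ≤ B)
    (hw : ∀ y ∈ P, ‖w y‖ ≤ B)
    (x : EuclideanSpace ℝ (Fin d)) (hx : x ∈ P) : ‖sb w F x‖ ≤ (1 + m) * B := by
  unfold sb
  have h1 := norm_sub_le (w x) (∑ J ∈ F.filter (fun L => x ∈ L), cen w J)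
  have h2 := sum_cen_norm h F hF w B hB hw x hx
  have h3 := hw x hx
  calc _ ≤ _ := h1
    _ ≤ B + m * B := add_le_add h3 h2
    _ = (1 + m) * B := by ring

private lemma ad_norm {d : ℕ} {α : ℝ} {m : ℕ} {P : Finset (EuclideanSpace ℝ (Fin d))}
    {LL : Finset (Finset (EuclideanSpace ℝ (Fin d)))} (h : LineSys α m P LL)
    (F : Finset (Finset (EuclideanSpace ℝ (Fin d)))) (hF : F ⊆ LL)
    (w : EuclideanSpace ℝ (Fin d) → EuclideanSpace ℝ (Fin d)) (B : ℝ) (hB : 0 ≤ B)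
    (hw : ∀ y ∈ P, ‖w y‖ ≤ B)
    (x : EuclideanSpace ℝ (Fin d)) (hx : x ∈ P) : ‖ad w F x‖ ≤ (1 + m) * B := by
  unfold ad
  have h1 := norm_add_le (w x) (∑ J ∈ F.filter (fun L => x ∈ L), cen w J)
  have h2 := sum_cen_norm h F hF w B hB hw x hx
  have h3 := hw x hx
  calc _ ≤ _ := h1
    _ ≤ B + m * B := add_le_add h3 h2
    _ = (1 + m) * B := by ring

theorem rr_norm {d : ℕ} {α : ℝ} {m K : ℕ} {P : Finset (EuclideanSpace ℝ (Fin d))}
    {LL : Finset (Finset (EuclideanSpace ℝ (Fin d)))} (h : LineSys α m P LL)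
    (x : EuclideanSpace ℝ (Fin d)) (hx : x ∈ P) : ‖rr LL K x‖ ≤ 1 + m := by
  have := sb_norm h (bg LL K) (Finset.filter_subset _ _) (fun y => y) 1 zero_le_one
    (fun y hy => (h.unit y hy).le) x hx
  rw [mul_one] at this
  exact this

theorem r2_norm {d : ℕ} {α : ℝ} {m k0 K : ℕ} {P : Finset (EuclideanSpace ℝ (Fin d))}
    {LL : Finset (Finset (EuclideanSpace ℝ (Fin d)))} (h : LineSys α m P LL)
    (x : EuclideanSpace ℝ (Fin d)) (hx : x ∈ P) : ‖r2 LL k0 K x‖ ≤ (1 + m) ^ 2 := by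
  have := sb_norm h (md LL k0 K) (Finset.filter_subset _ _) (rr LL K) (1 + m) (by positivity)
    (fun y hy => rr_norm h y hy) x hx
  rw [sq]
  exact this

theorem tt_norm {d : ℕ} {α : ℝ} {m k0 K : ℕ} {P : Finset (EuclideanSpace ℝ (Fin d))}
    {LL : Finset (Finset (EuclideanSpace ℝ (Fin d)))} (h : LineSys α m P LL)
    (x : EuclideanSpace ℝ (Fin d)) (hx : x ∈ P) : ‖tt LL k0 K x‖ ≤ (1 + m) ^ 2 := by
  have := ad_norm h (md LL k0 K) (Finset.filter_subset _ _) (rr LL K) (1 + m) (by positivity)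
    (fun y hy => rr_norm h y hy) x hx
  rw [sq]
  exact this

end Pool.Agent.Helper17.SCD
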