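import Mathlib
import Pool.Agent.Helper17.SCD.Clq

set_option autoImplicit false

open scoped Classical

namespace Pool.Agent.Helper17.SCD

/-
SCD-Upper (0.8 h). Plan.
adj_count: for a point z and a line J with z not in J, at most m points w in J have 0 < <z,w> (w is on a line through z by h.non, this
line is ≠ J and contains at most one point of J by h.meet, and there are at most m lines through z by h.deg).
pair_le: J ≠ J' in LL with at least K points (K ≥ 1): <cen J, cen J'> = (1/(k k')) sum_{z in J, w in J'} <z,w>; for z in J \ J' the inner sum is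
≤ m (adj_count, values ≤ α ≤ 1), for z in J ∩ J' (at most one z) it is ≤ k'. So ≤ (m k + k')/(k k') = m/k' + 1/k ≤ (m+1)/K.
rr_upper: expand <rr x, rr y> = <x,y> - sum_{J' ∋ y} <x, cen J'> - sum_{J ∋ x} <cen J, y> + sum_{J ∋ x, J' ∋ y} <cen J, cen J'> (J, J' in bg).
In the last double sum the pairs J ≠ J' contribute ≤ m² (m+1)/K. If no J in bg contains both x and y: then x, y are on no common line
(small lines are excluded by hsm), <x,y> ≤ 0 and all other terms are -<x, cen J'> with x ∉ J', -<y, cen J> with y ∉ J: bound each by its positive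
part. If J0 in bg contains x and y it is unique (h.meet, x ≠ y); its terms together with <x,y> = α are
α - 2 (α + (1-α)/k) + α + (1-α)/k = -(1-α)/k ≤ 0 (clq_inner, clq_norm).
-/
theorem adj_count {d : ℕ} {α : ℝ} {m : ℕ} {P : Finset (EuclideanSpace ℝ (Fin d))}
    {LL : Finset (Finset (EuclideanSpace ℝ (Fin d)))} (h : LineSys α m P LL)
    (J : Finset (EuclideanSpace ℝ (Fin d))) (hJ : J ∈ LL) (z : EuclideanSpace ℝ (Fin d)) (hz : z ∈ P)
    (hzJ : z ∉ J) : (J.filter (fun w => 0 < (inner ℝ z w : ℝ))).card ≤ m := by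
  have hex : ∀ w ∈ J.filter (fun w => 0 < (inner ℝ z w : ℝ)), ∃ L ∈ LL, z ∈ L ∧ w ∈ L := by
    intro w hw
    rw [Finset.mem_filter] at hw
    by_contra hcon
    have hzw : z ≠ w := fun e => hzJ (e ▸ hw.1)
    have := h.non z hz w (h.sub J hJ hw.1) hzw (fun L hL hzL hwL => hcon ⟨L, hL, hzL, hwL⟩)
    linarith [hw.2]
  choose! f hf using hex
  refine le_trans (Finset.card_le_card_of_injOn f ?_ ?_) (h.deg z hz)
  · intro w hw
    have h3 := hf w hw
    simp only [Finset.coe_filter, Set.mem_setOf_eq]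
    exact ⟨h3.1, h3.2.1⟩
  · intro w hw w' hw' he
    have h3 := hf w hw
    have h3' := hf w' hw'
    have hne : f w ≠ J := fun e => hzJ (e ▸ h3.2.1)
    have hm := h.meet (f w) h3.1 J hJ hne
    rw [Finset.card_le_one] at hm
    have hwJ : w ∈ J := (Finset.mem_filter.1 (Finset.mem_coe.1 hw)).1
    have hwJ' : w' ∈ J := (Finset.mem_filter.1 (Finset.mem_coe.1 hw')).1
    refine hm w (Finset.mem_inter.2 ⟨h3.2.2, hwJ⟩) w' (Finset.mem_inter.2 ⟨?_, hwJ'⟩)
    rw [he]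
    exact h3'.2.2

private theorem inner_le_one_of {d : ℕ} {x y : EuclideanSpace ℝ (Fin d)} (hx : ‖x‖ = 1) (hy : ‖y‖ = 1) :
    (inner ℝ x y : ℝ) ≤ 1 := by
  have := real_inner_le_norm x y
  rw [hx, hy] at this
  linarith

private theorem cen_inner_cen {d : ℕ} (J J' : Finset (EuclideanSpace ℝ (Fin d))) :
    (inner ℝ (cen (fun y => y) J) (cen (fun y => y) J') : ℝ) =
      (J.card : ℝ)⁻¹ * ((J'.card : ℝ)⁻¹ * ∑ z ∈ J, ∑ w ∈ J', (inner ℝ z w : ℝ)) := by
  unfold cen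
  rw [real_inner_smul_left, real_inner_smul_right, sum_inner]
  congr 2
  exact Finset.sum_congr rfl (fun z _ => inner_sum _ _ _)

theorem pair_le {d : ℕ} {α : ℝ} {m K : ℕ} {P : Finset (EuclideanSpace ℝ (Fin d))}
    {LL : Finset (Finset (EuclideanSpace ℝ (Fin d)))} (h0 : 0 < α) (h1 : α < 1) (hK : 1 ≤ K)
    (h : LineSys α m P LL) (J J' : Finset (EuclideanSpace ℝ (Fin d))) (hJ : J ∈ LL) (hJ' : J' ∈ LL)
    (hne : J ≠ J') (hJK : K ≤ J.card) (hJK' : K ≤ J'.card) :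
    (inner ℝ (cen (fun y => y) J) (cen (fun y => y) J') : ℝ) ≤ (m + 1) / K := by
  rw [cen_inner_cen]
  have hKp : (0 : ℝ) < K := by exact_mod_cast hK
  have hk : (K : ℝ) ≤ J.card := by exact_mod_cast hJK
  have hk' : (K : ℝ) ≤ J'.card := by exact_mod_cast hJK'
  have hkp : (0 : ℝ) < J.card := lt_of_lt_of_le hKp hk
  have hkp' : (0 : ℝ) < J'.card := lt_of_lt_of_le hKp hk'
  have hrow : ∀ z ∈ J, (∑ w ∈ J', (inner ℝ z w : ℝ)) ≤ (m : ℝ) + (if z ∈ J' then (J'.card : ℝ) else 0) := by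
    intro z hz
    have hzP := h.sub J hJ hz
    have h1' : (∑ w ∈ J', (inner ℝ z w : ℝ)) ≤ ∑ w ∈ J', (if 0 < (inner ℝ z w : ℝ) then (1 : ℝ) else 0) := by
      refine Finset.sum_le_sum (fun w hw => ?_)
      split_ifs with hp
      · exact inner_le_one_of (h.unit z hzP) (h.unit w (h.sub J' hJ' hw))
      · exact not_lt.1 hp
    rw [← Finset.sum_filter, Finset.sum_const, nsmul_eq_mul, mul_one] at h1'
    by_cases hzJ : z ∈ J'
    · rw [if_pos hzJ]
      have : ((J'.filter (fun w => 0 < (inner ℝ z w : ℝ))).card : ℝ) ≤ J'.card := by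
        exact_mod_cast Finset.card_filter_le _ _
      have hm0 : (0 : ℝ) ≤ m := Nat.cast_nonneg m
      linarith
    · rw [if_neg hzJ]
      have : ((J'.filter (fun w => 0 < (inner ℝ z w : ℝ))).card : ℝ) ≤ m := by
        exact_mod_cast adj_count h J' hJ' z hzP hzJ
      linarith
  have hsum : ∑ z ∈ J, ∑ w ∈ J', (inner ℝ z w : ℝ) ≤ (J.card : ℝ) * m + J'.card := by
    refine le_trans (Finset.sum_le_sum hrow) ?_
    rw [Finset.sum_add_distrib, Finset.sum_const, nsmul_eq_mul, ← Finset.sum_filter, Finset.sum_const,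
      nsmul_eq_mul]
    have hc : ((J.filter (fun z => z ∈ J')).card : ℝ) ≤ 1 := by
      have := h.meet J hJ J' hJ' hne
      rw [Finset.filter_mem_eq_inter]
      exact_mod_cast this
    nlinarith
  have hstep : (J.card : ℝ)⁻¹ * ((J'.card : ℝ)⁻¹ * ∑ z ∈ J, ∑ w ∈ J', (inner ℝ z w : ℝ)) ≤
      (J.card : ℝ)⁻¹ * ((J'.card : ℝ)⁻¹ * ((J.card : ℝ) * m + J'.card)) := by
    refine mul_le_mul_of_nonneg_left (mul_le_mul_of_nonneg_left hsum ?_) ?_
    · exact inv_nonneg.2 hkp'.le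
    · exact inv_nonneg.2 hkp.le
  refine le_trans hstep ?_
  have heq : (J.card : ℝ)⁻¹ * ((J'.card : ℝ)⁻¹ * ((J.card : ℝ) * m + J'.card)) =
      m / J'.card + 1 / J.card := by
    field_simp
  rw [heq, add_div]
  refine add_le_add ?_ ?_
  · exact div_le_div_of_nonneg_left (Nat.cast_nonneg m) hKp hk'
  · exact div_le_div_of_nonneg_left zero_le_one hKp hk

theorem rr_upper {d : ℕ} {α : ℝ} {m K : ℕ} {P : Finset (EuclideanSpace ℝ (Fin d))}
    {LL : Finset (Finset (EuclideanSpace ℝ (Fin d)))} (h0 : 0 < α) (h1 : α < 1) (hK : 1 ≤ K)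
    (h : LineSys α m P LL) (x : EuclideanSpace ℝ (Fin d)) (hx : x ∈ P) (y : EuclideanSpace ℝ (Fin d))
    (hy : y ∈ P) (hxy : x ≠ y) (hsm : ¬ sm LL K x y) :
    (inner ℝ (rr LL K x) (rr LL K y) : ℝ) ≤
      ∑ J ∈ (bg LL K).filter (fun J => y ∈ J ∧ x ∉ J), max (-(inner ℝ x (cen (fun z => z) J) : ℝ)) 0 +
      ∑ J ∈ (bg LL K).filter (fun J => x ∈ J ∧ y ∉ J), max (-(inner ℝ y (cen (fun z => z) J) : ℝ)) 0 +
      (m : ℝ) ^ 2 * (m + 1) / K := by
  have hKp : (0 : ℝ) < K := by exact_mod_cast hK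
  have hbg : ∀ J ∈ bg LL K, J ∈ LL ∧ K ≤ J.card := fun J hJ => Finset.mem_filter.1 hJ
  set A := (bg LL K).filter (fun L => x ∈ L) with hA
  set B := (bg LL K).filter (fun L => y ∈ L) with hB
  set D := (bg LL K).filter (fun L => x ∈ L ∧ y ∈ L) with hD
  set c : Finset (EuclideanSpace ℝ (Fin d)) → EuclideanSpace ℝ (Fin d) := cen (fun z => z) with hc
  have hAm : (A.card : ℝ) ≤ m := by
    have : A ⊆ LL.filter (fun L => x ∈ L) := by
      intro L hL
      rw [hA, Finset.mem_filter] at hL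
      exact Finset.mem_filter.2 ⟨(hbg L hL.1).1, hL.2⟩
    exact_mod_cast le_trans (Finset.card_le_card this) (h.deg x hx)
  have hBm : (B.card : ℝ) ≤ m := by
    have : B ⊆ LL.filter (fun L => y ∈ L) := by
      intro L hL
      rw [hB, Finset.mem_filter] at hL
      exact Finset.mem_filter.2 ⟨(hbg L hL.1).1, hL.2⟩
    exact_mod_cast le_trans (Finset.card_le_card this) (h.deg y hy)
  -- expansion
  have hexp : (inner ℝ (rr LL K x) (rr LL K y) : ℝ) =
      inner ℝ x y - ∑ J ∈ B, (inner ℝ x (c J) : ℝ) - ∑ J ∈ A, (inner ℝ y (c J) : ℝ) +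
        ∑ J ∈ A, ∑ J' ∈ B, (inner ℝ (c J) (c J') : ℝ) := by
    have e1 : rr LL K x = x - ∑ J ∈ A, c J := rfl
    have e2 : rr LL K y = y - ∑ J ∈ B, c J := rfl
    rw [e1, e2, inner_sub_left, inner_sub_right, inner_sub_right, inner_sum, sum_inner, sum_inner]
    have e3 : ∑ J ∈ A, (inner ℝ (c J) y : ℝ) = ∑ J ∈ A, (inner ℝ y (c J) : ℝ) :=
      Finset.sum_congr rfl (fun J _ => real_inner_comm _ _)
    have e4 : ∑ J ∈ A, (inner ℝ (c J) (∑ J' ∈ B, c J') : ℝ) = ∑ J ∈ A, ∑ J' ∈ B, (inner ℝ (c J) (c J') : ℝ) :=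
      Finset.sum_congr rfl (fun J _ => inner_sum _ _ _)
    rw [e3, e4]
    ring
  -- double sum
  have hdbl : ∑ J ∈ A, ∑ J' ∈ B, (inner ℝ (c J) (c J') : ℝ) ≤
      ∑ J ∈ D, ‖c J‖ ^ 2 + (m : ℝ) ^ 2 * (m + 1) / K := by
    have hq0 : (0 : ℝ) ≤ (m + 1) / K := by positivity
    have hterm : ∀ J ∈ A, ∀ J' ∈ B, (inner ℝ (c J) (c J') : ℝ) ≤
        (if J = J' then ‖c J‖ ^ 2 else 0) + (m + 1) / K := by
      intro J hJ J' hJ'
      rw [hA, Finset.mem_filter] at hJ
      rw [hB, Finset.mem_filter] at hJ'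
      split_ifs with he
      · subst he
        rw [real_inner_self_eq_norm_sq]
        linarith
      · rw [zero_add]
        exact pair_le h0 h1 hK h J J' (hbg J hJ.1).1 (hbg J' hJ'.1).1 he (hbg J hJ.1).2 (hbg J' hJ'.1).2
    have h2 : ∑ J ∈ A, ∑ J' ∈ B, (inner ℝ (c J) (c J') : ℝ) ≤
        ∑ J ∈ A, ∑ J' ∈ B, ((if J = J' then ‖c J‖ ^ 2 else 0) + (m + 1) / K) :=
      Finset.sum_le_sum (fun J hJ => Finset.sum_le_sum (fun J' hJ' => hterm J hJ J' hJ'))
    refine le_trans h2 ?_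
    have h3 : ∑ J ∈ A, ∑ J' ∈ B, ((if J = J' then ‖c J‖ ^ 2 else 0) + ((m : ℝ) + 1) / K) =
        ∑ J ∈ A, (if J ∈ B then ‖c J‖ ^ 2 else 0) + (A.card : ℝ) * (B.card * ((m + 1) / K)) := by
      rw [← nsmul_eq_mul (A.card), ← Finset.sum_const, ← Finset.sum_add_distrib]
      refine Finset.sum_congr rfl (fun J _ => ?_)
      rw [Finset.sum_add_distrib, Finset.sum_ite_eq, Finset.sum_const, nsmul_eq_mul]
    rw [h3]
    have h4 : ∑ J ∈ A, (if J ∈ B then ‖c J‖ ^ 2 else 0) = ∑ J ∈ D, ‖c J‖ ^ 2 := by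
      rw [← Finset.sum_filter]
      refine Finset.sum_congr ?_ (fun _ _ => rfl)
      ext J
      simp only [hA, hB, hD, Finset.mem_filter]
      tauto
    rw [h4]
    have h5 : (A.card : ℝ) * (B.card * ((m + 1) / K)) ≤ (m : ℝ) ^ 2 * (m + 1) / K := by
      have e : (m : ℝ) ^ 2 * (m + 1) / K = (m : ℝ) * (m * ((m + 1) / K)) := by ring
      rw [e]
      refine mul_le_mul hAm (mul_le_mul_of_nonneg_right hBm hq0) ?_ (Nat.cast_nonneg m)
      exact mul_nonneg (Nat.cast_nonneg _) hq0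
    linarith
  -- single sums
  have hsB : -(∑ J ∈ B, (inner ℝ x (c J) : ℝ)) ≤
      ∑ J ∈ (bg LL K).filter (fun J => y ∈ J ∧ x ∉ J), max (-(inner ℝ x (c J) : ℝ)) 0 -
        ∑ J ∈ D, (inner ℝ x (c J) : ℝ) := by
    have hsplit : ∑ J ∈ B, (inner ℝ x (c J) : ℝ) =
        ∑ J ∈ (bg LL K).filter (fun J => y ∈ J ∧ x ∉ J), (inner ℝ x (c J) : ℝ) + ∑ J ∈ D, (inner ℝ x (c J) : ℝ) := by
      rw [← Finset.sum_filter_not_add_sum_filter B (fun J => x ∈ J)]
      congr 1
      · refine Finset.sum_congr ?_ (fun _ _ => rfl)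
        ext J
        simp only [hB, Finset.mem_filter]
        tauto
      · refine Finset.sum_congr ?_ (fun _ _ => rfl)
        ext J
        simp only [hB, hD, Finset.mem_filter]
        tauto
    rw [hsplit]
    have : -(∑ J ∈ (bg LL K).filter (fun J => y ∈ J ∧ x ∉ J), (inner ℝ x (c J) : ℝ)) ≤
        ∑ J ∈ (bg LL K).filter (fun J => y ∈ J ∧ x ∉ J), max (-(inner ℝ x (c J) : ℝ)) 0 := by
      rw [← Finset.sum_neg_distrib]
      exact Finset.sum_le_sum (fun J _ => le_max_left _ _)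
    linarith
  have hsA : -(∑ J ∈ A, (inner ℝ y (c J) : ℝ)) ≤
      ∑ J ∈ (bg LL K).filter (fun J => x ∈ J ∧ y ∉ J), max (-(inner ℝ y (c J) : ℝ)) 0 -
        ∑ J ∈ D, (inner ℝ y (c J) : ℝ) := by
    have hsplit : ∑ J ∈ A, (inner ℝ y (c J) : ℝ) =
        ∑ J ∈ (bg LL K).filter (fun J => x ∈ J ∧ y ∉ J), (inner ℝ y (c J) : ℝ) + ∑ J ∈ D, (inner ℝ y (c J) : ℝ) := by
      rw [← Finset.sum_filter_not_add_sum_filter A (fun J => y ∈ J)]
      congr 1
      · refine Finset.sum_congr ?_ (fun _ _ => rfl)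
        ext J
        simp only [hA, Finset.mem_filter]
        tauto
      · refine Finset.sum_congr ?_ (fun _ _ => rfl)
        ext J
        simp only [hA, hD, Finset.mem_filter]
        tauto
    rw [hsplit]
    have : -(∑ J ∈ (bg LL K).filter (fun J => x ∈ J ∧ y ∉ J), (inner ℝ y (c J) : ℝ)) ≤
        ∑ J ∈ (bg LL K).filter (fun J => x ∈ J ∧ y ∉ J), max (-(inner ℝ y (c J) : ℝ)) 0 := by
      rw [← Finset.sum_neg_distrib]
      exact Finset.sum_le_sum (fun J _ => le_max_left _ _)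
    linarith
  -- the central part
  have hcore : (inner ℝ x y : ℝ) + ∑ J ∈ D, ‖c J‖ ^ 2 - ∑ J ∈ D, (inner ℝ x (c J) : ℝ) -
      ∑ J ∈ D, (inner ℝ y (c J) : ℝ) ≤ 0 := by
    rcases D.eq_empty_or_nonempty with hDe | ⟨J0, hJ0⟩
    · rw [hDe]
      simp only [Finset.sum_empty]
      have : (inner ℝ x y : ℝ) ≤ 0 := by
        refine h.non x hx y hy hxy (fun L hL hxL hyL => ?_)
        by_cases hLK : K ≤ L.card
        · have : L ∈ D := by
            rw [hD, Finset.mem_filter]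
            exact ⟨Finset.mem_filter.2 ⟨hL, hLK⟩, hxL, hyL⟩
          rw [hDe] at this
          exact absurd this (Finset.notMem_empty _)
        · exact hsm ⟨hxy, L, hL, not_le.1 hLK, hxL, hyL⟩
      linarith
    · have hJ0' := hJ0
      rw [hD, Finset.mem_filter] at hJ0'
      have hD1 : D = {J0} := by
        rw [Finset.eq_singleton_iff_unique_mem]
        refine ⟨hJ0, fun J hJ => ?_⟩
        rw [hD, Finset.mem_filter] at hJ
        by_contra hne
        have hm := h.meet J (hbg J hJ.1).1 J0 (hbg J0 hJ0'.1).1 hne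
        rw [Finset.card_le_one] at hm
        exact hxy (hm x (Finset.mem_inter.2 ⟨hJ.2.1, hJ0'.2.1⟩) y (Finset.mem_inter.2 ⟨hJ.2.2, hJ0'.2.2⟩))
      rw [hD1]
      simp only [Finset.sum_singleton]
      have hLL := (hbg J0 hJ0'.1).1
      have hu : ∀ z ∈ J0, ‖z‖ = 1 := fun z hz => h.unit z (h.sub J0 hLL hz)
      have hcl := h.adj J0 hLL
      have i1 := clq_inner J0 hu hcl x hJ0'.2.1
      have i2 := clq_inner J0 hu hcl y hJ0'.2.2
      have i3 := clq_norm J0 ⟨x, hJ0'.2.1⟩ hu hcl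
      have i4 := hcl x hJ0'.2.1 y hJ0'.2.2 hxy
      have i5 : 0 ≤ (1 - α) / (J0.card : ℝ) := div_nonneg (by linarith) (Nat.cast_nonneg _)
      rw [hc, i1, i2, i3, i4]
      linarith
  rw [hexp]
  linarith

end Pool.Agent.Helper17.SCD
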