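import Mathlib
import Pool.Agent.Helper17.SCD.Norms
import Pool.Agent.Helper17.SCD.Contr
import Pool.Agent.Helper17.SCD.BSum
import Pool.Agent.Helper17.SCD.Upper
import Pool.Agent.Helper17.SCD.AbsSum

set_option autoImplicit false

open scoped Classical

namespace Pool.Agent.Helper17.SCD

/-
SCD-H1 (0.8 h). Plan: Z(x,y) = <rr x, rr y>, Zp = max(Z,0), β(x,y) = sum_{J in bg, y in J, x ∉ J} max(-<x, cen J>,0).
For x ≠ y, not sm: Zp³ = Zp² Zp ≤ Z² (β(x,y) + β(y,x)) + Zp² m²(m+1)/K (rr_upper; if Z ≤ 0 everything on the left is 0 and the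
right side is ≥ 0).
sum_{x,y} Z² β(x,y) = sum_x sum_{J not∋ x} b(x,J) sum_{y in J} Z(x,y)² ≤ c4 (1+m)² sum_x sum_J b(x,J) ≤ c4 (1+m)² C N (contr_big with
u = rr x, real_inner_comm, rr_norm, b_sum); by symmetry the same for β(y,x).
Zp² ≤ (1+m)² |Z| (rr_norm), sum |Z| ≤ (m+1)² (2+4m) K N (abs_sum with w = id, F = bg LL K; gram_sum): the last part is
≤ m²(m+1)(1+m)^4 (2+4m) N.
Z_sum: this bound of sum |Z| is stated separately.
-/
theorem Z_sum {d : ℕ} {α : ℝ} {m K : ℕ} {P : Finset (EuclideanSpace ℝ (Fin d))}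
    {LL : Finset (Finset (EuclideanSpace ℝ (Fin d)))} (h0 : 0 < α) (h1 : α < 1) (hK : 1 ≤ K)
    (h : LineSys α m P LL) (hlt : ∀ L ∈ LL, L.card < 2 * K) :
    ∑ x ∈ P, ∑ y ∈ P, |(inner ℝ (rr LL K x) (rr LL K y) : ℝ)| ≤ (m + 1) ^ 2 * ((2 + 4 * m) * K * P.card) := by
  have hF : ∀ J ∈ bg LL K, J ⊆ P := fun J hJ => h.sub J (Finset.mem_filter.1 hJ).1
  have hdeg : ∀ x ∈ P, ((bg LL K).filter (fun L => x ∈ L)).card ≤ m := fun x hx =>
    (Finset.card_le_card (Finset.filter_subset_filter _ (Finset.filter_subset _ _))).trans (h.deg x hx)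
  have e1 := abs_sum P (bg LL K) m hF hdeg (fun y => y)
  have e2 := gram_sum h0 h1 hK h hlt
  refine le_trans e1 ?_
  exact mul_le_mul_of_nonneg_left e2 (by positivity)

private lemma inner_abs_le {d : ℕ} {α : ℝ} {m K : ℕ} {P : Finset (EuclideanSpace ℝ (Fin d))}
    {LL : Finset (Finset (EuclideanSpace ℝ (Fin d)))} (h : LineSys α m P LL)
    {x y : EuclideanSpace ℝ (Fin d)} (hx : x ∈ P) (hy : y ∈ P) :
    |(inner ℝ (rr LL K x) (rr LL K y) : ℝ)| ≤ (1 + m) ^ 2 := by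
  have e1 := rr_norm (K := K) h x hx
  have e2 := rr_norm (K := K) h y hy
  calc |(inner ℝ (rr LL K x) (rr LL K y) : ℝ)| ≤ ‖rr LL K x‖ * ‖rr LL K y‖ :=
        abs_real_inner_le_norm _ _
    _ ≤ (1 + m) * (1 + m) := mul_le_mul e1 e2 (norm_nonneg _) (by positivity)
    _ = _ := by ring

private lemma cube_le (Z a b c M : ℝ) (ha : 0 ≤ a) (hb : 0 ≤ b) (hc : 0 ≤ c) (hM : |Z| ≤ M)
    (h : Z ≤ a + b + c) : (max Z 0) ^ 3 ≤ Z ^ 2 * a + Z ^ 2 * b + M * c * |Z| := by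
  have hM0 : 0 ≤ M := (abs_nonneg _).trans hM
  rcases le_total Z 0 with hZ | hZ
  · rw [max_eq_right hZ]
    have : 0 ≤ Z ^ 2 * a + Z ^ 2 * b + M * c * |Z| := by positivity
    simpa using this
  · rw [max_eq_left hZ]
    rw [abs_of_nonneg hZ] at hM ⊢
    have h1 : Z ^ 2 * Z ≤ Z ^ 2 * (a + b + c) := mul_le_mul_of_nonneg_left h (sq_nonneg _)
    have h2 : Z * Z * c ≤ M * Z * c :=
      mul_le_mul_of_nonneg_right (mul_le_mul_of_nonneg_right hM hZ) hc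
    nlinarith

private lemma t_one {d : ℕ} {α : ℝ} {m K : ℕ} {P : Finset (EuclideanSpace ℝ (Fin d))}
    {LL : Finset (Finset (EuclideanSpace ℝ (Fin d)))} (h0 : 0 < α) (h1 : α < 1) (hK : 1 ≤ K)
    (h : LineSys α m P LL) (hlt : ∀ L ∈ LL, L.card < 2 * K) :
    ∑ x ∈ P, ∑ y ∈ P, (inner ℝ (rr LL K x) (rr LL K y) : ℝ) ^ 2 *
      (∑ J ∈ (bg LL K).filter (fun J => y ∈ J ∧ x ∉ J),
        max (-(inner ℝ x (cen (fun z => z) J) : ℝ)) 0) ≤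
    c4 m * (1 + m) ^ 2 * ∑ x ∈ P, ∑ J ∈ (bg LL K).filter (fun J => x ∉ J),
        max (-(inner ℝ x (cen (fun z => z) J) : ℝ)) 0 := by
  have hc4 : 0 ≤ c4 m := by unfold c4 c3; positivity
  rw [Finset.mul_sum]
  refine Finset.sum_le_sum fun x hx => ?_
  have e1 : ∑ y ∈ P, (inner ℝ (rr LL K x) (rr LL K y) : ℝ) ^ 2 *
      (∑ J ∈ (bg LL K).filter (fun J => y ∈ J ∧ x ∉ J),
        max (-(inner ℝ x (cen (fun z => z) J) : ℝ)) 0) =
      ∑ J ∈ (bg LL K).filter (fun J => x ∉ J), max (-(inner ℝ x (cen (fun z => z) J) : ℝ)) 0 *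
        ∑ y ∈ J, (inner ℝ (rr LL K x) (rr LL K y) : ℝ) ^ 2 := by
    have e2 : ∀ y ∈ P, (inner ℝ (rr LL K x) (rr LL K y) : ℝ) ^ 2 *
        (∑ J ∈ (bg LL K).filter (fun J => y ∈ J ∧ x ∉ J),
          max (-(inner ℝ x (cen (fun z => z) J) : ℝ)) 0) =
        ∑ J ∈ (bg LL K).filter (fun J => x ∉ J), if y ∈ J then
          max (-(inner ℝ x (cen (fun z => z) J) : ℝ)) 0 *
            (inner ℝ (rr LL K x) (rr LL K y) : ℝ) ^ 2 else 0 := by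
      intro y _
      rw [Finset.mul_sum, ← Finset.sum_filter, Finset.filter_filter]
      refine Finset.sum_congr ?_ fun J _ => mul_comm _ _
      ext J
      simp only [Finset.mem_filter]
      tauto
    rw [Finset.sum_congr rfl e2, Finset.sum_comm]
    refine Finset.sum_congr rfl fun J hJ => ?_
    have hJP : J ⊆ P := h.sub J (Finset.mem_filter.1 (Finset.mem_filter.1 hJ).1).1
    rw [← Finset.sum_filter, Finset.filter_mem_eq_inter, Finset.inter_eq_right.2 hJP,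
      Finset.mul_sum]
  rw [e1, Finset.mul_sum]
  refine Finset.sum_le_sum fun J hJ => ?_
  have e3 : ∑ y ∈ J, (inner ℝ (rr LL K x) (rr LL K y) : ℝ) ^ 2 ≤ c4 m * (1 + m) ^ 2 := by
    have e4 := contr_big h0 h1 hK h hlt J (Finset.mem_filter.1 hJ).1 (rr LL K x)
    have e5 : ‖rr LL K x‖ ^ 2 ≤ (1 + m) ^ 2 :=
      pow_le_pow_left₀ (norm_nonneg _) (rr_norm (K := K) h x hx) 2
    calc ∑ y ∈ J, (inner ℝ (rr LL K x) (rr LL K y) : ℝ) ^ 2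
        = ∑ y ∈ J, (inner ℝ (rr LL K y) (rr LL K x) : ℝ) ^ 2 :=
          Finset.sum_congr rfl fun y _ => by rw [real_inner_comm]
      _ ≤ c4 m * ‖rr LL K x‖ ^ 2 := e4
      _ ≤ c4 m * (1 + m) ^ 2 := mul_le_mul_of_nonneg_left e5 hc4
  rw [mul_comm (c4 m * (1 + (m : ℝ)) ^ 2)]
  exact mul_le_mul_of_nonneg_left e3 (le_max_right _ _)

theorem h_one (m : ℕ) : ∃ C : ℝ, 0 < C ∧ ∀ {d : ℕ} {α : ℝ} {K : ℕ} {P : Finset (EuclideanSpace ℝ (Fin d))}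
    {LL : Finset (Finset (EuclideanSpace ℝ (Fin d)))}, 0 < α → α < 1 → 1 ≤ K →
    LineSys α m P LL → (∀ L ∈ LL, L.card < 2 * K) →
    ∑ x ∈ P, ∑ y ∈ P.filter (fun y => x ≠ y ∧ ¬ sm LL K x y),
      (max (inner ℝ (rr LL K x) (rr LL K y) : ℝ) 0) ^ 3 ≤ C * P.card := by
  obtain ⟨Cb, hCb, hb⟩ := b_sum m
  have hc4 : 0 ≤ c4 m := by unfold c4 c3; positivity
  refine ⟨2 * (c4 m * (1 + m) ^ 2 * Cb) +
    (1 + m) ^ 2 * ((m : ℝ) ^ 2 * (m + 1)) * ((m + 1) ^ 2 * (2 + 4 * m)) + 1, by positivity, ?_⟩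
  intro d α K P LL h0 h1 hK h hlt
  have hKR : (0 : ℝ) < K := by exact_mod_cast hK
  have hb1 := hb h0 h1 hK h hlt
  set Z : EuclideanSpace ℝ (Fin d) → EuclideanSpace ℝ (Fin d) → ℝ :=
    fun x y => (inner ℝ (rr LL K x) (rr LL K y) : ℝ) with hZ
  set be : EuclideanSpace ℝ (Fin d) → EuclideanSpace ℝ (Fin d) → ℝ :=
    fun x y => ∑ J ∈ (bg LL K).filter (fun J => y ∈ J ∧ x ∉ J),
      max (-(inner ℝ x (cen (fun z => z) J) : ℝ)) 0 with hbe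
  have hbe0 : ∀ x y, 0 ≤ be x y := fun x y => Finset.sum_nonneg fun _ _ => le_max_right _ _
  set c : ℝ := (m : ℝ) ^ 2 * (m + 1) / K with hc
  have hc0 : 0 ≤ c := by positivity
  have hM0 : (0 : ℝ) ≤ (1 + m) ^ 2 := by positivity
  have hpt : ∀ x ∈ P, ∑ y ∈ P.filter (fun y => x ≠ y ∧ ¬ sm LL K x y), (max (Z x y) 0) ^ 3 ≤
      ∑ y ∈ P, ((Z x y) ^ 2 * be x y + (Z x y) ^ 2 * be y x + (1 + m) ^ 2 * c * |Z x y|) := by
    intro x hx
    have e0 : ∀ y, 0 ≤ (Z x y) ^ 2 * be x y + (Z x y) ^ 2 * be y x +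
        (1 + (m : ℝ)) ^ 2 * c * |Z x y| := by
      intro y
      have := hbe0 x y
      have := hbe0 y x
      positivity
    refine le_trans (Finset.sum_le_sum fun y hy => ?_)
      (Finset.sum_le_sum_of_subset_of_nonneg (Finset.filter_subset _ _) fun y _ _ => e0 y)
    obtain ⟨hyP, hxy, hsm⟩ := Finset.mem_filter.1 hy
    exact cube_le _ _ _ _ _ (hbe0 x y) (hbe0 y x) hc0 (inner_abs_le h hx hyP)
      (rr_upper h0 h1 hK h x hx y hyP hxy hsm)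
  have hT1 : ∑ x ∈ P, ∑ y ∈ P, (Z x y) ^ 2 * be x y ≤ c4 m * (1 + m) ^ 2 * (Cb * P.card) := by
    refine (t_one h0 h1 hK h hlt).trans ?_
    exact mul_le_mul_of_nonneg_left hb1 (by positivity)
  have hT2 : ∑ x ∈ P, ∑ y ∈ P, (Z x y) ^ 2 * be y x ≤ c4 m * (1 + m) ^ 2 * (Cb * P.card) := by
    rw [Finset.sum_comm]
    refine le_trans (le_of_eq ?_) hT1
    refine Finset.sum_congr rfl fun x _ => Finset.sum_congr rfl fun y _ => ?_
    have : Z y x = Z x y := real_inner_comm _ _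
    rw [this]
  have hT3 : ∑ x ∈ P, ∑ y ∈ P, (1 + (m : ℝ)) ^ 2 * c * |Z x y| ≤
      (1 + m) ^ 2 * ((m : ℝ) ^ 2 * (m + 1)) * ((m + 1) ^ 2 * (2 + 4 * m)) * P.card := by
    have e1 : ∑ x ∈ P, ∑ y ∈ P, (1 + (m : ℝ)) ^ 2 * c * |Z x y| =
        (1 + (m : ℝ)) ^ 2 * c * ∑ x ∈ P, ∑ y ∈ P, |Z x y| := by
      rw [Finset.mul_sum]
      refine Finset.sum_congr rfl fun x _ => ?_
      rw [Finset.mul_sum]
    rw [e1]
    calc (1 + (m : ℝ)) ^ 2 * c * ∑ x ∈ P, ∑ y ∈ P, |Z x y|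
        ≤ (1 + (m : ℝ)) ^ 2 * c * ((m + 1) ^ 2 * ((2 + 4 * m) * K * P.card)) :=
          mul_le_mul_of_nonneg_left (Z_sum h0 h1 hK h hlt) (by positivity)
      _ = _ := by
          rw [hc]
          field_simp
  calc ∑ x ∈ P, ∑ y ∈ P.filter (fun y => x ≠ y ∧ ¬ sm LL K x y), (max (Z x y) 0) ^ 3
      ≤ ∑ x ∈ P, ∑ y ∈ P, ((Z x y) ^ 2 * be x y + (Z x y) ^ 2 * be y x +
          (1 + m) ^ 2 * c * |Z x y|) := Finset.sum_le_sum hpt
    _ = (∑ x ∈ P, ∑ y ∈ P, (Z x y) ^ 2 * be x y) + (∑ x ∈ P, ∑ y ∈ P, (Z x y) ^ 2 * be y x) +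
          ∑ x ∈ P, ∑ y ∈ P, (1 + (m : ℝ)) ^ 2 * c * |Z x y| := by
        simp only [Finset.sum_add_distrib]
    _ ≤ c4 m * (1 + m) ^ 2 * (Cb * P.card) + c4 m * (1 + m) ^ 2 * (Cb * P.card) +
          (1 + m) ^ 2 * ((m : ℝ) ^ 2 * (m + 1)) * ((m + 1) ^ 2 * (2 + 4 * m)) * P.card :=
        add_le_add (add_le_add hT1 hT2) hT3
    _ ≤ (2 * (c4 m * (1 + m) ^ 2 * Cb) +
          (1 + m) ^ 2 * ((m : ℝ) ^ 2 * (m + 1)) * ((m + 1) ^ 2 * (2 + 4 * m)) + 1) * P.card := by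
        have : (0 : ℝ) ≤ P.card := Nat.cast_nonneg _
        nlinarith

end Pool.Agent.Helper17.SCD
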