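import Mathlib
import Pool.Agent.Helper17.SCD.Defs
import Pool.Agent.Helper49.Sph.C2

set_option autoImplicit false

open scoped Classical

namespace Pool.Agent.Helper17.SCD

/-
SCD-Test (0.8 h). Notation: M = md LL k0 K, r = rr LL K, Zp(z,w) = max(<r z, r w>,0), and for x, z in P
B(x,z) = [x = z] + sum_{I in M, x in I, z in I} 1/|I|   (def Bm below).
Plan. tt x = sum_{z in P} B(x,z) r z (lines are subsets of P); r2 x = sum_z B'(x,z) r z with B'(x,z) = [x = z] - sum.. and |B'(x,z)| ≤ B(x,z).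
So |<r2 x, r2 y>| ≤ sum B(x,z) B(y,w) |<r z, r w>| and |a| = -a + 2 max(a,0) gives
|<r2 x, r2 y>| ≤ -<tt x, tt y> + 2 Y(x,y), Y(x,y) = sum_{z,w} B(x,z) B(y,w) Zp(z,w).   (abs_le)
test_ineq: Pool.Agent.Helper49.Sph.tensor3 with x = tt, ρ = r2: 0 ≤ sum <tt x, tt y> <r2 x, r2 y>².
cube_le: multiply (abs_le) by <r2 x, r2 y>² and sum over all x, y in P: sum |<r2 x, r2 y>|³ ≤ 2 sum <r2 x, r2 y>² Y(x,y).
-/
noncomputable def Bm {d : ℕ} (LL : Finset (Finset (EuclideanSpace ℝ (Fin d)))) (k0 K : ℕ)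
    (x z : EuclideanSpace ℝ (Fin d)) : ℝ :=
  (if x = z then 1 else 0) + ∑ I ∈ (md LL k0 K).filter (fun I => x ∈ I ∧ z ∈ I), (I.card : ℝ)⁻¹

noncomputable def Yp {d : ℕ} (P : Finset (EuclideanSpace ℝ (Fin d)))
    (LL : Finset (Finset (EuclideanSpace ℝ (Fin d)))) (k0 K : ℕ)
    (f : EuclideanSpace ℝ (Fin d) → EuclideanSpace ℝ (Fin d) → ℝ)
    (x y : EuclideanSpace ℝ (Fin d)) : ℝ :=
  ∑ z ∈ P, ∑ w ∈ P, Bm LL k0 K x z * Bm LL k0 K y w * f z w

private theorem expand {d : ℕ} (P : Finset (EuclideanSpace ℝ (Fin d)))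
    (F : Finset (Finset (EuclideanSpace ℝ (Fin d)))) (hF : ∀ I ∈ F, I ⊆ P)
    (w : EuclideanSpace ℝ (Fin d) → EuclideanSpace ℝ (Fin d)) (e : ℝ)
    (x : EuclideanSpace ℝ (Fin d)) (hx : x ∈ P) :
    w x + e • ∑ J ∈ F.filter (fun L => x ∈ L), cen w J =
      ∑ z ∈ P, ((if x = z then (1 : ℝ) else 0) +
        e * ∑ I ∈ F.filter (fun I => x ∈ I ∧ z ∈ I), (I.card : ℝ)⁻¹) • w z := by
  simp_rw [add_smul, Finset.sum_add_distrib]
  congr 1
  · simp [ite_smul, hx]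
  · simp_rw [mul_smul, ← Finset.smul_sum, Finset.sum_smul]
    congr 1
    unfold cen
    simp_rw [Finset.smul_sum]
    refine Finset.sum_comm' ?_
    intro J z
    simp only [Finset.mem_filter]
    constructor
    · rintro ⟨⟨h1, h2⟩, h3⟩
      exact ⟨⟨h1, h2, h3⟩, hF J h1 h3⟩
    · rintro ⟨⟨h1, h2, h3⟩, -⟩
      exact ⟨⟨h1, h2⟩, h3⟩

private theorem inner_exp {d : ℕ} (P : Finset (EuclideanSpace ℝ (Fin d)))
    (w : EuclideanSpace ℝ (Fin d) → EuclideanSpace ℝ (Fin d))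
    (a b : EuclideanSpace ℝ (Fin d) → ℝ) :
    (inner ℝ (∑ z ∈ P, a z • w z) (∑ z ∈ P, b z • w z) : ℝ) =
      ∑ z ∈ P, ∑ v ∈ P, a z * b v * inner ℝ (w z) (w v) := by
  rw [sum_inner]
  refine Finset.sum_congr rfl fun z _ => ?_
  rw [inner_sum]
  refine Finset.sum_congr rfl fun v _ => ?_
  rw [real_inner_smul_left, real_inner_smul_right]
  ring

theorem abs_le_test {d : ℕ} {α : ℝ} {m k0 K : ℕ} {P : Finset (EuclideanSpace ℝ (Fin d))}
    {LL : Finset (Finset (EuclideanSpace ℝ (Fin d)))} (h : LineSys α m P LL)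
    (x : EuclideanSpace ℝ (Fin d)) (hx : x ∈ P) (y : EuclideanSpace ℝ (Fin d)) (hy : y ∈ P) :
    |(inner ℝ (r2 LL k0 K x) (r2 LL k0 K y) : ℝ)| ≤ -(inner ℝ (tt LL k0 K x) (tt LL k0 K y) : ℝ) +
      2 * Yp P LL k0 K (fun z w => max (inner ℝ (rr LL K z) (rr LL K w) : ℝ) 0) x y := by
  have hF : ∀ I ∈ md LL k0 K, I ⊆ P := by
    intro I hI
    exact h.sub I (Finset.mem_filter.mp hI).1
  have ht : ∀ x ∈ P, tt LL k0 K x = ∑ z ∈ P, Bm LL k0 K x z • rr LL K z := by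
    intro x hx
    have := expand P (md LL k0 K) hF (rr LL K) 1 x hx
    rw [one_smul] at this
    simp only [one_mul] at this
    exact this
  have hr : ∀ x ∈ P, r2 LL k0 K x = ∑ z ∈ P, ((if x = z then (1 : ℝ) else 0) +
      (-1) * ∑ I ∈ (md LL k0 K).filter (fun I => x ∈ I ∧ z ∈ I), (I.card : ℝ)⁻¹) • rr LL K z := by
    intro x hx
    have := expand P (md LL k0 K) hF (rr LL K) (-1) x hx
    rw [← this]
    unfold r2 sb
    rw [neg_one_smul, sub_eq_add_neg]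
  have hB0 : ∀ x z, 0 ≤ ∑ I ∈ (md LL k0 K).filter (fun I => x ∈ I ∧ z ∈ I), (I.card : ℝ)⁻¹ := by
    intro x z
    exact Finset.sum_nonneg fun I _ => by positivity
  have hB : ∀ x z, |(if x = z then (1 : ℝ) else 0) +
      (-1) * ∑ I ∈ (md LL k0 K).filter (fun I => x ∈ I ∧ z ∈ I), (I.card : ℝ)⁻¹| ≤ Bm LL k0 K x z := by
    intro x z
    have h0 := hB0 x z
    unfold Bm
    rw [abs_le]
    constructor <;> split_ifs <;> linarith
  have hBn : ∀ x z, 0 ≤ Bm LL k0 K x z := fun x z => le_trans (abs_nonneg _) (hB x z)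
  rw [hr x hx, hr y hy, ht x hx, ht y hy, inner_exp, inner_exp]
  calc |∑ z ∈ P, ∑ v ∈ P, ((if x = z then (1 : ℝ) else 0) +
          (-1) * ∑ I ∈ (md LL k0 K).filter (fun I => x ∈ I ∧ z ∈ I), (I.card : ℝ)⁻¹) *
          ((if y = v then (1 : ℝ) else 0) +
          (-1) * ∑ I ∈ (md LL k0 K).filter (fun I => y ∈ I ∧ v ∈ I), (I.card : ℝ)⁻¹) *
          (inner ℝ (rr LL K z) (rr LL K v) : ℝ)|
      ≤ ∑ z ∈ P, ∑ v ∈ P, Bm LL k0 K x z * Bm LL k0 K y v *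
          |(inner ℝ (rr LL K z) (rr LL K v) : ℝ)| := by
        refine (Finset.abs_sum_le_sum_abs _ _).trans (Finset.sum_le_sum fun z _ => ?_)
        refine (Finset.abs_sum_le_sum_abs _ _).trans (Finset.sum_le_sum fun v _ => ?_)
        rw [abs_mul, abs_mul]
        exact mul_le_mul_of_nonneg_right (mul_le_mul (hB x z) (hB y v) (abs_nonneg _) (hBn x z))
          (abs_nonneg _)
    _ = -(∑ z ∈ P, ∑ v ∈ P, Bm LL k0 K x z * Bm LL k0 K y v *
          (inner ℝ (rr LL K z) (rr LL K v) : ℝ)) +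
          2 * Yp P LL k0 K (fun z w => max (inner ℝ (rr LL K z) (rr LL K w) : ℝ) 0) x y := by
        unfold Yp
        rw [Finset.mul_sum, ← Finset.sum_neg_distrib, ← Finset.sum_add_distrib]
        refine Finset.sum_congr rfl fun z _ => ?_
        rw [Finset.mul_sum, ← Finset.sum_neg_distrib, ← Finset.sum_add_distrib]
        refine Finset.sum_congr rfl fun v _ => ?_
        have key : |(inner ℝ (rr LL K z) (rr LL K v) : ℝ)| =
            -(inner ℝ (rr LL K z) (rr LL K v) : ℝ) +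
              2 * max (inner ℝ (rr LL K z) (rr LL K v) : ℝ) 0 := by
          rcases le_total (inner ℝ (rr LL K z) (rr LL K v) : ℝ) 0 with h0 | h0
          · rw [abs_of_nonpos h0, max_eq_right h0]
            ring
          · rw [abs_of_nonneg h0, max_eq_left h0]
            ring
        rw [key]
        ring

theorem test_ineq {d : ℕ} (P : Finset (EuclideanSpace ℝ (Fin d)))
    (LL : Finset (Finset (EuclideanSpace ℝ (Fin d)))) (k0 K : ℕ) :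
    0 ≤ ∑ x ∈ P, ∑ y ∈ P, (inner ℝ (tt LL k0 K x) (tt LL k0 K y) : ℝ) *
      (inner ℝ (r2 LL k0 K x) (r2 LL k0 K y)) ^ 2 :=
  Pool.Agent.Helper49.Sph.tensor3 P (tt LL k0 K) (r2 LL k0 K)

theorem cube_le {d : ℕ} {α : ℝ} {m k0 K : ℕ} {P : Finset (EuclideanSpace ℝ (Fin d))}
    {LL : Finset (Finset (EuclideanSpace ℝ (Fin d)))} (h : LineSys α m P LL) :
    ∑ x ∈ P, ∑ y ∈ P, |(inner ℝ (r2 LL k0 K x) (r2 LL k0 K y) : ℝ)| ^ 3 ≤
      2 * ∑ x ∈ P, ∑ y ∈ P, (inner ℝ (r2 LL k0 K x) (r2 LL k0 K y) : ℝ) ^ 2 *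
        Yp P LL k0 K (fun z w => max (inner ℝ (rr LL K z) (rr LL K w) : ℝ) 0) x y := by
  have h1 := test_ineq P LL k0 K
  have h2 : ∑ x ∈ P, ∑ y ∈ P, |(inner ℝ (r2 LL k0 K x) (r2 LL k0 K y) : ℝ)| ^ 3 ≤
      ∑ x ∈ P, ∑ y ∈ P, (inner ℝ (r2 LL k0 K x) (r2 LL k0 K y) : ℝ) ^ 2 *
        (-(inner ℝ (tt LL k0 K x) (tt LL k0 K y) : ℝ) +
          2 * Yp P LL k0 K (fun z w => max (inner ℝ (rr LL K z) (rr LL K w) : ℝ) 0) x y) := by
    refine Finset.sum_le_sum fun x hx => Finset.sum_le_sum fun y hy => ?_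
    have h3 := abs_le_test (k0 := k0) (K := K) h x hx y hy
    have h4 : |(inner ℝ (r2 LL k0 K x) (r2 LL k0 K y) : ℝ)| ^ 3 =
        (inner ℝ (r2 LL k0 K x) (r2 LL k0 K y) : ℝ) ^ 2 *
          |(inner ℝ (r2 LL k0 K x) (r2 LL k0 K y) : ℝ)| := by
      rw [← sq_abs]
      ring
    rw [h4]
    exact mul_le_mul_of_nonneg_left h3 (sq_nonneg _)
  refine h2.trans ?_
  have h5 : ∑ x ∈ P, ∑ y ∈ P, (inner ℝ (r2 LL k0 K x) (r2 LL k0 K y) : ℝ) ^ 2 *
        (-(inner ℝ (tt LL k0 K x) (tt LL k0 K y) : ℝ) +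
          2 * Yp P LL k0 K (fun z w => max (inner ℝ (rr LL K z) (rr LL K w) : ℝ) 0) x y) =
      2 * ∑ x ∈ P, ∑ y ∈ P, (inner ℝ (r2 LL k0 K x) (r2 LL k0 K y) : ℝ) ^ 2 *
        Yp P LL k0 K (fun z w => max (inner ℝ (rr LL K z) (rr LL K w) : ℝ) 0) x y -
      ∑ x ∈ P, ∑ y ∈ P, (inner ℝ (tt LL k0 K x) (tt LL k0 K y) : ℝ) *
      (inner ℝ (r2 LL k0 K x) (r2 LL k0 K y)) ^ 2 := by
    rw [Finset.mul_sum, ← Finset.sum_sub_distrib]
    refine Finset.sum_congr rfl fun x _ => ?_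
    rw [Finset.mul_sum, ← Finset.sum_sub_distrib]
    refine Finset.sum_congr rfl fun y _ => ?_
    ring
  rw [h5]
  linarith

end Pool.Agent.Helper17.SCD
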