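import Mathlib
import Pool.Agent.Helper17.SCD.Test

set_option autoImplicit false

open scoped Classical

namespace Pool.Agent.Helper17.SCD

/-
SCD-Jens (0.6 h). Plan: Bm ≥ 0, symmetric, sum_{z in P} Bm x z = 1 + #{I in md : x in I} ≤ 1 + m for x in P (lines nonempty subsets of P).
For nonneg weights a_i with sum ≤ S and f_i ≥ 0: (sum a_i f_i)³ ≤ S² sum a_i f_i³ (inner_le_nnorm_mul_nnorm / Real.inner_le_Lp_mul_Lq or
inner_mul_le_norm; or two times Cauchy-Schwarz; Mathlib: Real.pow_arith_mean_le_arith_mean_pow after normalisation). Weights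
Bm x z Bm y w, S = (1+m)²: Yp f(x,y)³ ≤ (1+m)^4 sum_{z,w} Bm x z Bm y w f(z,w)³, sum over x, y and use the column sums: ≤ (1+m)^6 sum f³.
Bm_le: Bm x z ≤ [x=z](1 + m) + ... : for x ≠ z at most one line contains both (h.meet), it has at least k0 points.
-/
theorem Bm_nonneg {d : ℕ} (LL : Finset (Finset (EuclideanSpace ℝ (Fin d)))) (k0 K : ℕ)
    (x z : EuclideanSpace ℝ (Fin d)) : 0 ≤ Bm LL k0 K x z := by
  unfold Bm
  refine add_nonneg ?_ (Finset.sum_nonneg (fun I _ => by positivity))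
  split_ifs <;> norm_num

theorem Bm_symm {d : ℕ} (LL : Finset (Finset (EuclideanSpace ℝ (Fin d)))) (k0 K : ℕ)
    (x z : EuclideanSpace ℝ (Fin d)) : Bm LL k0 K x z = Bm LL k0 K z x := by
  unfold Bm
  have h1 : (md LL k0 K).filter (fun I => x ∈ I ∧ z ∈ I) =
      (md LL k0 K).filter (fun I => z ∈ I ∧ x ∈ I) :=
    Finset.filter_congr (fun I _ => and_comm)
  rw [h1]
  by_cases h : x = z
  · rw [if_pos h, if_pos h.symm]
  · rw [if_neg h, if_neg (fun h' => h h'.symm)]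

theorem Bm_row {d : ℕ} {α : ℝ} {m k0 K : ℕ} {P : Finset (EuclideanSpace ℝ (Fin d))}
    {LL : Finset (Finset (EuclideanSpace ℝ (Fin d)))} (h : LineSys α m P LL)
    (x : EuclideanSpace ℝ (Fin d)) (hx : x ∈ P) : ∑ z ∈ P, Bm LL k0 K x z ≤ 1 + m := by
  unfold Bm
  rw [Finset.sum_add_distrib]
  have h1 : ∑ z ∈ P, (if x = z then (1 : ℝ) else 0) = 1 := by
    rw [Finset.sum_ite_eq, if_pos hx]
  have hmd : ∀ I ∈ md LL k0 K, I ∈ LL := by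
    intro I hI
    unfold md at hI
    exact (Finset.mem_filter.1 hI).1
  have h2 : ∑ z ∈ P, ∑ I ∈ (md LL k0 K).filter (fun I => x ∈ I ∧ z ∈ I), ((I.card : ℝ))⁻¹ =
      ∑ I ∈ (md LL k0 K).filter (fun I => x ∈ I), (1 : ℝ) := by
    have h3 : ∀ z ∈ P, ∑ I ∈ (md LL k0 K).filter (fun I => x ∈ I ∧ z ∈ I), ((I.card : ℝ))⁻¹ =
        ∑ I ∈ (md LL k0 K).filter (fun I => x ∈ I), (if z ∈ I then ((I.card : ℝ))⁻¹ else 0) := by
      intro z _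
      rw [← Finset.sum_filter, Finset.filter_filter]
    rw [Finset.sum_congr rfl h3, Finset.sum_comm]
    refine Finset.sum_congr rfl (fun I hI => ?_)
    have hIL : I ∈ LL := hmd I (Finset.mem_filter.1 hI).1
    rw [← Finset.sum_filter]
    have h4 : P.filter (fun z => z ∈ I) = I := by
      ext z
      rw [Finset.mem_filter]
      exact ⟨fun h' => h'.2, fun h' => ⟨h.sub I hIL h', h'⟩⟩
    rw [h4, Finset.sum_const, nsmul_eq_mul]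
    have h5 : ((I.card : ℕ) : ℝ) ≠ 0 := by
      have := h.two I hIL
      have h6 : I.card ≠ 0 := by omega
      exact_mod_cast h6
    exact mul_inv_cancel₀ h5
  rw [h1, h2, Finset.sum_const, nsmul_eq_mul, mul_one]
  have h7 : ((md LL k0 K).filter (fun I => x ∈ I)).card ≤ (LL.filter (fun L => x ∈ L)).card := by
    refine Finset.card_le_card (fun I hI => ?_)
    rw [Finset.mem_filter] at hI ⊢
    exact ⟨hmd I hI.1, hI.2⟩
  have h8 : (((md LL k0 K).filter (fun I => x ∈ I)).card : ℝ) ≤ m := by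
    exact_mod_cast h7.trans (h.deg x hx)
  linarith

private theorem jensen3 {ι : Type*} (s : Finset ι) (a f : ι → ℝ) (ha : ∀ i, 0 ≤ a i)
    (hf : ∀ i, 0 ≤ f i) :
    (∑ i ∈ s, a i * f i) ^ 3 ≤ (∑ i ∈ s, a i) ^ 2 * ∑ i ∈ s, a i * (f i) ^ 3 := by
  have c1 : (∑ i ∈ s, a i * f i) ^ 2 ≤ (∑ i ∈ s, a i) * ∑ i ∈ s, a i * (f i) ^ 2 :=
    Finset.sum_sq_le_sum_mul_sum_of_sq_eq_mul s (fun i _ => ha i)
      (fun i _ => mul_nonneg (ha i) (sq_nonneg _)) (fun i _ => by ring)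
  have c2 : (∑ i ∈ s, a i * (f i) ^ 2) ^ 2 ≤ (∑ i ∈ s, a i * f i) * ∑ i ∈ s, a i * (f i) ^ 3 :=
    Finset.sum_sq_le_sum_mul_sum_of_sq_eq_mul s (fun i _ => mul_nonneg (ha i) (hf i))
      (fun i _ => mul_nonneg (ha i) (pow_nonneg (hf i) 3)) (fun i _ => by ring)
  have p0 : 0 ≤ ∑ i ∈ s, a i := Finset.sum_nonneg (fun i _ => ha i)
  have p1 : 0 ≤ ∑ i ∈ s, a i * f i := Finset.sum_nonneg (fun i _ => mul_nonneg (ha i) (hf i))
  have p3 : 0 ≤ ∑ i ∈ s, a i * (f i) ^ 3 :=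
    Finset.sum_nonneg (fun i _ => mul_nonneg (ha i) (pow_nonneg (hf i) 3))
  generalize (∑ i ∈ s, a i) = s0 at *
  generalize (∑ i ∈ s, a i * f i) = s1 at *
  generalize (∑ i ∈ s, a i * (f i) ^ 2) = s2 at *
  generalize (∑ i ∈ s, a i * (f i) ^ 3) = s3 at *
  rcases p1.eq_or_lt with h | h
  · rw [← h]
    have : 0 ≤ s0 ^ 2 * s3 := by positivity
    simpa using this
  · have h1 : (s1 ^ 2) ^ 2 ≤ (s0 * s2) ^ 2 := pow_le_pow_left₀ (sq_nonneg _) c1 2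
    have h2 : s0 ^ 2 * s2 ^ 2 ≤ s0 ^ 2 * (s1 * s3) := mul_le_mul_of_nonneg_left c2 (sq_nonneg _)
    have h3 : s1 * s1 ^ 3 ≤ s1 * (s0 ^ 2 * s3) := by nlinarith
    exact le_of_mul_le_mul_left h3 h

theorem Yp_cube {d : ℕ} {α : ℝ} {m k0 K : ℕ} {P : Finset (EuclideanSpace ℝ (Fin d))}
    {LL : Finset (Finset (EuclideanSpace ℝ (Fin d)))} (h : LineSys α m P LL)
    (f : EuclideanSpace ℝ (Fin d) → EuclideanSpace ℝ (Fin d) → ℝ) (hf : ∀ x y, 0 ≤ f x y) :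
    ∑ x ∈ P, ∑ y ∈ P, (Yp P LL k0 K f x y) ^ 3 ≤ (1 + m) ^ 6 * ∑ z ∈ P, ∑ w ∈ P, (f z w) ^ 3 := by
  have hm : (0 : ℝ) ≤ 1 + m := by positivity
  have hB := Bm_nonneg LL k0 K
  have hcol : ∀ z ∈ P, ∑ x ∈ P, Bm LL k0 K x z ≤ 1 + m := by
    intro z hz
    have : ∑ x ∈ P, Bm LL k0 K x z = ∑ x ∈ P, Bm LL k0 K z x :=
      Finset.sum_congr rfl (fun x _ => Bm_symm LL k0 K x z)
    rw [this]
    exact Bm_row h z hz
  have key : ∀ x ∈ P, ∀ y ∈ P, (Yp P LL k0 K f x y) ^ 3 ≤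
      (1 + m) ^ 4 * ∑ z ∈ P, ∑ w ∈ P, Bm LL k0 K x z * Bm LL k0 K y w * (f z w) ^ 3 := by
    intro x hx y hy
    have e1 : Yp P LL k0 K f x y =
        ∑ p ∈ P ×ˢ P, (Bm LL k0 K x p.1 * Bm LL k0 K y p.2) * f p.1 p.2 := by
      unfold Yp
      rw [Finset.sum_product]
    have e2 : ∑ z ∈ P, ∑ w ∈ P, Bm LL k0 K x z * Bm LL k0 K y w * (f z w) ^ 3 =
        ∑ p ∈ P ×ˢ P, (Bm LL k0 K x p.1 * Bm LL k0 K y p.2) * (f p.1 p.2) ^ 3 := by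
      rw [Finset.sum_product]
    have e3 : ∑ p ∈ P ×ˢ P, Bm LL k0 K x p.1 * Bm LL k0 K y p.2 ≤ (1 + m) ^ 2 := by
      rw [Finset.sum_product, ← Finset.sum_mul_sum, sq]
      exact mul_le_mul (Bm_row h x hx) (Bm_row h y hy)
        (Finset.sum_nonneg (fun w _ => hB y w)) hm
    have h0 : 0 ≤ ∑ p ∈ P ×ˢ P, Bm LL k0 K x p.1 * Bm LL k0 K y p.2 :=
      Finset.sum_nonneg (fun p _ => mul_nonneg (hB x p.1) (hB y p.2))
    have h3 : 0 ≤ ∑ p ∈ P ×ˢ P, (Bm LL k0 K x p.1 * Bm LL k0 K y p.2) * (f p.1 p.2) ^ 3 :=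
      Finset.sum_nonneg (fun p _ => mul_nonneg (mul_nonneg (hB x p.1) (hB y p.2))
        (pow_nonneg (hf _ _) 3))
    rw [e1, e2]
    refine (jensen3 (P ×ˢ P) (fun p => Bm LL k0 K x p.1 * Bm LL k0 K y p.2)
      (fun p => f p.1 p.2) (fun p => mul_nonneg (hB x p.1) (hB y p.2)) (fun p => hf _ _)).trans ?_
    refine mul_le_mul_of_nonneg_right ?_ h3
    calc (∑ p ∈ P ×ˢ P, Bm LL k0 K x p.1 * Bm LL k0 K y p.2) ^ 2 ≤ ((1 + (m : ℝ)) ^ 2) ^ 2 :=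
          pow_le_pow_left₀ h0 e3 2
      _ = (1 + m) ^ 4 := by ring
  have hsum : ∑ x ∈ P, ∑ y ∈ P, (Yp P LL k0 K f x y) ^ 3 ≤
      ∑ x ∈ P, ∑ y ∈ P, (1 + m) ^ 4 *
        ∑ z ∈ P, ∑ w ∈ P, Bm LL k0 K x z * Bm LL k0 K y w * (f z w) ^ 3 :=
    Finset.sum_le_sum (fun x hx => Finset.sum_le_sum (fun y hy => key x hx y hy))
  have hswap : ∑ x ∈ P, ∑ y ∈ P, (1 + (m : ℝ)) ^ 4 *
        ∑ z ∈ P, ∑ w ∈ P, Bm LL k0 K x z * Bm LL k0 K y w * (f z w) ^ 3 =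
      (1 + m) ^ 4 * ∑ z ∈ P, ∑ w ∈ P,
        ((∑ x ∈ P, Bm LL k0 K x z) * (∑ y ∈ P, Bm LL k0 K y w)) * (f z w) ^ 3 := by
    simp_rw [← Finset.mul_sum]
    refine congrArg (fun t : ℝ => (1 + (m : ℝ)) ^ 4 * t) ?_
    calc ∑ x ∈ P, ∑ y ∈ P, ∑ z ∈ P, ∑ w ∈ P, Bm LL k0 K x z * Bm LL k0 K y w * (f z w) ^ 3
        = ∑ x ∈ P, ∑ z ∈ P, ∑ y ∈ P, ∑ w ∈ P, Bm LL k0 K x z * Bm LL k0 K y w * (f z w) ^ 3 :=
          Finset.sum_congr rfl (fun x _ => Finset.sum_comm)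
      _ = ∑ z ∈ P, ∑ x ∈ P, ∑ y ∈ P, ∑ w ∈ P, Bm LL k0 K x z * Bm LL k0 K y w * (f z w) ^ 3 :=
          Finset.sum_comm
      _ = ∑ z ∈ P, ∑ x ∈ P, ∑ w ∈ P, ∑ y ∈ P, Bm LL k0 K x z * Bm LL k0 K y w * (f z w) ^ 3 :=
          Finset.sum_congr rfl (fun z _ => Finset.sum_congr rfl (fun x _ => Finset.sum_comm))
      _ = ∑ z ∈ P, ∑ w ∈ P, ∑ x ∈ P, ∑ y ∈ P, Bm LL k0 K x z * Bm LL k0 K y w * (f z w) ^ 3 :=
          Finset.sum_congr rfl (fun z _ => Finset.sum_comm)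
      _ = ∑ z ∈ P, ∑ w ∈ P,
          ((∑ x ∈ P, Bm LL k0 K x z) * (∑ y ∈ P, Bm LL k0 K y w)) * (f z w) ^ 3 := by
          refine Finset.sum_congr rfl (fun z _ => Finset.sum_congr rfl (fun w _ => ?_))
          rw [Finset.sum_mul_sum, Finset.sum_mul]
          refine Finset.sum_congr rfl (fun x _ => ?_)
          rw [Finset.sum_mul]
  refine hsum.trans ?_
  rw [hswap]
  have hfin : ∑ z ∈ P, ∑ w ∈ P,
        ((∑ x ∈ P, Bm LL k0 K x z) * (∑ y ∈ P, Bm LL k0 K y w)) * (f z w) ^ 3 ≤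
      ∑ z ∈ P, ∑ w ∈ P, (1 + (m : ℝ)) ^ 2 * (f z w) ^ 3 := by
    refine Finset.sum_le_sum (fun z hz => Finset.sum_le_sum (fun w hw => ?_))
    refine mul_le_mul_of_nonneg_right ?_ (pow_nonneg (hf z w) 3)
    rw [sq]
    exact mul_le_mul (hcol z hz) (hcol w hw) (Finset.sum_nonneg (fun y _ => hB y w)) hm
  calc (1 + (m : ℝ)) ^ 4 * ∑ z ∈ P, ∑ w ∈ P,
        ((∑ x ∈ P, Bm LL k0 K x z) * (∑ y ∈ P, Bm LL k0 K y w)) * (f z w) ^ 3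
      ≤ (1 + (m : ℝ)) ^ 4 * ∑ z ∈ P, ∑ w ∈ P, (1 + (m : ℝ)) ^ 2 * (f z w) ^ 3 :=
        mul_le_mul_of_nonneg_left hfin (by positivity)
    _ = (1 + m) ^ 6 * ∑ z ∈ P, ∑ w ∈ P, (f z w) ^ 3 := by
        simp_rw [← Finset.mul_sum]
        ring

/-- the elementary inequality used everywhere: `2 a² y ≤ a³/2 + 32 y³` -/
theorem young3 (a y : ℝ) (ha : 0 ≤ a) (hy : 0 ≤ y) : 2 * a ^ 2 * y ≤ a ^ 3 / 2 + 32 * y ^ 3 := by
  nlinarith [mul_nonneg ha (sq_nonneg (a - 8 / 3 * y)), mul_nonneg hy (sq_nonneg (a - 8 / 3 * y)),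
    pow_nonneg ha 3, pow_nonneg hy 3, mul_nonneg ha (sq_nonneg y), mul_nonneg (sq_nonneg a) hy]

end Pool.Agent.Helper17.SCD
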