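import Mathlib
import Pool.Agent.Helper17.SCD.H1
import Pool.Agent.Helper17.SCD.Jens

set_option autoImplicit false

open scoped Classical

namespace Pool.Agent.Helper17.SCD

/-- equal or on a common small line -/
def rl {d : ℕ} (LL : Finset (Finset (EuclideanSpace ℝ (Fin d)))) (K : ℕ)
    (x y : EuclideanSpace ℝ (Fin d)) : Prop :=
  x = y ∨ ∃ L ∈ LL, L.card < K ∧ x ∈ L ∧ y ∈ L

theorem rl_iff {d : ℕ} (LL : Finset (Finset (EuclideanSpace ℝ (Fin d)))) (K : ℕ)
    (x y : EuclideanSpace ℝ (Fin d)) : ¬ rl LL K x y ↔ (x ≠ y ∧ ¬ sm LL K x y) := by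
  unfold rl sm
  constructor
  · intro h
    exact ⟨fun e => h (Or.inl e), fun e => h (Or.inr e.2)⟩
  · rintro ⟨h1, h2⟩ h3
    rcases h3 with h3 | h3
    · exact h1 h3
    · exact h2 ⟨h1, h3⟩

theorem small_unique {d : ℕ} {α : ℝ} {K : ℕ} {P : Finset (EuclideanSpace ℝ (Fin d))}
    {LL : Finset (Finset (EuclideanSpace ℝ (Fin d)))} (h : Cls α 2 K P LL)
    (b : EuclideanSpace ℝ (Fin d)) (hb : b ∈ P) (I I' : Finset (EuclideanSpace ℝ (Fin d)))
    (hI : I ∈ LL) (hI' : I' ∈ LL) (hIK : I.card < K) (hI'K : I'.card < K)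
    (hbI : b ∈ I) (hbI' : b ∈ I') : I = I' := by
  by_contra hne
  obtain ⟨J, hJ, hbJ, hJK⟩ := h.big b hb
  have hdeg := h.sys.deg b hb
  have hsub : ({I, I', J} : Finset (Finset (EuclideanSpace ℝ (Fin d)))) ⊆
      LL.filter (fun L => b ∈ L) := by
    intro L hL
    simp only [Finset.mem_insert, Finset.mem_singleton] at hL
    rw [Finset.mem_filter]
    rcases hL with h1 | h1 | h1
    · rw [h1]; exact ⟨hI, hbI⟩
    · rw [h1]; exact ⟨hI', hbI'⟩
    · rw [h1]; exact ⟨hJ, hbJ⟩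
  have hcard : ({I, I', J} : Finset (Finset (EuclideanSpace ℝ (Fin d)))).card = 3 := by
    rw [Finset.card_eq_three]
    refine ⟨I, I', J, hne, ?_, ?_, rfl⟩
    · intro h1; rw [h1] at hIK; omega
    · intro h1; rw [h1] at hI'K; omega
  have := Finset.card_le_card hsub
  omega

theorem rl_trans {d : ℕ} {α : ℝ} {K : ℕ} {P : Finset (EuclideanSpace ℝ (Fin d))}
    {LL : Finset (Finset (EuclideanSpace ℝ (Fin d)))} (h : Cls α 2 K P LL)
    (a b c : EuclideanSpace ℝ (Fin d)) (hb : b ∈ P) (hab : rl LL K a b) (hbc : rl LL K b c) :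
    rl LL K a c := by
  rcases hab with hab | ⟨I, hI, hIK, haI, hbI⟩
  · rw [hab]; exact hbc
  · rcases hbc with hbc | ⟨I', hI', hI'K, hbI', hcI'⟩
    · rw [← hbc]; exact Or.inr ⟨I, hI, hIK, haI, hbI⟩
    · have := small_unique h b hb I I' hI hI' hIK hI'K hbI hbI'
      subst this
      exact Or.inr ⟨I, hI, hIK, haI, hcI'⟩

theorem rl_symm {d : ℕ} {LL : Finset (Finset (EuclideanSpace ℝ (Fin d)))} {K : ℕ}
    {a b : EuclideanSpace ℝ (Fin d)} (hab : rl LL K a b) : rl LL K b a := by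
  rcases hab with hab | ⟨I, hI, hIK, haI, hbI⟩
  · exact Or.inl hab.symm
  · exact Or.inr ⟨I, hI, hIK, hbI, haI⟩

theorem r2_eq_small {d : ℕ} {α : ℝ} {T K : ℕ} {P : Finset (EuclideanSpace ℝ (Fin d))}
    {LL : Finset (Finset (EuclideanSpace ℝ (Fin d)))} (h : Cls α 2 K P LL)
    (L : Finset (EuclideanSpace ℝ (Fin d))) (hL : L ∈ LL) (hTL : T ≤ L.card) (hLK : L.card < K)
    (y : EuclideanSpace ℝ (Fin d)) (hy : y ∈ L) :
    r2 LL T K y = rr LL K y - cen (rr LL K) L := by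
  have hyP : y ∈ P := h.sys.sub L hL hy
  have hf : (md LL T K).filter (fun L => y ∈ L) = {L} := by
    ext I
    simp only [md, Finset.mem_filter, Finset.mem_singleton]
    constructor
    · rintro ⟨⟨hI, -, hIK⟩, hyI⟩
      exact small_unique h y hyP I L hI hL hIK hLK hyI hy
    · intro h1
      rw [h1]
      exact ⟨⟨hL, hTL, hLK⟩, hy⟩
  unfold r2 sb
  rw [hf, Finset.sum_singleton]

theorem Z2_abs {d : ℕ} {α : ℝ} {T K : ℕ} {P : Finset (EuclideanSpace ℝ (Fin d))}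
    {LL : Finset (Finset (EuclideanSpace ℝ (Fin d)))} (h : Cls α 2 K P LL)
    (x y : EuclideanSpace ℝ (Fin d)) (hx : x ∈ P) (hy : y ∈ P) :
    |(inner ℝ (r2 LL T K x) (r2 LL T K y) : ℝ)| ≤ 81 := by
  have h1 := r2_norm (k0 := T) (K := K) h.sys x hx
  have h2 := r2_norm (k0 := T) (K := K) h.sys y hy
  norm_num at h1 h2
  have h3 := abs_real_inner_le_norm (r2 LL T K x) (r2 LL T K y)
  nlinarith [norm_nonneg (r2 LL T K x), norm_nonneg (r2 LL T K y)]

theorem W_abs {d : ℕ} {α : ℝ} {T K : ℕ} {P : Finset (EuclideanSpace ℝ (Fin d))}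
    {LL : Finset (Finset (EuclideanSpace ℝ (Fin d)))} (h : Cls α 2 K P LL)
    (x y : EuclideanSpace ℝ (Fin d)) (hx : x ∈ P) (hy : y ∈ P) :
    |(inner ℝ (tt LL T K x) (tt LL T K y) : ℝ)| ≤ 81 := by
  have h1 := tt_norm (k0 := T) (K := K) h.sys x hx
  have h2 := tt_norm (k0 := T) (K := K) h.sys y hy
  norm_num at h1 h2
  have h3 := abs_real_inner_le_norm (tt LL T K x) (tt LL T K y)
  nlinarith [norm_nonneg (tt LL T K x), norm_nonneg (tt LL T K y)]

theorem c4_nonneg : (0 : ℝ) ≤ c4 2 := by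
  unfold c4 c3
  norm_num

theorem bad_row {d : ℕ} {α : ℝ} {T K : ℕ} {P : Finset (EuclideanSpace ℝ (Fin d))}
    {LL : Finset (Finset (EuclideanSpace ℝ (Fin d)))} (h0 : 0 < α) (h1 : α < 1) (hK : 1 ≤ K)
    (h : Cls α 2 K P LL) (x : EuclideanSpace ℝ (Fin d)) (hx : x ∈ P) :
    ∑ y ∈ P.filter (fun y => rl LL K x y), (inner ℝ (r2 LL T K x) (r2 LL T K y) : ℝ) ^ 2 ≤
      6561 + 2 * (T * 6561 + c4 2 * 81) := by
  set g : EuclideanSpace ℝ (Fin d) → ℝ := fun y => (inner ℝ (r2 LL T K x) (r2 LL T K y) : ℝ) ^ 2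
    with hg
  have hg0 : ∀ y, 0 ≤ g y := fun y => sq_nonneg _
  have hg1 : ∀ y ∈ P, g y ≤ 6561 := by
    intro y hy
    have := Z2_abs (T := T) h x y hx hy
    have h3 : g y = |(inner ℝ (r2 LL T K x) (r2 LL T K y) : ℝ)| ^ 2 := by
      rw [hg]; simp only [sq_abs]
    rw [h3]
    nlinarith [abs_nonneg (inner ℝ (r2 LL T K x) (r2 LL T K y) : ℝ)]
  set F := LL.filter (fun L => L.card < K ∧ x ∈ L) with hF
  have hFc : F.card ≤ 2 := by
    refine le_trans (Finset.card_le_card ?_) (h.sys.deg x hx)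
    intro L hL
    rw [hF, Finset.mem_filter] at hL
    rw [Finset.mem_filter]
    exact ⟨hL.1, hL.2.2⟩
  -- each line
  have hline : ∀ L ∈ F, ∑ y ∈ L, g y ≤ T * 6561 + c4 2 * 81 := by
    intro L hL
    rw [hF, Finset.mem_filter] at hL
    obtain ⟨hLL, hLK, hxL⟩ := hL
    by_cases hT : T ≤ L.card
    · have hcs := contr_small h0 h1 hK h.sys h.lt L hLL hLK (r2 LL T K x)
      have heq : ∑ y ∈ L, g y =
          ∑ y ∈ L, (inner ℝ (rr LL K y - cen (rr LL K) L) (r2 LL T K x) : ℝ) ^ 2 := by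
        refine Finset.sum_congr rfl (fun y hy => ?_)
        rw [← r2_eq_small h L hLL hT hLK y hy, real_inner_comm]
      rw [heq]
      refine le_trans hcs ?_
      have hn := r2_norm (k0 := T) (K := K) h.sys x hx
      norm_num at hn
      have hn2 : ‖r2 LL T K x‖ ^ 2 ≤ 81 := by
        nlinarith [norm_nonneg (r2 LL T K x)]
      have hc := c4_nonneg
      have hT0 : (0 : ℝ) ≤ (T : ℝ) := Nat.cast_nonneg T
      have := mul_le_mul_of_nonneg_left hn2 hc
      nlinarith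
    · push Not at hT
      have hb : ∑ y ∈ L, g y ≤ L.card • (6561 : ℝ) :=
        Finset.sum_le_card_nsmul _ _ _ (fun y hy => hg1 y (h.sys.sub L hLL hy))
      rw [nsmul_eq_mul] at hb
      have hc := c4_nonneg
      have : (L.card : ℝ) ≤ T := by exact_mod_cast hT.le
      nlinarith
  have hpt : ∀ y ∈ P, (if rl LL K x y then g y else 0) ≤
      (if x = y then g y else 0) + ∑ L ∈ F, (if y ∈ L then g y else 0) := by
    intro y hy
    have hs0 : 0 ≤ ∑ L ∈ F, (if y ∈ L then g y else 0) := by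
      refine Finset.sum_nonneg (fun L _ => ?_)
      split_ifs
      · exact hg0 y
      · exact le_rfl
    by_cases hr : rl LL K x y
    · rw [if_pos hr]
      rcases hr with hxy | ⟨L, hL, hLK, hxL, hyL⟩
      · rw [if_pos hxy]; linarith
      · have h2 : (if y ∈ L then g y else 0) ≤ ∑ L ∈ F, (if y ∈ L then g y else 0) := by
          refine Finset.single_le_sum (f := fun L => if y ∈ L then g y else 0) ?_ ?_
          · intro L' _
            show (0 : ℝ) ≤ if y ∈ L' then g y else 0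
            split_ifs
            · exact hg0 y
            · exact le_rfl
          · rw [hF, Finset.mem_filter]
            exact ⟨hL, hLK, hxL⟩
        rw [if_pos hyL] at h2
        have h3 : 0 ≤ (if x = y then g y else 0) := by
          split_ifs
          · exact hg0 y
          · exact le_rfl
        linarith
    · rw [if_neg hr]
      have h3 : 0 ≤ (if x = y then g y else 0) := by
        split_ifs
        · exact hg0 y
        · exact le_rfl
      linarith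
  rw [Finset.sum_filter]
  refine le_trans (Finset.sum_le_sum hpt) ?_
  rw [Finset.sum_add_distrib, Finset.sum_comm]
  have hA : ∑ y ∈ P, (if x = y then g y else 0) ≤ 6561 := by
    rw [Finset.sum_ite_eq, if_pos hx]
    exact hg1 x hx
  have hB : ∑ L ∈ F, ∑ y ∈ P, (if y ∈ L then g y else 0) ≤ 2 * (T * 6561 + c4 2 * 81) := by
    have hb : ∑ L ∈ F, ∑ y ∈ P, (if y ∈ L then g y else 0) ≤
        F.card • ((T : ℝ) * 6561 + c4 2 * 81) := by
      refine Finset.sum_le_card_nsmul _ _ _ (fun L hL => ?_)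
      have hLP : L ⊆ P := by
        rw [hF, Finset.mem_filter] at hL
        exact h.sys.sub L hL.1
      rw [Finset.sum_ite_mem, Finset.inter_eq_right.mpr hLP]
      exact hline L hL
    rw [nsmul_eq_mul] at hb
    have hc := c4_nonneg
    have hT0 : (0 : ℝ) ≤ (T : ℝ) := Nat.cast_nonneg T
    have : (F.card : ℝ) ≤ 2 := by exact_mod_cast hFc
    nlinarith [mul_le_mul_of_nonneg_right this
      (by positivity : (0 : ℝ) ≤ (T : ℝ) * 6561 + c4 2 * 81)]
  linarith

theorem Bm_rl {d : ℕ} {LL : Finset (Finset (EuclideanSpace ℝ (Fin d)))} {T K : ℕ}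
    {x z : EuclideanSpace ℝ (Fin d)} (hB : Bm LL T K x z ≠ 0) : rl LL K x z := by
  by_contra hr
  apply hB
  unfold rl at hr
  push Not at hr
  unfold Bm
  rw [if_neg hr.1, zero_add]
  refine Finset.sum_eq_zero (fun I hI => ?_)
  rw [Finset.mem_filter, md, Finset.mem_filter] at hI
  exact absurd hI.2.2 (hr.2 I hI.1.1 hI.1.2.2 hI.2.1)

theorem Yp_good {d : ℕ} {α : ℝ} {T K : ℕ} {P : Finset (EuclideanSpace ℝ (Fin d))}
    {LL : Finset (Finset (EuclideanSpace ℝ (Fin d)))} (h : Cls α 2 K P LL)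
    (u : EuclideanSpace ℝ (Fin d) → EuclideanSpace ℝ (Fin d) → ℝ)
    (x y : EuclideanSpace ℝ (Fin d)) (hxy : ¬ rl LL K x y) :
    Yp P LL T K u x y = Yp P LL T K (fun z w => if rl LL K z w then 0 else u z w) x y := by
  unfold Yp
  refine Finset.sum_congr rfl (fun z hz => Finset.sum_congr rfl (fun w hw => ?_))
  by_cases h1 : Bm LL T K x z = 0
  · rw [h1, zero_mul, zero_mul, zero_mul]
  · by_cases h2 : Bm LL T K y w = 0
    · rw [h2, mul_zero, zero_mul, zero_mul]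
    · dsimp only
      rw [if_neg]
      intro hzw
      exact hxy (rl_trans h x z y hz (Bm_rl h1) (rl_trans h z w y hw hzw (rl_symm (Bm_rl h2))))

/-
SCD-ExCubes (1.2 h). m = 2: every x in P is on at least one line with ≥ K points, so on AT MOST ONE line with < K points (h.deg with m = 2).
-/
theorem ex_cubes (T : ℕ) (hT : 1 ≤ T) : ∃ C : ℝ, 0 < C ∧
    ∀ {d : ℕ} {α : ℝ} {K : ℕ} {P : Finset (EuclideanSpace ℝ (Fin d))}
    {LL : Finset (Finset (EuclideanSpace ℝ (Fin d)))}, 0 < α → α < 1 → 1 ≤ K → Cls α 2 K P LL →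
    ∑ x ∈ P, ∑ y ∈ P, |(inner ℝ (r2 LL T K x) (r2 LL T K y) : ℝ)| ^ 3 ≤ C * P.card := by
  obtain ⟨C, hC, hone⟩ := h_one 2
  set C1 : ℝ := 6561 + 2 * (T * 6561 + c4 2 * 81) with hC1
  have hC1pos : 0 < C1 := by
    have hc := c4_nonneg
    have hT0 : (0 : ℝ) ≤ (T : ℝ) := Nat.cast_nonneg T
    rw [hC1]; positivity
  refine ⟨243 * C1 + 64 * (729 * C), by positivity, ?_⟩
  intro d α K P LL h0 h1 hK h
  set Z : EuclideanSpace ℝ (Fin d) → EuclideanSpace ℝ (Fin d) → ℝ :=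
    fun x y => (inner ℝ (r2 LL T K x) (r2 LL T K y) : ℝ) with hZ
  set W : EuclideanSpace ℝ (Fin d) → EuclideanSpace ℝ (Fin d) → ℝ :=
    fun x y => (inner ℝ (tt LL T K x) (tt LL T K y) : ℝ) with hW
  set f : EuclideanSpace ℝ (Fin d) → EuclideanSpace ℝ (Fin d) → ℝ :=
    fun z w => if rl LL K z w then 0 else max (inner ℝ (rr LL K z) (rr LL K w) : ℝ) 0 with hf
  have hf0 : ∀ x y, 0 ≤ f x y := by
    intro x y
    rw [hf]
    dsimp only
    split_ifs
    · exact le_rfl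
    · exact le_max_right _ _
  have hY0 : ∀ x y, 0 ≤ Yp P LL T K f x y := by
    intro x y
    unfold Yp
    exact Finset.sum_nonneg (fun z _ => Finset.sum_nonneg (fun w _ =>
      mul_nonneg (mul_nonneg (Bm_nonneg LL T K x z) (Bm_nonneg LL T K y w)) (hf0 z w)))
  -- cubes of f
  have hfc : ∑ z ∈ P, ∑ w ∈ P, (f z w) ^ 3 ≤ C * P.card := by
    refine le_trans (le_of_eq ?_) (hone h0 h1 hK h.sys h.lt)
    refine Finset.sum_congr rfl (fun z _ => ?_)
    rw [Finset.sum_filter]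
    refine Finset.sum_congr rfl (fun w _ => ?_)
    rw [hf]
    dsimp only
    by_cases hr : rl LL K z w
    · rw [if_pos hr, if_neg]
      · norm_num
      · rw [← rl_iff]; exact not_not.mpr hr
    · rw [if_neg hr, if_pos ((rl_iff LL K z w).mp hr)]
  have hYc : ∑ x ∈ P, ∑ y ∈ P, (Yp P LL T K f x y) ^ 3 ≤ 729 * (C * P.card) := by
    have := Yp_cube (k0 := T) (K := K) h.sys f hf0
    have h3 : ((1 : ℝ) + (2 : ℕ)) ^ 6 = 729 := by norm_num
    rw [h3] at this
    linarith [mul_le_mul_of_nonneg_left hfc (by norm_num : (0 : ℝ) ≤ 729)]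
  -- bad sum of squares
  have hbad : ∑ x ∈ P, ∑ y ∈ P, (if rl LL K x y then (Z x y) ^ 2 else 0) ≤ C1 * P.card := by
    have hb : ∑ x ∈ P, ∑ y ∈ P, (if rl LL K x y then (Z x y) ^ 2 else 0) ≤ P.card • C1 := by
      refine Finset.sum_le_card_nsmul _ _ _ (fun x hx => ?_)
      rw [← Finset.sum_filter]
      exact bad_row h0 h1 hK h x hx
    rw [nsmul_eq_mul] at hb
    linarith
  -- pointwise inequality
  have hpt : ∀ x ∈ P, ∀ y ∈ P, |Z x y| ^ 3 ≤ 243 * (if rl LL K x y then (Z x y) ^ 2 else 0)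
      - 2 * (W x y * (Z x y) ^ 2) + 64 * (Yp P LL T K f x y) ^ 3 := by
    intro x hx y hy
    have hZa : |Z x y| ≤ 81 := Z2_abs h x y hx hy
    have hWa : |W x y| ≤ 81 := W_abs h x y hx hy
    have hZ2 : |Z x y| ^ 2 = (Z x y) ^ 2 := sq_abs _
    have hZ3 : |Z x y| ^ 3 = |Z x y| * (Z x y) ^ 2 := by rw [pow_succ, hZ2]; ring
    have hsq : 0 ≤ (Z x y) ^ 2 := sq_nonneg _
    have hY3 : 0 ≤ (Yp P LL T K f x y) ^ 3 := pow_nonneg (hY0 x y) 3
    by_cases hr : rl LL K x y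
    · rw [if_pos hr]
      have h2 : |Z x y| * (Z x y) ^ 2 ≤ 81 * (Z x y) ^ 2 := mul_le_mul_of_nonneg_right hZa hsq
      have h3 : W x y * (Z x y) ^ 2 ≤ 81 * (Z x y) ^ 2 :=
        mul_le_mul_of_nonneg_right (le_trans (le_abs_self _) hWa) hsq
      rw [hZ3]
      linarith
    · rw [if_neg hr]
      have ht := abs_le_test (k0 := T) (K := K) h.sys x hx y hy
      rw [Yp_good h _ x y hr] at ht
      have ht' : |Z x y| ≤ -W x y + 2 * Yp P LL T K f x y := ht
      have hy3 := young3 |Z x y| (Yp P LL T K f x y) (abs_nonneg _) (hY0 x y)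
      rw [hZ2] at hy3
      have h4 : |Z x y| * (Z x y) ^ 2 ≤ (-W x y + 2 * Yp P LL T K f x y) * (Z x y) ^ 2 :=
        mul_le_mul_of_nonneg_right ht' hsq
      rw [← hZ3] at h4
      nlinarith
  have htest : 0 ≤ ∑ x ∈ P, ∑ y ∈ P, W x y * (Z x y) ^ 2 := test_ineq P LL T K
  have hsum := Finset.sum_le_sum (fun x hx => Finset.sum_le_sum (fun y hy => hpt x hx y hy))
  simp only [Finset.sum_add_distrib, Finset.sum_sub_distrib, ← Finset.mul_sum] at hsum
  have hN : (0 : ℝ) ≤ (P.card : ℝ) := Nat.cast_nonneg _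
  calc ∑ x ∈ P, ∑ y ∈ P, |Z x y| ^ 3
      ≤ 243 * ∑ x ∈ P, ∑ y ∈ P, (if rl LL K x y then (Z x y) ^ 2 else 0)
        - 2 * ∑ x ∈ P, ∑ y ∈ P, W x y * (Z x y) ^ 2
        + 64 * ∑ x ∈ P, ∑ y ∈ P, (Yp P LL T K f x y) ^ 3 := hsum
    _ ≤ (243 * C1 + 64 * (729 * C)) * P.card := by nlinarith

end Pool.Agent.Helper17.SCD
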