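import Mathlib
import Pool.Agent.Helper17.SCD.Clq
import Pool.Agent.Helper17.SCD.BigRow

set_option autoImplicit false

open scoped Classical

namespace Pool.Agent.Helper17.SCD

/-
SCD-Trace (0.8 h). Plan: r = rr LL K, B = bg LL K, M = md LL k0 K. a(k) = α + (1-α)/k ≤ α + 1/k.
sum_x <r2 x, x> = sum_x <r x, x> - sum_x sum_{I in M, x in I} <cen r I, x>, and
sum_x <r x, x> = N - sum_{J in B} sum_{x in J} <cen J, x> = N - sum_J |J| a(|J|) (clq_inner),
sum_x sum_{I ∋ x} <cen r I, x> = sum_{I in M} |I| <cen r I, cen id I>.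
med_inner: cen r I = cen id I - (1/|I|) sum_{z in I} sum_{J in B, z in J} cen J, so <cen r I, cen id I> = ‖cen id I‖² - (1/|I|) sum_{J in B'} <cen J, cen id I>
where B' = the J in B meeting I (each J meets I in exactly one point, h.meet, J ≠ I because |I| < K ≤ |J|), #B' ≤ m |I|. Cauchy-Schwarz:
|sum_{B'}| ≤ sqrt(m |I|) sqrt(sum_B <cen J, cen id I>²) ≤ sqrt(m |I|) sqrt(c3 m) (bessel, ‖cen id I‖ ≤ 1). So <cen r I, cen id I> ≤ α + 1/|I| + sqrt(m c3 / |I|).
trace_low: sum ≥ N - sum_{J in B ∪ M} |J| (α + ε), ε = 1/k0 + sqrt(m c3 m/k0), sum |J| ≤ m N (sum_lines): ≥ N (1 - mα - mε); choose T0 with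
m ε ≤ (1 - mα)/2 for k0 ≥ T0.
-/
private theorem swap_sum {d : ℕ} (P : Finset (EuclideanSpace ℝ (Fin d)))
    (F : Finset (Finset (EuclideanSpace ℝ (Fin d)))) (hF : ∀ J ∈ F, J ⊆ P)
    (g : Finset (EuclideanSpace ℝ (Fin d)) → EuclideanSpace ℝ (Fin d) → ℝ) :
    ∑ x ∈ P, ∑ J ∈ F.filter (fun L => x ∈ L), g J x = ∑ J ∈ F, ∑ x ∈ J, g J x := by
  have h1 : ∀ x ∈ P, ∑ J ∈ F.filter (fun L => x ∈ L), g J x =
      ∑ J ∈ F, if x ∈ J then g J x else 0 := fun x _ => Finset.sum_filter _ _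
  rw [Finset.sum_congr rfl h1, Finset.sum_comm]
  apply Finset.sum_congr rfl
  intro J hJ
  rw [← Finset.sum_filter, Finset.filter_mem_eq_inter, Finset.inter_eq_right.2 (hF J hJ)]

private theorem swap_card {d : ℕ} (I : Finset (EuclideanSpace ℝ (Fin d)))
    (F : Finset (Finset (EuclideanSpace ℝ (Fin d))))
    (f : Finset (EuclideanSpace ℝ (Fin d)) → ℝ) :
    ∑ x ∈ I, ∑ J ∈ F.filter (fun L => x ∈ L), f J = ∑ J ∈ F, ((I ∩ J).card : ℝ) * f J := by
  have h1 : ∀ x ∈ I, ∑ J ∈ F.filter (fun L => x ∈ L), f J =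
      ∑ J ∈ F, if x ∈ J then f J else 0 := fun x _ => Finset.sum_filter _ _
  rw [Finset.sum_congr rfl h1, Finset.sum_comm]
  apply Finset.sum_congr rfl
  intro J hJ
  rw [← Finset.sum_filter, Finset.filter_mem_eq_inter, Finset.sum_const, nsmul_eq_mul]

private theorem cen_inner {d : ℕ} (w : EuclideanSpace ℝ (Fin d) → EuclideanSpace ℝ (Fin d))
    (L : Finset (EuclideanSpace ℝ (Fin d))) (u : EuclideanSpace ℝ (Fin d)) :
    (inner ℝ (cen w L) u : ℝ) = (L.card : ℝ)⁻¹ * ∑ y ∈ L, (inner ℝ (w y) u : ℝ) := by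
  unfold cen
  rw [real_inner_smul_left, sum_inner]

private theorem sb_inner {d : ℕ} (w : EuclideanSpace ℝ (Fin d) → EuclideanSpace ℝ (Fin d))
    (F : Finset (Finset (EuclideanSpace ℝ (Fin d)))) (x u : EuclideanSpace ℝ (Fin d)) :
    (inner ℝ (sb w F x) u : ℝ) = (inner ℝ (w x) u : ℝ) -
      ∑ J ∈ F.filter (fun L => x ∈ L), (inner ℝ (cen w J) u : ℝ) := by
  unfold sb
  rw [inner_sub_left, sum_inner]

theorem med_inner {d : ℕ} {α : ℝ} {m K : ℕ} {P : Finset (EuclideanSpace ℝ (Fin d))}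
    {LL : Finset (Finset (EuclideanSpace ℝ (Fin d)))} (h0 : 0 < α) (h1 : α < 1) (hK : 1 ≤ K)
    (h : LineSys α m P LL) (hlt : ∀ L ∈ LL, L.card < 2 * K) (I : Finset (EuclideanSpace ℝ (Fin d)))
    (hI : I ∈ LL) (hIK : I.card < K) :
    (inner ℝ (cen (rr LL K) I) (cen (fun y => y) I) : ℝ) ≤
      α + 1 / I.card + Real.sqrt (m * c3 m / I.card) := by
  have hIc : 2 ≤ I.card := h.two I hI
  have hIne : I.Nonempty := Finset.card_pos.1 (by omega)
  have hI0 : (0 : ℝ) < I.card := by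
    have : 0 < I.card := by omega
    exact_mod_cast this
  have hIsub : I ⊆ P := h.sub I hI
  have hcn := clq_norm (α := α) I hIne (fun x hx => h.unit x (hIsub hx)) (h.adj I hI)
  have hc1 : ‖cen (fun y => y) I‖ ^ 2 ≤ 1 := by
    rw [hcn]
    have h2 : (1 - α) / I.card ≤ 1 - α := by
      apply div_le_self (by linarith)
      have : 1 ≤ I.card := by omega
      exact_mod_cast this
    linarith
  have hc3 : 0 ≤ c3 m := by
    unfold c3
    positivity
  set u := cen (fun y => y) I with hu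
  set f : Finset (EuclideanSpace ℝ (Fin d)) → ℝ :=
    fun J => (inner ℝ (cen (fun y => y) J) u : ℝ) with hf
  have e1 : (inner ℝ (cen (rr LL K) I) u : ℝ) = ‖u‖ ^ 2 -
      (I.card : ℝ)⁻¹ * ∑ J ∈ bg LL K, ((I ∩ J).card : ℝ) * f J := by
    rw [cen_inner]
    have e2 : ∀ y ∈ I, (inner ℝ (rr LL K y) u : ℝ) = (inner ℝ y u : ℝ) -
        ∑ J ∈ (bg LL K).filter (fun L => y ∈ L), f J := by
      intro y _
      unfold rr
      rw [sb_inner]
    rw [Finset.sum_congr rfl e2, Finset.sum_sub_distrib, mul_sub, swap_card]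
    have e3 : (I.card : ℝ)⁻¹ * ∑ x ∈ I, (inner ℝ x u : ℝ) = ‖u‖ ^ 2 := by
      rw [← real_inner_self_eq_norm_sq]
      conv_rhs => rw [hu]
      rw [cen_inner]
    rw [e3]
  have hint : ∀ J ∈ bg LL K, (I ∩ J).card ≤ 1 := by
    intro J hJ
    unfold bg at hJ
    rw [Finset.mem_filter] at hJ
    apply h.meet I hI J hJ.1
    rintro rfl
    omega
  have hcs := Finset.sum_mul_sq_le_sq_mul_sq (bg LL K) (fun J => ((I ∩ J).card : ℝ)) f
  have hs1 : ∑ J ∈ bg LL K, ((I ∩ J).card : ℝ) ^ 2 ≤ m * I.card := by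
    have h3 : ∀ J ∈ bg LL K, ((I ∩ J).card : ℝ) ^ 2 ≤ ((I ∩ J).card : ℝ) * 1 := by
      intro J hJ
      have h4 : ((I ∩ J).card : ℝ) ≤ 1 := by exact_mod_cast hint J hJ
      have h5 : (0 : ℝ) ≤ (I ∩ J).card := Nat.cast_nonneg _
      nlinarith
    refine (Finset.sum_le_sum h3).trans ?_
    rw [← swap_card I (bg LL K) (fun _ => 1)]
    have h4 : ∀ x ∈ I, ∑ J ∈ (bg LL K).filter (fun L => x ∈ L), (1 : ℝ) ≤ m := by
      intro x hx
      rw [Finset.sum_const, nsmul_eq_mul, mul_one]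
      have h5 := h.deg x (hIsub hx)
      have h6 : ((bg LL K).filter (fun L => x ∈ L)).card ≤ (LL.filter (fun L => x ∈ L)).card := by
        apply Finset.card_le_card
        apply Finset.filter_subset_filter
        unfold bg
        exact Finset.filter_subset _ _
      exact_mod_cast h6.trans h5
    refine (Finset.sum_le_sum h4).trans ?_
    rw [Finset.sum_const, nsmul_eq_mul, mul_comm]
  have hs2 : ∑ J ∈ bg LL K, f J ^ 2 ≤ c3 m := by
    have h3 := bessel h0 h1 hK h hlt u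
    refine h3.trans ?_
    nlinarith
  have hsum : |∑ J ∈ bg LL K, ((I ∩ J).card : ℝ) * f J| ≤ Real.sqrt (m * I.card * c3 m) := by
    apply Real.abs_le_sqrt
    refine hcs.trans ?_
    have h3 : (0 : ℝ) ≤ ∑ J ∈ bg LL K, f J ^ 2 := Finset.sum_nonneg (fun _ _ => sq_nonneg _)
    exact mul_le_mul hs1 hs2 h3 (by positivity)
  have hfin : (I.card : ℝ)⁻¹ * Real.sqrt (m * I.card * c3 m) = Real.sqrt (m * c3 m / I.card) := by
    have h3 : (m : ℝ) * I.card * c3 m = (m * c3 m / I.card) * (I.card) ^ 2 := by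
      field_simp
    rw [h3, Real.sqrt_mul (by positivity), Real.sqrt_sq hI0.le]
    field_simp
  rw [e1]
  have h4 : -(Real.sqrt (m * c3 m / I.card)) ≤
      (I.card : ℝ)⁻¹ * ∑ J ∈ bg LL K, ((I ∩ J).card : ℝ) * f J := by
    rw [← hfin, ← mul_neg]
    apply mul_le_mul_of_nonneg_left _ (by positivity)
    linarith [neg_abs_le (∑ J ∈ bg LL K, ((I ∩ J).card : ℝ) * f J)]
  have h5 : ‖u‖ ^ 2 ≤ α + 1 / I.card := by
    rw [hcn]
    have : (1 - α) / (I.card : ℝ) ≤ 1 / I.card := by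
      apply div_le_div_of_nonneg_right _ hI0.le
      linarith
    linarith
  linarith

theorem trace_low (α : ℝ) (m : ℕ) (h0 : 0 < α) (h1 : α < 1) (hmα : m * α < 1) : ∃ T0 : ℕ, 1 ≤ T0 ∧
    ∀ {d : ℕ} {K k0 : ℕ} {P : Finset (EuclideanSpace ℝ (Fin d))}
    {LL : Finset (Finset (EuclideanSpace ℝ (Fin d)))}, T0 ≤ k0 → k0 ≤ K →
    LineSys α m P LL → (∀ L ∈ LL, L.card < 2 * K) →
    (1 - m * α) / 2 * P.card ≤ ∑ x ∈ P, (inner ℝ (r2 LL k0 K x) x : ℝ) := by
  have hδ : (0 : ℝ) < (1 - m * α) / 2 := by linarith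
  have ht : Filter.Tendsto (fun k : ℕ => (m : ℝ) * (1 / (k : ℝ) + Real.sqrt (m * c3 m / k)))
      Filter.atTop (nhds 0) := by
    have t1 : Filter.Tendsto (fun k : ℕ => 1 / (k : ℝ)) Filter.atTop (nhds 0) :=
      tendsto_one_div_atTop_nhds_zero_nat
    have t2 : Filter.Tendsto (fun k : ℕ => (m : ℝ) * c3 m / (k : ℝ)) Filter.atTop (nhds 0) :=
      tendsto_const_div_atTop_nhds_zero_nat _
    have t3 := (Real.continuous_sqrt.tendsto 0).comp t2
    rw [Real.sqrt_zero] at t3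
    have t4 := (t1.add t3).const_mul (m : ℝ)
    rw [add_zero, mul_zero] at t4
    exact t4
  obtain ⟨N0, hN0⟩ := Filter.eventually_atTop.1 (ht.eventually_le_const hδ)
  refine ⟨max 1 N0, le_max_left _ _, ?_⟩
  intro d K k0 P LL hT hkK h hlt
  have hk1 : 1 ≤ k0 := (le_max_left _ _).trans hT
  have hK1 : 1 ≤ K := hk1.trans hkK
  have hε := hN0 k0 ((le_max_right _ _).trans hT)
  have hk0 : (0 : ℝ) < k0 := by exact_mod_cast hk1
  set ε : ℝ := 1 / (k0 : ℝ) + Real.sqrt (m * c3 m / k0) with hεdef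
  have hc3 : 0 ≤ c3 m := by
    unfold c3
    positivity
  have hε0 : 0 ≤ ε := by positivity
  have hbsub : ∀ J ∈ bg LL K, J ⊆ P := by
    intro J hJ
    unfold bg at hJ
    exact h.sub J (Finset.mem_filter.1 hJ).1
  have hmsub : ∀ J ∈ md LL k0 K, J ⊆ P := by
    intro J hJ
    unfold md at hJ
    exact h.sub J (Finset.mem_filter.1 hJ).1
  have e1 : ∑ x ∈ P, (inner ℝ (rr LL K x) x : ℝ) =
      P.card - ∑ J ∈ bg LL K, ∑ x ∈ J, (inner ℝ (cen (fun y => y) J) x : ℝ) := by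
    have e2 : ∀ x ∈ P, (inner ℝ (rr LL K x) x : ℝ) = 1 -
        ∑ J ∈ (bg LL K).filter (fun L => x ∈ L), (inner ℝ (cen (fun y => y) J) x : ℝ) := by
      intro x hx
      unfold rr
      rw [sb_inner, real_inner_self_eq_norm_sq, h.unit x hx]
      norm_num
    rw [Finset.sum_congr rfl e2, Finset.sum_sub_distrib, swap_sum P _ hbsub]
    simp
  have e3 : ∑ x ∈ P, (inner ℝ (r2 LL k0 K x) x : ℝ) = ∑ x ∈ P, (inner ℝ (rr LL K x) x : ℝ) -
      ∑ I ∈ md LL k0 K, ∑ x ∈ I, (inner ℝ (cen (rr LL K) I) x : ℝ) := by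
    have e4 : ∀ x ∈ P, (inner ℝ (r2 LL k0 K x) x : ℝ) = (inner ℝ (rr LL K x) x : ℝ) -
        ∑ I ∈ (md LL k0 K).filter (fun L => x ∈ L), (inner ℝ (cen (rr LL K) I) x : ℝ) := by
      intro x hx
      unfold r2
      rw [sb_inner]
    rw [Finset.sum_congr rfl e4, Finset.sum_sub_distrib, swap_sum P _ hmsub]
  have b1 : ∀ J ∈ bg LL K, ∑ x ∈ J, (inner ℝ (cen (fun y => y) J) x : ℝ) ≤
      (α + ε) * J.card := by
    intro J hJ
    have hJsub := hbsub J hJ
    unfold bg at hJ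
    rw [Finset.mem_filter] at hJ
    have hJ0 : (0 : ℝ) < J.card := by
      have : 0 < J.card := by omega
      exact_mod_cast this
    have hJk : (k0 : ℝ) ≤ J.card := by exact_mod_cast hkK.trans hJ.2
    have h2 : ∀ x ∈ J, (inner ℝ (cen (fun y => y) J) x : ℝ) = α + (1 - α) / J.card := by
      intro x hx
      rw [real_inner_comm]
      exact clq_inner J (fun y hy => h.unit y (hJsub hy)) (h.adj J hJ.1) x hx
    rw [Finset.sum_congr rfl h2, Finset.sum_const, nsmul_eq_mul, mul_comm]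
    apply mul_le_mul_of_nonneg_right _ hJ0.le
    have h3 : (1 - α) / (J.card : ℝ) ≤ 1 / k0 := by
      rw [div_le_div_iff₀ hJ0 hk0]
      nlinarith
    have h4 : (0 : ℝ) ≤ Real.sqrt (m * c3 m / k0) := Real.sqrt_nonneg _
    rw [hεdef]
    linarith
  have b2 : ∀ I ∈ md LL k0 K, ∑ x ∈ I, (inner ℝ (cen (rr LL K) I) x : ℝ) ≤
      (α + ε) * I.card := by
    intro I hI
    unfold md at hI
    rw [Finset.mem_filter] at hI
    have hI0 : (0 : ℝ) < I.card := by
      have : 0 < I.card := by omega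
      exact_mod_cast this
    have hIk : (k0 : ℝ) ≤ I.card := by exact_mod_cast hI.2.1
    have h2 := med_inner h0 h1 hK1 h hlt I hI.1 hI.2.2
    have h3 : ∑ x ∈ I, (inner ℝ (cen (rr LL K) I) x : ℝ) =
        (I.card : ℝ) * (inner ℝ (cen (rr LL K) I) (cen (fun y => y) I) : ℝ) := by
      rw [real_inner_comm (cen (fun y => y) I) (cen (rr LL K) I), cen_inner]
      rw [← mul_assoc, mul_inv_cancel₀ hI0.ne', one_mul]
      apply Finset.sum_congr rfl
      intro x _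
      rw [real_inner_comm]
    rw [h3, mul_comm]
    apply mul_le_mul_of_nonneg_right _ hI0.le
    refine h2.trans ?_
    have h4 : (1 : ℝ) / I.card ≤ 1 / k0 := one_div_le_one_div_of_le hk0 hIk
    have h5 : Real.sqrt (m * c3 m / I.card) ≤ Real.sqrt (m * c3 m / k0) := by
      apply Real.sqrt_le_sqrt
      apply div_le_div_of_nonneg_left (by positivity) hk0 hIk
    rw [hεdef]
    linarith
  have hdisj : Disjoint (bg LL K) (md LL k0 K) := by
    rw [Finset.disjoint_left]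
    intro J hJ hJ2
    unfold bg at hJ
    unfold md at hJ2
    rw [Finset.mem_filter] at hJ hJ2
    omega
  have hsl := sum_lines h (bg LL K ∪ md LL k0 K) (by
    apply Finset.union_subset
    · unfold bg
      exact Finset.filter_subset _ _
    · unfold md
      exact Finset.filter_subset _ _)
  rw [Finset.sum_union hdisj] at hsl
  have hsl' : (∑ J ∈ bg LL K, (J.card : ℝ)) + ∑ J ∈ md LL k0 K, (J.card : ℝ) ≤ m * P.card := by
    exact_mod_cast hsl
  have c1 := Finset.sum_le_sum b1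
  have c2 := Finset.sum_le_sum b2
  rw [← Finset.mul_sum] at c1 c2
  rw [e3, e1]
  have hP : (0 : ℝ) ≤ P.card := Nat.cast_nonneg _
  have c5 : (α + ε) * (∑ J ∈ bg LL K, (J.card : ℝ)) + (α + ε) * ∑ J ∈ md LL k0 K, (J.card : ℝ) ≤
      (α + ε) * (m * P.card) := by
    rw [← mul_add]
    exact mul_le_mul_of_nonneg_left hsl' (by linarith)
  have c6 : (m : ℝ) * ε * P.card ≤ (1 - m * α) / 2 * P.card := mul_le_mul_of_nonneg_right hε hP
  nlinarith

end Pool.Agent.Helper17.SCD
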