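import Mathlib
import Pool.Agent.Helper17.SCD.H1
import Pool.Agent.Helper17.SCD.Trace
import Pool.Agent.Helper49.Sph.C2

set_option autoImplicit false

open scoped Classical

namespace Pool.Agent.Helper17.SCD

/-
SCD-FromCubes (0.7 h). Plan: T0 from trace_low, c = (1 - mα)/2 > 0, N = P.card (N = 0 trivial), Z2 = <r2 x, r2 y>.
cN ≤ sum <r2 x, x> ≤ sqrt(sum ‖r2 x‖²) sqrt(N), so sum ‖r2 x‖² ≥ c² N. Pool.Agent.Helper49.Sph.tensor2 with x = ρ = r2: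
(sum ‖r2 x‖²)² ≤ d sum Z2². With s = sqrt(K/k0) > 0: Z2² ≤ (s |Z2|³ + |Z2|/s)/2, sum |Z2| ≤ (m+1)² sum |<rr,rr>| ≤ (m+1)^4 (2+4m) K N (abs_sum with
w = rr, F = md; Z_sum). So sum Z2² ≤ (1/2)(s A k0 N + (m+1)^4(2+4m) K N/s) = (1/2)(A + (m+1)^4(2+4m)) N sqrt(K k0), and
c^4 N² ≤ d (..) N sqrt(K k0); C = (A + (m+1)^4(2+4m))/(2 c^4).
-/
private theorem fc_young (s z : ℝ) (hs : 0 < s) : z ^ 2 ≤ (s * |z| ^ 3 + s⁻¹ * |z|) / 2 := by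
  have h1 : 0 ≤ s⁻¹ * (|z| * (s * |z| - 1) ^ 2) := by positivity
  have h2 : s⁻¹ * (|z| * (s * |z| - 1) ^ 2) = s * |z| ^ 3 + s⁻¹ * |z| - 2 * |z| ^ 2 := by
    field_simp
    ring
  have h3 : |z| ^ 2 = z ^ 2 := sq_abs z
  linarith

theorem from_cubes (α : ℝ) (m : ℕ) (h0 : 0 < α) (h1 : α < 1) (hmα : m * α < 1) : ∃ T0 : ℕ, 1 ≤ T0 ∧
    ∀ A : ℝ, 0 < A → ∃ C : ℝ, 0 < C ∧
    ∀ {d : ℕ} {K k0 : ℕ} {P : Finset (EuclideanSpace ℝ (Fin d))}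
    {LL : Finset (Finset (EuclideanSpace ℝ (Fin d)))}, T0 ≤ k0 → k0 ≤ K →
    LineSys α m P LL → (∀ L ∈ LL, L.card < 2 * K) →
    ∑ x ∈ P, ∑ y ∈ P, |(inner ℝ (r2 LL k0 K x) (r2 LL k0 K y) : ℝ)| ^ 3 ≤ A * k0 * P.card →
    (P.card : ℝ) ≤ C * d * Real.sqrt (K * k0) := by
  obtain ⟨T0, hT0, htr⟩ := trace_low α m h0 h1 hmα
  refine ⟨T0, hT0, fun A hA => ?_⟩
  obtain ⟨c, hc⟩ : ∃ c : ℝ, c = (1 - m * α) / 2 := ⟨_, rfl⟩
  have hcpos : 0 < c := by rw [hc]; linarith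
  refine ⟨(A + (m + 1) ^ 4 * (2 + 4 * m)) / (2 * c ^ 4), by positivity, ?_⟩
  intro d K k0 P LL hTk hkK h hlt hcube
  have hk1 : 1 ≤ k0 := le_trans hT0 hTk
  have hK1 : 1 ≤ K := le_trans hk1 hkK
  have hk1' : (0 : ℝ) < k0 := by exact_mod_cast hk1
  have hK1' : (0 : ℝ) < K := by exact_mod_cast hK1
  obtain ⟨q, hq⟩ : ∃ q : ℝ, q = Real.sqrt (K * k0) := ⟨_, rfl⟩
  have hqpos : 0 < q := by rw [hq]; exact Real.sqrt_pos.mpr (by positivity)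
  have hq2 : q ^ 2 = K * k0 := by rw [hq]; exact Real.sq_sqrt (by positivity)
  rw [← hq]
  rcases Nat.eq_zero_or_pos P.card with hN | hN
  · rw [hN]; push_cast; positivity
  have hN' : (0 : ℝ) < P.card := by exact_mod_cast hN
  have htr' := htr hTk hkK h hlt
  rw [← hc] at htr'
  -- Step 1
  have hS1 : (∑ x ∈ P, (inner ℝ (r2 LL k0 K x) x : ℝ)) ^ 2 ≤ (∑ x ∈ P, ‖r2 LL k0 K x‖ ^ 2) * P.card := by
    have e1 : |∑ x ∈ P, (inner ℝ (r2 LL k0 K x) x : ℝ)| ≤ ∑ x ∈ P, ‖r2 LL k0 K x‖ * ‖x‖ :=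
      (Finset.abs_sum_le_sum_abs _ _).trans (Finset.sum_le_sum (fun x _ => abs_real_inner_le_norm _ _))
    have e2 : (∑ x ∈ P, ‖r2 LL k0 K x‖ * ‖x‖) ^ 2 ≤ (∑ x ∈ P, ‖r2 LL k0 K x‖ ^ 2) * ∑ x ∈ P, ‖x‖ ^ 2 :=
      Finset.sum_mul_sq_le_sq_mul_sq _ _ _
    have e3 : ∑ x ∈ P, ‖x‖ ^ 2 = (P.card : ℝ) := by
      rw [Finset.sum_congr rfl (fun x hx => by rw [h.unit x hx]; norm_num : ∀ x ∈ P, ‖x‖ ^ 2 = (1 : ℝ))]
      simp
    rw [e3] at e2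
    have e4 : (∑ x ∈ P, (inner ℝ (r2 LL k0 K x) x : ℝ)) ^ 2 ≤ (∑ x ∈ P, ‖r2 LL k0 K x‖ * ‖x‖) ^ 2 := by
      rw [← sq_abs (∑ x ∈ P, (inner ℝ (r2 LL k0 K x) x : ℝ))]
      gcongr
    exact e4.trans e2
  obtain ⟨S1, hS1d⟩ : ∃ S1 : ℝ, S1 = ∑ x ∈ P, ‖r2 LL k0 K x‖ ^ 2 := ⟨_, rfl⟩
  rw [← hS1d] at hS1
  have hS1n : 0 ≤ S1 := by rw [hS1d]; positivity
  have hlow : c ^ 2 * P.card ≤ S1 := by
    have e5 : (c * P.card) ^ 2 ≤ S1 * P.card := by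
      refine le_trans ?_ hS1
      gcongr
    have e6 : (c ^ 2 * P.card) * P.card ≤ S1 * P.card := by
      calc (c ^ 2 * P.card) * P.card = (c * P.card) ^ 2 := by ring
        _ ≤ S1 * P.card := e5
    exact le_of_mul_le_mul_right e6 hN'
  -- Step 2
  have hten : S1 ^ 2 ≤ d * ∑ x ∈ P, ∑ y ∈ P, (inner ℝ (r2 LL k0 K x) (r2 LL k0 K y) : ℝ) ^ 2 := by
    have e7 := Pool.Agent.Helper49.Sph.tensor2 P (fun x => r2 LL k0 K x) (fun x => r2 LL k0 K x)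
    have e8 : S1 = ∑ x ∈ P, (inner ℝ (r2 LL k0 K x) (r2 LL k0 K x) : ℝ) := by
      rw [hS1d]
      refine Finset.sum_congr rfl (fun x _ => ?_)
      rw [real_inner_self_eq_norm_sq]
    rw [e8]
    refine e7.trans (le_of_eq ?_)
    congr 1
    refine Finset.sum_congr rfl (fun x _ => Finset.sum_congr rfl (fun y _ => ?_))
    ring
  -- Step 3
  have hab : ∑ x ∈ P, ∑ y ∈ P, |(inner ℝ (r2 LL k0 K x) (r2 LL k0 K y) : ℝ)| ≤
      (m + 1) ^ 2 * ((m + 1) ^ 2 * ((2 + 4 * m) * K * P.card)) := by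
    have e9 := abs_sum P (md LL k0 K) m
      (fun J hJ => h.sub J (Finset.mem_filter.mp hJ).1)
      (fun x hx => by
        refine le_trans (Finset.card_le_card ?_) (h.deg x hx)
        intro J hJ
        rw [Finset.mem_filter] at hJ ⊢
        exact ⟨(Finset.mem_filter.mp hJ.1).1, hJ.2⟩) (rr LL K)
    refine e9.trans ?_
    gcongr
    exact Z_sum h0 h1 hK1 h hlt
  have hsq : ∑ x ∈ P, ∑ y ∈ P, (inner ℝ (r2 LL k0 K x) (r2 LL k0 K y) : ℝ) ^ 2 ≤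
      (A + (m + 1) ^ 4 * (2 + 4 * m)) / 2 * (P.card * q) := by
    have hspos : 0 < q / k0 := by positivity
    calc ∑ x ∈ P, ∑ y ∈ P, (inner ℝ (r2 LL k0 K x) (r2 LL k0 K y) : ℝ) ^ 2
        ≤ ∑ x ∈ P, ∑ y ∈ P, (q / k0 * |(inner ℝ (r2 LL k0 K x) (r2 LL k0 K y) : ℝ)| ^ 3 +
            (q / k0)⁻¹ * |(inner ℝ (r2 LL k0 K x) (r2 LL k0 K y) : ℝ)|) / 2 := by
          refine Finset.sum_le_sum (fun x _ => Finset.sum_le_sum (fun y _ => ?_))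
          exact fc_young _ _ hspos
      _ = (q / k0 * ∑ x ∈ P, ∑ y ∈ P, |(inner ℝ (r2 LL k0 K x) (r2 LL k0 K y) : ℝ)| ^ 3 +
            (q / k0)⁻¹ * ∑ x ∈ P, ∑ y ∈ P, |(inner ℝ (r2 LL k0 K x) (r2 LL k0 K y) : ℝ)|) / 2 := by
          simp only [Finset.mul_sum, ← Finset.sum_div, Finset.sum_add_distrib]
      _ ≤ (q / k0 * (A * k0 * P.card) +
            (q / k0)⁻¹ * ((m + 1) ^ 2 * ((m + 1) ^ 2 * ((2 + 4 * m) * K * P.card)))) / 2 := by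
          gcongr
      _ = (A + (m + 1) ^ 4 * (2 + 4 * m)) / 2 * (P.card * q) := by
          have e10 : q / k0 * (A * k0 * P.card) = A * (P.card * q) := by field_simp
          have e11 : (q / k0)⁻¹ * K = q := by
            rw [inv_div, div_mul_eq_mul_div, div_eq_iff hqpos.ne']
            rw [← sq, hq2]; ring
          have e12 : (q / k0)⁻¹ * (((m : ℝ) + 1) ^ 2 * ((m + 1) ^ 2 * ((2 + 4 * m) * K * P.card))) =
              (m + 1) ^ 4 * (2 + 4 * m) * P.card * ((q / k0)⁻¹ * K) := by ring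
          rw [e10, e12, e11]
          ring
  -- end
  have hfin : c ^ 4 * P.card * P.card ≤ ((A + (m + 1) ^ 4 * (2 + 4 * m)) / 2 * d * q) * P.card := by
    calc c ^ 4 * P.card * P.card = (c ^ 2 * P.card) ^ 2 := by ring
      _ ≤ S1 ^ 2 := by gcongr
      _ ≤ _ := hten
      _ ≤ d * ((A + (m + 1) ^ 4 * (2 + 4 * m)) / 2 * (P.card * q)) := by gcongr
      _ = _ := by ring
  have hfin2 : c ^ 4 * P.card ≤ (A + (m + 1) ^ 4 * (2 + 4 * m)) / 2 * d * q :=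
    le_of_mul_le_mul_right hfin hN'
  have hfin3 : (P.card : ℝ) ≤ ((A + (m + 1) ^ 4 * (2 + 4 * m)) / 2 * d * q) / c ^ 4 := by
    rw [le_div_iff₀ (by positivity)]
    linarith
  refine hfin3.trans (le_of_eq ?_)
  field_simp

end Pool.Agent.Helper17.SCD
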