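import Mathlib
import Pool.Agent.Helper17.SCD.FromCubes
import Pool.Agent.Helper17.SCD.ExCubes

set_option autoImplicit false

open scoped Classical

namespace Pool.Agent.Helper17.SCD

/-
SCD-ClassE (0.4 h). Plan: T0 from from_cubes α 2; C1 from ex_cubes T0; from_cubes with A = C1, k0 = T0 (C1 N ≤ C1 T0 N): N ≤ C d sqrt(K T0)
= (C sqrt T0) d sqrt K; write it with rpow: (d:ℝ)^(1:ℝ), (K:ℝ)^(1/2:ℝ) (Real.sqrt_eq_rpow).
-/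
theorem class_exact (α : ℝ) (h0 : 0 < α) (h2 : 2 * α < 1) : ∃ T : ℕ, 1 ≤ T ∧
    ∃ C : ℝ, 0 < C ∧ ∀ {d K : ℕ} {P : Finset (EuclideanSpace ℝ (Fin d))}
    {LL : Finset (Finset (EuclideanSpace ℝ (Fin d)))}, T ≤ K → Cls α 2 K P LL →
    (P.card : ℝ) ≤ C * (d : ℝ) ^ (1 : ℝ) * (K : ℝ) ^ (1 / 2 : ℝ) := by
  obtain ⟨T0, hT0, hfc⟩ := from_cubes α 2 h0 (by linarith) (by push_cast; linarith)
  obtain ⟨C1, hC1, hex⟩ := ex_cubes T0 hT0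
  obtain ⟨C, hC, hmain⟩ := hfc C1 hC1
  have hT0R : (1 : ℝ) ≤ (T0 : ℝ) := by exact_mod_cast hT0
  refine ⟨T0, hT0, C * Real.sqrt T0, mul_pos hC (Real.sqrt_pos.2 (by linarith)), ?_⟩
  intro d K P LL hTK hcls
  have hK1 : 1 ≤ K := le_trans hT0 hTK
  have h3 := hex (α := α) h0 (by linarith) hK1 hcls
  have h4 : C1 * (P.card : ℝ) ≤ C1 * (T0 : ℝ) * P.card := by
    have : (0 : ℝ) ≤ C1 * (P.card : ℝ) := by positivity
    nlinarith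
  have h5 := hmain (k0 := T0) (K := K) le_rfl hTK hcls.sys hcls.lt (h3.trans h4)
  have h6 : Real.sqrt ((K : ℝ) * (T0 : ℝ)) = Real.sqrt T0 * (K : ℝ) ^ (1 / 2 : ℝ) := by
    rw [mul_comm, Real.sqrt_mul (by linarith), Real.sqrt_eq_rpow (K : ℝ)]
  rw [h6] at h5
  rw [Real.rpow_one]
  calc (P.card : ℝ) ≤ C * d * (Real.sqrt T0 * (K : ℝ) ^ (1 / 2 : ℝ)) := h5
    _ = C * Real.sqrt T0 * (d : ℝ) * (K : ℝ) ^ (1 / 2 : ℝ) := by ring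

end Pool.Agent.Helper17.SCD
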