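import Mathlib
import Pool.Agent.Helper17.SCD.Defs

set_option autoImplicit false

open scoped Classical

namespace Pool.Agent.Helper17.SCD

/-- sum over: a medium line `I`, two distinct points `x, y` of `I`, a medium line `I' ≠ I` through `x`, a medium line
`I'' ≠ I` through `y` -/
noncomputable def Tsum {d : ℕ} (LL : Finset (Finset (EuclideanSpace ℝ (Fin d)))) (k0 K : ℕ)
    (g : Finset (EuclideanSpace ℝ (Fin d)) → Finset (EuclideanSpace ℝ (Fin d)) → ℝ) : ℝ :=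
  ∑ I ∈ md LL k0 K, ∑ x ∈ I, ∑ y ∈ I.erase x, ∑ I' ∈ (md LL k0 K).filter (fun J => x ∈ J ∧ J ≠ I),
    ∑ I'' ∈ (md LL k0 K).filter (fun J => y ∈ J ∧ J ≠ I), g I' I''

/-
SCD-GTup (0.8 h, Mathlib only). Plan.
T_count: for fixed x in P: at most m lines I, at most k2 points y, at most m lines I', at most m lines I''; total ≤ m³ k2 N
(sum_{I} sum_{x in I} = sum_{x in P} sum_{I ∋ x}).
T_avg: exchange the order: for fixed I', I'' in md the number of (I, x, y) is ≤ m |I'| (x in I', then I through x, then y in I ∩ I'', at most one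
point because I ≠ I'', h.meet). So Tsum ≤ sum_{I',I''} m |I'| (1/(|I'||I''|)) sum_{z in I', w in I''} f ≤ (m/k0) sum_{I',I''} sum_{z,w} f (|I''| ≥ k0)
≤ (m/k0) m² sum_{z,w in P} f (h.deg, lines are subsets of P).
-/
private lemma GTup_dbl {d : ℕ} {α : ℝ} {m : ℕ} {P : Finset (EuclideanSpace ℝ (Fin d))}
    {LL : Finset (Finset (EuclideanSpace ℝ (Fin d)))} (h : LineSys α m P LL)
    {F : Finset (Finset (EuclideanSpace ℝ (Fin d)))} (hF : F ⊆ LL)
    (φ : EuclideanSpace ℝ (Fin d) → ℝ) (hφ : ∀ x, 0 ≤ φ x) :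
    ∑ I ∈ F, ∑ x ∈ I, φ x ≤ (m : ℝ) * ∑ x ∈ P, φ x := by
  have h1 : ∑ I ∈ F, ∑ x ∈ I, φ x = ∑ I ∈ F, ∑ x ∈ P, if x ∈ I then φ x else 0 := by
    refine Finset.sum_congr rfl fun I hI => ?_
    rw [← Finset.sum_filter]
    congr 1
    ext x
    rw [Finset.mem_filter]
    exact ⟨fun hx => ⟨h.sub I (hF hI) hx, hx⟩, fun hx => hx.2⟩
  rw [h1, Finset.sum_comm, Finset.mul_sum]
  refine Finset.sum_le_sum fun x hx => ?_
  rw [← Finset.sum_filter, Finset.sum_const, nsmul_eq_mul]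
  refine mul_le_mul_of_nonneg_right ?_ (hφ x)
  have h2 : (F.filter (fun L => x ∈ L)).card ≤ m :=
    (Finset.card_le_card (Finset.filter_subset_filter _ hF)).trans (h.deg x hx)
  exact_mod_cast h2

private lemma GTup_md {d : ℕ} (LL : Finset (Finset (EuclideanSpace ℝ (Fin d)))) (k0 K : ℕ) :
    md LL k0 K ⊆ LL := Finset.filter_subset _ _

theorem T_mono {d : ℕ} (LL : Finset (Finset (EuclideanSpace ℝ (Fin d)))) (k0 K : ℕ)
    (g g' : Finset (EuclideanSpace ℝ (Fin d)) → Finset (EuclideanSpace ℝ (Fin d)) → ℝ)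
    (hg : ∀ I ∈ md LL k0 K, ∀ x ∈ I, ∀ y ∈ I.erase x, ∀ I' ∈ md LL k0 K, ∀ I'' ∈ md LL k0 K, x ∈ I' → I' ≠ I →
      y ∈ I'' → I'' ≠ I → g I' I'' ≤ g' I' I'') : Tsum LL k0 K g ≤ Tsum LL k0 K g' := by
  unfold Tsum
  refine Finset.sum_le_sum fun I hI => Finset.sum_le_sum fun x hx => Finset.sum_le_sum fun y hy =>
    Finset.sum_le_sum fun I' hI' => Finset.sum_le_sum fun I'' hI'' => ?_
  rw [Finset.mem_filter] at hI' hI''
  exact hg I hI x hx y hy I' hI'.1 I'' hI''.1 hI'.2.1 hI'.2.2 hI''.2.1 hI''.2.2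

theorem T_count {d : ℕ} {α : ℝ} {m k0 K k2 : ℕ} {P : Finset (EuclideanSpace ℝ (Fin d))}
    {LL : Finset (Finset (EuclideanSpace ℝ (Fin d)))} (h : LineSys α m P LL)
    (hk : ∀ I ∈ md LL k0 K, I.card ≤ k2) :
    Tsum LL k0 K (fun _ _ => 1) ≤ (m : ℝ) ^ 3 * k2 * P.card := by
  have hdeg : ∀ x ∈ P, ∀ I, (((md LL k0 K).filter (fun J => x ∈ J ∧ J ≠ I)).card : ℝ) ≤ m := by
    intro x hx I
    have h1 : ((md LL k0 K).filter (fun J => x ∈ J ∧ J ≠ I)).card ≤ m := by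
      refine (Finset.card_le_card ?_).trans (h.deg x hx)
      intro J hJ
      rw [Finset.mem_filter] at hJ ⊢
      exact ⟨GTup_md LL k0 K hJ.1, hJ.2.1⟩
    exact_mod_cast h1
  have h1 : Tsum LL k0 K (fun _ _ => 1) ≤
      ∑ I ∈ md LL k0 K, ∑ _x ∈ I, (k2 : ℝ) * ((m : ℝ) * m) := by
    unfold Tsum
    refine Finset.sum_le_sum fun I hI => Finset.sum_le_sum fun x hx => ?_
    have hIP := h.sub I (GTup_md LL k0 K hI)
    have h2 : ∑ y ∈ I.erase x, ∑ I' ∈ (md LL k0 K).filter (fun J => x ∈ J ∧ J ≠ I),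
        ∑ I'' ∈ (md LL k0 K).filter (fun J => y ∈ J ∧ J ≠ I), (1 : ℝ) ≤
        ∑ _y ∈ I.erase x, ((m : ℝ) * m) := by
      refine Finset.sum_le_sum fun y hy => ?_
      have hyI := Finset.mem_of_mem_erase hy
      calc ∑ I' ∈ (md LL k0 K).filter (fun J => x ∈ J ∧ J ≠ I),
            ∑ I'' ∈ (md LL k0 K).filter (fun J => y ∈ J ∧ J ≠ I), (1 : ℝ)
          = (((md LL k0 K).filter (fun J => x ∈ J ∧ J ≠ I)).card : ℝ) *
            ((md LL k0 K).filter (fun J => y ∈ J ∧ J ≠ I)).card := by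
              rw [Finset.sum_const, Finset.sum_const, nsmul_eq_mul, nsmul_eq_mul, mul_one]
        _ ≤ (m : ℝ) * m := mul_le_mul (hdeg x (hIP hx) I) (hdeg y (hIP hyI) I)
              (Nat.cast_nonneg _) (Nat.cast_nonneg _)
    refine h2.trans ?_
    rw [Finset.sum_const, nsmul_eq_mul]
    refine mul_le_mul_of_nonneg_right ?_ (by positivity)
    have h3 : (I.erase x).card ≤ k2 := (Finset.card_erase_le).trans (hk I hI)
    exact_mod_cast h3
  refine h1.trans ?_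
  refine (GTup_dbl h (GTup_md LL k0 K) (fun _ => (k2 : ℝ) * ((m : ℝ) * m))
    (fun _ => by positivity)).trans (le_of_eq ?_)
  rw [Finset.sum_const, nsmul_eq_mul]
  ring

private lemma GTup_cnt {d : ℕ} {α : ℝ} {m k0 K : ℕ} {P : Finset (EuclideanSpace ℝ (Fin d))}
    {LL : Finset (Finset (EuclideanSpace ℝ (Fin d)))} (h : LineSys α m P LL)
    {I' I'' : Finset (EuclideanSpace ℝ (Fin d))} (hI' : I' ∈ md LL k0 K)
    (hI'' : I'' ∈ md LL k0 K) :
    ∑ I ∈ md LL k0 K, ∑ x ∈ I, ∑ y ∈ I.erase x,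
      (if x ∈ I' ∧ I' ≠ I then (1 : ℝ) else 0) * (if y ∈ I'' ∧ I'' ≠ I then (1 : ℝ) else 0) ≤
      (m : ℝ) * I'.card := by
  have h1 : ∀ I ∈ md LL k0 K, ∑ x ∈ I, ∑ y ∈ I.erase x,
      (if x ∈ I' ∧ I' ≠ I then (1 : ℝ) else 0) * (if y ∈ I'' ∧ I'' ≠ I then (1 : ℝ) else 0) ≤
      ∑ x ∈ I, if x ∈ I' then (1 : ℝ) else 0 := by
    intro I hI
    refine Finset.sum_le_sum fun x _ => ?_
    rw [← Finset.mul_sum]
    have h2 : ∑ y ∈ I.erase x, (if y ∈ I'' ∧ I'' ≠ I then (1 : ℝ) else 0) ≤ 1 := by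
      by_cases hne : I'' = I
      · rw [Finset.sum_eq_zero]
        · exact zero_le_one
        · intro y _
          rw [if_neg]
          exact fun hh => hh.2 hne
      · rw [← Finset.sum_filter, Finset.sum_const, nsmul_eq_mul, mul_one]
        have h3 : ((I.erase x).filter (fun y => y ∈ I'' ∧ I'' ≠ I)).card ≤ 1 := by
          refine (Finset.card_le_card ?_).trans
            (h.meet I (GTup_md LL k0 K hI) I'' (GTup_md LL k0 K hI'') (fun e => hne e.symm))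
          intro y hy
          rw [Finset.mem_filter] at hy
          exact Finset.mem_inter.2 ⟨Finset.mem_of_mem_erase hy.1, hy.2.1⟩
        exact_mod_cast h3
    have h4 : (if x ∈ I' ∧ I' ≠ I then (1 : ℝ) else 0) ≤ if x ∈ I' then (1 : ℝ) else 0 := by
      split_ifs with a b b
      · exact le_rfl
      · exact absurd a.1 b
      · exact zero_le_one
      · exact le_rfl
    have h5 : (0 : ℝ) ≤ if x ∈ I' ∧ I' ≠ I then (1 : ℝ) else 0 := by
      split_ifs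
      · exact zero_le_one
      · exact le_rfl
    calc (if x ∈ I' ∧ I' ≠ I then (1 : ℝ) else 0) *
          ∑ y ∈ I.erase x, (if y ∈ I'' ∧ I'' ≠ I then (1 : ℝ) else 0)
        ≤ (if x ∈ I' ∧ I' ≠ I then (1 : ℝ) else 0) * 1 := mul_le_mul_of_nonneg_left h2 h5
      _ ≤ _ := by rw [mul_one]; exact h4
  refine (Finset.sum_le_sum h1).trans ?_
  refine (GTup_dbl h (GTup_md LL k0 K) (fun x => if x ∈ I' then (1 : ℝ) else 0)
    (fun x => by split_ifs <;> norm_num)).trans ?_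
  refine mul_le_mul_of_nonneg_left ?_ (Nat.cast_nonneg _)
  rw [← Finset.sum_filter, Finset.sum_const, nsmul_eq_mul, mul_one]
  have h6 : (P.filter (fun x => x ∈ I')).card ≤ I'.card := by
    refine Finset.card_le_card fun x hx => (Finset.mem_filter.1 hx).2
  exact_mod_cast h6

private lemma GTup_swap {d : ℕ} (LL : Finset (Finset (EuclideanSpace ℝ (Fin d)))) (k0 K : ℕ)
    (g : Finset (EuclideanSpace ℝ (Fin d)) → Finset (EuclideanSpace ℝ (Fin d)) → ℝ) :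
    Tsum LL k0 K g = ∑ I' ∈ md LL k0 K, ∑ I'' ∈ md LL k0 K, g I' I'' *
      ∑ I ∈ md LL k0 K, ∑ x ∈ I, ∑ y ∈ I.erase x,
        (if x ∈ I' ∧ I' ≠ I then (1 : ℝ) else 0) *
          (if y ∈ I'' ∧ I'' ≠ I then (1 : ℝ) else 0) := by
  have h1 : Tsum LL k0 K g = ∑ I ∈ md LL k0 K, ∑ x ∈ I, ∑ y ∈ I.erase x,
      ∑ I' ∈ md LL k0 K, ∑ I'' ∈ md LL k0 K, g I' I'' *
        ((if x ∈ I' ∧ I' ≠ I then (1 : ℝ) else 0) *
          (if y ∈ I'' ∧ I'' ≠ I then (1 : ℝ) else 0)) := by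
    unfold Tsum
    refine Finset.sum_congr rfl fun I _ => Finset.sum_congr rfl fun x _ =>
      Finset.sum_congr rfl fun y _ => ?_
    rw [Finset.sum_filter]
    refine Finset.sum_congr rfl fun I' _ => ?_
    split_ifs with hc
    · rw [Finset.sum_filter]
      refine Finset.sum_congr rfl fun I'' _ => ?_
      split_ifs <;> ring
    · rw [Finset.sum_eq_zero]
      intro I'' _
      ring
  rw [h1]
  simp only [Finset.mul_sum]
  calc ∑ I ∈ md LL k0 K, ∑ x ∈ I, ∑ y ∈ I.erase x,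
      ∑ I' ∈ md LL k0 K, ∑ I'' ∈ md LL k0 K, g I' I'' *
        ((if x ∈ I' ∧ I' ≠ I then (1 : ℝ) else 0) *
          (if y ∈ I'' ∧ I'' ≠ I then (1 : ℝ) else 0))
      = ∑ I ∈ md LL k0 K, ∑ x ∈ I, ∑ I' ∈ md LL k0 K, ∑ I'' ∈ md LL k0 K, ∑ y ∈ I.erase x,
        g I' I'' * ((if x ∈ I' ∧ I' ≠ I then (1 : ℝ) else 0) *
          (if y ∈ I'' ∧ I'' ≠ I then (1 : ℝ) else 0)) := by
        refine Finset.sum_congr rfl fun I _ => Finset.sum_congr rfl fun x _ => ?_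
        rw [Finset.sum_comm]
        exact Finset.sum_congr rfl fun I' _ => Finset.sum_comm
    _ = ∑ I ∈ md LL k0 K, ∑ I' ∈ md LL k0 K, ∑ I'' ∈ md LL k0 K, ∑ x ∈ I, ∑ y ∈ I.erase x,
        g I' I'' * ((if x ∈ I' ∧ I' ≠ I then (1 : ℝ) else 0) *
          (if y ∈ I'' ∧ I'' ≠ I then (1 : ℝ) else 0)) := by
        refine Finset.sum_congr rfl fun I _ => ?_
        rw [Finset.sum_comm]
        exact Finset.sum_congr rfl fun I' _ => Finset.sum_comm
    _ = ∑ I' ∈ md LL k0 K, ∑ I'' ∈ md LL k0 K, ∑ I ∈ md LL k0 K, ∑ x ∈ I, ∑ y ∈ I.erase x,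
        g I' I'' * ((if x ∈ I' ∧ I' ≠ I then (1 : ℝ) else 0) *
          (if y ∈ I'' ∧ I'' ≠ I then (1 : ℝ) else 0)) := by
        rw [Finset.sum_comm]
        exact Finset.sum_congr rfl fun I' _ => Finset.sum_comm

theorem T_avg {d : ℕ} {α : ℝ} {m k0 K : ℕ} {P : Finset (EuclideanSpace ℝ (Fin d))}
    {LL : Finset (Finset (EuclideanSpace ℝ (Fin d)))} (h : LineSys α m P LL) (hk0 : 1 ≤ k0)
    (f : EuclideanSpace ℝ (Fin d) → EuclideanSpace ℝ (Fin d) → ℝ) (hf : ∀ x y, 0 ≤ f x y) :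
    Tsum LL k0 K (fun I' I'' => ((I'.card : ℝ) * I''.card)⁻¹ * ∑ z ∈ I', ∑ w ∈ I'', f z w) ≤
      (m : ℝ) ^ 3 / k0 * ∑ z ∈ P, ∑ w ∈ P, f z w := by
  have hk : (0 : ℝ) < k0 := by exact_mod_cast hk0
  have hcard : ∀ I ∈ md LL k0 K, (k0 : ℝ) ≤ I.card := by
    intro I hI
    unfold md at hI
    exact_mod_cast (Finset.mem_filter.1 hI).2.1
  rw [GTup_swap]
  have h1 : ∀ I' ∈ md LL k0 K, ∀ I'' ∈ md LL k0 K,
      ((I'.card : ℝ) * I''.card)⁻¹ * (∑ z ∈ I', ∑ w ∈ I'', f z w) *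
      ∑ I ∈ md LL k0 K, ∑ x ∈ I, ∑ y ∈ I.erase x,
        (if x ∈ I' ∧ I' ≠ I then (1 : ℝ) else 0) *
          (if y ∈ I'' ∧ I'' ≠ I then (1 : ℝ) else 0) ≤
      (m : ℝ) / k0 * ∑ z ∈ I', ∑ w ∈ I'', f z w := by
    intro I' hI' I'' hI''
    have hS : 0 ≤ ∑ z ∈ I', ∑ w ∈ I'', f z w :=
      Finset.sum_nonneg fun z _ => Finset.sum_nonneg fun w _ => hf z w
    have c1 := hcard I' hI'
    have c2 := hcard I'' hI''
    have p1 : (0 : ℝ) < I'.card := hk.trans_le c1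
    have p2 : (0 : ℝ) < I''.card := hk.trans_le c2
    refine (mul_le_mul_of_nonneg_left (GTup_cnt h hI' hI'') (by positivity)).trans ?_
    have e1 : ((I'.card : ℝ) * I''.card)⁻¹ * (∑ z ∈ I', ∑ w ∈ I'', f z w) *
        ((m : ℝ) * I'.card) = (m : ℝ) / I''.card * ∑ z ∈ I', ∑ w ∈ I'', f z w := by
      field_simp
    rw [e1]
    refine mul_le_mul_of_nonneg_right ?_ hS
    exact div_le_div_of_nonneg_left (Nat.cast_nonneg _) hk c2
  refine (Finset.sum_le_sum fun I' hI' => Finset.sum_le_sum fun I'' hI'' =>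
    h1 I' hI' I'' hI'').trans ?_
  simp only [← Finset.mul_sum]
  have h2 : ∑ I' ∈ md LL k0 K, ∑ I'' ∈ md LL k0 K, ∑ z ∈ I', ∑ w ∈ I'', f z w ≤
      (m : ℝ) * ((m : ℝ) * ∑ z ∈ P, ∑ w ∈ P, f z w) := by
    have e1 : ∑ I' ∈ md LL k0 K, ∑ I'' ∈ md LL k0 K, ∑ z ∈ I', ∑ w ∈ I'', f z w =
        ∑ I' ∈ md LL k0 K, ∑ z ∈ I', ∑ I'' ∈ md LL k0 K, ∑ w ∈ I'', f z w :=
      Finset.sum_congr rfl fun I' _ => Finset.sum_comm
    rw [e1]
    refine (GTup_dbl h (GTup_md LL k0 K)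
      (fun z => ∑ I'' ∈ md LL k0 K, ∑ w ∈ I'', f z w)
      (fun z => Finset.sum_nonneg fun I _ => Finset.sum_nonneg fun w _ => hf z w)).trans ?_
    refine mul_le_mul_of_nonneg_left ?_ (Nat.cast_nonneg _)
    rw [Finset.mul_sum]
    exact Finset.sum_le_sum fun z _ => GTup_dbl h (GTup_md LL k0 K) (fun w => f z w) (hf z)
  refine (mul_le_mul_of_nonneg_left h2 (by positivity)).trans (le_of_eq ?_)
  ring

end Pool.Agent.Helper17.SCD
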