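import Mathlib
import Pool.Agent.Helper17.SCD.H1
import Pool.Agent.Helper17.SCD.GTup

set_option autoImplicit false

open scoped Classical

namespace Pool.Agent.Helper17.SCD

/-- number of pairs (z,w) in I x J which are equal or on a common small line -/
noncomputable def adjn {d : ℕ} (LL : Finset (Finset (EuclideanSpace ℝ (Fin d)))) (K : ℕ)
    (I J : Finset (EuclideanSpace ℝ (Fin d))) : ℕ :=
  ((I ×ˢ J).filter (fun p => p.1 = p.2 ∨ sm LL K p.1 p.2)).card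

/-
SCD-GPos (1.0 h). Plan.
adjn_le: I ≠ J in LL. For z in I \ J the w in J with z = w or sm z w: z ∉ J so z ≠ w, the common line is ≠ J and meets J in at most one point,
at most m lines through z: at most m such w. For z in I ∩ J (at most one z): at most |J|. Total ≤ m |I| + |J|.
adjn_ratio: for I, J with at least k0 ≥ 1 points: adjn/(|I||J|) ≤ m/|J| + 1/|I| ≤ (m+1)/k0.
S13: let f(z,w) = max(<rr z,rr w>,0) if z ≠ w and not sm z w, else 0; D = (1+m)². For a tuple of Tsum, I' ≠ I'' (otherwise x, y in I' ∩ I, h.meet), and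
<cen rr I', cen rr I''> = avg <rr z, rr w> ≤ avg f + D (m+1)/k0, both are ≥ 0, so Hp ≤ u + c, u = avg f, c = D(m+1)/k0.
Hp³ ≤ 4u³ + 4c³, Tsum c³ ≤ m³ k2 N c³ ≤ C N (k2 ≤ k0³, T_count), u³ ≤ avg f³ (convexity), T_avg with f³ and h_one: Tsum u³ ≤ (m³/k0) C N.
Hp ≤ c + u ≤ c + 1/k0 + k0² u³ (u ≤ τ + u³/τ², τ = 1/k0): Tsum Hp ≤ (C/k0 + 1/k0) m³ k0³ N + k0² (m³/k0) C N ≤ C' k0² N.
-/
theorem adjn_le {d : ℕ} {α : ℝ} {m K : ℕ} {P : Finset (EuclideanSpace ℝ (Fin d))}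
    {LL : Finset (Finset (EuclideanSpace ℝ (Fin d)))} (h : LineSys α m P LL)
    (I J : Finset (EuclideanSpace ℝ (Fin d))) (hI : I ∈ LL) (hJ : J ∈ LL) (hne : I ≠ J) :
    adjn LL K I J ≤ m * I.card + J.card := by
  have e1 : adjn LL K I J =
      ∑ z ∈ I, (J.filter (fun w => z = w ∨ sm LL K z w)).card := by
    unfold adjn
    rw [Finset.card_filter, Finset.sum_product]
    refine Finset.sum_congr rfl ?_
    intro z _
    rw [Finset.card_filter]
  have e2 : ∀ z ∈ I, (J.filter (fun w => z = w ∨ sm LL K z w)).card ≤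
      m + if z ∈ J then J.card else 0 := by
    intro z hz
    by_cases hzJ : z ∈ J
    · rw [if_pos hzJ]
      exact (Finset.card_filter_le _ _).trans (Nat.le_add_left _ _)
    · rw [if_neg hzJ, add_zero]
      have hsub : J.filter (fun w => z = w ∨ sm LL K z w) ⊆
          (LL.filter (fun L => z ∈ L)).biUnion (fun L => L ∩ J) := by
        intro w hw
        rw [Finset.mem_filter] at hw
        rcases hw.2 with h1 | h1
        · exfalso
          apply hzJ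
          rw [h1]
          exact hw.1
        · obtain ⟨_, L, hL, _, hzL, hwL⟩ := h1
          rw [Finset.mem_biUnion]
          exact ⟨L, Finset.mem_filter.mpr ⟨hL, hzL⟩, Finset.mem_inter.mpr ⟨hwL, hw.1⟩⟩
      refine (Finset.card_le_card hsub).trans (Finset.card_biUnion_le.trans ?_)
      have h2 : ∑ L ∈ LL.filter (fun L => z ∈ L), (L ∩ J).card ≤
          ∑ _L ∈ LL.filter (fun L => z ∈ L), 1 := by
        refine Finset.sum_le_sum ?_
        intro L hL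
        rw [Finset.mem_filter] at hL
        refine h.meet L hL.1 J hJ ?_
        intro hLJ
        apply hzJ
        rw [← hLJ]
        exact hL.2
      refine h2.trans ?_
      rw [Finset.sum_const, smul_eq_mul, mul_one]
      exact h.deg z (h.sub I hI hz)
  rw [e1]
  refine (Finset.sum_le_sum e2).trans ?_
  rw [Finset.sum_add_distrib, Finset.sum_const, smul_eq_mul, ← Finset.sum_filter,
    Finset.sum_const, smul_eq_mul]
  have h3 : (I.filter (fun z => z ∈ J)).card ≤ 1 := by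
    rw [Finset.filter_mem_eq_inter]
    exact h.meet I hI J hJ hne
  have h4 : (I.filter (fun z => z ∈ J)).card * J.card ≤ 1 * J.card :=
    Nat.mul_le_mul_right _ h3
  rw [mul_comm I.card m]
  omega

private theorem adjn_ratio {d : ℕ} {α : ℝ} {m K k0 : ℕ} {P : Finset (EuclideanSpace ℝ (Fin d))}
    {LL : Finset (Finset (EuclideanSpace ℝ (Fin d)))} (h : LineSys α m P LL) (hk0 : 1 ≤ k0)
    (I J : Finset (EuclideanSpace ℝ (Fin d))) (hI : I ∈ LL) (hJ : J ∈ LL) (hne : I ≠ J)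
    (hIk : k0 ≤ I.card) (hJk : k0 ≤ J.card) :
    ((I.card : ℝ) * J.card)⁻¹ * (adjn LL K I J : ℝ) ≤ (m + 1) / k0 := by
  have h1 : (adjn LL K I J : ℝ) ≤ m * I.card + J.card := by
    exact_mod_cast adjn_le h I J hI hJ hne
  have hk : (0 : ℝ) < k0 := by exact_mod_cast hk0
  have hI0 : (k0 : ℝ) ≤ I.card := by exact_mod_cast hIk
  have hJ0 : (k0 : ℝ) ≤ J.card := by exact_mod_cast hJk
  have hIp : (0 : ℝ) < I.card := lt_of_lt_of_le hk hI0
  have hJp : (0 : ℝ) < J.card := lt_of_lt_of_le hk hJ0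
  have hm : (0 : ℝ) ≤ m := Nat.cast_nonneg m
  rw [inv_mul_le_iff₀ (mul_pos hIp hJp)]
  refine h1.trans ?_
  rw [mul_div_assoc', le_div_iff₀ hk]
  nlinarith [mul_le_mul_of_nonneg_left hJ0 (mul_nonneg hm hIp.le),
    mul_le_mul_of_nonneg_right hI0 hJp.le]

/-- the non adjacent positive part -/
private noncomputable def fpos {d : ℕ} (LL : Finset (Finset (EuclideanSpace ℝ (Fin d)))) (K : ℕ)
    (z w : EuclideanSpace ℝ (Fin d)) : ℝ :=
  if z ≠ w ∧ ¬ sm LL K z w then max (inner ℝ (rr LL K z) (rr LL K w) : ℝ) 0 else 0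

private theorem fpos_nonneg {d : ℕ} (LL : Finset (Finset (EuclideanSpace ℝ (Fin d)))) (K : ℕ)
    (z w : EuclideanSpace ℝ (Fin d)) : 0 ≤ fpos LL K z w := by
  unfold fpos
  split_ifs
  · exact le_max_right _ _
  · exact le_rfl

/-- average of `fpos` -/
private noncomputable def uavg {d : ℕ} (LL : Finset (Finset (EuclideanSpace ℝ (Fin d)))) (K : ℕ)
    (I J : Finset (EuclideanSpace ℝ (Fin d))) : ℝ :=
  ((I.card : ℝ) * J.card)⁻¹ * ∑ z ∈ I, ∑ w ∈ J, fpos LL K z w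

private theorem uavg_nonneg {d : ℕ} (LL : Finset (Finset (EuclideanSpace ℝ (Fin d)))) (K : ℕ)
    (I J : Finset (EuclideanSpace ℝ (Fin d))) : 0 ≤ uavg LL K I J := by
  unfold uavg
  refine mul_nonneg (by positivity) ?_
  exact Finset.sum_nonneg (fun z _ => Finset.sum_nonneg (fun w _ => fpos_nonneg LL K z w))

private theorem uavg_cube {d : ℕ} (LL : Finset (Finset (EuclideanSpace ℝ (Fin d)))) (K : ℕ)
    (I J : Finset (EuclideanSpace ℝ (Fin d))) (hI : 0 < I.card) (hJ : 0 < J.card) :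
    uavg LL K I J ^ 3 ≤
      ((I.card : ℝ) * J.card)⁻¹ * ∑ z ∈ I, ∑ w ∈ J, fpos LL K z w ^ 3 := by
  have h := pow_sum_div_card_le_sum_pow (s := I ×ˢ J)
    (f := fun p => fpos LL K p.1 p.2) (fun p _ => fpos_nonneg LL K p.1 p.2) 2
  rw [Finset.sum_product, Finset.sum_product, Finset.card_product] at h
  push_cast at h
  have hc : (0 : ℝ) < (I.card : ℝ) * J.card := by
    have h1 : (0 : ℝ) < I.card := by exact_mod_cast hI
    have h2 : (0 : ℝ) < J.card := by exact_mod_cast hJ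
    positivity
  unfold uavg
  rw [mul_pow]
  have e : (((I.card : ℝ) * J.card)⁻¹) ^ 3 * (∑ z ∈ I, ∑ w ∈ J, fpos LL K z w) ^ 3 =
      ((I.card : ℝ) * J.card)⁻¹ *
        ((∑ z ∈ I, ∑ w ∈ J, fpos LL K z w) ^ 3 / ((I.card : ℝ) * J.card) ^ 2) := by
    field_simp
  rw [e]
  exact mul_le_mul_of_nonneg_left h (by positivity)

private theorem cen_inner {d : ℕ} (w : EuclideanSpace ℝ (Fin d) → EuclideanSpace ℝ (Fin d))
    (I J : Finset (EuclideanSpace ℝ (Fin d))) :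
    (inner ℝ (cen w I) (cen w J) : ℝ) =
      ((I.card : ℝ) * J.card)⁻¹ * ∑ x ∈ I, ∑ y ∈ J, (inner ℝ (w x) (w y) : ℝ) := by
  unfold cen
  rw [real_inner_smul_left, real_inner_smul_right, sum_inner]
  have h : ∀ x ∈ I, (inner ℝ (w x) (∑ y ∈ J, w y) : ℝ) = ∑ y ∈ J, (inner ℝ (w x) (w y) : ℝ) := by
    intro x _
    rw [inner_sum]
  rw [Finset.sum_congr rfl h, mul_inv]
  ring

private theorem Hp_le {d : ℕ} {α : ℝ} {m K k0 : ℕ} {P : Finset (EuclideanSpace ℝ (Fin d))}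
    {LL : Finset (Finset (EuclideanSpace ℝ (Fin d)))} (h : LineSys α m P LL) (hk0 : 1 ≤ k0)
    (I J : Finset (EuclideanSpace ℝ (Fin d))) (hI : I ∈ LL) (hJ : J ∈ LL) (hne : I ≠ J)
    (hIk : k0 ≤ I.card) (hJk : k0 ≤ J.card) :
    max (inner ℝ (cen (rr LL K) I) (cen (rr LL K) J) : ℝ) 0 ≤
      uavg LL K I J + (1 + m) ^ 2 * ((m + 1) / k0) := by
  have hD : (0 : ℝ) ≤ (1 + m) ^ 2 := by positivity
  have hc : (0 : ℝ) ≤ (1 + m) ^ 2 * ((m + 1) / k0) := by positivity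
  refine max_le ?_ (add_nonneg (uavg_nonneg LL K I J) hc)
  rw [cen_inner]
  have h1 : ∀ z ∈ I, ∀ w ∈ J, (inner ℝ (rr LL K z) (rr LL K w) : ℝ) ≤
      fpos LL K z w + (1 + m) ^ 2 * (if z = w ∨ sm LL K z w then 1 else 0) := by
    intro z hz w hw
    by_cases hc : z = w ∨ sm LL K z w
    · rw [if_pos hc, mul_one]
      have h2 : (inner ℝ (rr LL K z) (rr LL K w) : ℝ) ≤ (1 + m) ^ 2 := by
        refine (real_inner_le_norm _ _).trans ?_
        have h3 := rr_norm (K := K) h z (h.sub I hI hz)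
        have h4 := rr_norm (K := K) h w (h.sub J hJ hw)
        calc ‖rr LL K z‖ * ‖rr LL K w‖ ≤ (1 + m) * (1 + m) :=
              mul_le_mul h3 h4 (norm_nonneg _) (by positivity)
          _ = (1 + (m : ℝ)) ^ 2 := by ring
      linarith [fpos_nonneg LL K z w]
    · rw [if_neg hc, mul_zero, add_zero]
      unfold fpos
      rw [if_pos (by rw [not_or] at hc; exact hc)]
      exact le_max_left _ _
  have h2 : ∑ z ∈ I, ∑ w ∈ J, (inner ℝ (rr LL K z) (rr LL K w) : ℝ) ≤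
      ∑ z ∈ I, ∑ w ∈ J, fpos LL K z w + (1 + m) ^ 2 * (adjn LL K I J : ℝ) := by
    have e1 : (adjn LL K I J : ℝ) = ∑ z ∈ I, ∑ w ∈ J, (if z = w ∨ sm LL K z w then (1 : ℝ) else 0) := by
      unfold adjn
      rw [Finset.card_filter, Finset.sum_product]
      push_cast
      rfl
    rw [e1, Finset.mul_sum, ← Finset.sum_add_distrib]
    refine Finset.sum_le_sum ?_
    intro z hz
    rw [Finset.mul_sum, ← Finset.sum_add_distrib]
    exact Finset.sum_le_sum (fun w hw => h1 z hz w hw)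
  have hpos : (0 : ℝ) ≤ ((I.card : ℝ) * J.card)⁻¹ := by positivity
  have h3 := adjn_ratio (K := K) h hk0 I J hI hJ hne hIk hJk
  calc ((I.card : ℝ) * J.card)⁻¹ * ∑ x ∈ I, ∑ y ∈ J, (inner ℝ (rr LL K x) (rr LL K y) : ℝ)
      ≤ ((I.card : ℝ) * J.card)⁻¹ *
        (∑ z ∈ I, ∑ w ∈ J, fpos LL K z w + (1 + m) ^ 2 * (adjn LL K I J : ℝ)) :=
        mul_le_mul_of_nonneg_left h2 hpos
    _ = uavg LL K I J + (1 + m) ^ 2 * (((I.card : ℝ) * J.card)⁻¹ * (adjn LL K I J : ℝ)) := by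
        unfold uavg
        ring
    _ ≤ uavg LL K I J + (1 + m) ^ 2 * ((m + 1) / k0) := by
        have := mul_le_mul_of_nonneg_left h3 hD
        linarith

private theorem Tsum_lin {d : ℕ} (LL : Finset (Finset (EuclideanSpace ℝ (Fin d)))) (k0 K : ℕ)
    (g : Finset (EuclideanSpace ℝ (Fin d)) → Finset (EuclideanSpace ℝ (Fin d)) → ℝ) (a b : ℝ) :
    Tsum LL k0 K (fun I J => a * g I J + b * 1) =
      a * Tsum LL k0 K g + b * Tsum LL k0 K (fun _ _ => 1) := by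
  unfold Tsum
  simp only [Finset.sum_add_distrib, Finset.mul_sum]

private theorem mem_md {d : ℕ} {LL : Finset (Finset (EuclideanSpace ℝ (Fin d)))} {k0 K : ℕ}
    {I : Finset (EuclideanSpace ℝ (Fin d))} (hI : I ∈ md LL k0 K) : I ∈ LL ∧ k0 ≤ I.card := by
  simp only [md, Finset.mem_filter] at hI
  exact ⟨hI.1, hI.2.1⟩

private theorem tuple_ne {d : ℕ} {α : ℝ} {m : ℕ} {P : Finset (EuclideanSpace ℝ (Fin d))}
    {LL : Finset (Finset (EuclideanSpace ℝ (Fin d)))} (h : LineSys α m P LL)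
    {I I' I'' : Finset (EuclideanSpace ℝ (Fin d))} {x y : EuclideanSpace ℝ (Fin d)}
    (hI : I ∈ LL) (hI' : I' ∈ LL) (hx : x ∈ I) (hy : y ∈ I.erase x) (hx' : x ∈ I') (hne : I' ≠ I)
    (hy'' : y ∈ I'') : I' ≠ I'' := by
  intro he
  rw [← he] at hy''
  have h1 := h.meet I' hI' I hI hne
  rw [Finset.mem_erase] at hy
  have h2 : ({x, y} : Finset (EuclideanSpace ℝ (Fin d))) ⊆ I' ∩ I := by
    intro z hz
    rw [Finset.mem_insert, Finset.mem_singleton] at hz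
    rcases hz with hz | hz
    · rw [hz]
      exact Finset.mem_inter.mpr ⟨hx', hx⟩
    · rw [hz]
      exact Finset.mem_inter.mpr ⟨hy'', hy.2⟩
  have h3 := Finset.card_le_card h2
  rw [Finset.card_pair (Ne.symm hy.1)] at h3
  omega

theorem S13 (m : ℕ) : ∃ C : ℝ, 0 < C ∧
    ∀ {d : ℕ} {α : ℝ} {k0 K : ℕ} {P : Finset (EuclideanSpace ℝ (Fin d))}
    {LL : Finset (Finset (EuclideanSpace ℝ (Fin d)))}, 0 < α → α < 1 → 1 ≤ K → 1 ≤ k0 →
    LineSys α m P LL → (∀ L ∈ LL, L.card < 2 * K) → (∀ I ∈ md LL k0 K, I.card ≤ k0 ^ 3) →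
    Tsum LL k0 K (fun I' I'' => (max (inner ℝ (cen (rr LL K) I') (cen (rr LL K) I'') : ℝ) 0) ^ 3) ≤ C * P.card ∧
    Tsum LL k0 K (fun I' I'' => max (inner ℝ (cen (rr LL K) I') (cen (rr LL K) I'') : ℝ) 0) ≤
      C * (k0 : ℝ) ^ 2 * P.card := by
  obtain ⟨C1, hC1, hone⟩ := h_one m
  set D : ℝ := (1 + (m : ℝ)) ^ 2 * (m + 1) with hDdef
  have hD0 : 0 ≤ D := by positivity
  have hm0 : (0 : ℝ) ≤ (m : ℝ) ^ 3 := by positivity
  refine ⟨4 * ((m : ℝ) ^ 3 * C1) + 4 * (D ^ 3 * (m : ℝ) ^ 3) + (D + 1) * (m : ℝ) ^ 3 +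
    (m : ℝ) ^ 3 * C1 + 1, by positivity, ?_⟩
  intro d α k0 K P LL h0 h1 hK hk0 h hlt hk3
  have hk : (1 : ℝ) ≤ k0 := by exact_mod_cast hk0
  have hkp : (0 : ℝ) < k0 := by linarith
  have hN : (0 : ℝ) ≤ P.card := Nat.cast_nonneg _
  -- count
  have hcount : Tsum LL k0 K (fun _ _ => 1) ≤ (m : ℝ) ^ 3 * (k0 : ℝ) ^ 3 * P.card := by
    have h2 := T_count (k0 := k0) (K := K) (k2 := k0 ^ 3) h hk3
    push_cast at h2
    exact h2
  -- cubes
  have hcube : Tsum LL k0 K (fun I' I'' => uavg LL K I' I'' ^ 3) ≤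
      (m : ℝ) ^ 3 / k0 * (C1 * P.card) := by
    have h2 : Tsum LL k0 K (fun I' I'' => uavg LL K I' I'' ^ 3) ≤
        Tsum LL k0 K (fun I' I'' =>
          ((I'.card : ℝ) * I''.card)⁻¹ * ∑ z ∈ I', ∑ w ∈ I'', fpos LL K z w ^ 3) := by
      refine T_mono LL k0 K _ _ ?_
      intro I _ x _ y _ I' hI' I'' hI'' _ _ _ _
      have h3 := (mem_md hI').2
      have h4 := (mem_md hI'').2
      exact uavg_cube LL K I' I'' (by omega) (by omega)
    refine h2.trans ((T_avg (k0 := k0) (K := K) h hk0 (fun z w => fpos LL K z w ^ 3)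
      (fun z w => pow_nonneg (fpos_nonneg LL K z w) 3)).trans ?_)
    refine mul_le_mul_of_nonneg_left ?_ (by positivity)
    refine le_trans (le_of_eq ?_) (hone h0 h1 hK h hlt)
    refine Finset.sum_congr rfl ?_
    intro z _
    rw [Finset.sum_filter]
    refine Finset.sum_congr rfl ?_
    intro w _
    unfold fpos
    split_ifs
    · rfl
    · norm_num
  set c : ℝ := (1 + (m : ℝ)) ^ 2 * ((m + 1) / k0) with hcdef
  have hcD : c = D / k0 := by
    rw [hcdef, hDdef]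
    ring
  have hc0 : 0 ≤ c := by
    rw [hcD]
    positivity
  have hHp : ∀ I ∈ md LL k0 K, ∀ x ∈ I, ∀ y ∈ I.erase x, ∀ I' ∈ md LL k0 K, ∀ I'' ∈ md LL k0 K,
      x ∈ I' → I' ≠ I → y ∈ I'' → I'' ≠ I →
      max (inner ℝ (cen (rr LL K) I') (cen (rr LL K) I'') : ℝ) 0 ≤ uavg LL K I' I'' + c := by
    intro I hI x hx y hy I' hI' I'' hI'' hxI' hne' hyI'' _
    have hn := tuple_ne h (mem_md hI).1 (mem_md hI').1 hx hy hxI' hne' hyI''
    exact Hp_le (K := K) h hk0 I' I'' (mem_md hI').1 (mem_md hI'').1 hn (mem_md hI').2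
      (mem_md hI'').2
  have hk0ne : (k0 : ℝ) ≠ 0 := hkp.ne'
  have hmC : 0 ≤ (m : ℝ) ^ 3 * C1 := by positivity
  constructor
  · have h2 : Tsum LL k0 K
        (fun I' I'' => (max (inner ℝ (cen (rr LL K) I') (cen (rr LL K) I'') : ℝ) 0) ^ 3) ≤
        Tsum LL k0 K (fun I' I'' => 4 * uavg LL K I' I'' ^ 3 + 4 * c ^ 3 * 1) := by
      refine T_mono LL k0 K _ _ ?_
      intro I hI x hx y hy I' hI' I'' hI'' hxI' hne' hyI'' hne''
      have h3 := hHp I hI x hx y hy I' hI' I'' hI'' hxI' hne' hyI'' hne''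
      have h4 := uavg_nonneg LL K I' I''
      have h5 : (max (inner ℝ (cen (rr LL K) I') (cen (rr LL K) I'') : ℝ) 0) ^ 3 ≤
          (uavg LL K I' I'' + c) ^ 3 := pow_le_pow_left₀ (le_max_right _ _) h3 3
      refine h5.trans ?_
      set u := uavg LL K I' I''
      nlinarith [mul_nonneg (add_nonneg h4 hc0) (sq_nonneg (u - c))]
    rw [Tsum_lin] at h2
    have h6 : (m : ℝ) ^ 3 / k0 * (C1 * P.card) ≤ (m : ℝ) ^ 3 * C1 * P.card := by
      rw [div_mul_eq_mul_div, div_le_iff₀ hkp]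
      have h7 : (m : ℝ) ^ 3 * C1 * P.card * 1 ≤ (m : ℝ) ^ 3 * C1 * P.card * k0 :=
        mul_le_mul_of_nonneg_left hk (mul_nonneg hmC hN)
      linarith
    have h8 : c ^ 3 * ((m : ℝ) ^ 3 * (k0 : ℝ) ^ 3 * P.card) = D ^ 3 * (m : ℝ) ^ 3 * P.card := by
      rw [hcD]
      field_simp
    have h9 : 4 * c ^ 3 * Tsum LL k0 K (fun _ _ => 1) ≤
        4 * c ^ 3 * ((m : ℝ) ^ 3 * (k0 : ℝ) ^ 3 * P.card) :=
      mul_le_mul_of_nonneg_left hcount (by positivity)
    have h10 : 0 ≤ (D + 1) * (m : ℝ) ^ 3 * P.card := by positivity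
    have h11 : 0 ≤ (m : ℝ) ^ 3 * C1 * P.card := mul_nonneg hmC hN
    nlinarith
  · have h2 : Tsum LL k0 K
        (fun I' I'' => max (inner ℝ (cen (rr LL K) I') (cen (rr LL K) I'') : ℝ) 0) ≤
        Tsum LL k0 K (fun I' I'' => (k0 : ℝ) ^ 2 * uavg LL K I' I'' ^ 3 + (c + 1 / k0) * 1) := by
      refine T_mono LL k0 K _ _ ?_
      intro I hI x hx y hy I' hI' I'' hI'' hxI' hne' hyI'' hne''
      have h3 := hHp I hI x hx y hy I' hI' I'' hI'' hxI' hne' hyI'' hne''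
      have h4 := uavg_nonneg LL K I' I''
      refine h3.trans ?_
      set u := uavg LL K I' I''
      have h5 : u ≤ (k0 : ℝ) ^ 2 * u ^ 3 + 1 / k0 := by
        rcases le_or_gt u (1 / k0) with h6 | h6
        · have : 0 ≤ (k0 : ℝ) ^ 2 * u ^ 3 := by positivity
          linarith
        · have h7 : 1 < k0 * u := by
            rw [div_lt_iff₀ hkp] at h6
            linarith
          have h8 : 1 ≤ (k0 * u) ^ 2 := by nlinarith
          have h9 : u * 1 ≤ u * (k0 * u) ^ 2 := mul_le_mul_of_nonneg_left h8 h4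
          have h10 : 0 ≤ 1 / (k0 : ℝ) := by positivity
          nlinarith
      linarith
    rw [Tsum_lin] at h2
    have h6 : (k0 : ℝ) ^ 2 * Tsum LL k0 K (fun I' I'' => uavg LL K I' I'' ^ 3) ≤
        (k0 : ℝ) ^ 2 * ((m : ℝ) ^ 3 / k0 * (C1 * P.card)) :=
      mul_le_mul_of_nonneg_left hcube (by positivity)
    have h7 : (k0 : ℝ) ^ 2 * ((m : ℝ) ^ 3 / k0 * (C1 * P.card)) = k0 * ((m : ℝ) ^ 3 * C1 * P.card) := by
      field_simp
    have h8 : (k0 : ℝ) * ((m : ℝ) ^ 3 * C1 * P.card) ≤ (k0 : ℝ) ^ 2 * ((m : ℝ) ^ 3 * C1 * P.card) := by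
      refine mul_le_mul_of_nonneg_right ?_ (mul_nonneg hmC hN)
      nlinarith
    have h9 : (c + 1 / k0) * Tsum LL k0 K (fun _ _ => 1) ≤
        (c + 1 / k0) * ((m : ℝ) ^ 3 * (k0 : ℝ) ^ 3 * P.card) :=
      mul_le_mul_of_nonneg_left hcount (by positivity)
    have h10 : (c + 1 / k0) * ((m : ℝ) ^ 3 * (k0 : ℝ) ^ 3 * P.card) =
        (D + 1) * (m : ℝ) ^ 3 * ((k0 : ℝ) ^ 2 * P.card) := by
      rw [hcD]
      field_simp
    have h11 : 0 ≤ (k0 : ℝ) ^ 2 * P.card := by positivity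
    have h12 : 0 ≤ 4 * (D ^ 3 * (m : ℝ) ^ 3) * ((k0 : ℝ) ^ 2 * P.card) := by positivity
    have h13 : 0 ≤ 4 * ((m : ℝ) ^ 3 * C1) * ((k0 : ℝ) ^ 2 * P.card) := by positivity
    nlinarith

end Pool.Agent.Helper17.SCD
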