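import Mathlib
import Pool.Agent.Helper17.SCD.Norms
import Pool.Agent.Helper17.SCD.GTup
import Pool.Agent.Helper49.Sph.C2

set_option autoImplicit false

open scoped Classical

namespace Pool.Agent.Helper17.SCD

private theorem one_line {α β : Type*} [DecidableEq α] (I : Finset α) (F : α → Finset β) (g : β → β → ℝ) (m : ℕ) (B : ℝ)
    (hB0 : 0 ≤ B) (hB : ∀ x ∈ I, ∀ a ∈ F x, ∀ b ∈ F x, g a b ≤ B) (hm : ∀ x ∈ I, (F x).card ≤ m)
    (hQ : 0 ≤ ∑ p ∈ I.sigma F, ∑ q ∈ I.sigma F, g p.2 q.2) :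
    -((m : ℝ) ^ 2 * B * I.card) ≤ ∑ x ∈ I, ∑ y ∈ I.erase x, ∑ a ∈ F x, ∑ b ∈ F y, g a b := by
  have h1 : ∑ p ∈ I.sigma F, ∑ q ∈ I.sigma F, g p.2 q.2 = ∑ x ∈ I, ∑ y ∈ I, ∑ a ∈ F x, ∑ b ∈ F y, g a b := by
    rw [Finset.sum_sigma]
    apply Finset.sum_congr rfl
    intro x _
    rw [Finset.sum_comm (s := I) (t := F x)]
    apply Finset.sum_congr rfl
    intro a _
    rw [Finset.sum_sigma]
  have h2 : ∑ x ∈ I, ∑ y ∈ I, ∑ a ∈ F x, ∑ b ∈ F y, g a b =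
      ∑ x ∈ I, ∑ a ∈ F x, ∑ b ∈ F x, g a b + ∑ x ∈ I, ∑ y ∈ I.erase x, ∑ a ∈ F x, ∑ b ∈ F y, g a b := by
    rw [← Finset.sum_add_distrib]
    apply Finset.sum_congr rfl
    intro x hx
    rw [← Finset.add_sum_erase I (fun y => ∑ a ∈ F x, ∑ b ∈ F y, g a b) hx]
  have h3 : ∑ x ∈ I, ∑ a ∈ F x, ∑ b ∈ F x, g a b ≤ ∑ x ∈ I, (m : ℝ) ^ 2 * B := by
    apply Finset.sum_le_sum
    intro x hx
    calc ∑ a ∈ F x, ∑ b ∈ F x, g a b ≤ ∑ a ∈ F x, ∑ b ∈ F x, B :=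
          Finset.sum_le_sum fun a ha => Finset.sum_le_sum fun b hb => hB x hx a ha b hb
      _ = ((F x).card : ℝ) ^ 2 * B := by
          simp only [Finset.sum_const, nsmul_eq_mul]; ring
      _ ≤ (m : ℝ) ^ 2 * B := by
          apply mul_le_mul_of_nonneg_right _ hB0
          have : ((F x).card : ℝ) ≤ m := by exact_mod_cast hm x hx
          exact pow_le_pow_left₀ (Nat.cast_nonneg _) this 2
  rw [Finset.sum_const, nsmul_eq_mul] at h3
  rw [h1, h2] at hQ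
  linarith [mul_comm (I.card : ℝ) ((m : ℝ) ^ 2 * B)]

private theorem sum_card_le {d : ℕ} {α : ℝ} {m k0 K : ℕ} {P : Finset (EuclideanSpace ℝ (Fin d))}
    {LL : Finset (Finset (EuclideanSpace ℝ (Fin d)))} (h : LineSys α m P LL) :
    ∑ I ∈ md LL k0 K, (I.card : ℝ) ≤ m * P.card := by
  have h1 : ∀ I ∈ md LL k0 K, (I.card : ℝ) = ∑ x ∈ P, if x ∈ I then (1 : ℝ) else 0 := by
    intro I hI
    have hsub : I ⊆ P := h.sub I (Finset.mem_filter.mp hI).1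
    rw [← Finset.sum_filter, Finset.sum_const, nsmul_eq_mul, mul_one]
    congr 2
    ext x
    rw [Finset.mem_filter]
    exact ⟨fun hx => ⟨hsub hx, hx⟩, fun hx => hx.2⟩
  rw [Finset.sum_congr rfl h1, Finset.sum_comm]
  calc ∑ x ∈ P, ∑ I ∈ md LL k0 K, (if x ∈ I then (1 : ℝ) else 0) ≤ ∑ x ∈ P, (m : ℝ) := by
        apply Finset.sum_le_sum
        intro x hx
        rw [← Finset.sum_filter, Finset.sum_const, nsmul_eq_mul, mul_one]
        have h2 : ((md LL k0 K).filter (fun I => x ∈ I)).card ≤ (LL.filter (fun L => x ∈ L)).card := by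
          apply Finset.card_le_card
          intro I hI
          rw [Finset.mem_filter] at hI ⊢
          exact ⟨(Finset.mem_filter.mp hI.1).1, hI.2⟩
        exact_mod_cast h2.trans (h.deg x hx)
    _ = m * P.card := by
        rw [Finset.sum_const, nsmul_eq_mul, mul_comm]

private theorem T_lower {d : ℕ} {α : ℝ} {m k0 K : ℕ} {P : Finset (EuclideanSpace ℝ (Fin d))}
    {LL : Finset (Finset (EuclideanSpace ℝ (Fin d)))} (h : LineSys α m P LL)
    (g : Finset (EuclideanSpace ℝ (Fin d)) → Finset (EuclideanSpace ℝ (Fin d)) → ℝ) (B : ℝ) (hB0 : 0 ≤ B)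
    (hB : ∀ I' ∈ LL, ∀ I'' ∈ LL, g I' I'' ≤ B)
    (hQ : ∀ Q : Finset (Σ _ : EuclideanSpace ℝ (Fin d), Finset (EuclideanSpace ℝ (Fin d))),
      0 ≤ ∑ p ∈ Q, ∑ q ∈ Q, g p.2 q.2) :
    -((m : ℝ) ^ 3 * B * P.card) ≤ Tsum LL k0 K g := by
  have h1 : ∑ I ∈ md LL k0 K, -((m : ℝ) ^ 2 * B * I.card) ≤ Tsum LL k0 K g := by
    unfold Tsum
    apply Finset.sum_le_sum
    intro I hI
    have hIL : I ∈ LL := (Finset.mem_filter.mp hI).1
    apply one_line I (fun x => (md LL k0 K).filter (fun J => x ∈ J ∧ J ≠ I)) g m B hB0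
    · intro x _ a ha b hb
      exact hB a (Finset.mem_filter.mp (Finset.mem_filter.mp ha).1).1 b
        (Finset.mem_filter.mp (Finset.mem_filter.mp hb).1).1
    · intro x hx
      refine le_trans (Finset.card_le_card ?_) (h.deg x (h.sub I hIL hx))
      intro J hJ
      rw [Finset.mem_filter] at hJ ⊢
      exact ⟨(Finset.mem_filter.mp hJ.1).1, hJ.2.1⟩
    · exact hQ _
  have h2 : ∑ I ∈ md LL k0 K, -((m : ℝ) ^ 2 * B * I.card) = -((m : ℝ) ^ 2 * B * ∑ I ∈ md LL k0 K, (I.card : ℝ)) := by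
    rw [Finset.sum_neg_distrib, Finset.mul_sum]
  have h3 : (m : ℝ) ^ 2 * B * ∑ I ∈ md LL k0 K, (I.card : ℝ) ≤ (m : ℝ) ^ 2 * B * (m * P.card) :=
    mul_le_mul_of_nonneg_left (sum_card_le h) (by positivity)
  have h4 : (m : ℝ) ^ 2 * B * (m * P.card) = (m : ℝ) ^ 3 * B * P.card := by ring
  linarith

private theorem T_lin {d : ℕ} (LL : Finset (Finset (EuclideanSpace ℝ (Fin d)))) (k0 K : ℕ) (a b : ℝ)
    (g g' : Finset (EuclideanSpace ℝ (Fin d)) → Finset (EuclideanSpace ℝ (Fin d)) → ℝ) :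
    Tsum LL k0 K (fun I' I'' => a * g I' I'' + b * g' I' I'') = a * Tsum LL k0 K g + b * Tsum LL k0 K g' := by
  simp only [Tsum, Finset.sum_add_distrib, Finset.mul_sum]

/-
SCD-GSchur (0.9 h). Plan: H(I',I'') = <cen rr I', cen rr I''>, Hp = max(H,0), Hm = max(-H,0), |H| ≤ (1+m)² =: D (cen_norm, rr_norm).
Fix I in md and put F = the pairs (x, I') with x in I, I' in md, x in I', I' ≠ I. sum_{F x F} H = ‖sum_F cen rr I'‖² ≥ 0 and
sum_{F x F} H³ ≥ 0 (Pool.Agent.Helper49.Sph.tensor3 with x = ρ). The pairs with the same x contribute at most m² D |I| (resp. m² D³ |I|) in absolute value.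
Hence over the pairs with x ≠ y: sum Hm ≤ m² D |I| + sum Hp, sum Hm³ ≤ m² D³ |I| + sum Hp³.
Sum over I (sum |I| ≤ m N): Tsum Hm ≤ m³ D N + Tsum Hp, Tsum Hm³ ≤ m³ D³ N + Tsum Hp³.
Finally H² = Hp² + Hm² and u² ≤ (s u³ + u/s)/2 for u ≥ 0, s > 0.
-/
theorem T_schur (m : ℕ) : ∃ C : ℝ, 0 < C ∧
    ∀ {d : ℕ} {α : ℝ} {k0 K : ℕ} {P : Finset (EuclideanSpace ℝ (Fin d))}
    {LL : Finset (Finset (EuclideanSpace ℝ (Fin d)))} (s : ℝ), 0 < s →
    LineSys α m P LL →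
    Tsum LL k0 K (fun I' I'' => (inner ℝ (cen (rr LL K) I') (cen (rr LL K) I'') : ℝ) ^ 2) ≤
      s * (C * P.card + Tsum LL k0 K (fun I' I'' => (max (inner ℝ (cen (rr LL K) I') (cen (rr LL K) I'') : ℝ) 0) ^ 3)) +
      s⁻¹ * (C * P.card + Tsum LL k0 K (fun I' I'' => max (inner ℝ (cen (rr LL K) I') (cen (rr LL K) I'') : ℝ) 0)) := by
  refine ⟨(m : ℝ) ^ 3 * ((1 + m) ^ 2) ^ 3 + (m : ℝ) ^ 3 * (1 + m) ^ 2 + 1, by positivity, ?_⟩
  intro d α k0 K P LL s hs h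
  have hv : ∀ I' ∈ LL, ‖cen (rr LL K) I'‖ ≤ 1 + m := by
    intro I' hI'
    apply cen_norm _ _ (by positivity)
    intro x hx
    exact rr_norm h x (h.sub I' hI' hx)
  have hD : ∀ I' ∈ LL, ∀ I'' ∈ LL,
      |(inner ℝ (cen (rr LL K) I') (cen (rr LL K) I'') : ℝ)| ≤ (1 + (m : ℝ)) ^ 2 := by
    intro I' hI' I'' hI''
    refine (abs_real_inner_le_norm _ _).trans ?_
    rw [sq]
    exact mul_le_mul (hv I' hI') (hv I'' hI'') (norm_nonneg _) (by positivity)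
  have hT1 := T_lower (k0 := k0) (K := K) h
    (fun I' I'' => (inner ℝ (cen (rr LL K) I') (cen (rr LL K) I'') : ℝ)) ((1 + (m : ℝ)) ^ 2) (by positivity)
    (fun I' hI' I'' hI'' => (le_abs_self _).trans (hD I' hI' I'' hI'')) (by
      intro Q
      have h1 : ∑ p ∈ Q, ∑ q ∈ Q, (inner ℝ (cen (rr LL K) p.2) (cen (rr LL K) q.2) : ℝ) =
          inner ℝ (∑ p ∈ Q, cen (rr LL K) p.2) (∑ q ∈ Q, cen (rr LL K) q.2) := by
        rw [sum_inner]
        apply Finset.sum_congr rfl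
        intro p _
        rw [inner_sum]
      rw [h1]
      exact real_inner_self_nonneg)
  have hT3 := T_lower (k0 := k0) (K := K) h
    (fun I' I'' => (inner ℝ (cen (rr LL K) I') (cen (rr LL K) I'') : ℝ) ^ 3) (((1 + (m : ℝ)) ^ 2) ^ 3) (by positivity)
    (fun I' hI' I'' hI'' => by
      refine (le_abs_self _).trans ?_
      rw [abs_pow]
      exact pow_le_pow_left₀ (abs_nonneg _) (hD I' hI' I'' hI'') 3) (by
      intro Q
      have h1 := Pool.Agent.Helper49.Sph.tensor3 Q (fun p => cen (rr LL K) p.2) (fun p => cen (rr LL K) p.2)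
      refine h1.trans (le_of_eq ?_)
      apply Finset.sum_congr rfl
      intro p _
      apply Finset.sum_congr rfl
      intro q _
      ring)
  set H : Finset (EuclideanSpace ℝ (Fin d)) → Finset (EuclideanSpace ℝ (Fin d)) → ℝ :=
    fun I' I'' => (inner ℝ (cen (rr LL K) I') (cen (rr LL K) I'') : ℝ) with hH
  have e1 : Tsum LL k0 K (fun I' I'' => H I' I'') =
      Tsum LL k0 K (fun I' I'' => max (H I' I'') 0) - Tsum LL k0 K (fun I' I'' => max (-(H I' I'')) 0) := by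
    have := T_lin LL k0 K 1 (-1) (fun I' I'' => max (H I' I'') 0) (fun I' I'' => max (-(H I' I'')) 0)
    have h2 : (fun I' I'' => (1 : ℝ) * max (H I' I'') 0 + -1 * max (-(H I' I'')) 0) = fun I' I'' => H I' I'' := by
      funext I' I''
      rcases le_total 0 (H I' I'') with h0 | h0
      · rw [max_eq_left h0, max_eq_right (by linarith)]; ring
      · rw [max_eq_right h0, max_eq_left (by linarith)]; ring
    rw [h2] at this
    rw [this]; ring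
  have e3 : Tsum LL k0 K (fun I' I'' => (H I' I'') ^ 3) =
      Tsum LL k0 K (fun I' I'' => (max (H I' I'') 0) ^ 3) - Tsum LL k0 K (fun I' I'' => (max (-(H I' I'')) 0) ^ 3) := by
    have := T_lin LL k0 K 1 (-1) (fun I' I'' => (max (H I' I'') 0) ^ 3) (fun I' I'' => (max (-(H I' I'')) 0) ^ 3)
    have h2 : (fun I' I'' => (1 : ℝ) * (max (H I' I'') 0) ^ 3 + -1 * (max (-(H I' I'')) 0) ^ 3) =
        fun I' I'' => (H I' I'') ^ 3 := by
      funext I' I''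
      rcases le_total 0 (H I' I'') with h0 | h0
      · rw [max_eq_left h0, max_eq_right (by linarith)]; ring
      · rw [max_eq_right h0, max_eq_left (by linarith)]; ring
    rw [h2] at this
    rw [this]; ring
  have key : Tsum LL k0 K (fun I' I'' => (H I' I'') ^ 2) ≤
      Tsum LL k0 K (fun I' I'' => (s / 2) * ((1 : ℝ) * (max (H I' I'') 0) ^ 3 + 1 * (max (-(H I' I'')) 0) ^ 3) +
        (s⁻¹ / 2) * ((1 : ℝ) * max (H I' I'') 0 + 1 * max (-(H I' I'')) 0)) := by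
    apply T_mono
    intro I _ x _ y _ I' _ I'' _ _ _ _ _
    have hamgm : ∀ u : ℝ, 0 ≤ u → u ^ 2 ≤ s / 2 * u ^ 3 + s⁻¹ / 2 * u := by
      intro u hu
      have h1 : s / 2 * u ^ 3 + s⁻¹ / 2 * u - u ^ 2 = u * (s * u - 1) ^ 2 * s⁻¹ / 2 := by
        field_simp
        ring
      have h2 : 0 ≤ u * (s * u - 1) ^ 2 * s⁻¹ / 2 := by positivity
      linarith
    rcases le_total 0 (H I' I'') with h0 | h0
    · rw [max_eq_left h0, max_eq_right (by linarith : -(H I' I'') ≤ 0)]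
      have := hamgm _ h0
      simp only [one_mul, ne_eq, OfNat.ofNat_ne_zero, not_false_eq_true, zero_pow, add_zero]
      exact this
    · rw [max_eq_right h0, max_eq_left (by linarith : 0 ≤ -(H I' I''))]
      have := hamgm (-(H I' I'')) (by linarith)
      simp only [one_mul, ne_eq, OfNat.ofNat_ne_zero, not_false_eq_true, zero_pow, zero_add]
      have h5 : (-(H I' I'')) ^ 2 = (H I' I'') ^ 2 := by ring
      rw [h5] at this
      exact this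
  rw [T_lin, T_lin, T_lin] at key
  rw [e1] at hT1
  rw [e3] at hT3
  set N : ℝ := (P.card : ℝ) with hN
  have hN0 : 0 ≤ N := Nat.cast_nonneg _
  set p1 := Tsum LL k0 K (fun I' I'' => max (H I' I'') 0)
  set m1 := Tsum LL k0 K (fun I' I'' => max (-(H I' I'')) 0)
  set p3 := Tsum LL k0 K (fun I' I'' => (max (H I' I'') 0) ^ 3)
  set m3 := Tsum LL k0 K (fun I' I'' => (max (-(H I' I'')) 0) ^ 3)
  have a1 : 0 ≤ (m : ℝ) ^ 3 * (1 + m) ^ 2 * N := by positivity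
  have a3 : 0 ≤ (m : ℝ) ^ 3 * ((1 + m) ^ 2) ^ 3 * N := by positivity
  have hs' : 0 < s⁻¹ := inv_pos.mpr hs
  refine key.trans ?_
  have b3 : s / 2 * (1 * p3 + 1 * m3) ≤
      s * (((m : ℝ) ^ 3 * ((1 + m) ^ 2) ^ 3 + (m : ℝ) ^ 3 * (1 + m) ^ 2 + 1) * N + p3) := by
    have : (1 * p3 + 1 * m3) / 2 ≤ ((m : ℝ) ^ 3 * ((1 + m) ^ 2) ^ 3 + (m : ℝ) ^ 3 * (1 + m) ^ 2 + 1) * N + p3 := by
      have e : ((m : ℝ) ^ 3 * ((1 + m) ^ 2) ^ 3 + (m : ℝ) ^ 3 * (1 + m) ^ 2 + 1) * N =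
        (m : ℝ) ^ 3 * ((1 + m) ^ 2) ^ 3 * N + (m : ℝ) ^ 3 * (1 + m) ^ 2 * N + N := by ring
      rw [e]
      linarith
    calc s / 2 * (1 * p3 + 1 * m3) = s * ((1 * p3 + 1 * m3) / 2) := by ring
      _ ≤ _ := mul_le_mul_of_nonneg_left this hs.le
  have b1 : s⁻¹ / 2 * (1 * p1 + 1 * m1) ≤
      s⁻¹ * (((m : ℝ) ^ 3 * ((1 + m) ^ 2) ^ 3 + (m : ℝ) ^ 3 * (1 + m) ^ 2 + 1) * N + p1) := by
    have : (1 * p1 + 1 * m1) / 2 ≤ ((m : ℝ) ^ 3 * ((1 + m) ^ 2) ^ 3 + (m : ℝ) ^ 3 * (1 + m) ^ 2 + 1) * N + p1 := by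
      have e : ((m : ℝ) ^ 3 * ((1 + m) ^ 2) ^ 3 + (m : ℝ) ^ 3 * (1 + m) ^ 2 + 1) * N =
        (m : ℝ) ^ 3 * ((1 + m) ^ 2) ^ 3 * N + (m : ℝ) ^ 3 * (1 + m) ^ 2 * N + N := by ring
      rw [e]
      linarith
    calc s⁻¹ / 2 * (1 * p1 + 1 * m1) = s⁻¹ * ((1 * p1 + 1 * m1) / 2) := by ring
      _ ≤ _ := mul_le_mul_of_nonneg_left this hs'.le
  exact add_le_add b3 b1

end Pool.Agent.Helper17.SCD
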