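import Mathlib
import Pool.Agent.Helper17.SCD.Norms
import Pool.Agent.Helper17.SCD.Contr
import Pool.Agent.Helper17.SCD.GTup

set_option autoImplicit false

open scoped Classical

namespace Pool.Agent.Helper17.SCD

private lemma c4_nonneg (m : ℕ) : 0 ≤ c4 m := by
  unfold c4 c3; positivity

private lemma sq4 (p q r s : ℝ) : (p - q - r + s) ^ 2 ≤ 4 * (p ^ 2 + q ^ 2 + r ^ 2 + s ^ 2) := by
  nlinarith [sq_nonneg (p + q), sq_nonneg (p + r), sq_nonneg (p - s), sq_nonneg (q - r),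
    sq_nonneg (q + s), sq_nonneg (r + s)]

private noncomputable def av {d : ℕ} (LL : Finset (Finset (EuclideanSpace ℝ (Fin d)))) (K : ℕ)
    (I : Finset (EuclideanSpace ℝ (Fin d))) (x : EuclideanSpace ℝ (Fin d)) :
    EuclideanSpace ℝ (Fin d) := rr LL K x - cen (rr LL K) I

private noncomputable def bv {d : ℕ} (LL : Finset (Finset (EuclideanSpace ℝ (Fin d)))) (k0 K : ℕ)
    (I : Finset (EuclideanSpace ℝ (Fin d))) (x : EuclideanSpace ℝ (Fin d)) :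
    EuclideanSpace ℝ (Fin d) :=
  ∑ J ∈ (md LL k0 K).filter (fun J => x ∈ J ∧ J ≠ I), cen (rr LL K) J

private lemma md_mem {d : ℕ} {LL : Finset (Finset (EuclideanSpace ℝ (Fin d)))} {k0 K : ℕ}
    {I : Finset (EuclideanSpace ℝ (Fin d))} (hI : I ∈ md LL k0 K) : I ∈ LL ∧ I.card < K := by
  unfold md at hI
  rw [Finset.mem_filter] at hI
  exact ⟨hI.1, hI.2.2⟩

private lemma r2_split {d : ℕ} {LL : Finset (Finset (EuclideanSpace ℝ (Fin d)))} {k0 K : ℕ}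
    {I : Finset (EuclideanSpace ℝ (Fin d))} (hI : I ∈ md LL k0 K) (x : EuclideanSpace ℝ (Fin d))
    (hx : x ∈ I) : r2 LL k0 K x = av LL K I x - bv LL k0 K I x := by
  unfold r2 sb av bv
  have h1 : I ∈ (md LL k0 K).filter (fun L => x ∈ L) := Finset.mem_filter.mpr ⟨hI, hx⟩
  rw [← Finset.add_sum_erase _ _ h1]
  have h2 : ((md LL k0 K).filter (fun L => x ∈ L)).erase I =
      (md LL k0 K).filter (fun J => x ∈ J ∧ J ≠ I) := by
    ext J
    simp only [Finset.mem_erase, Finset.mem_filter]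
    tauto
  rw [h2]
  abel

private lemma filter_card {d : ℕ} {α : ℝ} {m k0 K : ℕ} {P : Finset (EuclideanSpace ℝ (Fin d))}
    {LL : Finset (Finset (EuclideanSpace ℝ (Fin d)))} (h : LineSys α m P LL)
    (I : Finset (EuclideanSpace ℝ (Fin d))) (x : EuclideanSpace ℝ (Fin d)) (hx : x ∈ P) :
    ((md LL k0 K).filter (fun J => x ∈ J ∧ J ≠ I)).card ≤ m := by
  refine (Finset.card_le_card ?_).trans (h.deg x hx)
  intro J hJ
  rw [Finset.mem_filter] at hJ ⊢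
  exact ⟨(md_mem hJ.1).1, hJ.2.1⟩

private lemma cen_rr_norm {d : ℕ} {α : ℝ} {m K : ℕ} {P : Finset (EuclideanSpace ℝ (Fin d))}
    {LL : Finset (Finset (EuclideanSpace ℝ (Fin d)))} (h : LineSys α m P LL)
    (I : Finset (EuclideanSpace ℝ (Fin d))) (hI : I ∈ LL) : ‖cen (rr LL K) I‖ ≤ 1 + m :=
  cen_norm _ _ (by positivity) _ (fun x hx => rr_norm h x (h.sub I hI hx))

private lemma av_norm {d : ℕ} {α : ℝ} {m K : ℕ} {P : Finset (EuclideanSpace ℝ (Fin d))}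
    {LL : Finset (Finset (EuclideanSpace ℝ (Fin d)))} (h : LineSys α m P LL)
    (I : Finset (EuclideanSpace ℝ (Fin d))) (hI : I ∈ LL) (x : EuclideanSpace ℝ (Fin d))
    (hx : x ∈ P) : ‖av LL K I x‖ ≤ 2 * (1 + m) := by
  unfold av
  refine (norm_sub_le _ _).trans ?_
  have h1 := rr_norm (K := K) h x hx
  have h2 := cen_rr_norm (K := K) h I hI
  linarith

private lemma bv_norm {d : ℕ} {α : ℝ} {m k0 K : ℕ} {P : Finset (EuclideanSpace ℝ (Fin d))}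
    {LL : Finset (Finset (EuclideanSpace ℝ (Fin d)))} (h : LineSys α m P LL)
    (I : Finset (EuclideanSpace ℝ (Fin d))) (x : EuclideanSpace ℝ (Fin d))
    (hx : x ∈ P) : ‖bv LL k0 K I x‖ ≤ m * (1 + m) := by
  unfold bv
  refine (norm_sum_le _ _).trans ?_
  refine (Finset.sum_le_card_nsmul _ _ ((1 : ℝ) + m) (fun J hJ => ?_)).trans ?_
  · exact cen_rr_norm h J (md_mem (Finset.mem_filter.mp hJ).1).1
  · rw [nsmul_eq_mul]
    refine mul_le_mul_of_nonneg_right ?_ (by positivity)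
    exact_mod_cast filter_card h I x hx

private lemma bv_inner {d : ℕ} {α : ℝ} {m k0 K : ℕ} {P : Finset (EuclideanSpace ℝ (Fin d))}
    {LL : Finset (Finset (EuclideanSpace ℝ (Fin d)))} (h : LineSys α m P LL)
    (I : Finset (EuclideanSpace ℝ (Fin d))) (x y : EuclideanSpace ℝ (Fin d))
    (hx : x ∈ P) (hy : y ∈ P) :
    (inner ℝ (bv LL k0 K I x) (bv LL k0 K I y) : ℝ) ^ 2 ≤ (m : ℝ) ^ 2 *
      ∑ I' ∈ (md LL k0 K).filter (fun J => x ∈ J ∧ J ≠ I),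
        ∑ I'' ∈ (md LL k0 K).filter (fun J => y ∈ J ∧ J ≠ I),
          (inner ℝ (cen (rr LL K) I') (cen (rr LL K) I'') : ℝ) ^ 2 := by
  have hFc := filter_card (k0 := k0) (K := K) h I x hx
  have hGc := filter_card (k0 := k0) (K := K) h I y hy
  unfold bv
  set F := (md LL k0 K).filter (fun J => x ∈ J ∧ J ≠ I) with hF
  set G := (md LL k0 K).filter (fun J => y ∈ J ∧ J ≠ I) with hG
  rw [sum_inner]
  have h1 : ∀ I' ∈ F, (inner ℝ (cen (rr LL K) I') (∑ J ∈ G, cen (rr LL K) J) : ℝ) ^ 2 ≤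
      (m : ℝ) * ∑ I'' ∈ G, (inner ℝ (cen (rr LL K) I') (cen (rr LL K) I'') : ℝ) ^ 2 := by
    intro I' _
    rw [inner_sum]
    refine (sq_sum_le_card_mul_sum_sq).trans ?_
    refine mul_le_mul_of_nonneg_right ?_ (Finset.sum_nonneg fun _ _ => sq_nonneg _)
    exact_mod_cast hGc
  refine (sq_sum_le_card_mul_sum_sq).trans ?_
  calc (F.card : ℝ) * ∑ I' ∈ F, (inner ℝ (cen (rr LL K) I') (∑ J ∈ G, cen (rr LL K) J) : ℝ) ^ 2
      ≤ (m : ℝ) * ∑ I' ∈ F, (inner ℝ (cen (rr LL K) I') (∑ J ∈ G, cen (rr LL K) J) : ℝ) ^ 2 := by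
        refine mul_le_mul_of_nonneg_right ?_ (Finset.sum_nonneg fun _ _ => sq_nonneg _)
        exact_mod_cast hFc
    _ ≤ (m : ℝ) * ∑ I' ∈ F, ((m : ℝ) *
          ∑ I'' ∈ G, (inner ℝ (cen (rr LL K) I') (cen (rr LL K) I'') : ℝ) ^ 2) :=
        mul_le_mul_of_nonneg_left (Finset.sum_le_sum h1) (by positivity)
    _ = _ := by rw [← Finset.mul_sum]; ring

private lemma sum_lines' {d : ℕ} {α : ℝ} {m k0 K : ℕ} {P : Finset (EuclideanSpace ℝ (Fin d))}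
    {LL : Finset (Finset (EuclideanSpace ℝ (Fin d)))} (h : LineSys α m P LL) :
    ∑ I ∈ md LL k0 K, (I.card : ℝ) ≤ m * P.card := by
  have h1 : ∀ I ∈ md LL k0 K, (I.card : ℝ) = ∑ x ∈ P, (if x ∈ I then (1 : ℝ) else 0) := by
    intro I hI
    rw [← Finset.sum_filter, Finset.sum_const, nsmul_eq_mul, mul_one]
    congr 2
    ext x
    rw [Finset.mem_filter]
    exact ⟨fun hx => ⟨h.sub I (md_mem hI).1 hx, hx⟩, fun hx => hx.2⟩
  rw [Finset.sum_congr rfl h1, Finset.sum_comm]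
  have h2 : ∀ x ∈ P, ∑ I ∈ md LL k0 K, (if x ∈ I then (1 : ℝ) else 0) ≤ m := by
    intro x hx
    rw [← Finset.sum_filter, Finset.sum_const, nsmul_eq_mul, mul_one]
    have h3 : ((md LL k0 K).filter (fun I => x ∈ I)).card ≤ m := by
      refine (Finset.card_le_card ?_).trans (h.deg x hx)
      intro J hJ
      rw [Finset.mem_filter] at hJ ⊢
      exact ⟨(md_mem hJ.1).1, hJ.2⟩
    exact_mod_cast h3
  refine (Finset.sum_le_card_nsmul _ _ _ h2).trans ?_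
  rw [nsmul_eq_mul, mul_comm]

private lemma sum_pair {d : ℕ} {α : ℝ} {m k0 K : ℕ} {P : Finset (EuclideanSpace ℝ (Fin d))}
    {LL : Finset (Finset (EuclideanSpace ℝ (Fin d)))} (h0 : 0 < α) (h1 : α < 1) (hK : 1 ≤ K)
    (h : LineSys α m P LL) (hlt : ∀ L ∈ LL, L.card < 2 * K)
    (I : Finset (EuclideanSpace ℝ (Fin d))) (hI : I ∈ md LL k0 K)
    (u : EuclideanSpace ℝ (Fin d) → EuclideanSpace ℝ (Fin d)) (B : ℝ) (_hB : 0 ≤ B)
    (hu : ∀ y ∈ I, ‖u y‖ ≤ B) :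
    ∑ y ∈ I, ∑ x ∈ I, (inner ℝ (av LL K I x) (u y) : ℝ) ^ 2 ≤ I.card * (c4 m * B ^ 2) := by
  have h2 : ∀ y ∈ I, ∑ x ∈ I, (inner ℝ (av LL K I x) (u y) : ℝ) ^ 2 ≤ c4 m * B ^ 2 := by
    intro y hy
    have h3 := contr_small h0 h1 hK h hlt I (md_mem hI).1 (md_mem hI).2 (u y)
    refine h3.trans (mul_le_mul_of_nonneg_left ?_ (c4_nonneg m))
    exact pow_le_pow_left₀ (norm_nonneg _) (hu y hy) 2
  refine (Finset.sum_le_card_nsmul _ _ _ h2).trans ?_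
  rw [nsmul_eq_mul]

private lemma erase_le {d : ℕ} (I : Finset (EuclideanSpace ℝ (Fin d)))
    (f : EuclideanSpace ℝ (Fin d) → EuclideanSpace ℝ (Fin d) → ℝ) (hf : ∀ x y, 0 ≤ f x y) :
    ∑ x ∈ I, ∑ y ∈ I.erase x, f x y ≤ ∑ x ∈ I, ∑ y ∈ I, f x y :=
  Finset.sum_le_sum fun _ _ => Finset.sum_le_sum_of_subset_of_nonneg (Finset.erase_subset _ _)
    (fun _ _ _ => hf _ _)

/-
SCD-GTheta (0.8 h). Plan: fix I in md. For x in I: r2 x = a_x - b_x, a_x = rr x - cen rr I, b_x = sum_{I' in md, x in I', I' ≠ I} cen rr I'.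
<r2 x, r2 y>² ≤ 4 (<a_x,a_y>² + <a_x,b_y>² + <b_x,a_y>² + <b_x,b_y>²). contr_small (u = a_y, b_y) and the norms (‖a_x‖ ≤ 2(1+m), ‖b_x‖ ≤ m(1+m)):
the first three parts summed over x, y in I are ≤ C |I|; <b_x,b_y>² ≤ m² sum_{I',I''} <cen rr I', cen rr I''>² (Cauchy-Schwarz, at most m terms each).
Sum over I: sum |I| ≤ m N (sum_lines).
-/
theorem T_theta (m : ℕ) : ∃ C : ℝ, 0 < C ∧
    ∀ {d : ℕ} {α : ℝ} {k0 K : ℕ} {P : Finset (EuclideanSpace ℝ (Fin d))}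
    {LL : Finset (Finset (EuclideanSpace ℝ (Fin d)))}, 0 < α → α < 1 → 1 ≤ K →
    LineSys α m P LL → (∀ L ∈ LL, L.card < 2 * K) →
    ∑ I ∈ md LL k0 K, ∑ x ∈ I, ∑ y ∈ I.erase x, (inner ℝ (r2 LL k0 K x) (r2 LL k0 K y) : ℝ) ^ 2 ≤
      C * (P.card + Tsum LL k0 K (fun I' I'' => (inner ℝ (cen (rr LL K) I') (cen (rr LL K) I'') : ℝ) ^ 2)) := by
  have hc4 := c4_nonneg m
  refine ⟨4 * (m * (c4 m * (2 * (1 + m)) ^ 2 + 2 * (c4 m * (m * (1 + m)) ^ 2)) + (m : ℝ) ^ 2) + 1,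
    by positivity, ?_⟩
  intro d α k0 K P LL h0 h1 hK h hlt
  have hI : ∀ I ∈ md LL k0 K,
      ∑ x ∈ I, ∑ y ∈ I.erase x, (inner ℝ (r2 LL k0 K x) (r2 LL k0 K y) : ℝ) ^ 2 ≤
      4 * ((I.card : ℝ) * (c4 m * (2 * (1 + m)) ^ 2 + 2 * (c4 m * (m * (1 + m)) ^ 2)) +
        (m : ℝ) ^ 2 * ∑ x ∈ I, ∑ y ∈ I.erase x,
          ∑ I' ∈ (md LL k0 K).filter (fun J => x ∈ J ∧ J ≠ I),
          ∑ I'' ∈ (md LL k0 K).filter (fun J => y ∈ J ∧ J ≠ I),
          (inner ℝ (cen (rr LL K) I') (cen (rr LL K) I'') : ℝ) ^ 2) := by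
    intro I hI
    have hIP : I ⊆ P := h.sub I (md_mem hI).1
    have hpt : ∀ x ∈ I, ∀ y ∈ I.erase x, (inner ℝ (r2 LL k0 K x) (r2 LL k0 K y) : ℝ) ^ 2 ≤
        4 * ((inner ℝ (av LL K I x) (av LL K I y) : ℝ) ^ 2 +
          (inner ℝ (av LL K I x) (bv LL k0 K I y) : ℝ) ^ 2 +
          (inner ℝ (av LL K I y) (bv LL k0 K I x) : ℝ) ^ 2 +
          (m : ℝ) ^ 2 * ∑ I' ∈ (md LL k0 K).filter (fun J => x ∈ J ∧ J ≠ I),
            ∑ I'' ∈ (md LL k0 K).filter (fun J => y ∈ J ∧ J ≠ I),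
            (inner ℝ (cen (rr LL K) I') (cen (rr LL K) I'') : ℝ) ^ 2) := by
      intro x hx y hy
      have hy' : y ∈ I := Finset.mem_of_mem_erase hy
      have hb := bv_inner (k0 := k0) (K := K) h I x y (hIP hx) (hIP hy')
      rw [r2_split hI x hx, r2_split hI y hy', inner_sub_left, inner_sub_right, inner_sub_right,
        real_inner_comm (av LL K I y) (bv LL k0 K I x)]
      have h4 := sq4 (inner ℝ (av LL K I x) (av LL K I y) : ℝ)
        (inner ℝ (av LL K I x) (bv LL k0 K I y) : ℝ)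
        (inner ℝ (av LL K I y) (bv LL k0 K I x) : ℝ)
        (inner ℝ (bv LL k0 K I x) (bv LL k0 K I y) : ℝ)
      have h5 : (inner ℝ (av LL K I x) (av LL K I y) : ℝ) -
          (inner ℝ (av LL K I x) (bv LL k0 K I y) : ℝ) -
          ((inner ℝ (av LL K I y) (bv LL k0 K I x) : ℝ) -
            (inner ℝ (bv LL k0 K I x) (bv LL k0 K I y) : ℝ)) =
          (inner ℝ (av LL K I x) (av LL K I y) : ℝ) -
          (inner ℝ (av LL K I x) (bv LL k0 K I y) : ℝ) -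
          (inner ℝ (av LL K I y) (bv LL k0 K I x) : ℝ) +
            (inner ℝ (bv LL k0 K I x) (bv LL k0 K I y) : ℝ) := by ring
      rw [h5]
      linarith
    refine (Finset.sum_le_sum fun x hx => Finset.sum_le_sum fun y hy => hpt x hx y hy).trans ?_
    simp only [← Finset.mul_sum, Finset.sum_add_distrib]
    refine mul_le_mul_of_nonneg_left ?_ (by norm_num)
    refine add_le_add ?_ le_rfl
    have e1 : ∑ x ∈ I, ∑ y ∈ I.erase x, (inner ℝ (av LL K I x) (av LL K I y) : ℝ) ^ 2 ≤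
        I.card * (c4 m * (2 * (1 + m)) ^ 2) := by
      refine (erase_le I _ (fun _ _ => sq_nonneg _)).trans ?_
      rw [Finset.sum_comm]
      exact sum_pair h0 h1 hK h hlt I hI (av LL K I) (2 * (1 + m)) (by positivity)
        (fun y hy => av_norm h I (md_mem hI).1 y (hIP hy))
    have e2 : ∑ x ∈ I, ∑ y ∈ I.erase x, (inner ℝ (av LL K I x) (bv LL k0 K I y) : ℝ) ^ 2 ≤
        I.card * (c4 m * (m * (1 + m)) ^ 2) := by
      refine (erase_le I _ (fun _ _ => sq_nonneg _)).trans ?_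
      rw [Finset.sum_comm]
      exact sum_pair h0 h1 hK h hlt I hI (bv LL k0 K I) (m * (1 + m)) (by positivity)
        (fun y hy => bv_norm h I y (hIP hy))
    have e3 : ∑ x ∈ I, ∑ y ∈ I.erase x, (inner ℝ (av LL K I y) (bv LL k0 K I x) : ℝ) ^ 2 ≤
        I.card * (c4 m * (m * (1 + m)) ^ 2) := by
      refine (erase_le I _ (fun _ _ => sq_nonneg _)).trans ?_
      exact sum_pair h0 h1 hK h hlt I hI (bv LL k0 K I) (m * (1 + m)) (by positivity)
        (fun y hy => bv_norm h I y (hIP hy))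
    linarith
  refine (Finset.sum_le_sum hI).trans ?_
  simp only [← Finset.mul_sum, Finset.sum_add_distrib, ← Finset.sum_mul]
  have hT : ∑ I ∈ md LL k0 K, ∑ x ∈ I, ∑ y ∈ I.erase x,
      ∑ I' ∈ (md LL k0 K).filter (fun J => x ∈ J ∧ J ≠ I),
      ∑ I'' ∈ (md LL k0 K).filter (fun J => y ∈ J ∧ J ≠ I),
      (inner ℝ (cen (rr LL K) I') (cen (rr LL K) I'') : ℝ) ^ 2 =
      Tsum LL k0 K (fun I' I'' => (inner ℝ (cen (rr LL K) I') (cen (rr LL K) I'') : ℝ) ^ 2) := rfl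
  rw [hT]
  have hT0 : 0 ≤ Tsum LL k0 K
      (fun I' I'' => (inner ℝ (cen (rr LL K) I') (cen (rr LL K) I'') : ℝ) ^ 2) := by
    unfold Tsum
    exact Finset.sum_nonneg fun _ _ => Finset.sum_nonneg fun _ _ => Finset.sum_nonneg fun _ _ =>
      Finset.sum_nonneg fun _ _ => Finset.sum_nonneg fun _ _ => sq_nonneg _
  have hL := sum_lines' (k0 := k0) (K := K) h
  set T := Tsum LL k0 K
      (fun I' I'' => (inner ℝ (cen (rr LL K) I') (cen (rr LL K) I'') : ℝ) ^ 2) with hTdef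
  set D := c4 m * (2 * (1 + (m : ℝ))) ^ 2 + 2 * (c4 m * (m * (1 + (m : ℝ))) ^ 2) with hD
  have hD0 : 0 ≤ D := by rw [hD]; positivity
  have hP0 : (0 : ℝ) ≤ P.card := by positivity
  have h6 : (∑ I ∈ md LL k0 K, (I.card : ℝ)) * D ≤ (m * P.card) * D :=
    mul_le_mul_of_nonneg_right hL hD0
  have h7 : 0 ≤ (m : ℝ) ^ 2 * P.card := by positivity
  have h8 : 0 ≤ (m : ℝ) * D * T := by positivity
  nlinarith

end Pool.Agent.Helper17.SCD
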