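import Mathlib
import Pool.Agent.Helper17.SCD.Jens

set_option autoImplicit false

open scoped Classical

namespace Pool.Agent.Helper17.SCD

/-- indicator of 'equal or on a common small line' -/
noncomputable def gs {d : ℕ} (LL : Finset (Finset (EuclideanSpace ℝ (Fin d)))) (K : ℕ)
    (z w : EuclideanSpace ℝ (Fin d)) : ℝ := if z = w ∨ sm LL K z w then 1 else 0


private theorem gs_nonneg {d : ℕ} (LL : Finset (Finset (EuclideanSpace ℝ (Fin d)))) (K : ℕ)
    (z w : EuclideanSpace ℝ (Fin d)) : 0 ≤ gs LL K z w := by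
  unfold gs; split_ifs <;> norm_num

private theorem gs_le_one {d : ℕ} (LL : Finset (Finset (EuclideanSpace ℝ (Fin d)))) (K : ℕ)
    (z w : EuclideanSpace ℝ (Fin d)) : gs LL K z w ≤ 1 := by
  unfold gs; split_ifs <;> norm_num

private theorem sm_symm {d : ℕ} (LL : Finset (Finset (EuclideanSpace ℝ (Fin d)))) (K : ℕ)
    (z w : EuclideanSpace ℝ (Fin d)) : sm LL K z w ↔ sm LL K w z := by
  unfold sm
  constructor
  · rintro ⟨h1, L, h2, h3, h4, h5⟩
    exact ⟨h1.symm, L, h2, h3, h5, h4⟩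
  · rintro ⟨h1, L, h2, h3, h4, h5⟩
    exact ⟨h1.symm, L, h2, h3, h5, h4⟩

private theorem gs_symm {d : ℕ} (LL : Finset (Finset (EuclideanSpace ℝ (Fin d)))) (K : ℕ)
    (z w : EuclideanSpace ℝ (Fin d)) : gs LL K z w = gs LL K w z := by
  unfold gs
  by_cases h : z = w
  · rw [if_pos (Or.inl h), if_pos (Or.inl h.symm)]
  · by_cases h2 : sm LL K z w
    · rw [if_pos (Or.inr h2), if_pos (Or.inr ((sm_symm LL K z w).1 h2))]
    · rw [if_neg, if_neg]
      · rintro (h3 | h3)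
        · exact h h3.symm
        · exact h2 ((sm_symm LL K z w).2 h3)
      · rintro (h3 | h3)
        · exact h h3
        · exact h2 h3

private theorem sum_gs {d : ℕ} (LL : Finset (Finset (EuclideanSpace ℝ (Fin d)))) (K : ℕ)
    (x : EuclideanSpace ℝ (Fin d)) (A : Finset (EuclideanSpace ℝ (Fin d))) :
    ∑ w ∈ A, gs LL K x w = ((A.filter (fun w => x = w ∨ sm LL K x w)).card : ℝ) := by
  unfold gs
  rw [Finset.sum_ite]
  simp

private theorem cnt {d : ℕ} {α : ℝ} {m K : ℕ} {P : Finset (EuclideanSpace ℝ (Fin d))}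
    {LL : Finset (Finset (EuclideanSpace ℝ (Fin d)))} (h : LineSys α m P LL)
    (x : EuclideanSpace ℝ (Fin d)) (hx : x ∈ P) (I : Finset (EuclideanSpace ℝ (Fin d)))
    (hI : I ∈ LL) (hxI : x ∉ I) : ∑ w ∈ I, gs LL K x w ≤ m := by
  rw [sum_gs]
  have h1 : (I.filter (fun w => x = w ∨ sm LL K x w)) ⊆
      (LL.filter (fun L => x ∈ L)).biUnion (fun L => L ∩ I) := by
    intro w hw
    rw [Finset.mem_filter] at hw
    obtain ⟨hwI, hw⟩ := hw
    rcases hw with hw | hw
    · exact absurd (hw ▸ hwI) hxI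
    · obtain ⟨_, L, hL, _, hxL, hwL⟩ := hw
      rw [Finset.mem_biUnion]
      exact ⟨L, Finset.mem_filter.2 ⟨hL, hxL⟩, Finset.mem_inter.2 ⟨hwL, hwI⟩⟩
  have h2 : ((LL.filter (fun L => x ∈ L)).biUnion (fun L => L ∩ I)).card ≤
      ∑ L ∈ LL.filter (fun L => x ∈ L), 1 := by
    refine le_trans Finset.card_biUnion_le (Finset.sum_le_sum ?_)
    intro L hL
    rw [Finset.mem_filter] at hL
    refine h.meet L hL.1 I hI ?_
    intro h3
    exact hxI (h3 ▸ hL.2)
  have h3 : (∑ L ∈ LL.filter (fun L => x ∈ L), 1) ≤ m := by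
    rw [Finset.sum_const, smul_eq_mul, mul_one]
    exact h.deg x hx
  exact_mod_cast le_trans (Finset.card_le_card h1) (le_trans h2 h3)

private theorem sum_Bm {d : ℕ} {α : ℝ} {m : ℕ} (k0 K : ℕ) {P : Finset (EuclideanSpace ℝ (Fin d))}
    {LL : Finset (Finset (EuclideanSpace ℝ (Fin d)))} (h : LineSys α m P LL)
    (x : EuclideanSpace ℝ (Fin d)) (hx : x ∈ P) (f : EuclideanSpace ℝ (Fin d) → ℝ) :
    ∑ w ∈ P, Bm LL k0 K x w * f w =
      f x + ∑ I ∈ (md LL k0 K).filter (fun I => x ∈ I), (I.card : ℝ)⁻¹ * ∑ w ∈ I, f w := by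
  unfold Bm
  simp only [add_mul]
  rw [Finset.sum_add_distrib]
  congr 1
  · simp [hx]
  · have h1 : ∀ w ∈ P, (∑ I ∈ (md LL k0 K).filter (fun I => x ∈ I ∧ w ∈ I), (I.card : ℝ)⁻¹) * f w =
        ∑ I ∈ (md LL k0 K).filter (fun I => x ∈ I), (if w ∈ I then (I.card : ℝ)⁻¹ * f w else 0) := by
      intro w _
      rw [← Finset.sum_filter, Finset.filter_filter, Finset.sum_mul]
    rw [Finset.sum_congr rfl h1, Finset.sum_comm]
    refine Finset.sum_congr rfl ?_
    intro I hI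
    rw [Finset.mem_filter] at hI
    have hIP : I ⊆ P := by
      have := hI.1
      unfold md at this
      exact h.sub I (Finset.mem_filter.1 this).1
    rw [← Finset.sum_filter, Finset.mul_sum]
    refine Finset.sum_congr ?_ (fun _ _ => rfl)
    ext w
    rw [Finset.mem_filter]
    exact ⟨fun hw => hw.2, fun hw => ⟨hIP hw, hw⟩⟩

private theorem card_md {d : ℕ} {α : ℝ} {m k0 K : ℕ} {P : Finset (EuclideanSpace ℝ (Fin d))}
    {LL : Finset (Finset (EuclideanSpace ℝ (Fin d)))} (h : LineSys α m P LL)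
    (x : EuclideanSpace ℝ (Fin d)) (hx : x ∈ P) :
    (((md LL k0 K).filter (fun I => x ∈ I)).card : ℝ) ≤ m := by
  have h1 : ((md LL k0 K).filter (fun I => x ∈ I)) ⊆ LL.filter (fun L => x ∈ L) := by
    intro I hI
    rw [Finset.mem_filter] at hI
    unfold md at hI
    exact Finset.mem_filter.2 ⟨(Finset.mem_filter.1 hI.1).1, hI.2⟩
  exact_mod_cast le_trans (Finset.card_le_card h1) (h.deg x hx)

/-
SCD-GenK (0.9 h). Plan: Yg = Yp P LL k0 K (gs LL K).
Yg_le: gs ≤ 1 and Bm_row: ≤ (1+m)².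
Yg_good: x ≠ y, not sm x y. Expand Bm x z = [x=z] + sum_{I in md, x,z in I} 1/|I| (and for y, w):
 (z,w) = (x,y): gs = 0. z on I (x in I), w = y: y ∉ I, the number of z in I with z = y or sm z y is ≤ m (the common line is ≠ I, meets I in at most
 one point, at most m lines through y): ≤ sum_I m/|I| ≤ m²/k0; the same with x, y exchanged. z in I ∋ x, w in I' ∋ y: I ≠ I' (not sm x y; md lines have < K
 points), the number of pairs (z,w) in I x I' with gs = 1 is ≤ m |I| + |I'| (for z in I \ I': at most m, for z in I ∩ I': at most one z, at most |I'|), divided by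
 |I||I'|: ≤ m/|I'| + 1/|I| ≤ (m+1)/k0; at most m² pairs (I,I').
 Total ≤ (2m² + m²(m+1))/k0.
Yg_sum: sum_{x,y} Yg ≤ (1+m)² sum_{z,w} gs ≤ (1+m)² (1 + m k2) N (Bm_symm, Bm_row; for fixed z at most 1 + m k2 points w with gs = 1 if all
lines with < K points have at most k2 points).
-/
theorem Yg_le {d : ℕ} {α : ℝ} {m k0 K : ℕ} {P : Finset (EuclideanSpace ℝ (Fin d))}
    {LL : Finset (Finset (EuclideanSpace ℝ (Fin d)))} (h : LineSys α m P LL)
    (x : EuclideanSpace ℝ (Fin d)) (hx : x ∈ P) (y : EuclideanSpace ℝ (Fin d)) (hy : y ∈ P) :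
    Yp P LL k0 K (gs LL K) x y ≤ (1 + m) ^ 2 := by
  unfold Yp
  have h1 : ∑ z ∈ P, ∑ w ∈ P, Bm LL k0 K x z * Bm LL k0 K y w * gs LL K z w ≤
      ∑ z ∈ P, ∑ w ∈ P, Bm LL k0 K x z * Bm LL k0 K y w := by
    refine Finset.sum_le_sum fun z _ => Finset.sum_le_sum fun w _ => ?_
    exact mul_le_of_le_one_right (mul_nonneg (Bm_nonneg _ _ _ _ _) (Bm_nonneg _ _ _ _ _))
      (gs_le_one _ _ _ _)
  refine le_trans h1 ?_
  rw [← Finset.sum_mul_sum, pow_two]
  have hx1 := Bm_row (k0 := k0) (K := K) h x hx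
  have hy1 := Bm_row (k0 := k0) (K := K) h y hy
  refine mul_le_mul hx1 hy1 (Finset.sum_nonneg fun _ _ => Bm_nonneg _ _ _ _ _) ?_
  positivity

theorem Yg_good {d : ℕ} {α : ℝ} {m k0 K : ℕ} {P : Finset (EuclideanSpace ℝ (Fin d))}
    {LL : Finset (Finset (EuclideanSpace ℝ (Fin d)))} (h : LineSys α m P LL) (hk0 : 1 ≤ k0)
    (x : EuclideanSpace ℝ (Fin d)) (hx : x ∈ P) (y : EuclideanSpace ℝ (Fin d)) (hy : y ∈ P)
    (hxy : x ≠ y) (hsm : ¬ sm LL K x y) :
    Yp P LL k0 K (gs LL K) x y ≤ ((m : ℝ) ^ 3 + 3 * m ^ 2) / k0 := by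
  have hk0' : (0 : ℝ) < k0 := by exact_mod_cast hk0
  have hm0 : (0 : ℝ) ≤ m := Nat.cast_nonneg m
  -- membership facts
  have hmd : ∀ I ∈ md LL k0 K, I ∈ LL ∧ k0 ≤ I.card ∧ I.card < K := by
    intro I hI
    unfold md at hI
    rw [Finset.mem_filter] at hI
    exact hI
  have hno : ∀ I ∈ md LL k0 K, x ∈ I → y ∉ I := by
    intro I hI hxI hyI
    exact hsm ⟨hxy, I, (hmd I hI).1, (hmd I hI).2.2, hxI, hyI⟩
  have hinv : ∀ I ∈ md LL k0 K, (I.card : ℝ)⁻¹ ≤ (k0 : ℝ)⁻¹ := by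
    intro I hI
    have h1 : (k0 : ℝ) ≤ I.card := by exact_mod_cast (hmd I hI).2.1
    exact inv_anti₀ hk0' h1
  have hg0 : gs LL K x y = 0 := by
    unfold gs
    rw [if_neg]
    rintro (h1 | h1)
    · exact hxy h1
    · exact hsm h1
  -- the inner function
  set G : EuclideanSpace ℝ (Fin d) → ℝ := fun z => gs LL K z y +
    ∑ I' ∈ (md LL k0 K).filter (fun I => y ∈ I), (I'.card : ℝ)⁻¹ * ∑ w ∈ I', gs LL K z w with hG
  have hY : Yp P LL k0 K (gs LL K) x y =
      G x + ∑ I ∈ (md LL k0 K).filter (fun I => x ∈ I), (I.card : ℝ)⁻¹ * ∑ z ∈ I, G z := by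
    rw [← sum_Bm k0 K h x hx G]
    unfold Yp
    refine Finset.sum_congr rfl fun z _ => ?_
    rw [hG]
    simp only
    rw [← sum_Bm k0 K h y hy (fun w => gs LL K z w), Finset.mul_sum]
    refine Finset.sum_congr rfl fun w _ => ?_
    ring
  -- a bound on sums over the lines through a point
  have hline : ∀ u ∈ P, ∀ (φ : Finset (EuclideanSpace ℝ (Fin d)) → ℝ) (c : ℝ), 0 ≤ c →
      (∀ I ∈ md LL k0 K, u ∈ I → φ I ≤ c) →
      ∑ I ∈ (md LL k0 K).filter (fun I => u ∈ I), φ I ≤ m * c := by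
    intro u hu φ c hc hφ
    have h1 : ∑ I ∈ (md LL k0 K).filter (fun I => u ∈ I), φ I ≤
        ∑ I ∈ (md LL k0 K).filter (fun I => u ∈ I), c := by
      refine Finset.sum_le_sum fun I hI => ?_
      rw [Finset.mem_filter] at hI
      exact hφ I hI.1 hI.2
    refine le_trans h1 ?_
    rw [Finset.sum_const, nsmul_eq_mul]
    exact mul_le_mul_of_nonneg_right (card_md h u hu) hc
  -- the term G x
  have hGx : G x ≤ m * (m * (k0 : ℝ)⁻¹) := by
    rw [hG]
    simp only
    rw [hg0, zero_add]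
    refine hline y hy _ _ (by positivity) ?_
    intro I hI hyI
    have hxI : x ∉ I := fun hxI => hno I hI hxI hyI
    have h1 := cnt (K := K) h x hx I (hmd I hI).1 hxI
    have h2 := hinv I hI
    calc (I.card : ℝ)⁻¹ * ∑ w ∈ I, gs LL K x w ≤ (k0 : ℝ)⁻¹ * m := by
          refine mul_le_mul h2 h1 (Finset.sum_nonneg fun _ _ => gs_nonneg _ _ _ _) (by positivity)
      _ = m * (k0 : ℝ)⁻¹ := by ring
  -- the terms for the lines through x
  have hI : ∀ I ∈ md LL k0 K, x ∈ I → (I.card : ℝ)⁻¹ * ∑ z ∈ I, G z ≤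
      m * (k0 : ℝ)⁻¹ + m * ((m + 1) * (k0 : ℝ)⁻¹) := by
    intro I hIm hxI
    have hyI : y ∉ I := hno I hIm hxI
    have hIc : (0 : ℝ) < I.card := by
      have : 2 ≤ I.card := h.two I (hmd I hIm).1
      have : (2 : ℝ) ≤ I.card := by exact_mod_cast this
      linarith
    have e1 : (I.card : ℝ)⁻¹ * ∑ z ∈ I, G z = (I.card : ℝ)⁻¹ * ∑ z ∈ I, gs LL K z y +
        ∑ I' ∈ (md LL k0 K).filter (fun I => y ∈ I),
          (I.card : ℝ)⁻¹ * ((I'.card : ℝ)⁻¹ * ∑ z ∈ I, ∑ w ∈ I', gs LL K z w) := by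
      have e0 : ∑ z ∈ I, G z = ∑ z ∈ I, gs LL K z y +
          ∑ I' ∈ (md LL k0 K).filter (fun I => y ∈ I),
            (I'.card : ℝ)⁻¹ * ∑ z ∈ I, ∑ w ∈ I', gs LL K z w := by
        rw [hG]
        simp only
        rw [Finset.sum_add_distrib]
        congr 1
        rw [Finset.sum_comm]
        exact Finset.sum_congr rfl fun I' _ => (Finset.mul_sum _ _ _).symm
      rw [e0, mul_add]
      congr 1
      exact Finset.mul_sum _ _ _
    rw [e1]
    refine add_le_add ?_ ?_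
    · have h1 : ∑ z ∈ I, gs LL K z y = ∑ z ∈ I, gs LL K y z :=
        Finset.sum_congr rfl fun z _ => gs_symm _ _ _ _
      rw [h1]
      have h2 := cnt (K := K) h y hy I (hmd I hIm).1 hyI
      calc (I.card : ℝ)⁻¹ * ∑ z ∈ I, gs LL K y z ≤ (k0 : ℝ)⁻¹ * m := by
            refine mul_le_mul (hinv I hIm) h2 (Finset.sum_nonneg fun _ _ => gs_nonneg _ _ _ _)
              (by positivity)
        _ = m * (k0 : ℝ)⁻¹ := by ring
    · refine hline y hy _ _ (by positivity) ?_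
      intro I' hI' hyI'
      have hne : I ≠ I' := fun e => hyI (e ▸ hyI')
      have hI'c : (0 : ℝ) < I'.card := by
        have : 2 ≤ I'.card := h.two I' (hmd I' hI').1
        have : (2 : ℝ) ≤ I'.card := by exact_mod_cast this
        linarith
      have hbnd : ∑ z ∈ I, ∑ w ∈ I', gs LL K z w ≤ m * I.card + I'.card := by
        have h1 : ∑ z ∈ I, ∑ w ∈ I', gs LL K z w ≤
            ∑ z ∈ I, ((m : ℝ) + if z ∈ I' then (I'.card : ℝ) else 0) := by
          refine Finset.sum_le_sum fun z hz => ?_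
          by_cases hzI : z ∈ I'
          · rw [if_pos hzI]
            have h2 : ∑ w ∈ I', gs LL K z w ≤ ∑ w ∈ I', (1 : ℝ) :=
              Finset.sum_le_sum fun w _ => gs_le_one _ _ _ _
            rw [Finset.sum_const, nsmul_eq_mul, mul_one] at h2
            linarith
          · rw [if_neg hzI, add_zero]
            exact cnt (K := K) h z (h.sub I (hmd I hIm).1 hz) I' (hmd I' hI').1 hzI
        refine le_trans h1 ?_
        rw [Finset.sum_add_distrib, Finset.sum_const, nsmul_eq_mul, ← Finset.sum_filter,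
          Finset.sum_const, nsmul_eq_mul]
        have h3 : (I.filter (fun z => z ∈ I')).card ≤ 1 := by
          have h4 := h.meet I (hmd I hIm).1 I' (hmd I' hI').1 hne
          refine le_trans (Finset.card_le_card ?_) h4
          intro z hz
          rw [Finset.mem_filter] at hz
          exact Finset.mem_inter.2 hz
        have h5 : ((I.filter (fun z => z ∈ I')).card : ℝ) ≤ 1 := by exact_mod_cast h3
        nlinarith
      have h6 : (I.card : ℝ)⁻¹ * ((I'.card : ℝ)⁻¹ * ∑ z ∈ I, ∑ w ∈ I', gs LL K z w) ≤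
          (I.card : ℝ)⁻¹ * ((I'.card : ℝ)⁻¹ * (m * I.card + I'.card)) := by
        refine mul_le_mul_of_nonneg_left (mul_le_mul_of_nonneg_left hbnd ?_) ?_ <;> positivity
      refine le_trans h6 ?_
      have h7 : (I.card : ℝ)⁻¹ * ((I'.card : ℝ)⁻¹ * (m * I.card + I'.card)) =
          m * (I'.card : ℝ)⁻¹ + (I.card : ℝ)⁻¹ := by
        field_simp
      rw [h7]
      have h8 := hinv I hIm
      have h9 := hinv I' hI'
      nlinarith
  rw [hY]
  have hfin := hline x hx (fun I => (I.card : ℝ)⁻¹ * ∑ z ∈ I, G z) _ (by positivity) hI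
  have : ((m : ℝ) ^ 3 + 3 * m ^ 2) / k0 =
      m * (m * (k0 : ℝ)⁻¹) + m * (m * (k0 : ℝ)⁻¹ + m * ((m + 1) * (k0 : ℝ)⁻¹)) := by
    rw [div_eq_mul_inv]; ring
  rw [this]
  exact add_le_add hGx hfin

theorem Yg_sum {d : ℕ} {α : ℝ} {m k0 K k2 : ℕ} {P : Finset (EuclideanSpace ℝ (Fin d))}
    {LL : Finset (Finset (EuclideanSpace ℝ (Fin d)))} (h : LineSys α m P LL)
    (hk : ∀ I ∈ LL, I.card < K → I.card ≤ k2) :
    ∑ x ∈ P, ∑ y ∈ P, Yp P LL k0 K (gs LL K) x y ≤ (1 + m) ^ 2 * (1 + m * k2) * P.card := by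
  have hm0 : (0 : ℝ) ≤ m := Nat.cast_nonneg m
  have e1 : ∑ x ∈ P, ∑ y ∈ P, Yp P LL k0 K (gs LL K) x y =
      ∑ z ∈ P, ∑ w ∈ P, gs LL K z w *
        ((∑ x ∈ P, Bm LL k0 K z x) * (∑ y ∈ P, Bm LL k0 K w y)) := by
    unfold Yp
    have a1 : ∀ x ∈ P, ∑ y ∈ P, ∑ z ∈ P, ∑ w ∈ P, Bm LL k0 K x z * Bm LL k0 K y w * gs LL K z w =
        ∑ z ∈ P, ∑ w ∈ P, ∑ y ∈ P, Bm LL k0 K x z * Bm LL k0 K y w * gs LL K z w := by
      intro x _
      rw [Finset.sum_comm]
      exact Finset.sum_congr rfl fun z _ => Finset.sum_comm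
    rw [Finset.sum_congr rfl a1, Finset.sum_comm]
    refine Finset.sum_congr rfl fun z _ => ?_
    rw [Finset.sum_comm]
    refine Finset.sum_congr rfl fun w _ => ?_
    rw [Finset.sum_mul_sum, Finset.mul_sum]
    refine Finset.sum_congr rfl fun x _ => ?_
    rw [Finset.mul_sum]
    refine Finset.sum_congr rfl fun y _ => ?_
    rw [Bm_symm LL k0 K x z, Bm_symm LL k0 K y w]
    ring
  rw [e1]
  have e2 : ∑ z ∈ P, ∑ w ∈ P, gs LL K z w *
        ((∑ x ∈ P, Bm LL k0 K z x) * (∑ y ∈ P, Bm LL k0 K w y)) ≤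
      ∑ z ∈ P, ∑ w ∈ P, gs LL K z w * ((1 + m) * (1 + m)) := by
    refine Finset.sum_le_sum fun z hz => Finset.sum_le_sum fun w hw => ?_
    refine mul_le_mul_of_nonneg_left ?_ (gs_nonneg _ _ _ _)
    refine mul_le_mul (Bm_row h z hz) (Bm_row h w hw)
      (Finset.sum_nonneg fun _ _ => Bm_nonneg _ _ _ _ _) (by positivity)
  refine le_trans e2 ?_
  have e3 : ∀ z ∈ P, ∑ w ∈ P, gs LL K z w * ((1 + m : ℝ) * (1 + m)) ≤
      (1 + m * k2) * ((1 + m) * (1 + m)) := by
    intro z hz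
    rw [← Finset.sum_mul]
    refine mul_le_mul_of_nonneg_right ?_ (by positivity)
    rw [sum_gs]
    have b1 : (P.filter (fun w => z = w ∨ sm LL K z w)) ⊆
        {z} ∪ (LL.filter (fun L => z ∈ L ∧ L.card < K)).biUnion (fun L => L) := by
      intro w hw
      rw [Finset.mem_filter] at hw
      rw [Finset.mem_union]
      rcases hw.2 with hw | hw
      · left
        rw [Finset.mem_singleton]
        exact hw.symm
      · right
        obtain ⟨_, L, hL, hLK, hzL, hwL⟩ := hw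
        rw [Finset.mem_biUnion]
        exact ⟨L, Finset.mem_filter.2 ⟨hL, hzL, hLK⟩, hwL⟩
    have b2 : ((LL.filter (fun L => z ∈ L ∧ L.card < K)).biUnion (fun L => L)).card ≤ m * k2 := by
      refine le_trans Finset.card_biUnion_le ?_
      have c1 : ∑ L ∈ LL.filter (fun L => z ∈ L ∧ L.card < K), L.card ≤
          ∑ L ∈ LL.filter (fun L => z ∈ L ∧ L.card < K), k2 := by
        refine Finset.sum_le_sum fun L hL => ?_
        rw [Finset.mem_filter] at hL
        exact hk L hL.1 hL.2.2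
      refine le_trans c1 ?_
      rw [Finset.sum_const, smul_eq_mul]
      refine Nat.mul_le_mul_right _ ?_
      refine le_trans (Finset.card_le_card ?_) (h.deg z hz)
      intro L hL
      rw [Finset.mem_filter] at hL ⊢
      exact ⟨hL.1, hL.2.1⟩
    have b3 : (P.filter (fun w => z = w ∨ sm LL K z w)).card ≤ 1 + m * k2 := by
      refine le_trans (Finset.card_le_card b1) (le_trans (Finset.card_union_le _ _) ?_)
      rw [Finset.card_singleton]
      omega
    exact_mod_cast b3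
  refine le_trans (Finset.sum_le_sum e3) ?_
  rw [Finset.sum_const, nsmul_eq_mul]
  apply le_of_eq
  ring

end Pool.Agent.Helper17.SCD
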