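import Mathlib
import Pool.Agent.Helper17.SCD.GenK
import Pool.Agent.Helper17.SCD.GTheta
import Pool.Agent.Helper17.SCD.GSchur
import Pool.Agent.Helper17.SCD.GPos

set_option autoImplicit false

open scoped Classical

namespace Pool.Agent.Helper17.SCD

/-
SCD-GenCubes (1.2 h). Plan. Z2(x,y) = <r2 x, r2 y>, D = (1+m)², |Z2| ≤ D² =: E (r2_norm). Good pair: x ≠ y and not sm; f(z,w) = max(<rr z,rr w>,0) on good
pairs, 0 otherwise, so max(<rr z, rr w>,0) ≤ f + D gs (rr_norm).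
(1) cube_le: S := sum |Z2|³ ≤ 2 sum Z2² Yp f + 2 D sum Z2² Yg.
(2) young3 and Yp_cube, h_one: 2 sum Z2² Yp f ≤ S/2 + 32 (1+m)^6 C N.
(3) good pairs: 2 D Z2² Yg ≤ |Z2|³/4 + C1 Yg³ (elementary), Yg³ ≤ (c/k0)² Yg (Yg_good), sum ≤ (c/k0)² (1+m)²(1 + m k0³) N ≤ C2 k0 N (Yg_sum, k2 = k0³).
(4) bad pairs: 2 D Z2² Yg ≤ 2 D D Z2² (Yg_le); sum of Z2² over x = y: E² N; over x ≠ y on a line with < k0 points: at most m k0 such y for every x: m k0 E² N;
over x ≠ y on a medium line: ≤ the left side of T_theta ≤ C (N + Tsum H²) and T_schur with s = k0, S13: Tsum H² ≤ k0 (C N + C N) + (C N + C k0² N)/k0 ≤ C3 k0 N.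
(5) S ≤ S/2 + S/4 + C4 k0 N.
-/
private theorem zbound {d : ℕ} {α : ℝ} {m k0 K : ℕ} {P : Finset (EuclideanSpace ℝ (Fin d))}
    {LL : Finset (Finset (EuclideanSpace ℝ (Fin d)))} (h : LineSys α m P LL)
    (x : EuclideanSpace ℝ (Fin d)) (hx : x ∈ P) (y : EuclideanSpace ℝ (Fin d)) (hy : y ∈ P) :
    |(inner ℝ (r2 LL k0 K x) (r2 LL k0 K y) : ℝ)| ≤ (1 + (m : ℝ)) ^ 4 := by
  have h1 := abs_real_inner_le_norm (r2 LL k0 K x) (r2 LL k0 K y)
  have h2 := r2_norm (k0 := k0) (K := K) h x hx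
  have h3 := r2_norm (k0 := k0) (K := K) h y hy
  have h4 : ‖r2 LL k0 K x‖ * ‖r2 LL k0 K y‖ ≤ (1 + (m : ℝ)) ^ 2 * (1 + (m : ℝ)) ^ 2 :=
    mul_le_mul h2 h3 (norm_nonneg _) (by positivity)
  calc _ ≤ _ := h1
    _ ≤ _ := h4
    _ = _ := by ring

private theorem zsq {d : ℕ} {α : ℝ} {m k0 K : ℕ} {P : Finset (EuclideanSpace ℝ (Fin d))}
    {LL : Finset (Finset (EuclideanSpace ℝ (Fin d)))} (h : LineSys α m P LL)
    (x : EuclideanSpace ℝ (Fin d)) (hx : x ∈ P) (y : EuclideanSpace ℝ (Fin d)) (hy : y ∈ P) :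
    (inner ℝ (r2 LL k0 K x) (r2 LL k0 K y) : ℝ) ^ 2 ≤ (1 + (m : ℝ)) ^ 8 := by
  have h1 := zbound (k0 := k0) (K := K) h x hx y hy
  rw [← sq_abs]
  calc |(inner ℝ (r2 LL k0 K x) (r2 LL k0 K y) : ℝ)| ^ 2 ≤ ((1 + (m : ℝ)) ^ 4) ^ 2 :=
        pow_le_pow_left₀ (abs_nonneg _) h1 2
    _ = _ := by ring

private theorem rbound {d : ℕ} {α : ℝ} {m K : ℕ} {P : Finset (EuclideanSpace ℝ (Fin d))}
    {LL : Finset (Finset (EuclideanSpace ℝ (Fin d)))} (h : LineSys α m P LL)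
    (x : EuclideanSpace ℝ (Fin d)) (hx : x ∈ P) (y : EuclideanSpace ℝ (Fin d)) (hy : y ∈ P) :
    max (inner ℝ (rr LL K x) (rr LL K y) : ℝ) 0 ≤ (1 + (m : ℝ)) ^ 2 := by
  have h1 := abs_real_inner_le_norm (rr LL K x) (rr LL K y)
  have h2 := rr_norm (K := K) h x hx
  have h3 := rr_norm (K := K) h y hy
  have h4 : ‖rr LL K x‖ * ‖rr LL K y‖ ≤ (1 + (m : ℝ)) * (1 + (m : ℝ)) :=
    mul_le_mul h2 h3 (norm_nonneg _) (by positivity)
  refine max_le ?_ (by positivity)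
  calc _ ≤ _ := le_abs_self _
    _ ≤ _ := h1
    _ ≤ _ := h4
    _ = _ := by ring

/-- the sum of the cardinalities of the lines -/
private theorem lines_sum {d : ℕ} {α : ℝ} {m : ℕ} {P : Finset (EuclideanSpace ℝ (Fin d))}
    {LL : Finset (Finset (EuclideanSpace ℝ (Fin d)))} (h : LineSys α m P LL) :
    ∑ L ∈ LL, (L.card : ℝ) ≤ m * P.card := by
  have h1 : ∑ L ∈ LL, L.card = ∑ x ∈ P, (LL.filter (fun L => x ∈ L)).card := by
    have h2 : ∀ L ∈ LL, L.card = ∑ x ∈ P, if x ∈ L then 1 else 0 := by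
      intro L hL
      rw [Finset.sum_ite_mem, Finset.inter_eq_right.mpr (h.sub L hL)]
      simp
    rw [Finset.sum_congr rfl h2, Finset.sum_comm]
    refine Finset.sum_congr rfl fun x _ => ?_
    rw [Finset.card_filter]
  have h3 : ∑ L ∈ LL, L.card ≤ m * P.card := by
    rw [h1]
    calc ∑ x ∈ P, (LL.filter (fun L => x ∈ L)).card ≤ ∑ x ∈ P, m :=
          Finset.sum_le_sum fun x hx => h.deg x hx
      _ = m * P.card := by rw [Finset.sum_const, smul_eq_mul, mul_comm]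
  exact_mod_cast h3

/-- sums over pairs on a common small line -/
private theorem sm_sum {d : ℕ} {α : ℝ} {m K : ℕ} {P : Finset (EuclideanSpace ℝ (Fin d))}
    {LL : Finset (Finset (EuclideanSpace ℝ (Fin d)))} (h : LineSys α m P LL)
    (g : EuclideanSpace ℝ (Fin d) → EuclideanSpace ℝ (Fin d) → ℝ) (hg : ∀ x y, 0 ≤ g x y) :
    ∑ x ∈ P, ∑ y ∈ P, (if sm LL K x y then g x y else 0) ≤
      ∑ L ∈ LL.filter (fun L => L.card < K), ∑ x ∈ L, ∑ y ∈ L.erase x, g x y := by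
  have h1 : ∀ L ∈ LL.filter (fun L => L.card < K), ∑ x ∈ L, ∑ y ∈ L.erase x, g x y =
      ∑ x ∈ P, ∑ y ∈ P, (if x ∈ L ∧ y ∈ L ∧ x ≠ y then g x y else 0) := by
    intro L hL
    have hLP : L ⊆ P := h.sub L (Finset.mem_filter.mp hL).1
    have h2 : ∀ x ∈ P, x ∉ L → ∑ y ∈ P, (if x ∈ L ∧ y ∈ L ∧ x ≠ y then g x y else 0) = 0 := by
      intro x _ hx
      refine Finset.sum_eq_zero fun y _ => ?_
      rw [if_neg]
      exact fun hc => hx hc.1
    rw [← Finset.sum_subset hLP h2]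
    refine Finset.sum_congr rfl fun x hx => ?_
    have h3 : ∀ y ∈ P, y ∉ L.erase x → (if x ∈ L ∧ y ∈ L ∧ x ≠ y then g x y else 0) = 0 := by
      intro y _ hy
      rw [if_neg]
      rintro ⟨_, h5, h6⟩
      exact hy (Finset.mem_erase.mpr ⟨h6.symm, h5⟩)
    rw [← Finset.sum_subset ((Finset.erase_subset _ _).trans hLP) h3]
    refine Finset.sum_congr rfl fun y hy => ?_
    rw [if_pos]
    exact ⟨hx, (Finset.mem_erase.mp hy).2, (Finset.mem_erase.mp hy).1.symm⟩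
  have h2 : ∑ L ∈ LL.filter (fun L => L.card < K), ∑ x ∈ P, ∑ y ∈ P,
      (if x ∈ L ∧ y ∈ L ∧ x ≠ y then g x y else 0) =
      ∑ x ∈ P, ∑ y ∈ P, ∑ L ∈ LL.filter (fun L => L.card < K),
        (if x ∈ L ∧ y ∈ L ∧ x ≠ y then g x y else 0) := by
    rw [Finset.sum_comm]
    exact Finset.sum_congr rfl fun x _ => Finset.sum_comm
  rw [Finset.sum_congr rfl h1, h2]
  refine Finset.sum_le_sum fun x _ => ?_
  refine Finset.sum_le_sum fun y _ => ?_
  by_cases hs : sm LL K x y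
  · rw [if_pos hs]
    obtain ⟨hne, L, hL, hLK, hxL, hyL⟩ := hs
    have h4 : (if x ∈ L ∧ y ∈ L ∧ x ≠ y then g x y else 0) = g x y := if_pos ⟨hxL, hyL, hne⟩
    refine le_trans h4.symm.le ?_
    have h5 : ∀ L' ∈ LL.filter (fun L => L.card < K),
        (0 : ℝ) ≤ if x ∈ L' ∧ y ∈ L' ∧ x ≠ y then g x y else 0 := by
      intro L' _
      split_ifs
      · exact hg x y
      · exact le_rfl
    exact Finset.single_le_sum (s := LL.filter (fun L => L.card < K))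
      (f := fun L' => (if x ∈ L' ∧ y ∈ L' ∧ x ≠ y then g x y else 0 : ℝ)) h5
      (Finset.mem_filter.mpr ⟨hL, hLK⟩)
  · rw [if_neg hs]
    refine Finset.sum_nonneg fun L _ => ?_
    split_ifs
    · exact hg x y
    · exact le_rfl

/-- the squares over the bad pairs -/
private theorem bad_sq (m : ℕ) : ∃ C : ℝ, 0 < C ∧
    ∀ {d : ℕ} {α : ℝ} {k0 K : ℕ} {P : Finset (EuclideanSpace ℝ (Fin d))}
    {LL : Finset (Finset (EuclideanSpace ℝ (Fin d)))}, 0 < α → α < 1 → 1 ≤ K → 1 ≤ k0 →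
    LineSys α m P LL → (∀ L ∈ LL, L.card < 2 * K) → (∀ I ∈ LL, I.card < K → I.card ≤ k0 ^ 3) →
    ∑ x ∈ P, ∑ y ∈ P, (if x = y ∨ sm LL K x y then
      (inner ℝ (r2 LL k0 K x) (r2 LL k0 K y) : ℝ) ^ 2 else 0) ≤ C * k0 * P.card := by
  obtain ⟨Ct, hCt, hT⟩ := T_theta m
  obtain ⟨Cs, hCs, hS⟩ := T_schur m
  obtain ⟨Cu, hCu, hU⟩ := S13 m
  refine ⟨(1 + (m : ℝ)) ^ 8 + m * (1 + (m : ℝ)) ^ 8 + Ct * (1 + 2 * Cs + 2 * Cu), by positivity, ?_⟩
  intro d α k0 K P LL h0 h1 hK hk0 h hlt hcard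
  have hk0' : (1 : ℝ) ≤ k0 := by exact_mod_cast hk0
  have hN : (0 : ℝ) ≤ P.card := Nat.cast_nonneg _
  set Z : EuclideanSpace ℝ (Fin d) → EuclideanSpace ℝ (Fin d) → ℝ :=
    fun x y => (inner ℝ (r2 LL k0 K x) (r2 LL k0 K y) : ℝ) ^ 2 with hZ
  have hZ0 : ∀ x y, 0 ≤ Z x y := fun x y => sq_nonneg _
  have hZ1 : ∀ x ∈ P, ∀ y ∈ P, Z x y ≤ (1 + (m : ℝ)) ^ 8 := fun x hx y hy => zsq h x hx y hy
  -- the medium lines
  have hmd : ∀ I ∈ md LL k0 K, I ∈ LL ∧ k0 ≤ I.card ∧ I.card < K := by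
    intro I hI
    have := Finset.mem_filter.mp hI
    exact ⟨this.1, this.2.1, this.2.2⟩
  have hmed : ∑ I ∈ md LL k0 K, ∑ x ∈ I, ∑ y ∈ I.erase x, Z x y ≤
      Ct * (1 + 2 * Cs + 2 * Cu) * k0 * P.card := by
    have e1 := hT (k0 := k0) h0 h1 hK h hlt
    have e2 := hS (k0 := k0) (K := K) (k0 : ℝ) (by linarith) h
    obtain ⟨e3, e4⟩ := hU h0 h1 hK hk0 h hlt
      (fun I hI => hcard I (hmd I hI).1 (hmd I hI).2.2)
    have e5 : Tsum LL k0 K
        (fun I' I'' => (inner ℝ (cen (rr LL K) I') (cen (rr LL K) I'') : ℝ) ^ 2) ≤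
        (2 * Cs + 2 * Cu) * k0 * P.card := by
      refine e2.trans ?_
      have e6 : (k0 : ℝ) * (Cs * P.card + Tsum LL k0 K
          (fun I' I'' => (max (inner ℝ (cen (rr LL K) I') (cen (rr LL K) I'') : ℝ) 0) ^ 3)) ≤
          k0 * (Cs * P.card + Cu * P.card) :=
        mul_le_mul_of_nonneg_left (by linarith) (by linarith)
      have e7 : (k0 : ℝ)⁻¹ * (Cs * P.card + Tsum LL k0 K
          (fun I' I'' => max (inner ℝ (cen (rr LL K) I') (cen (rr LL K) I'') : ℝ) 0)) ≤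
          (k0 : ℝ)⁻¹ * (Cs * P.card + Cu * (k0 : ℝ) ^ 2 * P.card) :=
        mul_le_mul_of_nonneg_left (by linarith) (by positivity)
      have e8 : (k0 : ℝ)⁻¹ * (Cs * P.card + Cu * (k0 : ℝ) ^ 2 * P.card) ≤
          Cs * k0 * P.card + Cu * k0 * P.card := by
        have e9 : (k0 : ℝ)⁻¹ * (Cs * P.card + Cu * (k0 : ℝ) ^ 2 * P.card) =
            (k0 : ℝ)⁻¹ * (Cs * P.card) + Cu * k0 * P.card := by
          field_simp
        rw [e9]
        have e10 : (k0 : ℝ)⁻¹ ≤ k0 := (inv_le_one_of_one_le₀ hk0').trans hk0'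
        have e11 : (k0 : ℝ)⁻¹ * (Cs * P.card) ≤ k0 * (Cs * P.card) :=
          mul_le_mul_of_nonneg_right e10 (by positivity)
        nlinarith
      nlinarith
    refine e1.trans ?_
    have e12 : (P.card : ℝ) ≤ k0 * P.card := by nlinarith
    have e13 : (P.card : ℝ) + Tsum LL k0 K
        (fun I' I'' => (inner ℝ (cen (rr LL K) I') (cen (rr LL K) I'') : ℝ) ^ 2) ≤
        (1 + 2 * Cs + 2 * Cu) * k0 * P.card := by nlinarith
    calc Ct * (P.card + Tsum LL k0 K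
        (fun I' I'' => (inner ℝ (cen (rr LL K) I') (cen (rr LL K) I'') : ℝ) ^ 2)) ≤
        Ct * ((1 + 2 * Cs + 2 * Cu) * k0 * P.card) := mul_le_mul_of_nonneg_left e13 hCt.le
      _ = _ := by ring
  -- the short lines
  have hsh : ∑ I ∈ LL.filter (fun L => L.card < k0), ∑ x ∈ I, ∑ y ∈ I.erase x, Z x y ≤
      m * (1 + (m : ℝ)) ^ 8 * k0 * P.card := by
    have e1 : ∀ I ∈ LL.filter (fun L => L.card < k0), ∑ x ∈ I, ∑ y ∈ I.erase x, Z x y ≤
        (1 + (m : ℝ)) ^ 8 * k0 * I.card := by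
      intro I hI
      obtain ⟨hI1, hI2⟩ := Finset.mem_filter.mp hI
      have hIP := h.sub I hI1
      have e2 : ∀ x ∈ I, ∑ y ∈ I.erase x, Z x y ≤ (1 + (m : ℝ)) ^ 8 * k0 := by
        intro x hx
        have e3 : ∑ y ∈ I.erase x, Z x y ≤ ∑ y ∈ I.erase x, (1 + (m : ℝ)) ^ 8 :=
          Finset.sum_le_sum fun y hy => hZ1 x (hIP hx) y (hIP (Finset.mem_of_mem_erase hy))
        refine e3.trans ?_
        rw [Finset.sum_const, nsmul_eq_mul, mul_comm]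
        refine mul_le_mul_of_nonneg_left ?_ (by positivity)
        have e4 : (I.erase x).card ≤ k0 := (Finset.card_erase_le).trans hI2.le
        exact_mod_cast e4
      refine (Finset.sum_le_sum e2).trans ?_
      rw [Finset.sum_const, nsmul_eq_mul, mul_comm]
    refine (Finset.sum_le_sum e1).trans ?_
    rw [← Finset.mul_sum]
    have e5 : ∑ I ∈ LL.filter (fun L => L.card < k0), (I.card : ℝ) ≤ ∑ I ∈ LL, (I.card : ℝ) :=
      Finset.sum_le_sum_of_subset_of_nonneg (Finset.filter_subset _ _)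
        (fun I _ _ => Nat.cast_nonneg _)
    have e6 := e5.trans (lines_sum h)
    calc (1 + (m : ℝ)) ^ 8 * k0 * ∑ I ∈ LL.filter (fun L => L.card < k0), (I.card : ℝ) ≤
        (1 + (m : ℝ)) ^ 8 * k0 * (m * P.card) := mul_le_mul_of_nonneg_left e6 (by positivity)
      _ = _ := by ring
  -- all lines with fewer than `K` points
  have hall : ∑ L ∈ LL.filter (fun L => L.card < K), ∑ x ∈ L, ∑ y ∈ L.erase x, Z x y ≤
      ∑ I ∈ LL.filter (fun L => L.card < k0), (∑ x ∈ I, ∑ y ∈ I.erase x, Z x y) +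
      ∑ I ∈ md LL k0 K, ∑ x ∈ I, ∑ y ∈ I.erase x, Z x y := by
    have hnn : ∀ I : Finset (EuclideanSpace ℝ (Fin d)), 0 ≤ ∑ x ∈ I, ∑ y ∈ I.erase x, Z x y :=
      fun I => Finset.sum_nonneg fun x _ => Finset.sum_nonneg fun y _ => hZ0 x y
    have hsub : LL.filter (fun L => L.card < K) ⊆
        LL.filter (fun L => L.card < k0) ∪ md LL k0 K := by
      intro I hI
      obtain ⟨hI1, hI2⟩ := Finset.mem_filter.mp hI
      rcases lt_or_ge I.card k0 with hc | hc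
      · exact Finset.mem_union_left _ (Finset.mem_filter.mpr ⟨hI1, hc⟩)
      · exact Finset.mem_union_right _ (Finset.mem_filter.mpr ⟨hI1, hc, hI2⟩)
    refine (Finset.sum_le_sum_of_subset_of_nonneg hsub (fun I _ _ => hnn I)).trans ?_
    have hui := Finset.sum_union_inter (s₁ := LL.filter (fun L => L.card < k0))
      (s₂ := md LL k0 K) (f := fun I => ∑ x ∈ I, ∑ y ∈ I.erase x, Z x y)
    have hin : 0 ≤ ∑ I ∈ LL.filter (fun L => L.card < k0) ∩ md LL k0 K,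
        ∑ x ∈ I, ∑ y ∈ I.erase x, Z x y := Finset.sum_nonneg fun I _ => hnn I
    linarith
  -- the diagonal
  have hdiag : ∑ x ∈ P, ∑ y ∈ P, (if x = y then Z x y else 0) ≤
      (1 + (m : ℝ)) ^ 8 * P.card := by
    have e1 : ∀ x ∈ P, ∑ y ∈ P, (if x = y then Z x y else 0) ≤ (1 + (m : ℝ)) ^ 8 := by
      intro x hx
      rw [Finset.sum_ite_eq, if_pos hx]
      exact hZ1 x hx x hx
    refine (Finset.sum_le_sum e1).trans ?_
    rw [Finset.sum_const, nsmul_eq_mul, mul_comm]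
  have hsplit : ∑ x ∈ P, ∑ y ∈ P, (if x = y ∨ sm LL K x y then Z x y else 0) ≤
      ∑ x ∈ P, ∑ y ∈ P, (if x = y then Z x y else 0) +
      ∑ x ∈ P, ∑ y ∈ P, (if sm LL K x y then Z x y else 0) := by
    rw [← Finset.sum_add_distrib]
    refine Finset.sum_le_sum fun x _ => ?_
    rw [← Finset.sum_add_distrib]
    refine Finset.sum_le_sum fun y _ => ?_
    have hz := hZ0 x y
    by_cases h1 : x = y
    · rw [if_pos (Or.inl h1), if_pos h1]
      split_ifs <;> linarith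
    · by_cases h2 : sm LL K x y
      · rw [if_pos (Or.inr h2), if_neg h1, if_pos h2, zero_add]
      · rw [if_neg (by tauto), if_neg h1, if_neg h2, zero_add]
  have hsm := sm_sum (K := K) h Z hZ0
  have hfin : (P.card : ℝ) ≤ k0 * P.card := by nlinarith
  have hfin2 : (1 + (m : ℝ)) ^ 8 * P.card ≤ (1 + (m : ℝ)) ^ 8 * (k0 * P.card) :=
    mul_le_mul_of_nonneg_left hfin (by positivity)
  calc ∑ x ∈ P, ∑ y ∈ P, (if x = y ∨ sm LL K x y then Z x y else 0) ≤ _ := hsplit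
    _ ≤ (1 + (m : ℝ)) ^ 8 * (k0 * P.card) +
      (m * (1 + (m : ℝ)) ^ 8 * k0 * P.card + Ct * (1 + 2 * Cs + 2 * Cu) * k0 * P.card) := by
        linarith
    _ = _ := by ring

theorem gen_cubes (m : ℕ) : ∃ C : ℝ, 0 < C ∧
    ∀ {d : ℕ} {α : ℝ} {k0 K : ℕ} {P : Finset (EuclideanSpace ℝ (Fin d))}
    {LL : Finset (Finset (EuclideanSpace ℝ (Fin d)))}, 0 < α → α < 1 → 1 ≤ K → 1 ≤ k0 →
    LineSys α m P LL → (∀ L ∈ LL, L.card < 2 * K) → (∀ I ∈ LL, I.card < K → I.card ≤ k0 ^ 3) →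
    ∑ x ∈ P, ∑ y ∈ P, |(inner ℝ (r2 LL k0 K x) (r2 LL k0 K y) : ℝ)| ^ 3 ≤ C * k0 * P.card := by
  obtain ⟨Ch, hCh, hH⟩ := h_one m
  obtain ⟨Cb, hCb, hB⟩ := bad_sq m
  set D : ℝ := (1 + (m : ℝ)) ^ 2 with hD
  have hD0 : 0 < D := by positivity
  set cc : ℝ := (m : ℝ) ^ 3 + 3 * (m : ℝ) ^ 2 with hcc
  have hcc0 : 0 ≤ cc := by positivity
  refine ⟨4 * (32 * (1 + (m : ℝ)) ^ 6 * Ch + 128 * D ^ 3 * (cc ^ 2 * (D * (1 + m))) +
    2 * D * D * Cb), by positivity, ?_⟩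
  intro d α k0 K P LL h0 h1 hK hk0 h hlt hcard
  have hk0' : (1 : ℝ) ≤ k0 := by exact_mod_cast hk0
  have hN : (0 : ℝ) ≤ P.card := Nat.cast_nonneg _
  have hNk : (P.card : ℝ) ≤ k0 * P.card := by nlinarith
  have hBm0 := Bm_nonneg LL k0 K
  -- notation
  obtain ⟨Z, hZ⟩ : ∃ Z : EuclideanSpace ℝ (Fin d) → EuclideanSpace ℝ (Fin d) → ℝ,
    Z = fun x y => (inner ℝ (r2 LL k0 K x) (r2 LL k0 K y) : ℝ) := ⟨_, rfl⟩
  obtain ⟨f, hf⟩ : ∃ f : EuclideanSpace ℝ (Fin d) → EuclideanSpace ℝ (Fin d) → ℝ,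
    f = fun z w => if z ≠ w ∧ ¬ sm LL K z w then
      max (inner ℝ (rr LL K z) (rr LL K w) : ℝ) 0 else 0 := ⟨_, rfl⟩
  obtain ⟨Yf, hYf⟩ : ∃ Yf : EuclideanSpace ℝ (Fin d) → EuclideanSpace ℝ (Fin d) → ℝ,
    Yf = fun x y => Yp P LL k0 K f x y := ⟨_, rfl⟩
  obtain ⟨Yg, hYg⟩ : ∃ Yg : EuclideanSpace ℝ (Fin d) → EuclideanSpace ℝ (Fin d) → ℝ,
    Yg = fun x y => Yp P LL k0 K (gs LL K) x y := ⟨_, rfl⟩
  have hf0 : ∀ z w, 0 ≤ f z w := by
    intro z w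
    rw [hf]
    change 0 ≤ if z ≠ w ∧ ¬ sm LL K z w then _ else _
    split_ifs
    · exact le_max_right _ _
    · exact le_rfl
  have hgs0 : ∀ z w, 0 ≤ gs LL K z w := by
    intro z w
    unfold gs
    split_ifs
    · exact zero_le_one
    · exact le_rfl
  have hYf0 : ∀ x y, 0 ≤ Yf x y := by
    intro x y
    rw [hYf]
    exact Finset.sum_nonneg fun z _ => Finset.sum_nonneg fun w _ =>
      mul_nonneg (mul_nonneg (hBm0 _ _) (hBm0 _ _)) (hf0 z w)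
  have hYg0 : ∀ x y, 0 ≤ Yg x y := by
    intro x y
    rw [hYg]
    exact Finset.sum_nonneg fun z _ => Finset.sum_nonneg fun w _ =>
      mul_nonneg (mul_nonneg (hBm0 _ _) (hBm0 _ _)) (hgs0 z w)
  have hmx : ∀ z ∈ P, ∀ w ∈ P, max (inner ℝ (rr LL K z) (rr LL K w) : ℝ) 0 ≤
      f z w + D * gs LL K z w := by
    intro z hz w hw
    have hb := rbound (K := K) h z hz w hw
    by_cases hc : z ≠ w ∧ ¬ sm LL K z w
    · have e1 : f z w = max (inner ℝ (rr LL K z) (rr LL K w) : ℝ) 0 := by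
        rw [hf]
        exact if_pos hc
      rw [e1]
      have := mul_nonneg hD0.le (hgs0 z w)
      linarith
    · have e1 : gs LL K z w = 1 := by
        unfold gs
        rw [if_pos]
        by_contra hcon
        apply hc
        push Not at hcon
        exact hcon
      rw [e1, mul_one]
      have := hf0 z w
      linarith
  have hYm : ∀ x y, Yp P LL k0 K
      (fun z w => max (inner ℝ (rr LL K z) (rr LL K w) : ℝ) 0) x y ≤ Yf x y + D * Yg x y := by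
    intro x y
    rw [hYf, hYg]
    change ∑ z ∈ P, ∑ w ∈ P, _ ≤ (∑ z ∈ P, ∑ w ∈ P, _) + D * (∑ z ∈ P, ∑ w ∈ P, _)
    rw [Finset.mul_sum, ← Finset.sum_add_distrib]
    refine Finset.sum_le_sum fun z hz => ?_
    rw [Finset.mul_sum, ← Finset.sum_add_distrib]
    refine Finset.sum_le_sum fun w hw => ?_
    have e1 := mul_le_mul_of_nonneg_left (hmx z hz w hw)
      (mul_nonneg (hBm0 x z) (hBm0 y w))
    calc _ ≤ _ := e1
      _ = _ := by ring
  -- the sum of the cubes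
  obtain ⟨S, hS⟩ : ∃ S : ℝ, S = ∑ x ∈ P, ∑ y ∈ P, |Z x y| ^ 3 := ⟨_, rfl⟩
  have hS1 : S ≤ ∑ x ∈ P, ∑ y ∈ P, (2 * |Z x y| ^ 2 * Yf x y + 2 * D * |Z x y| ^ 2 * Yg x y) := by
    have e1 := cube_le (k0 := k0) (K := K) h
    have e2 : S = ∑ x ∈ P, ∑ y ∈ P,
        |(inner ℝ (r2 LL k0 K x) (r2 LL k0 K y) : ℝ)| ^ 3 := by rw [hS, hZ]
    rw [e2]
    refine e1.trans ?_
    rw [Finset.mul_sum]
    refine Finset.sum_le_sum fun x _ => ?_
    rw [Finset.mul_sum]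
    refine Finset.sum_le_sum fun y _ => ?_
    have e3 := hYm x y
    have e4 : |Z x y| ^ 2 = (inner ℝ (r2 LL k0 K x) (r2 LL k0 K y) : ℝ) ^ 2 := by
      rw [sq_abs, hZ]
    rw [e4]
    have e5 := mul_le_mul_of_nonneg_left e3
      (sq_nonneg (inner ℝ (r2 LL k0 K x) (r2 LL k0 K y) : ℝ))
    nlinarith
  -- pointwise estimate
  have hpt : ∀ x ∈ P, ∀ y ∈ P, 2 * |Z x y| ^ 2 * Yf x y + 2 * D * |Z x y| ^ 2 * Yg x y ≤
      3 / 4 * |Z x y| ^ 3 + 32 * Yf x y ^ 3 + 128 * D ^ 3 * ((cc / k0) ^ 2 * Yg x y) +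
      2 * D * D * (if x = y ∨ sm LL K x y then Z x y ^ 2 else 0) := by
    intro x hx y hy
    have a0 := abs_nonneg (Z x y)
    have e1 := young3 |Z x y| (Yf x y) a0 (hYf0 x y)
    by_cases hc : x = y ∨ sm LL K x y
    · rw [if_pos hc]
      have e2 : Yg x y ≤ D := by
        rw [hYg, hD]
        exact Yg_le h x hx y hy
      have e3 : 2 * D * |Z x y| ^ 2 * Yg x y ≤ 2 * D * |Z x y| ^ 2 * D :=
        mul_le_mul_of_nonneg_left e2 (by positivity)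
      have e4 : |Z x y| ^ 2 = Z x y ^ 2 := sq_abs _
      have e5 : 0 ≤ 128 * D ^ 3 * ((cc / k0) ^ 2 * Yg x y) :=
        mul_nonneg (by positivity) (mul_nonneg (sq_nonneg _) (hYg0 x y))
      have e6 : 0 ≤ |Z x y| ^ 3 := by positivity
      have e7 : 2 * D * |Z x y| ^ 2 * D = 2 * D * D * Z x y ^ 2 := by rw [e4]; ring
      linarith
    · rw [if_neg hc, mul_zero, add_zero]
      have hc1 : x ≠ y := fun hh => hc (Or.inl hh)
      have hc2 : ¬ sm LL K x y := fun hh => hc (Or.inr hh)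
      have e2 : Yg x y ≤ cc / k0 := by
        rw [hYg, hcc]
        exact Yg_good h hk0 x hx y hy hc1 hc2
      have e3 := young3 |Z x y| (2 * D * Yg x y) a0
        (mul_nonneg (by positivity) (hYg0 x y))
      have e4 : Yg x y ^ 3 ≤ (cc / k0) ^ 2 * Yg x y := by
        have e5 : Yg x y ^ 2 ≤ (cc / k0) ^ 2 := pow_le_pow_left₀ (hYg0 x y) e2 2
        have e6 := mul_le_mul_of_nonneg_right e5 (hYg0 x y)
        calc Yg x y ^ 3 = Yg x y ^ 2 * Yg x y := by ring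
          _ ≤ _ := e6
      have e5 : 128 * D ^ 3 * Yg x y ^ 3 ≤ 128 * D ^ 3 * ((cc / k0) ^ 2 * Yg x y) :=
        mul_le_mul_of_nonneg_left e4 (by positivity)
      have e6 : 2 * |Z x y| ^ 2 * (2 * D * Yg x y) = 2 * (2 * D * |Z x y| ^ 2 * Yg x y) := by
        ring
      have e7 : 32 * (2 * D * Yg x y) ^ 3 = 2 * (128 * D ^ 3 * Yg x y ^ 3) := by ring
      rw [e6, e7] at e3
      linarith
  have hS2 : S ≤ 3 / 4 * S + 32 * (∑ x ∈ P, ∑ y ∈ P, Yf x y ^ 3) +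
      128 * D ^ 3 * ((cc / k0) ^ 2 * ∑ x ∈ P, ∑ y ∈ P, Yg x y) +
      2 * D * D * ∑ x ∈ P, ∑ y ∈ P, (if x = y ∨ sm LL K x y then Z x y ^ 2 else 0) := by
    refine hS1.trans ?_
    refine (Finset.sum_le_sum fun x hx => Finset.sum_le_sum fun y hy => hpt x hx y hy).trans ?_
    rw [hS]
    simp only [Finset.sum_add_distrib, ← Finset.mul_sum]
    exact le_rfl
  -- the three parts
  have hp1 : ∑ x ∈ P, ∑ y ∈ P, Yf x y ^ 3 ≤ (1 + (m : ℝ)) ^ 6 * (Ch * P.card) := by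
    have e1 := Yp_cube (k0 := k0) (K := K) h f hf0
    rw [hYf]
    refine e1.trans ?_
    refine mul_le_mul_of_nonneg_left ?_ (by positivity)
    refine le_trans (le_of_eq ?_) (hH (K := K) h0 h1 hK h hlt)
    refine Finset.sum_congr rfl fun z _ => ?_
    rw [Finset.sum_filter]
    refine Finset.sum_congr rfl fun w _ => ?_
    rw [hf]
    change (if z ≠ w ∧ ¬ sm LL K z w then _ else _) ^ 3 = _
    split_ifs
    · rfl
    · norm_num
  have hp2 : (cc / k0) ^ 2 * ∑ x ∈ P, ∑ y ∈ P, Yg x y ≤ cc ^ 2 * (D * (1 + m)) * k0 * P.card := by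
    have e1 := Yg_sum (k0 := k0) (k2 := k0 ^ 3) h hcard
    have e2 : ∑ x ∈ P, ∑ y ∈ P, Yg x y ≤ D * (1 + m * (k0 : ℝ) ^ 3) * P.card := by
      rw [hYg, hD]
      refine e1.trans (le_of_eq ?_)
      push_cast
      ring
    have e3 : D * (1 + m * (k0 : ℝ) ^ 3) * P.card ≤ D * ((1 + m) * (k0 : ℝ) ^ 3) * P.card := by
      refine mul_le_mul_of_nonneg_right (mul_le_mul_of_nonneg_left ?_ hD0.le) hN
      have : (1 : ℝ) ≤ (k0 : ℝ) ^ 3 := one_le_pow₀ hk0'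
      nlinarith
    have e4 := mul_le_mul_of_nonneg_left (e2.trans e3) (sq_nonneg (cc / k0))
    refine e4.trans (le_of_eq ?_)
    have hk00 : (k0 : ℝ) ≠ 0 := by
      intro hh
      rw [hh] at hk0'
      norm_num at hk0'
    field_simp
  have hp3 : ∑ x ∈ P, ∑ y ∈ P, (if x = y ∨ sm LL K x y then Z x y ^ 2 else 0) ≤
      Cb * k0 * P.card := by
    rw [hZ]
    exact hB h0 h1 hK hk0 h hlt hcard
  have hres : S ≤ 4 * (32 * ((1 + (m : ℝ)) ^ 6 * (Ch * (k0 * P.card))) +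
      128 * D ^ 3 * (cc ^ 2 * (D * (1 + m)) * k0 * P.card) + 2 * D * D * (Cb * k0 * P.card)) := by
    have q1 : (1 + (m : ℝ)) ^ 6 * (Ch * P.card) ≤ (1 + (m : ℝ)) ^ 6 * (Ch * (k0 * P.card)) :=
      mul_le_mul_of_nonneg_left (mul_le_mul_of_nonneg_left hNk hCh.le) (by positivity)
    have q2 := mul_le_mul_of_nonneg_left hp2 (show 0 ≤ 128 * D ^ 3 by positivity)
    have q3 := mul_le_mul_of_nonneg_left hp3 (show 0 ≤ 2 * D * D by positivity)
    linarith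
  have e2 : S = ∑ x ∈ P, ∑ y ∈ P,
      |(inner ℝ (r2 LL k0 K x) (r2 LL k0 K y) : ℝ)| ^ 3 := by rw [hS, hZ]
  rw [← e2]
  refine hres.trans (le_of_eq ?_)
  ring

end Pool.Agent.Helper17.SCD
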