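import Mathlib
import Pool.Agent.Helper17.SCD.FromCubes
import Pool.Agent.Helper17.SCD.GenCubes

set_option autoImplicit false

open scoped Classical

namespace Pool.Agent.Helper17.SCD

/-
SCD-ClassG (0.9 h). Plan.
small_card: x_1, ..., x_k the points of I; every x in I is on a line J_x with at least K points (h.big), J_x ≠ I, and J_x ≠ J_y for x ≠ y (otherwise
x, y in I ∩ J_x, h.sys.meet). So K |I| ≤ sum_{J in bg} |J| ≤ m N (sum_lines).
class_gen: T0 from from_cubes, A = C from gen_cubes, T = T0. N = P.card; N = 0 trivial (rpow nonneg). N > 0: there is a line with ≥ K points, so N ≥ K ≥ 1.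
u := (m N / K)^(1/3) (real). k0 := min K (max T0 ⌈u⌉₊). T0 ≤ k0 ≤ K, 1 ≤ k0. Lines with < K points have at most k0³ points: if k0 = K trivial,
otherwise k0³ ≥ u³ = m N/K ≥ |I| (small_card). gen_cubes and from_cubes: N ≤ C d sqrt(K k0), k0 ≤ T0 + 1 + u ≤ (T0 + 1 + m) (N/K)^(1/3) (N/K ≥ 1).
So N ≤ C' d K^(1/2) (N/K)^(1/6), i.e. N^(5/6) ≤ C' d K^(1/3), N ≤ C'^(6/5) d^(6/5) K^(2/5).
-/
theorem small_card {d : ℕ} {α : ℝ} {m K : ℕ} {P : Finset (EuclideanSpace ℝ (Fin d))}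
    {LL : Finset (Finset (EuclideanSpace ℝ (Fin d)))} (h : Cls α m K P LL)
    (I : Finset (EuclideanSpace ℝ (Fin d))) (hI : I ∈ LL) (hIK : I.card < K) : K * I.card ≤ m * P.card := by
  have hex : ∀ x : EuclideanSpace ℝ (Fin d), ∃ J : Finset (EuclideanSpace ℝ (Fin d)),
      x ∈ I → J ∈ LL ∧ x ∈ J ∧ K ≤ J.card := by
    intro x
    by_cases hx : x ∈ I
    · obtain ⟨J, h1, h2, h3⟩ := h.big x (h.sys.sub I hI hx)
      exact ⟨J, fun _ => ⟨h1, h2, h3⟩⟩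
    · exact ⟨∅, fun hx' => absurd hx' hx⟩
  choose J hJ using hex
  have hinj : Set.InjOn J (I : Set (EuclideanSpace ℝ (Fin d))) := by
    intro x hx y hy hxy
    have hx' : x ∈ I := hx
    have hy' : y ∈ I := hy
    by_contra hne
    have hJI : I ≠ J x := by
      intro he
      have := (hJ x hx').2.2
      rw [← he] at this
      omega
    have h1 := h.sys.meet I hI (J x) (hJ x hx').1 hJI
    rw [Finset.card_le_one] at h1
    refine hne (h1 x ?_ y ?_)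
    · exact Finset.mem_inter.mpr ⟨hx', (hJ x hx').2.1⟩
    · refine Finset.mem_inter.mpr ⟨hy', ?_⟩
      rw [hxy]
      exact (hJ y hy').2.1
  have hF : I.image J ⊆ LL := by
    intro L hL
    obtain ⟨x, hx, rfl⟩ := Finset.mem_image.mp hL
    exact (hJ x hx).1
  have h2 := sum_lines h.sys (I.image J) hF
  rw [Finset.sum_image hinj] at h2
  refine le_trans ?_ h2
  calc K * I.card = ∑ _x ∈ I, K := by rw [Finset.sum_const, smul_eq_mul, mul_comm]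
    _ ≤ ∑ x ∈ I, (J x).card := Finset.sum_le_sum (fun x hx => (hJ x hx).2.2)

private theorem cg_root (N D a K : ℝ) (hN : 0 ≤ N) (hD : 0 ≤ D) (ha : 0 ≤ a) (hK : 0 ≤ K)
    (h : N ^ 5 ≤ D * a ^ 6 * K ^ 2) :
    N ≤ D ^ (1 / 5 : ℝ) * a ^ (6 / 5 : ℝ) * K ^ (2 / 5 : ℝ) := by
  have h1 : N = (N ^ 5) ^ (1 / 5 : ℝ) := by
    rw [← Real.rpow_natCast, ← Real.rpow_mul hN]
    norm_num
  have h2 : (a ^ 6) ^ (1 / 5 : ℝ) = a ^ (6 / 5 : ℝ) := by
    rw [← Real.rpow_natCast, ← Real.rpow_mul ha]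
    norm_num
  have h3 : (K ^ 2) ^ (1 / 5 : ℝ) = K ^ (2 / 5 : ℝ) := by
    rw [← Real.rpow_natCast, ← Real.rpow_mul hK]
    norm_num
  rw [← h2, ← h3, ← Real.mul_rpow hD (by positivity), ← Real.mul_rpow (by positivity) (by positivity), h1]
  have h4 : ((N ^ 5) ^ (1 / 5 : ℝ)) ^ 5 = N ^ 5 := by rw [← h1]
  exact Real.rpow_le_rpow (by positivity) h (by norm_num)

theorem class_gen (α : ℝ) (m : ℕ) (h0 : 0 < α) (h1 : α < 1) (hmα : m * α < 1) : ∃ T : ℕ, 1 ≤ T ∧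
    ∃ C : ℝ, 0 < C ∧ ∀ {d K : ℕ} {P : Finset (EuclideanSpace ℝ (Fin d))}
    {LL : Finset (Finset (EuclideanSpace ℝ (Fin d)))}, T ≤ K → Cls α m K P LL →
    (P.card : ℝ) ≤ C * (d : ℝ) ^ (6 / 5 : ℝ) * (K : ℝ) ^ (2 / 5 : ℝ) := by
  obtain ⟨T0, hT0, hfc⟩ := from_cubes α m h0 h1 hmα
  obtain ⟨A, hA, hgen⟩ := gen_cubes m
  obtain ⟨C, hC, hfc'⟩ := hfc A hA
  have hBpos : (0 : ℝ) < (T0 : ℝ) + 1 + m := by positivity
  refine ⟨T0, hT0, (C ^ 6 * ((T0 : ℝ) + 1 + m) ^ 3) ^ (1 / 5 : ℝ), by positivity, ?_⟩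
  intro d K P LL hTK h
  have hK1 : 1 ≤ K := le_trans hT0 hTK
  have hK1' : (0 : ℝ) < K := by exact_mod_cast hK1
  rcases Nat.eq_zero_or_pos P.card with hN | hN
  · rw [hN]; push_cast; positivity
  have hN' : (0 : ℝ) < P.card := by exact_mod_cast hN
  have hKN : K ≤ P.card := by
    obtain ⟨x, hx⟩ := Finset.card_pos.mp hN
    obtain ⟨J, hJ, _, hc⟩ := h.big x hx
    exact hc.trans (Finset.card_le_card (h.sys.sub J hJ))
  have hKN' : (K : ℝ) ≤ P.card := by exact_mod_cast hKN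
  -- the ratio
  obtain ⟨r, hr⟩ : ∃ r : ℝ, r = ((P.card : ℝ) / K) ^ (1 / 3 : ℝ) := ⟨_, rfl⟩
  have hq1 : 1 ≤ (P.card : ℝ) / K := by rw [le_div_iff₀ hK1']; linarith
  have hr1 : 1 ≤ r := by rw [hr]; exact Real.one_le_rpow hq1 (by norm_num)
  have hr3 : r ^ 3 = (P.card : ℝ) / K := by
    rw [hr, ← Real.rpow_natCast, ← Real.rpow_mul (by positivity)]
    norm_num
  -- k0
  obtain ⟨k0, hk0⟩ : ∃ k0 : ℕ, k0 = min K (max T0 ⌈(m : ℝ) * r⌉₊) := ⟨_, rfl⟩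
  have hTk : T0 ≤ k0 := by rw [hk0]; exact le_min hTK (le_max_left _ _)
  have hkK : k0 ≤ K := by rw [hk0]; exact min_le_left _ _
  have hk1 : 1 ≤ k0 := le_trans hT0 hTk
  have hk1' : (0 : ℝ) < k0 := by exact_mod_cast hk1
  have hk0le : (k0 : ℝ) ≤ ((T0 : ℝ) + 1 + m) * r := by
    have e1 : k0 ≤ T0 + ⌈(m : ℝ) * r⌉₊ := by
      rw [hk0]
      refine (min_le_right _ _).trans ?_
      exact max_le (by omega) (by omega)
    have e2 : (k0 : ℝ) ≤ T0 + ⌈(m : ℝ) * r⌉₊ := by exact_mod_cast e1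
    have e3 : (⌈(m : ℝ) * r⌉₊ : ℝ) < (m : ℝ) * r + 1 := Nat.ceil_lt_add_one (by positivity)
    have e4 : (0 : ℝ) ≤ T0 := by positivity
    nlinarith
  have hsmall : ∀ I ∈ LL, I.card < K → I.card ≤ k0 ^ 3 := by
    intro I hI hIK
    rcases le_total K (max T0 ⌈(m : ℝ) * r⌉₊) with hc | hc
    · have e1 : k0 = K := by rw [hk0]; exact min_eq_left hc
      rw [e1]
      calc I.card ≤ K := hIK.le
        _ = K ^ 1 := (pow_one K).symm
        _ ≤ K ^ 3 := Nat.pow_le_pow_right hK1 (by norm_num)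
    · have e1 : k0 = max T0 ⌈(m : ℝ) * r⌉₊ := by rw [hk0]; exact min_eq_right hc
      have e2 : (m : ℝ) * r ≤ k0 := by
        have : ⌈(m : ℝ) * r⌉₊ ≤ k0 := by rw [e1]; exact le_max_right _ _
        exact (Nat.le_ceil _).trans (by exact_mod_cast this)
      have e3 : (K : ℝ) * I.card ≤ m * P.card := by exact_mod_cast small_card h I hI hIK
      have e4 : (I.card : ℝ) ≤ m * r ^ 3 := by
        rw [hr3, ← mul_div_assoc, le_div_iff₀ hK1']
        linarith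
      have e5 : (m : ℝ) * r ^ 3 ≤ ((m : ℝ) * r) ^ 3 := by
        rcases Nat.eq_zero_or_pos m with hm | hm
        · rw [hm]; norm_num
        · have hm' : (1 : ℝ) ≤ m := by exact_mod_cast hm
          have : (m : ℝ) ≤ m ^ 3 := by
            calc (m : ℝ) = m ^ 1 := (pow_one _).symm
              _ ≤ m ^ 3 := pow_le_pow_right₀ hm' (by norm_num)
          rw [mul_pow]
          gcongr
      have e6 : ((m : ℝ) * r) ^ 3 ≤ (k0 : ℝ) ^ 3 := by gcongr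
      have e7 : (I.card : ℝ) ≤ (k0 : ℝ) ^ 3 := e4.trans (e5.trans e6)
      exact_mod_cast e7
  have hcub := hgen h0 h1 hK1 hk1 h.sys h.lt hsmall
  have hmain := hfc' hTk hkK h.sys h.lt hcub
  have hsqr : (P.card : ℝ) ^ 2 ≤ (C * d) ^ 2 * (K * k0) := by
    calc (P.card : ℝ) ^ 2 ≤ (C * d * Real.sqrt (K * k0)) ^ 2 := by gcongr
      _ = (C * d) ^ 2 * (K * k0) := by rw [mul_pow, Real.sq_sqrt (by positivity)]
  have hsix : (P.card : ℝ) ^ 5 * P.card ≤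
      (C ^ 6 * ((T0 : ℝ) + 1 + m) ^ 3 * (d : ℝ) ^ 6 * (K : ℝ) ^ 2) * P.card := by
    calc (P.card : ℝ) ^ 5 * P.card = ((P.card : ℝ) ^ 2) ^ 3 := by ring
      _ ≤ ((C * d) ^ 2 * (K * k0)) ^ 3 := by gcongr
      _ ≤ ((C * d) ^ 2 * (K * (((T0 : ℝ) + 1 + m) * r))) ^ 3 := by gcongr
      _ = C ^ 6 * ((T0 : ℝ) + 1 + m) ^ 3 * (d : ℝ) ^ 6 * (K : ℝ) ^ 3 * r ^ 3 := by ring
      _ = _ := by rw [hr3]; field_simp
  have hfive := le_of_mul_le_mul_right hsix hN'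
  exact cg_root _ _ _ _ (by positivity) (by positivity) (by positivity) (by positivity) hfive

end Pool.Agent.Helper17.SCD
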