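import Mathlib
import Pool.Agent.Helper17.SCD.Defs

set_option autoImplicit false

open scoped Classical

namespace Pool.Agent.Helper17.SCD

/-- restriction of a family of lines to a subset -/
noncomputable def rs {d : ℕ} (LL : Finset (Finset (EuclideanSpace ℝ (Fin d))))
    (P' : Finset (EuclideanSpace ℝ (Fin d))) : Finset (Finset (EuclideanSpace ℝ (Fin d))) :=
  (LL.image (fun L => L ∩ P')).filter (fun L => 2 ≤ L.card)

/-
SCD-Restr (0.6 h, Mathlib only). Plan.
restr_sys: direct; non: if x ≠ y in P' are on no common member of rs LL P' then on no common L in LL (L ∩ P' would have 2 points); meet: L ∩ P' ≠ L' ∩ P'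
implies L ≠ L'; deg: L ↦ L ∩ P' maps the lines through x onto the restricted lines through x (card_image_le).
split: P1 = (LL.filter (K ≤ card)).biUnion id, P0 = P \ P1, LL1 = rs LL P1, LL0 = rs LL P0. A line with ≥ K points is contained in P1, so
its trace on P0 is empty; the others have < K points. Lines of LL1 have < 2K points; every x in P1 is on some L with K ≤ |L|, L ∩ P1 = L.
-/
private lemma mem_rs {d : ℕ} {LL : Finset (Finset (EuclideanSpace ℝ (Fin d)))}
    {P' L' : Finset (EuclideanSpace ℝ (Fin d))} :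
    L' ∈ rs LL P' ↔ (∃ L ∈ LL, L ∩ P' = L') ∧ 2 ≤ L'.card := by
  unfold rs
  simp only [Finset.mem_filter, Finset.mem_image]

theorem restr_sys {d : ℕ} {α : ℝ} {m : ℕ} {P : Finset (EuclideanSpace ℝ (Fin d))}
    {LL : Finset (Finset (EuclideanSpace ℝ (Fin d)))} (h : LineSys α m P LL)
    (P' : Finset (EuclideanSpace ℝ (Fin d))) (hP' : P' ⊆ P) : LineSys α m P' (rs LL P') := by
  constructor
  · intro L hL
    obtain ⟨⟨L0, _, rfl⟩, _⟩ := mem_rs.1 hL
    exact Finset.inter_subset_right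
  · intro L hL
    exact (mem_rs.1 hL).2
  · intro x hx
    exact h.unit x (hP' hx)
  · intro L hL x hx y hy hxy
    obtain ⟨⟨L0, hL0, rfl⟩, _⟩ := mem_rs.1 hL
    exact h.adj L0 hL0 x (Finset.mem_inter.1 hx).1 y (Finset.mem_inter.1 hy).1 hxy
  · intro x hx y hy hxy hno
    apply h.non x (hP' hx) y (hP' hy) hxy
    intro L hL hxL hyL
    have hx' : x ∈ L ∩ P' := Finset.mem_inter.2 ⟨hxL, hx⟩
    have hy' : y ∈ L ∩ P' := Finset.mem_inter.2 ⟨hyL, hy⟩
    have h2 : 2 ≤ (L ∩ P').card := Finset.one_lt_card.2 ⟨x, hx', y, hy', hxy⟩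
    exact hno (L ∩ P') (mem_rs.2 ⟨⟨L, hL, rfl⟩, h2⟩) hx' hy'
  · intro L hL L' hL' hne
    obtain ⟨⟨L0, hL0, rfl⟩, _⟩ := mem_rs.1 hL
    obtain ⟨⟨L1, hL1, rfl⟩, _⟩ := mem_rs.1 hL'
    have hne' : L0 ≠ L1 := fun he => hne (by rw [he])
    refine (Finset.card_le_card ?_).trans (h.meet L0 hL0 L1 hL1 hne')
    intro z hz
    simp only [Finset.mem_inter] at hz ⊢
    exact ⟨hz.1.1, hz.2.1⟩
  · intro x hx
    refine le_trans ?_ (h.deg x (hP' hx))
    have hsub : (rs LL P').filter (fun L => x ∈ L)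
        ⊆ (LL.filter (fun L => x ∈ L)).image (fun L => L ∩ P') := by
      intro L hL
      rw [Finset.mem_filter] at hL
      obtain ⟨⟨L0, hL0, rfl⟩, _⟩ := mem_rs.1 hL.1
      exact Finset.mem_image.2 ⟨L0, Finset.mem_filter.2 ⟨hL0, (Finset.mem_inter.1 hL.2).1⟩, rfl⟩
    exact (Finset.card_le_card hsub).trans Finset.card_image_le

theorem split {d : ℕ} {α : ℝ} {m K : ℕ} {P : Finset (EuclideanSpace ℝ (Fin d))}
    {LL : Finset (Finset (EuclideanSpace ℝ (Fin d)))} (h : LineSys α m P LL) (hK : 1 ≤ K)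
    (hlt : ∀ L ∈ LL, L.card < 2 * K) :
    ∃ (P0 P1 : Finset (EuclideanSpace ℝ (Fin d))) (LL0 LL1 : Finset (Finset (EuclideanSpace ℝ (Fin d)))),
      P.card = P0.card + P1.card ∧ LineSys α m P0 LL0 ∧ (∀ L ∈ LL0, L.card < K) ∧ Cls α m K P1 LL1 := by
  obtain ⟨P1, hP1⟩ : ∃ P1, P1 = (LL.filter (fun L => K ≤ L.card)).biUnion id := ⟨_, rfl⟩
  have hmem : ∀ L ∈ LL, K ≤ L.card → L ⊆ P1 := by
    intro L hL hc
    rw [hP1]
    exact Finset.subset_biUnion_of_mem id (Finset.mem_filter.2 ⟨hL, hc⟩)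
  have hsub : P1 ⊆ P := by
    rw [hP1]
    intro x hx
    simp only [Finset.mem_biUnion, Finset.mem_filter, id_eq] at hx
    obtain ⟨L, ⟨hL, _⟩, hxL⟩ := hx
    exact h.sub L hL hxL
  refine ⟨P \ P1, P1, rs LL (P \ P1), rs LL P1, ?_, restr_sys h _ Finset.sdiff_subset, ?_, ?_⟩
  · have := Finset.card_sdiff_add_card_eq_card hsub
    omega
  · intro L hL
    obtain ⟨⟨L0, hL0, rfl⟩, h2⟩ := mem_rs.1 hL
    by_contra hc
    have h1 : K ≤ L0.card := (not_lt.1 hc).trans (Finset.card_le_card Finset.inter_subset_left)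
    have h3 := hmem L0 hL0 h1
    have h4 : L0 ∩ (P \ P1) = ∅ := by
      ext z
      simp only [Finset.mem_inter, Finset.mem_sdiff, Finset.notMem_empty, iff_false]
      rintro ⟨hz, _, hz2⟩
      exact hz2 (h3 hz)
    rw [h4] at h2
    simp at h2
  · refine ⟨restr_sys h _ hsub, ?_, ?_⟩
    · intro L hL
      obtain ⟨⟨L0, hL0, rfl⟩, _⟩ := mem_rs.1 hL
      exact (Finset.card_le_card Finset.inter_subset_left).trans_lt (hlt L0 hL0)
    · intro x hx
      have hx' := hx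
      rw [hP1] at hx'
      simp only [Finset.mem_biUnion, Finset.mem_filter, id_eq] at hx'
      obtain ⟨L, ⟨hL, hc⟩, hxL⟩ := hx'
      have h3 : L ∩ P1 = L := Finset.inter_eq_left.2 (hmem L hL hc)
      exact ⟨L, mem_rs.2 ⟨⟨L, hL, h3⟩, h.two L hL⟩, hxL, hc⟩

end Pool.Agent.Helper17.SCD
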