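import Mathlib
import Pool.Agent.Helper17.SCD.Restr
import Pool.Agent.Helper17.SCD.GramSum
import Pool.Agent.Helper49.Sph.C1
import Pool.Agent.Helper49.Sph.C2

set_option autoImplicit false

open scoped Classical

namespace Pool.Agent.Helper17.SCD

/-
SCD-Peel (1.0 h). Plan.
base: N = P.card; tensor2 (x = ρ = id): N² = (sum ‖x‖²)² ≤ d sum <x,y>² ≤ d sum |<x,y>| (|<x,y>| ≤ 1) ≤ d (2+4m) K N (gram_sum).
induction on n: if all lines of (P, LL) have < 2^(i0+n) points (2^i0 ≥ T) then N ≤ (2+4m) 2^i0 d + C d^a sum_{j < n} (2^(i0+j))^b: n = 0: base with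
K = 2^i0; step: split with K = 2^(i0+n), hcls for P1 (T ≤ 2^i0 ≤ K).
final: every line has at most d points (Pool.Agent.Helper49.Sph.clique_card). Take n with d < 2^(i0+n) ≤ 2^(i0+1) d (e.g. n = Nat.log 2 d + 1).
sum_{j<n} (2^(i0+j))^b ≤ (2^(i0+n))^b/(2^b - 1) ≤ (2^(i0+1) d)^b/(2^b-1) (geometric sum), d ≤ d^(a+b) (1 ≤ d, 1 ≤ a, 0 < b).
-/
theorem base_bound {d : ℕ} {α : ℝ} {m K : ℕ} {P : Finset (EuclideanSpace ℝ (Fin d))}
    {LL : Finset (Finset (EuclideanSpace ℝ (Fin d)))} (h0 : 0 < α) (h1 : α < 1) (hK : 1 ≤ K)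
    (h : LineSys α m P LL) (hlt : ∀ L ∈ LL, L.card < 2 * K) : (P.card : ℝ) ≤ (2 + 4 * m) * K * d := by
  have h2 := Pool.Agent.Helper49.Sph.tensor2 P (fun x => x) (fun x => x)
  have h3 : ∑ i ∈ P, (inner ℝ i i : ℝ) = P.card := by
    have h4 : ∀ i ∈ P, (inner ℝ i i : ℝ) = 1 := by
      intro i hi
      rw [real_inner_self_eq_norm_sq, h.unit i hi]
      norm_num
    rw [Finset.sum_congr rfl h4]
    simp
  have h5 : ∑ i ∈ P, ∑ j ∈ P, (inner ℝ i j : ℝ) * inner ℝ i j ≤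
      ∑ i ∈ P, ∑ j ∈ P, |(inner ℝ i j : ℝ)| := by
    apply Finset.sum_le_sum
    intro i hi
    apply Finset.sum_le_sum
    intro j hj
    have h6 : |(inner ℝ i j : ℝ)| ≤ 1 := by
      have h7 := abs_real_inner_le_norm i j
      rw [h.unit i hi, h.unit j hj] at h7
      linarith
    rw [← abs_mul_abs_self]
    have h8 := abs_nonneg (inner ℝ i j : ℝ)
    nlinarith
  have h6 := gram_sum h0 h1 hK h hlt
  have h7 : (P.card : ℝ) ^ 2 ≤ d * ((2 + 4 * m) * K * P.card) := by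
    rw [h3] at h2
    refine h2.trans ?_
    exact mul_le_mul_of_nonneg_left (h5.trans h6) (Nat.cast_nonneg d)
  have h8 : (0 : ℝ) ≤ P.card := Nat.cast_nonneg _
  rcases h8.eq_or_lt with h9 | h9
  · rw [← h9]
    positivity
  · have h10 : (P.card : ℝ) * P.card ≤ ((2 + 4 * m) * K * d) * P.card := by
      nlinarith
    exact le_of_mul_le_mul_right h10 h9

private theorem peel_ind (α : ℝ) (m : ℕ) (h0 : 0 < α) (h1 : α < 1) (a b : ℝ) (T : ℕ)
    (hT : 1 ≤ T) (C : ℝ)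
    (hcls : ∀ {d K : ℕ} {P : Finset (EuclideanSpace ℝ (Fin d))}
      {LL : Finset (Finset (EuclideanSpace ℝ (Fin d)))}, T ≤ K → Cls α m K P LL →
      (P.card : ℝ) ≤ C * (d : ℝ) ^ a * (K : ℝ) ^ b) {d : ℕ} (n : ℕ) :
    ∀ {P : Finset (EuclideanSpace ℝ (Fin d))}
      {LL : Finset (Finset (EuclideanSpace ℝ (Fin d)))}, LineSys α m P LL →
      (∀ L ∈ LL, L.card < T * 2 ^ n) →
      (P.card : ℝ) ≤ (2 + 4 * m) * T * d +
        C * (d : ℝ) ^ a * ∑ j ∈ Finset.range n, (((T * 2 ^ j : ℕ) : ℝ)) ^ b := by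
  induction n with
  | zero =>
    intro P LL h hlt
    rw [Finset.sum_range_zero, mul_zero, add_zero]
    apply base_bound h0 h1 hT h
    intro L hL
    have := hlt L hL
    omega
  | succ n ih =>
    intro P LL h hlt
    have hK : 1 ≤ T * 2 ^ n := Nat.one_le_iff_ne_zero.2 (by positivity)
    obtain ⟨P0, P1, LL0, LL1, hc, hs0, hlt0, hcl⟩ := split (K := T * 2 ^ n) h hK (by
      intro L hL
      have := hlt L hL
      rw [pow_succ] at this
      calc L.card < T * (2 ^ n * 2) := this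
        _ = 2 * (T * 2 ^ n) := by ring)
    have h2 := ih hs0 hlt0
    have h3 := hcls (Nat.le_mul_of_pos_right T (by positivity)) hcl
    rw [hc, Nat.cast_add, Finset.sum_range_succ, mul_add]
    linarith

theorem peel (α : ℝ) (m : ℕ) (h0 : 0 < α) (h1 : α < 1) (a b : ℝ) (ha : 1 ≤ a) (hb : 0 < b) (T : ℕ)
    (hT : 1 ≤ T) (C : ℝ) (hC : 0 < C)
    (hcls : ∀ {d K : ℕ} {P : Finset (EuclideanSpace ℝ (Fin d))}
      {LL : Finset (Finset (EuclideanSpace ℝ (Fin d)))}, T ≤ K → Cls α m K P LL →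
      (P.card : ℝ) ≤ C * (d : ℝ) ^ a * (K : ℝ) ^ b) :
    ∃ C' : ℝ, 0 < C' ∧ ∀ {d : ℕ} {P : Finset (EuclideanSpace ℝ (Fin d))}
      {LL : Finset (Finset (EuclideanSpace ℝ (Fin d)))}, 1 ≤ d → LineSys α m P LL →
      (P.card : ℝ) ≤ C' * (d : ℝ) ^ (a + b) := by
  have h2b : (1 : ℝ) < (2 : ℝ) ^ b := Real.one_lt_rpow (by norm_num) hb
  have h2b' : (0 : ℝ) < (2 : ℝ) ^ b - 1 := by linarith
  have hT0 : (0 : ℝ) < T := by exact_mod_cast hT
  refine ⟨(2 + 4 * m) * T + C * ((2 * T : ℝ) ^ b / ((2 : ℝ) ^ b - 1)), by positivity, ?_⟩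
  intro d P LL hd h
  have hd1 : (1 : ℝ) ≤ d := by exact_mod_cast hd
  have hd0 : (0 : ℝ) < d := by linarith
  have hlt : ∀ L ∈ LL, L.card < T * 2 ^ (Nat.log 2 d + 1) := by
    intro L hL
    have h3 : L.card ≤ d := Pool.Agent.Helper49.Sph.clique_card h0 h1 L
      (fun x hx => h.unit x (h.sub L hL hx)) (fun x hx y hy hxy => h.adj L hL x hx y hy hxy)
    have h4 : d < 2 ^ (Nat.log 2 d + 1) := Nat.lt_pow_succ_log_self (by norm_num) d
    have h5 : 2 ^ (Nat.log 2 d + 1) ≤ T * 2 ^ (Nat.log 2 d + 1) := Nat.le_mul_of_pos_left _ hT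
    omega
  have h3 := peel_ind α m h0 h1 a b T hT C hcls (Nat.log 2 d + 1) h hlt
  have h4 : ∀ j : ℕ, (((T * 2 ^ j : ℕ) : ℝ)) ^ b = (T : ℝ) ^ b * ((2 : ℝ) ^ b) ^ j := by
    intro j
    push_cast
    rw [Real.mul_rpow hT0.le (by positivity), ← Real.rpow_natCast, ← Real.rpow_mul (by norm_num),
      mul_comm (j : ℝ) b, Real.rpow_mul (by norm_num), Real.rpow_natCast]
  have h5 : ∑ j ∈ Finset.range (Nat.log 2 d + 1), (((T * 2 ^ j : ℕ) : ℝ)) ^ b ≤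
      (2 * T : ℝ) ^ b * (d : ℝ) ^ b / ((2 : ℝ) ^ b - 1) := by
    rw [Finset.sum_congr rfl (fun j _ => h4 j), ← Finset.mul_sum, geom_sum_eq (ne_of_gt h2b),
      mul_div_assoc']
    apply div_le_div_of_nonneg_right _ h2b'.le
    have h6 : (((2 : ℝ) ^ b) ^ (Nat.log 2 d + 1)) ≤ (2 * d : ℝ) ^ b := by
      rw [← Real.rpow_natCast, ← Real.rpow_mul (by norm_num), mul_comm b, Real.rpow_mul (by norm_num),
        Real.rpow_natCast]
      apply Real.rpow_le_rpow (by positivity) _ hb.le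
      rw [pow_succ, mul_comm]
      have h7 : 2 ^ (Nat.log 2 d) ≤ d := Nat.pow_log_le_self 2 (by omega)
      have h8 : ((2 : ℝ)) ^ (Nat.log 2 d) ≤ d := by exact_mod_cast h7
      linarith
    have h9 : (2 * T : ℝ) ^ b * (d : ℝ) ^ b = (T : ℝ) ^ b * (2 * d : ℝ) ^ b := by
      rw [← Real.mul_rpow (by positivity) hd0.le, ← Real.mul_rpow hT0.le (by positivity)]
      congr 1
      ring
    rw [h9]
    apply mul_le_mul_of_nonneg_left _ (by positivity)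
    linarith
  have h6 : C * (d : ℝ) ^ a * ∑ j ∈ Finset.range (Nat.log 2 d + 1), (((T * 2 ^ j : ℕ) : ℝ)) ^ b ≤
      C * ((2 * T : ℝ) ^ b / ((2 : ℝ) ^ b - 1)) * (d : ℝ) ^ (a + b) := by
    calc C * (d : ℝ) ^ a * ∑ j ∈ Finset.range (Nat.log 2 d + 1), (((T * 2 ^ j : ℕ) : ℝ)) ^ b
        ≤ C * (d : ℝ) ^ a * ((2 * T : ℝ) ^ b * (d : ℝ) ^ b / ((2 : ℝ) ^ b - 1)) :=
          mul_le_mul_of_nonneg_left h5 (by positivity)
      _ = C * ((2 * T : ℝ) ^ b / ((2 : ℝ) ^ b - 1)) * (d : ℝ) ^ (a + b) := by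
        rw [Real.rpow_add hd0]
        ring
  have h7 : (d : ℝ) ≤ (d : ℝ) ^ (a + b) := by
    calc (d : ℝ) = (d : ℝ) ^ (1 : ℝ) := (Real.rpow_one _).symm
      _ ≤ (d : ℝ) ^ (a + b) := Real.rpow_le_rpow_of_exponent_le hd1 (by linarith)
  have h8 : (2 + 4 * (m : ℝ)) * T * d ≤ (2 + 4 * m) * T * (d : ℝ) ^ (a + b) :=
    mul_le_mul_of_nonneg_left h7 (by positivity)
  rw [add_mul]
  linarith

end Pool.Agent.Helper17.SCD
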