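import Mathlib
import Pool.Agent.Helper17.SCD.Defs

set_option autoImplicit false

open scoped Classical

namespace Pool.Agent.Helper17.SCD

noncomputable def bB (α : ℝ) : ℕ := ⌊2 / α ^ 2⌋₊

/-- clique of `S` -/
def IsQ {d : ℕ} (α : ℝ) (S Q : Finset (EuclideanSpace ℝ (Fin d))) : Prop :=
  Q ⊆ S ∧ ∀ x ∈ Q, ∀ y ∈ Q, x ≠ y → (inner ℝ x y : ℝ) = α

/-- the points of `Q` not adjacent to `x` -/
noncomputable def nadj {d : ℕ} (α : ℝ) (x : EuclideanSpace ℝ (Fin d))
    (Q : Finset (EuclideanSpace ℝ (Fin d))) : Finset (EuclideanSpace ℝ (Fin d)) :=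
  Q.filter (fun q => q ≠ x ∧ (inner ℝ x q : ℝ) ≠ α)

/-- the points adjacent to almost all points of `Q` -/
noncomputable def star {d : ℕ} (α : ℝ) (S Q : Finset (EuclideanSpace ℝ (Fin d))) :
    Finset (EuclideanSpace ℝ (Fin d)) := S.filter (fun x => (nadj α x Q).card ≤ bB α)

end Pool.Agent.Helper17.SCD
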