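import Mathlib
import Pool.Agent.Helper17.SCD.StrDefs

set_option autoImplicit false

open scoped Classical

namespace Pool.Agent.Helper17.SCD

/-
SCD-StrA (0.6 h, Mathlib only). Plan.
indep: k = A.card: (kα)² = <x, sum A>² ≤ ‖sum A‖² ≤ k (norms 1, other inner products ≤ 0); so k α² ≤ 1, k ≤ ⌊1/α²⌋ (Nat.le_floor).
dich: suppose A = Q.filter (<x,q> = α) and A' = nadj α x Q have s, s' ≥ bB α + 1 > 2/α² elements (Nat.lt_floor_add_one). For q in A' (q ≠ x)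
<x,q> < 0 by hS. c, c' the averages of A, A': <x, c - c'> ≥ α (> α), ‖c - c'‖² = (1-α)(1/s + 1/s') (all inner products between distinct elements of
A ∪ A' ⊆ Q are α, A, A' disjoint) < (1-α) α² < α²; Cauchy-Schwarz contradiction.
-/
theorem indep {d : ℕ} {α : ℝ} (h0 : 0 < α) (A : Finset (EuclideanSpace ℝ (Fin d)))
    (x : EuclideanSpace ℝ (Fin d)) (hA : ∀ a ∈ A, ‖a‖ = 1) (hx : ‖x‖ = 1)
    (hadj : ∀ a ∈ A, (inner ℝ x a : ℝ) = α)
    (hneg : ∀ a ∈ A, ∀ b ∈ A, a ≠ b → (inner ℝ a b : ℝ) ≤ 0) : A.card ≤ ⌊1 / α ^ 2⌋₊ := by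
  have h1 : (inner ℝ x (∑ a ∈ A, a) : ℝ) = A.card * α := by
    rw [inner_sum, Finset.sum_congr rfl hadj, Finset.sum_const, nsmul_eq_mul]
  have h2 : ‖∑ a ∈ A, a‖ ^ 2 ≤ A.card := by
    rw [← real_inner_self_eq_norm_sq, sum_inner]
    have : ∀ a ∈ A, (inner ℝ a (∑ b ∈ A, b) : ℝ) ≤ 1 := by
      intro a ha
      rw [inner_sum, ← Finset.add_sum_erase A _ ha]
      have h3 : (inner ℝ a a : ℝ) = 1 := by
        rw [real_inner_self_eq_norm_sq, hA a ha]; norm_num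
      have h4 : ∑ b ∈ A.erase a, (inner ℝ a b : ℝ) ≤ 0 := by
        apply Finset.sum_nonpos
        intro b hb
        exact hneg a ha b (Finset.mem_of_mem_erase hb) (Finset.ne_of_mem_erase hb).symm
      linarith
    calc ∑ a ∈ A, (inner ℝ a (∑ b ∈ A, b) : ℝ) ≤ ∑ a ∈ A, (1 : ℝ) := Finset.sum_le_sum this
      _ = A.card := by simp
  have h3 : (A.card * α) ≤ ‖∑ a ∈ A, a‖ := by
    rw [← h1]
    calc (inner ℝ x (∑ a ∈ A, a) : ℝ) ≤ ‖x‖ * ‖∑ a ∈ A, a‖ := real_inner_le_norm _ _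
      _ = ‖∑ a ∈ A, a‖ := by rw [hx, one_mul]
  have h4 : (A.card * α) ^ 2 ≤ A.card := by
    have h5 : 0 ≤ (A.card : ℝ) * α := by positivity
    exact le_trans (pow_le_pow_left₀ h5 h3 2) h2
  apply Nat.le_floor
  rw [le_div_iff₀ (by positivity)]
  rcases Nat.eq_zero_or_pos A.card with h | h
  · rw [h]; simp
  · have h6 : (0 : ℝ) < A.card := by exact_mod_cast h
    have h7 : (A.card : ℝ) * (A.card * α ^ 2) ≤ A.card * 1 := by nlinarith
    exact le_of_mul_le_mul_left h7 h6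

private theorem sum_inner_of_disj {d : ℕ} {α : ℝ} (A B : Finset (EuclideanSpace ℝ (Fin d)))
    (h : ∀ a ∈ A, ∀ b ∈ B, (inner ℝ a b : ℝ) = α) :
    (inner ℝ (∑ a ∈ A, a) (∑ b ∈ B, b) : ℝ) = A.card * B.card * α := by
  rw [sum_inner]
  have : ∀ a ∈ A, (inner ℝ a (∑ b ∈ B, b) : ℝ) = B.card * α := by
    intro a ha
    rw [inner_sum, Finset.sum_congr rfl (h a ha), Finset.sum_const, nsmul_eq_mul]
  rw [Finset.sum_congr rfl this, Finset.sum_const, nsmul_eq_mul]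
  ring

private theorem sum_inner_self {d : ℕ} {α : ℝ} (A : Finset (EuclideanSpace ℝ (Fin d)))
    (hA : ∀ a ∈ A, ‖a‖ = 1)
    (h : ∀ a ∈ A, ∀ b ∈ A, a ≠ b → (inner ℝ a b : ℝ) = α) :
    (inner ℝ (∑ a ∈ A, a) (∑ b ∈ A, b) : ℝ) = A.card * (1 + (A.card - 1) * α) := by
  rw [sum_inner]
  have : ∀ a ∈ A, (inner ℝ a (∑ b ∈ A, b) : ℝ) = 1 + (A.card - 1) * α := by
    intro a ha
    rw [inner_sum, ← Finset.add_sum_erase A _ ha]
    have h3 : (inner ℝ a a : ℝ) = 1 := by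
      rw [real_inner_self_eq_norm_sq, hA a ha]; norm_num
    have h4 : ∑ b ∈ A.erase a, (inner ℝ a b : ℝ) = (A.card - 1) * α := by
      rw [Finset.sum_congr rfl (fun b hb => h a ha b (Finset.mem_of_mem_erase hb)
        (Finset.ne_of_mem_erase hb).symm), Finset.sum_const, nsmul_eq_mul,
        Finset.card_erase_of_mem ha]
      have : 1 ≤ A.card := Finset.card_pos.mpr ⟨a, ha⟩
      push_cast [Nat.cast_sub this]
      ring
    rw [h3, h4]
  rw [Finset.sum_congr rfl this, Finset.sum_const, nsmul_eq_mul]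

theorem dich {d : ℕ} {α : ℝ} (h0 : 0 < α) (h1 : α < 1) {S Q : Finset (EuclideanSpace ℝ (Fin d))}
    (hS : Code α S) (hQ : IsQ α S Q) (x : EuclideanSpace ℝ (Fin d)) (hx : x ∈ S) (hxQ : x ∉ Q) :
    (Q.filter (fun q => (inner ℝ x q : ℝ) = α)).card ≤ bB α ∨ (nadj α x Q).card ≤ bB α := by
  by_contra hcon
  push Not at hcon
  obtain ⟨hs, hs'⟩ := hcon
  set A := Q.filter (fun q => (inner ℝ x q : ℝ) = α) with hAdef
  set B := nadj α x Q with hBdef
  have hAQ : A ⊆ Q := Finset.filter_subset _ _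
  have hBQ : B ⊆ Q := Finset.filter_subset _ _
  have hAm : ∀ a ∈ A, (inner ℝ x a : ℝ) = α := by
    intro a ha
    rw [hAdef, Finset.mem_filter] at ha
    exact ha.2
  have hBm : ∀ b ∈ B, (inner ℝ x b : ℝ) < 0 ∧ (inner ℝ x b : ℝ) ≠ α := by
    intro b hb
    rw [hBdef, nadj, Finset.mem_filter] at hb
    obtain ⟨hb1, hb2, hb3⟩ := hb
    rcases hS.2 x hx b (hQ.1 hb1) (Ne.symm hb2) with h | h
    · exact ⟨h, hb3⟩
    · exact absurd h hb3
  have hunit : ∀ q ∈ Q, ‖q‖ = 1 := fun q hq => hS.1 q (hQ.1 hq)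
  have hAs := sum_inner_self A (fun a ha => hunit a (hAQ ha))
    (fun a ha b hb hab => hQ.2 a (hAQ ha) b (hAQ hb) hab)
  have hBs := sum_inner_self B (fun a ha => hunit a (hBQ ha))
    (fun a ha b hb hab => hQ.2 a (hBQ ha) b (hBQ hb) hab)
  have hAB := sum_inner_of_disj (α := α) A B (by
    intro a ha b hb
    apply hQ.2 a (hAQ ha) b (hBQ hb)
    intro hab
    exact (hBm b hb).2 (hab ▸ hAm a ha))
  have hfl : (2 : ℝ) / α ^ 2 < (bB α : ℝ) + 1 := Nat.lt_floor_add_one _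
  have hsA : (2 : ℝ) / α ^ 2 < A.card := by
    have : (bB α : ℝ) + 1 ≤ A.card := by exact_mod_cast hs
    linarith
  have hsB : (2 : ℝ) / α ^ 2 < B.card := by
    have : (bB α : ℝ) + 1 ≤ B.card := by exact_mod_cast hs'
    linarith
  have hpos : (0 : ℝ) < 2 / α ^ 2 := by positivity
  have hcA : (0 : ℝ) < A.card := lt_trans hpos hsA
  have hcB : (0 : ℝ) < B.card := lt_trans hpos hsB
  set s : ℝ := (A.card : ℝ) with hsdef
  set t : ℝ := (B.card : ℝ) with htdef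
  set u := ∑ a ∈ A, a with hu
  set v := ∑ b ∈ B, b with hv
  have hn : ‖s⁻¹ • u - t⁻¹ • v‖ ^ 2 = (1 - α) * (s⁻¹ + t⁻¹) := by
    rw [← real_inner_self_eq_norm_sq, inner_sub_left, inner_sub_right, inner_sub_right]
    simp only [inner_smul_left, inner_smul_right, RCLike.conj_to_real]
    rw [real_inner_comm u v, hAs, hBs, hAB]
    field_simp
    ring
  have hx1 : (inner ℝ x (s⁻¹ • u - t⁻¹ • v) : ℝ) ≥ α := by
    rw [inner_sub_right, inner_smul_right, inner_smul_right, hu, hv, inner_sum, inner_sum,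
      Finset.sum_congr rfl hAm, Finset.sum_const, nsmul_eq_mul]
    have h2 : ∑ b ∈ B, (inner ℝ x b : ℝ) ≤ 0 :=
      Finset.sum_nonpos (fun b hb => le_of_lt (hBm b hb).1)
    have h3 : s⁻¹ * (s * α) = α := by field_simp
    have h4 : t⁻¹ * ∑ b ∈ B, (inner ℝ x b : ℝ) ≤ 0 :=
      mul_nonpos_of_nonneg_of_nonpos (by positivity) h2
    rw [← hsdef, h3]
    linarith
  have hx2 : (inner ℝ x (s⁻¹ • u - t⁻¹ • v) : ℝ) ≤ ‖s⁻¹ • u - t⁻¹ • v‖ := by
    calc (inner ℝ x (s⁻¹ • u - t⁻¹ • v) : ℝ) ≤ ‖x‖ * ‖s⁻¹ • u - t⁻¹ • v‖ := real_inner_le_norm _ _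
      _ = _ := by rw [hS.1 x hx, one_mul]
  have hle : α ^ 2 ≤ (1 - α) * (s⁻¹ + t⁻¹) := by
    rw [← hn]
    have : α ≤ ‖s⁻¹ • u - t⁻¹ • v‖ := le_trans hx1 hx2
    gcongr
  have hi : ∀ r : ℝ, 2 / α ^ 2 < r → r⁻¹ < α ^ 2 / 2 := by
    intro r hr
    have : r⁻¹ < (2 / α ^ 2)⁻¹ := inv_strictAnti₀ hpos hr
    rwa [inv_div] at this
  have hi1 := hi s hsA
  have hi2 := hi t hsB
  have : (1 - α) * (s⁻¹ + t⁻¹) < 1 * α ^ 2 := by
    apply mul_lt_mul' (by linarith) (by linarith) (by positivity) (by norm_num)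
  linarith

end Pool.Agent.Helper17.SCD
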