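import Mathlib
import Pool.Agent.Helper17.SCD.StrA

set_option autoImplicit false

open scoped Classical

namespace Pool.Agent.Helper17.SCD

/-
SCD-StrB (0.9 h). B = bB α. Only dich is used (plus counting).
sub_star: x in Q: nadj α x Q = ∅.
claim1: Q1 = the q in Q with q = u or <u,q> = α for all u in U; Q \ Q1 ⊆ union of the nadj u Q, so |Q1| ≥ |Q| - (B+1)B. U ∪ Q1 is a clique of S.
z in U: z in star. z in Q: nadj empty. Otherwise z ∉ U ∪ Q1: z is adjacent to all of U (B+1 elements), dich for U ∪ Q1 gives nadj z (U ∪ Q1) ≤ B, so z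
is adjacent to ≥ |Q1| - B ≥ |Q| - (B+2)B > B points of Q and dich for Q gives nadj z Q ≤ B.
canon: Q1 as above, |Q1| ≥ B+1, Q1 ⊆ star Q' (claim1 for Q', U, z = q in Q1); choose U2 ⊆ Q1 with B+1 elements (Finset.exists_subset_card_eq); every
q in Q is equal or adjacent to all of U2, so Q ⊆ star Q' (claim1). For z in star Q: Q \ nadj z Q has ≥ |Q| - B ≥ B+1 elements, z is equal or adjacent to
them; choose B+1 of them: a clique inside star Q', claim1: z in star Q'. So star Q ⊆ star Q', and symmetrically.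
-/
theorem sub_star {d : ℕ} {α : ℝ} {S Q : Finset (EuclideanSpace ℝ (Fin d))} (hQ : IsQ α S Q) :
    Q ⊆ star α S Q := by
  intro x hx
  have h : nadj α x Q = ∅ := by
    rw [nadj, Finset.filter_eq_empty_iff]
    rintro q hq ⟨hne, hin⟩
    exact hin (hQ.2 x hx q hq (Ne.symm hne))
  rw [star, Finset.mem_filter]
  exact ⟨hQ.1 hx, by rw [h]; simp⟩

/-- the points of `Q` equal or adjacent to all of `U` -/
private noncomputable def q1 {d : ℕ} (α : ℝ) (Q U : Finset (EuclideanSpace ℝ (Fin d))) :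
    Finset (EuclideanSpace ℝ (Fin d)) :=
  Q.filter (fun q => ∀ u ∈ U, q = u ∨ (inner ℝ u q : ℝ) = α)

private theorem q1_card {d : ℕ} {α : ℝ} {S Q U : Finset (EuclideanSpace ℝ (Fin d))}
    (hUs : U ⊆ star α S Q) (hUc : U.card = bB α + 1) :
    Q.card ≤ (q1 α Q U).card + (bB α + 1) * bB α := by
  have h1 : Q \ q1 α Q U ⊆ U.biUnion (fun u => nadj α u Q) := by
    intro q hq
    rw [Finset.mem_sdiff, q1, Finset.mem_filter] at hq
    obtain ⟨hqQ, hn⟩ := hq
    have hn' : ¬ ∀ u ∈ U, q = u ∨ (inner ℝ u q : ℝ) = α := fun h => hn ⟨hqQ, h⟩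
    push Not at hn'
    obtain ⟨u, hu, hne, hin⟩ := hn'
    rw [Finset.mem_biUnion]
    exact ⟨u, hu, by rw [nadj, Finset.mem_filter]; exact ⟨hqQ, hne, hin⟩⟩
  have h2 : (Q \ q1 α Q U).card ≤ (bB α + 1) * bB α := by
    calc (Q \ q1 α Q U).card ≤ (U.biUnion (fun u => nadj α u Q)).card := Finset.card_le_card h1
      _ ≤ ∑ u ∈ U, (nadj α u Q).card := Finset.card_biUnion_le
      _ ≤ ∑ _u ∈ U, bB α := by
          refine Finset.sum_le_sum (fun u hu => ?_)
          have := hUs hu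
          rw [star, Finset.mem_filter] at this
          exact this.2
      _ = (bB α + 1) * bB α := by rw [Finset.sum_const, hUc, smul_eq_mul]
  have h3 : q1 α Q U ⊆ Q := Finset.filter_subset _ _
  have h4 := Finset.card_sdiff_add_card_eq_card h3
  omega

theorem claim1 {d : ℕ} {α : ℝ} (h0 : 0 < α) (h1 : α < 1) {S Q U : Finset (EuclideanSpace ℝ (Fin d))}
    (hS : Code α S) (hQ : IsQ α S Q) (hQc : (bB α + 4) ^ 2 ≤ Q.card) (hU : IsQ α S U)
    (hUs : U ⊆ star α S Q) (hUc : U.card = bB α + 1) (z : EuclideanSpace ℝ (Fin d)) (hz : z ∈ S)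
    (hzU : ∀ u ∈ U, z = u ∨ (inner ℝ z u : ℝ) = α) : z ∈ star α S Q := by
  by_cases hzU' : z ∈ U
  · exact hUs hzU'
  by_cases hzQ : z ∈ Q
  · exact sub_star hQ hzQ
  have hcard := q1_card hUs hUc
  have hsub : q1 α Q U ⊆ Q := Finset.filter_subset _ _
  have hcl : IsQ α S (U ∪ q1 α Q U) := by
    constructor
    · exact Finset.union_subset hU.1 (hsub.trans hQ.1)
    · intro x hx y hy hxy
      rw [Finset.mem_union] at hx hy
      rcases hx with hx | hx <;> rcases hy with hy | hy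
      · exact hU.2 x hx y hy hxy
      · rw [q1, Finset.mem_filter] at hy
        rcases hy.2 x hx with h | h
        · exact absurd h.symm hxy
        · exact h
      · rw [q1, Finset.mem_filter] at hx
        rcases hx.2 y hy with h | h
        · exact absurd h hxy
        · rw [real_inner_comm]; exact h
      · exact hQ.2 x (hsub hx) y (hsub hy) hxy
  have hzn : z ∉ U ∪ q1 α Q U := by
    rw [Finset.mem_union, not_or]
    exact ⟨hzU', fun h => hzQ (hsub h)⟩
  have hd : (nadj α z (U ∪ q1 α Q U)).card ≤ bB α := by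
    rcases dich h0 h1 hS hcl z hz hzn with h | h
    · exfalso
      have h5 : U ⊆ (U ∪ q1 α Q U).filter (fun q => (inner ℝ z q : ℝ) = α) := by
        intro u hu
        rw [Finset.mem_filter]
        refine ⟨Finset.mem_union_left _ hu, ?_⟩
        rcases hzU u hu with h | h
        · exact absurd (h ▸ hu) hzU'
        · exact h
      have h6 := Finset.card_le_card h5
      omega
    · exact h
  have h7 : q1 α Q U \ nadj α z (U ∪ q1 α Q U) ⊆ Q.filter (fun q => (inner ℝ z q : ℝ) = α) := by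
    intro q hq
    rw [Finset.mem_sdiff] at hq
    obtain ⟨hq1, hq2⟩ := hq
    rw [Finset.mem_filter]
    refine ⟨hsub hq1, ?_⟩
    by_contra hne
    apply hq2
    rw [nadj, Finset.mem_filter]
    refine ⟨Finset.mem_union_right _ hq1, ?_, hne⟩
    intro h
    exact hzQ (h ▸ hsub hq1)
  have h8 := Finset.card_le_card h7
  have h9 := Finset.le_card_sdiff (nadj α z (U ∪ q1 α Q U)) (q1 α Q U)
  rw [star, Finset.mem_filter]
  refine ⟨hz, ?_⟩
  rcases dich h0 h1 hS hQ z hz hzQ with h | h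
  · exfalso
    have h10 : (q1 α Q U).card ≤ bB α + bB α := by omega
    nlinarith
  · exact h

private theorem canon_sub {d : ℕ} {α : ℝ} (h0 : 0 < α) (h1 : α < 1)
    {S Q Q' U : Finset (EuclideanSpace ℝ (Fin d))}
    (hS : Code α S) (hQ : IsQ α S Q) (hQc : (bB α + 4) ^ 2 ≤ Q.card) (hQ' : IsQ α S Q')
    (hQc' : (bB α + 4) ^ 2 ≤ Q'.card) (hU : IsQ α S U)
    (hUs : U ⊆ star α S Q) (hUs' : U ⊆ star α S Q') (hUc : U.card = bB α + 1) :
    star α S Q ⊆ star α S Q' := by
  have hcard := q1_card hUs hUc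
  have hsub : q1 α Q U ⊆ Q := Finset.filter_subset _ _
  have hq1 : q1 α Q U ⊆ star α S Q' := by
    intro q hq
    have hq' := hq
    rw [q1, Finset.mem_filter] at hq'
    refine claim1 h0 h1 hS hQ' hQc' hU hUs' hUc q (hQ.1 hq'.1) (fun u hu => ?_)
    rcases hq'.2 u hu with h | h
    · exact Or.inl h
    · right; rw [real_inner_comm]; exact h
  have hc1 : bB α + 1 ≤ (q1 α Q U).card := by nlinarith
  obtain ⟨U2, hU2, hU2c⟩ := Finset.exists_subset_card_eq hc1
  have hU2Q : IsQ α S U2 :=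
    ⟨(hU2.trans hsub).trans hQ.1, fun x hx y hy hxy => hQ.2 x (hsub (hU2 hx)) y (hsub (hU2 hy)) hxy⟩
  have hQs : Q ⊆ star α S Q' := by
    intro q hq
    refine claim1 h0 h1 hS hQ' hQc' hU2Q (hU2.trans hq1) hU2c q (hQ.1 hq) (fun u hu => ?_)
    by_cases h : q = u
    · exact Or.inl h
    · exact Or.inr (hQ.2 q hq u (hsub (hU2 hu)) h)
  intro z hz
  have hz' := hz
  rw [star, Finset.mem_filter] at hz'
  have h9 := Finset.le_card_sdiff (nadj α z Q) Q
  have hc3 : bB α + 1 ≤ (Q \ nadj α z Q).card := by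
    have : bB α + 1 + bB α ≤ Q.card := by nlinarith
    omega
  obtain ⟨U3, hU3, hU3c⟩ := Finset.exists_subset_card_eq hc3
  have hU3Q : U3 ⊆ Q := hU3.trans Finset.sdiff_subset
  have hU3' : IsQ α S U3 :=
    ⟨hU3Q.trans hQ.1, fun x hx y hy hxy => hQ.2 x (hU3Q hx) y (hU3Q hy) hxy⟩
  refine claim1 h0 h1 hS hQ' hQc' hU3' (hU3Q.trans hQs) hU3c z hz'.1 (fun u hu => ?_)
  by_contra hcon
  push Not at hcon
  have hu2 := hU3 hu
  rw [Finset.mem_sdiff] at hu2
  apply hu2.2
  rw [nadj, Finset.mem_filter]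
  exact ⟨hu2.1, fun h => hcon.1 h.symm, hcon.2⟩

theorem canon {d : ℕ} {α : ℝ} (h0 : 0 < α) (h1 : α < 1) {S Q Q' U : Finset (EuclideanSpace ℝ (Fin d))}
    (hS : Code α S) (hQ : IsQ α S Q) (hQc : (bB α + 4) ^ 2 ≤ Q.card) (hQ' : IsQ α S Q')
    (hQc' : (bB α + 4) ^ 2 ≤ Q'.card) (hU : IsQ α S U)
    (hUs : U ⊆ star α S Q) (hUs' : U ⊆ star α S Q') (hUc : U.card = bB α + 1) :
    star α S Q = star α S Q' :=
  Finset.Subset.antisymm (canon_sub h0 h1 hS hQ hQc hQ' hQc' hU hUs hUs' hUc)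
    (canon_sub h0 h1 hS hQ' hQc' hQ hQc hU hUs' hUs hUc)

end Pool.Agent.Helper17.SCD
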