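import Mathlib
import Pool.Agent.Helper17.SCD.StrB
import Pool.Agent.Helper17.Sph.Bukh

set_option autoImplicit false

open scoped Classical

namespace Pool.Agent.Helper17.SCD

/-
SCD-StrC (1.0 h). B = bB α. Ramsey: Pool.Agent.Helper17.Sph.bukh_ramsey L s (V = EuclideanSpace, r x y := <x,y> = α); in a Code distinct
non-adjacent elements have negative inner product.
star_ramsey: s0 = ⌊1/α²⌋ + 1, R from bukh_ramsey (B+1) s0, T = (B+4)² + s0 (B+1) + 1. The second alternative: A ⊆ star Q with s0 pairwise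
non-adjacent elements: fewer than |Q| elements q of Q lie in A or are non-adjacent to some a in A (at most s0 + s0 B), so some q in Q \ A is
adjacent to all of A: contradiction to indep.
claim2: Y = the y in star Q, y ≠ x, <x,y> ≠ α; if |Y| ≥ R (same R) there is a clique U ⊆ Y, |U| = B+1. Q1 = the q in Q, q ≠ x, q ∉ U,
adjacent to x and to all u in U: |Q1| ≥ |Q| - B - (B+1)B - 1 - (B+1) ≥ B+1 (T ≥ (B+4)²). U ∪ Q1 is a clique, x is not in it, x is adjacent to B+1 of its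
elements and non-adjacent to B+1 of its elements: contradiction to dich.
claim3: if |star Q ∩ star Q'| ≥ R: star_ramsey gives a clique U in it with B+1 elements, canon: star Q = star Q'.
claim4: R from bukh_ramsey T1 s0: in N(x) either a clique Q with T1 elements: x in star Q (nadj empty as x is adjacent to all of Q) and Q ⊆ star Q
(sub_star), Q nonempty (T1 ≥ 1): contradiction with the definition of the set; or s0 pairwise non-adjacent elements adjacent to x: indep.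
-/
private theorem strC_sub {d : ℕ} {α : ℝ} {S Q : Finset (EuclideanSpace ℝ (Fin d))} :
    star α S Q ⊆ S := Finset.filter_subset _ _

private theorem strC_card {d : ℕ} {α : ℝ} {S Q : Finset (EuclideanSpace ℝ (Fin d))}
    {x : EuclideanSpace ℝ (Fin d)} (hx : x ∈ star α S Q) : (nadj α x Q).card ≤ bB α :=
  (Finset.mem_filter.1 hx).2

private theorem strC_adj {d : ℕ} {α : ℝ} {Q : Finset (EuclideanSpace ℝ (Fin d))}
    {x q : EuclideanSpace ℝ (Fin d)} (hq : q ∈ Q) (h : q ∉ nadj α x Q) (hqx : q ≠ x) :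
    (inner ℝ x q : ℝ) = α := by
  by_contra h1
  exact h (Finset.mem_filter.2 ⟨hq, hqx, h1⟩)

private theorem strC_indep {d : ℕ} {α : ℝ} (h0 : 0 < α) {S A : Finset (EuclideanSpace ℝ (Fin d))}
    (hS : Code α S) (hA : A ⊆ S) (x : EuclideanSpace ℝ (Fin d)) (hx : x ∈ S)
    (hadj : ∀ a ∈ A, (inner ℝ x a : ℝ) = α)
    (hn : ∀ a ∈ A, ∀ b ∈ A, a ≠ b → ¬ (inner ℝ a b : ℝ) = α)
    (hc : A.card = ⌊1 / α ^ 2⌋₊ + 1) : False := by
  have h1 := indep h0 A x (fun a ha => hS.1 a (hA ha)) (hS.1 x hx) hadj (fun a ha b hb hab => by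
    rcases hS.2 a (hA ha) b (hA hb) hab with h | h
    · exact h.le
    · exact absurd h (hn a ha b hb hab))
  omega

theorem star_ramsey (α : ℝ) (h0 : 0 < α) (h1 : α < 1) : ∃ R T : ℕ, ∀ {d : ℕ}
    {S Q W : Finset (EuclideanSpace ℝ (Fin d))}, Code α S → IsQ α S Q → T ≤ Q.card →
    W ⊆ star α S Q → R ≤ W.card → ∃ U ⊆ W, IsQ α S U ∧ U.card = bB α + 1 := by
  obtain ⟨R, hR⟩ := Pool.Agent.Helper17.Sph.bukh_ramsey (bB α + 1) (⌊1 / α ^ 2⌋₊ + 1)
  refine ⟨R, (⌊1 / α ^ 2⌋₊ + 1) * (bB α + 1) + 1, fun {d} {S Q W} hS hQ hT hW hRW => ?_⟩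
  rcases hR (EuclideanSpace ℝ (Fin d)) (fun x y => (inner ℝ x y : ℝ) = α)
    (fun x y h => by rw [real_inner_comm]; exact h) W hRW with ⟨U, hUW, hUc, hU⟩ | ⟨A, hAW, hAc, hA⟩
  · exact ⟨U, hUW, ⟨(hUW.trans hW).trans strC_sub, hU⟩, hUc⟩
  · exfalso
    obtain ⟨q, hq, hqb⟩ : ∃ q ∈ Q, q ∉ A ∪ A.biUnion (fun a => nadj α a Q) := by
      by_contra hcon
      push Not at hcon
      have h2 : Q ⊆ A ∪ A.biUnion (fun a => nadj α a Q) := hcon
      have h3 := Finset.card_le_card h2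
      have h4 := Finset.card_union_le A (A.biUnion (fun a => nadj α a Q))
      have h5 : (A.biUnion (fun a => nadj α a Q)).card ≤ A.card * bB α :=
        Finset.card_biUnion_le_card_mul _ _ _ (fun a ha => strC_card (hW (hAW ha)))
      rw [hAc] at h4 h5
      have h6 : (⌊1 / α ^ 2⌋₊ + 1) * (bB α + 1) =
        (⌊1 / α ^ 2⌋₊ + 1) * bB α + (⌊1 / α ^ 2⌋₊ + 1) := by ring
      omega
    rw [Finset.mem_union, not_or, Finset.mem_biUnion] at hqb
    refine strC_indep h0 hS ((hAW.trans hW).trans strC_sub) q (hQ.1 hq) (fun a ha => ?_) hA hAc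
    rw [real_inner_comm]
    refine strC_adj hq (fun h => hqb.2 ⟨a, ha, h⟩) ?_
    rintro rfl
    exact hqb.1 ha

theorem claim2 (α : ℝ) (h0 : 0 < α) (h1 : α < 1) : ∃ R T : ℕ, ∀ {d : ℕ}
    {S Q : Finset (EuclideanSpace ℝ (Fin d))} (x : EuclideanSpace ℝ (Fin d)), Code α S → IsQ α S Q →
    T ≤ Q.card → x ∈ star α S Q →
    ((star α S Q).filter (fun y => y ≠ x ∧ (inner ℝ x y : ℝ) ≠ α)).card ≤ R := by
  obtain ⟨R, T, h⟩ := star_ramsey α h0 h1
  refine ⟨R, T + (bB α + 4) ^ 2, fun {d} {S Q} x hS hQ hT hx => ?_⟩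
  by_contra hcon
  rw [not_le] at hcon
  obtain ⟨U, hUY, hU, hUc⟩ := h hS hQ (by omega) (Finset.filter_subset _ _) hcon.le
  have hUp : ∀ u ∈ U, u ∈ star α S Q ∧ u ≠ x ∧ (inner ℝ x u : ℝ) ≠ α := fun u hu =>
    Finset.mem_filter.1 (hUY hu)
  obtain ⟨Q1, hQ1⟩ : ∃ Q1 : Finset (EuclideanSpace ℝ (Fin d)), Q1 = Q.filter (fun q => q ≠ x ∧
    q ∉ U ∧ (inner ℝ x q : ℝ) = α ∧ ∀ u ∈ U, (inner ℝ u q : ℝ) = α) := ⟨_, rfl⟩
  have hQ1m : ∀ q ∈ Q1, q ∈ Q ∧ q ≠ x ∧ q ∉ U ∧ (inner ℝ x q : ℝ) = α ∧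
      ∀ u ∈ U, (inner ℝ u q : ℝ) = α := fun q hq => by
    rw [hQ1] at hq
    exact Finset.mem_filter.1 hq
  have hcov : Q ⊆ Q1 ∪ ({x} ∪ U ∪ nadj α x Q ∪ U.biUnion (fun u => nadj α u Q)) := by
    intro q hq
    by_contra hn
    simp only [Finset.mem_union, Finset.mem_singleton, Finset.mem_biUnion, not_or, not_exists,
      not_and] at hn
    obtain ⟨hn1, ⟨⟨hn2, hn3⟩, hn4⟩, hn5⟩ := hn
    apply hn1
    rw [hQ1]
    refine Finset.mem_filter.2 ⟨hq, hn2, hn3, strC_adj hq hn4 hn2, fun u hu => ?_⟩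
    refine strC_adj hq (hn5 u hu) ?_
    rintro rfl
    exact hn3 hu
  have hQ1c : bB α + 1 ≤ Q1.card := by
    have a1 := Finset.card_le_card hcov
    have a2 := Finset.card_union_le Q1 ({x} ∪ U ∪ nadj α x Q ∪ U.biUnion (fun u => nadj α u Q))
    have a3 := Finset.card_union_le ({x} ∪ U ∪ nadj α x Q) (U.biUnion (fun u => nadj α u Q))
    have a4 := Finset.card_union_le ({x} ∪ U) (nadj α x Q)
    have a5 := Finset.card_union_le {x} U
    have a6 : (U.biUnion (fun u => nadj α u Q)).card ≤ U.card * bB α :=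
      Finset.card_biUnion_le_card_mul _ _ _ (fun u hu => strC_card (hUp u hu).1)
    have a7 := strC_card hx
    rw [Finset.card_singleton] at a5
    rw [hUc] at a5 a6
    nlinarith
  have hcl : IsQ α S (U ∪ Q1) := by
    refine ⟨Finset.union_subset hU.1 (fun q hq => hQ.1 (hQ1m q hq).1), ?_⟩
    intro a ha b hb hab
    rw [Finset.mem_union] at ha hb
    rcases ha with ha | ha <;> rcases hb with hb | hb
    · exact hU.2 a ha b hb hab
    · exact (hQ1m b hb).2.2.2.2 a ha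
    · rw [real_inner_comm]
      exact (hQ1m a ha).2.2.2.2 b hb
    · exact hQ.2 a (hQ1m a ha).1 b (hQ1m b hb).1 hab
  have hxn : x ∉ U ∪ Q1 := by
    rw [Finset.mem_union, not_or]
    exact ⟨fun hxU => (hUp x hxU).2.1 rfl, fun hxQ => (hQ1m x hxQ).2.1 rfl⟩
  rcases dich h0 h1 hS hcl x (strC_sub hx) hxn with h2 | h2
  · have h3 : Q1 ⊆ (U ∪ Q1).filter (fun q => (inner ℝ x q : ℝ) = α) := fun q hq =>
      Finset.mem_filter.2 ⟨Finset.mem_union_right _ hq, (hQ1m q hq).2.2.2.1⟩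
    have h4 := Finset.card_le_card h3
    omega
  · have h3 : U ⊆ nadj α x (U ∪ Q1) := fun u hu =>
      Finset.mem_filter.2 ⟨Finset.mem_union_left _ hu, (hUp u hu).2⟩
    have h4 := Finset.card_le_card h3
    omega

theorem claim3 (α : ℝ) (h0 : 0 < α) (h1 : α < 1) : ∃ R T : ℕ, ∀ {d : ℕ}
    {S Q Q' : Finset (EuclideanSpace ℝ (Fin d))}, Code α S → IsQ α S Q → T ≤ Q.card →
    IsQ α S Q' → T ≤ Q'.card → star α S Q ≠ star α S Q' → (star α S Q ∩ star α S Q').card ≤ R := by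
  obtain ⟨R, T, h⟩ := star_ramsey α h0 h1
  refine ⟨R, T + (bB α + 4) ^ 2, fun {d} {S Q Q'} hS hQ hT hQ' hT' hne => ?_⟩
  by_contra hcon
  rw [not_le] at hcon
  obtain ⟨U, hUY, hU, hUc⟩ := h hS hQ (by omega) Finset.inter_subset_left hcon.le
  exact hne (canon h0 h1 hS hQ (by omega) hQ' (by omega) hU (hUY.trans Finset.inter_subset_left)
    (hUY.trans Finset.inter_subset_right) hUc)

theorem claim4 (α : ℝ) (h0 : 0 < α) (h1 : α < 1) (T1 : ℕ) (hT1 : 1 ≤ T1) : ∃ R : ℕ, ∀ {d : ℕ}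
    {S : Finset (EuclideanSpace ℝ (Fin d))} (x : EuclideanSpace ℝ (Fin d)), Code α S → x ∈ S →
    (S.filter (fun y => (inner ℝ x y : ℝ) = α ∧
      ∀ Q, IsQ α S Q → Q.card = T1 → x ∈ star α S Q → y ∉ star α S Q)).card ≤ R := by
  obtain ⟨R, hR⟩ := Pool.Agent.Helper17.Sph.bukh_ramsey T1 (⌊1 / α ^ 2⌋₊ + 1)
  refine ⟨R, fun {d} {S} x hS hx => ?_⟩
  by_contra hcon
  rw [not_le] at hcon
  rcases hR (EuclideanSpace ℝ (Fin d)) (fun x y => (inner ℝ x y : ℝ) = α)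
    (fun x y h => by rw [real_inner_comm]; exact h) _ hcon.le with
    ⟨Q, hQW, hQc, hQ⟩ | ⟨A, hAW, hAc, hA⟩
  · have hQm := fun q (hq : q ∈ Q) => Finset.mem_filter.1 (hQW hq)
    have hQ' : IsQ α S Q := ⟨fun q hq => (hQm q hq).1, hQ⟩
    have hxs : x ∈ star α S Q := by
      refine Finset.mem_filter.2 ⟨hx, ?_⟩
      have h2 : nadj α x Q = ∅ := by
        refine Finset.filter_eq_empty_iff.2 fun q hq h3 => ?_
        exact h3.2 (hQm q hq).2.1
      rw [h2, Finset.card_empty]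
      exact Nat.zero_le _
    obtain ⟨q, hq⟩ : Q.Nonempty := Finset.card_pos.1 (by omega)
    exact (hQm q hq).2.2 Q hQ' hQc hxs (sub_star hQ' hq)
  · have hAm := fun a (ha : a ∈ A) => Finset.mem_filter.1 (hAW ha)
    exact strC_indep h0 hS (fun a ha => (hAm a ha).1) x hx (fun a ha => (hAm a ha).2.1) hA hAc

end Pool.Agent.Helper17.SCD
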