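import Mathlib
import Pool.Agent.Helper17.SCD.StrB

set_option autoImplicit false

open scoped Classical

namespace Pool.Agent.Helper17.SCD

private lemma sd_inner_le {d : ℕ} {α : ℝ} {S : Finset (EuclideanSpace ℝ (Fin d))} (hS : Code α S)
    {a b : EuclideanSpace ℝ (Fin d)} (ha : a ∈ S) (hb : b ∈ S) : (inner ℝ a b : ℝ) ≤ 1 := by
  have h := real_inner_le_norm a b
  rw [hS.1 a ha, hS.1 b hb, mul_one] at h
  exact h

private lemma sd_self {d : ℕ} {α : ℝ} {S A : Finset (EuclideanSpace ℝ (Fin d))} (hS : Code α S)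
    (hA : IsQ α S A) : (inner ℝ (∑ a ∈ A, a) (∑ a ∈ A, a) : ℝ) =
      A.card * (1 + ((A.card : ℝ) - 1) * α) := by
  rw [sum_inner]
  have h : ∀ a ∈ A, (inner ℝ a (∑ b ∈ A, b) : ℝ) = 1 + ((A.card : ℝ) - 1) * α := by
    intro a ha
    rw [inner_sum, ← Finset.add_sum_erase A _ ha]
    have h1 : (inner ℝ a a : ℝ) = 1 := by
      rw [real_inner_self_eq_norm_sq, hS.1 a (hA.1 ha)]; norm_num
    have h2 : ∑ b ∈ A.erase a, (inner ℝ a b : ℝ) = ((A.card : ℝ) - 1) * α := by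
      rw [Finset.sum_congr rfl (g := fun _ => α) (fun b hb => hA.2 a ha b
        (Finset.mem_of_mem_erase hb) (Finset.ne_of_mem_erase hb).symm), Finset.sum_const,
        nsmul_eq_mul, Finset.card_erase_of_mem ha, Nat.cast_sub (Finset.card_pos.2 ⟨a, ha⟩)]
      simp
    rw [h1, h2]
  rw [Finset.sum_congr rfl h, Finset.sum_const, nsmul_eq_mul]

private lemma sd_pair {d : ℕ} {α : ℝ} (h0 : 0 < α) (h1 : α < 1)
    {S Q Q' A A' : Finset (EuclideanSpace ℝ (Fin d))} (hS : Code α S) (hQ : IsQ α S Q)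
    (hQ' : IsQ α S Q') (T : ℕ) (hT : (bB α + 4) ^ 2 ≤ T) (hc : Q.card = T) (hc' : Q'.card = T)
    (hne : star α S Q ≠ star α S Q') (hA : A ⊆ Q) (hA' : A' ⊆ Q') :
    (inner ℝ (∑ a ∈ A, a) (∑ b ∈ A', b) : ℝ) ≤ 2 * (bB α : ℝ) * T := by
  rw [sum_inner]
  have hf : ∀ a ∈ A, (inner ℝ a (∑ b ∈ A', b) : ℝ) ≤
      (if a ∈ star α S Q' then (T : ℝ) else 0) + (bB α : ℝ) := by
    intro a ha
    have haS : a ∈ S := hQ.1 (hA ha)
    rw [inner_sum]
    by_cases hs : a ∈ star α S Q'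
    · rw [if_pos hs]
      have e1 : ∑ b ∈ A', (inner ℝ a b : ℝ) ≤ ∑ _b ∈ A', (1 : ℝ) :=
        Finset.sum_le_sum fun b hb => sd_inner_le hS haS (hQ'.1 (hA' hb))
      have e2 : (A'.card : ℝ) ≤ T := by
        have := Finset.card_le_card hA'
        rw [hc'] at this
        exact_mod_cast this
      rw [Finset.sum_const, nsmul_eq_mul, mul_one] at e1
      have e3 : (0 : ℝ) ≤ (bB α : ℝ) := Nat.cast_nonneg _
      linarith
    · rw [if_neg hs, zero_add]
      have haQ : a ∉ Q' := fun h => hs (sub_star hQ' h)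
      have hn : ¬ (nadj α a Q').card ≤ bB α := fun h => hs (Finset.mem_filter.2 ⟨haS, h⟩)
      have hd : (Q'.filter (fun q => (inner ℝ a q : ℝ) = α)).card ≤ bB α :=
        (dich h0 h1 hS hQ' a haS haQ).resolve_right hn
      calc ∑ b ∈ A', (inner ℝ a b : ℝ) ≤ ∑ b ∈ A', (if (inner ℝ a b : ℝ) = α then (1 : ℝ) else 0) := by
            refine Finset.sum_le_sum fun b hb => ?_
            have hbS : b ∈ S := hQ'.1 (hA' hb)
            have hab : a ≠ b := fun h => haQ (h ▸ hA' hb)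
            split_ifs with h
            · rw [h]; exact h1.le
            · rcases hS.2 a haS b hbS hab with h2 | h2
              · exact h2.le
              · exact absurd h2 h
        _ = ((A'.filter (fun b => (inner ℝ a b : ℝ) = α)).card : ℝ) := by
            rw [Finset.sum_boole]
        _ ≤ ((Q'.filter (fun b => (inner ℝ a b : ℝ) = α)).card : ℝ) := by
            exact_mod_cast Finset.card_le_card (Finset.filter_subset_filter _ hA')
        _ ≤ (bB α : ℝ) := by exact_mod_cast hd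
  have hi : ((A.filter (fun a => a ∈ star α S Q')).card : ℝ) ≤ (bB α : ℝ) := by
    have h2 : (A.filter (fun a => a ∈ star α S Q')).card ≤ bB α := by
      by_contra hcon
      push Not at hcon
      obtain ⟨U, hU, hUc⟩ := Finset.exists_subset_card_eq (show bB α + 1 ≤ _ from hcon)
      have hUQ : U ⊆ Q := fun u hu => hA (Finset.mem_filter.1 (hU hu)).1
      refine hne (canon h0 h1 hS hQ (by rw [hc]; exact hT) hQ' (by rw [hc']; exact hT)
        ⟨hUQ.trans hQ.1, fun u hu v hv huv => hQ.2 u (hUQ hu) v (hUQ hv) huv⟩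
        (hUQ.trans (sub_star hQ)) (fun u hu => (Finset.mem_filter.1 (hU hu)).2) hUc)
    exact_mod_cast h2
  have hAc : (A.card : ℝ) ≤ T := by
    have := Finset.card_le_card hA
    rw [hc] at this
    exact_mod_cast this
  have hB0 : (0 : ℝ) ≤ (bB α : ℝ) := Nat.cast_nonneg _
  have hT0 : (0 : ℝ) ≤ (T : ℝ) := Nat.cast_nonneg _
  calc ∑ a ∈ A, (inner ℝ a (∑ b ∈ A', b) : ℝ)
      ≤ ∑ a ∈ A, ((if a ∈ star α S Q' then (T : ℝ) else 0) + (bB α : ℝ)) :=
        Finset.sum_le_sum hf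
    _ = ((A.filter (fun a => a ∈ star α S Q')).card : ℝ) * T + A.card * (bB α : ℝ) := by
        rw [Finset.sum_add_distrib, ← Finset.sum_filter, Finset.sum_const, Finset.sum_const,
          nsmul_eq_mul, nsmul_eq_mul]
    _ ≤ (bB α : ℝ) * T + T * (bB α : ℝ) := by gcongr
    _ = _ := by ring

/-- the average of the neighbours of `x` in `Q` -/
private noncomputable def sdc {d : ℕ} (α : ℝ) (x : EuclideanSpace ℝ (Fin d))
    (Q : Finset (EuclideanSpace ℝ (Fin d))) : EuclideanSpace ℝ (Fin d) :=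
  (((Q.filter (fun q => (inner ℝ x q : ℝ) = α)).card : ℝ))⁻¹ •
    ∑ a ∈ Q.filter (fun q => (inner ℝ x q : ℝ) = α), a

private lemma sd_card {d : ℕ} {α : ℝ} {S Q : Finset (EuclideanSpace ℝ (Fin d))}
    (x : EuclideanSpace ℝ (Fin d)) (hx : x ∈ star α S Q) (T : ℕ) (hT : 2 * (bB α + 1) ≤ T)
    (hc : Q.card = T) : (T : ℝ) / 2 ≤ ((Q.filter (fun q => (inner ℝ x q : ℝ) = α)).card : ℝ) := by
  have hn : (nadj α x Q).card ≤ bB α := (Finset.mem_filter.1 hx).2
  have hsub : Q ⊆ Q.filter (fun q => (inner ℝ x q : ℝ) = α) ∪ (nadj α x Q ∪ {x}) := by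
    intro q hq
    by_cases h : (inner ℝ x q : ℝ) = α
    · exact Finset.mem_union_left _ (Finset.mem_filter.2 ⟨hq, h⟩)
    · refine Finset.mem_union_right _ ?_
      by_cases h2 : q = x
      · exact Finset.mem_union_right _ (by rw [h2]; exact Finset.mem_singleton_self x)
      · exact Finset.mem_union_left _ (Finset.mem_filter.2 ⟨hq, h2, h⟩)
  have h1 := Finset.card_le_card hsub
  have h2 := Finset.card_union_le (Q.filter (fun q => (inner ℝ x q : ℝ) = α)) (nadj α x Q ∪ {x})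
  have h3 := Finset.card_union_le (nadj α x Q) {x}
  rw [Finset.card_singleton] at h3
  have h4 : T ≤ 2 * (Q.filter (fun q => (inner ℝ x q : ℝ) = α)).card := by omega
  have h5 : (T : ℝ) ≤ 2 * ((Q.filter (fun q => (inner ℝ x q : ℝ) = α)).card : ℝ) := by
    exact_mod_cast h4
  linarith

/-
SCD-StrD (1.0 h). B = bB α. Suppose QQ has at least m+1 members, take a subfamily with exactly m+1 =: l members Q_1..Q_l. A_i = Q_i.filter (<x,q> = α):
|A_i| ≥ T1 - B - 1 ≥ T1/2 (x in star: nadj ≤ B; possibly x in Q_i). c_i = average of A_i: <x,c_i> = α, ‖c_i‖² = α + (1-α)/|A_i| ≤ α + 2/T1.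
For i ≠ j the number of pairs (a,b) in A_i x A_j with <a,b> > 0 (a = b or adjacent) is ≤ 2 (B+1) T1: for a in star Q_j: the set A_i ∩ star Q_j is a clique
contained in both stars, so it has at most B elements (canon, the stars are different; take a subset with B+1 elements), each with at most T1
elements b; for a not in star Q_j: a not in Q_j (sub_star) and nadj a Q_j > B, so a is adjacent to at most B elements of Q_j (dich), at most T1 such a.
Hence <c_i,c_j> ≤ 2(B+1)T1/(T1/2)² = 8(B+1)/T1. v = sum c_i: (lα)² = <x,v>² ≤ ‖v‖² ≤ l(α + 2/T1) + l² 8(B+1)/T1. As lα > 1, l²α² - lα > 0 is a fixed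
positive number: contradiction for T1 ≥ T0.
-/
theorem claim5 (α : ℝ) (h0 : 0 < α) (h1 : α < 1) (m : ℕ) (hm : 1 < (m + 1) * α) : ∃ T0 : ℕ, ∀ T1 : ℕ,
    T0 ≤ T1 → ∀ {d : ℕ} {S : Finset (EuclideanSpace ℝ (Fin d))} (x : EuclideanSpace ℝ (Fin d))
    (QQ : Finset (Finset (EuclideanSpace ℝ (Fin d)))), Code α S → x ∈ S →
    (∀ Q ∈ QQ, IsQ α S Q ∧ Q.card = T1 ∧ x ∈ star α S Q) →
    (∀ Q ∈ QQ, ∀ Q' ∈ QQ, Q ≠ Q' → star α S Q ≠ star α S Q') → QQ.card ≤ m := by
  have hm0 : 0 < ((m : ℝ) + 1) * α * (((m : ℝ) + 1) * α - 1) := by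
    have : 0 < ((m : ℝ) + 1) * α := by positivity
    exact mul_pos this (by linarith)
  obtain ⟨T2, hT2⟩ := exists_nat_gt
    ((2 * ((m : ℝ) + 1) + 8 * (bB α : ℝ) * ((m : ℝ) + 1) ^ 2) /
      (((m : ℝ) + 1) * α * (((m : ℝ) + 1) * α - 1)))
  refine ⟨(bB α + 4) ^ 2 + 2 * (bB α + 1) + T2, ?_⟩
  intro T1 hT1 d S x QQ hS hx hQQ hst
  by_contra hcon
  push Not at hcon
  obtain ⟨R, hR, hRc⟩ := Finset.exists_subset_card_eq (show m + 1 ≤ QQ.card from hcon)
  have hTa : (bB α + 4) ^ 2 ≤ T1 := by omega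
  have hTb : 2 * (bB α + 1) ≤ T1 := by omega
  have hTc : T2 ≤ T1 := by omega
  have hT1pos : (0 : ℝ) < T1 := by
    have : 0 < T1 := by omega
    exact_mod_cast this
  have hB0 : (0 : ℝ) ≤ (bB α : ℝ) := Nat.cast_nonneg _
  set v : EuclideanSpace ℝ (Fin d) := ∑ Q ∈ R, sdc α x Q with hv
  have hkpos : ∀ Q ∈ R, (T1 : ℝ) / 2 ≤ ((Q.filter (fun q => (inner ℝ x q : ℝ) = α)).card : ℝ) :=
    fun Q hQ => sd_card x (hQQ Q (hR hQ)).2.2 T1 hTb (hQQ Q (hR hQ)).2.1
  have hxc : ∀ Q ∈ R, (inner ℝ x (sdc α x Q) : ℝ) = α := by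
    intro Q hQ
    have hk := hkpos Q hQ
    have hk0 : ((Q.filter (fun q => (inner ℝ x q : ℝ) = α)).card : ℝ) ≠ 0 := by
      have : (0 : ℝ) < T1 / 2 := by positivity
      linarith
    unfold sdc
    rw [inner_smul_right, inner_sum, Finset.sum_congr rfl (g := fun _ => α)
      (fun a ha => (Finset.mem_filter.1 ha).2), Finset.sum_const, nsmul_eq_mul]
    field_simp
  have hcc : ∀ Q ∈ R, (inner ℝ (sdc α x Q) (sdc α x Q) : ℝ) ≤ α + 2 / T1 := by
    intro Q hQ
    have hk := hkpos Q hQ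
    have hk0 : 0 < ((Q.filter (fun q => (inner ℝ x q : ℝ) = α)).card : ℝ) := by
      have : (0 : ℝ) < T1 / 2 := by positivity
      linarith
    have hIs : IsQ α S (Q.filter (fun q => (inner ℝ x q : ℝ) = α)) :=
      ⟨(Finset.filter_subset _ _).trans (hQQ Q (hR hQ)).1.1, fun u hu w hw huw =>
        (hQQ Q (hR hQ)).1.2 u (Finset.mem_filter.1 hu).1 w (Finset.mem_filter.1 hw).1 huw⟩
    unfold sdc
    rw [inner_smul_left, inner_smul_right, sd_self hS hIs]
    simp only [conj_trivial]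
    set k : ℝ := ((Q.filter (fun q => (inner ℝ x q : ℝ) = α)).card : ℝ) with hkdef
    have e1 : k⁻¹ * (k⁻¹ * (k * (1 + (k - 1) * α))) = α + (1 - α) / k := by
      field_simp; ring
    rw [e1]
    have e2 : (1 - α) / k ≤ 2 / T1 := by
      rw [div_le_div_iff₀ hk0 hT1pos]
      nlinarith
    linarith
  have hcd : ∀ Q ∈ R, ∀ Q' ∈ R, Q ≠ Q' →
      (inner ℝ (sdc α x Q) (sdc α x Q') : ℝ) ≤ 8 * (bB α : ℝ) / T1 := by
    intro Q hQ Q' hQ' hne
    have hk := hkpos Q hQ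
    have hk' := hkpos Q' hQ'
    have hp := sd_pair h0 h1 hS (hQQ Q (hR hQ)).1 (hQQ Q' (hR hQ')).1 T1 hTa
      (hQQ Q (hR hQ)).2.1 (hQQ Q' (hR hQ')).2.1 (hst Q (hR hQ) Q' (hR hQ') hne)
      (Finset.filter_subset (fun q => (inner ℝ x q : ℝ) = α) Q)
      (Finset.filter_subset (fun q => (inner ℝ x q : ℝ) = α) Q')
    unfold sdc
    rw [inner_smul_left, inner_smul_right]
    simp only [conj_trivial]
    set k : ℝ := ((Q.filter (fun q => (inner ℝ x q : ℝ) = α)).card : ℝ) with hkdef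
    set k' : ℝ := ((Q'.filter (fun q => (inner ℝ x q : ℝ) = α)).card : ℝ) with hkdef'
    have hT2' : (0 : ℝ) < T1 / 2 := by positivity
    have hk0 : 0 < k := by linarith
    have hk0' : 0 < k' := by linarith
    have hkk : ((T1 : ℝ) / 2) * (T1 / 2) ≤ k * k' := mul_le_mul hk hk' hT2'.le hk0.le
    calc k⁻¹ * (k'⁻¹ * (inner ℝ (∑ a ∈ Q.filter (fun q => (inner ℝ x q : ℝ) = α), a)
          (∑ a ∈ Q'.filter (fun q => (inner ℝ x q : ℝ) = α), a) : ℝ))
        ≤ k⁻¹ * (k'⁻¹ * (2 * (bB α : ℝ) * T1)) := by gcongr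
      _ = (2 * (bB α : ℝ) * T1) / (k * k') := by field_simp
      _ ≤ (2 * (bB α : ℝ) * T1) / (((T1 : ℝ) / 2) * (T1 / 2)) := by
          apply div_le_div_of_nonneg_left _ (by positivity) hkk
          positivity
      _ = 8 * (bB α : ℝ) / T1 := by field_simp; ring
  have hxv : (inner ℝ x v : ℝ) = ((m : ℝ) + 1) * α := by
    rw [hv, inner_sum, Finset.sum_congr rfl hxc, Finset.sum_const, hRc, nsmul_eq_mul]
    push_cast; ring
  have hvv : (inner ℝ v v : ℝ) ≤ ((m : ℝ) + 1) * (α + 2 / T1) +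
      ((m : ℝ) + 1) ^ 2 * (8 * (bB α : ℝ) / T1) := by
    have hb0 : 0 ≤ 8 * (bB α : ℝ) / T1 := by positivity
    rw [hv, sum_inner]
    calc ∑ Q ∈ R, (inner ℝ (sdc α x Q) (∑ Q' ∈ R, sdc α x Q') : ℝ)
        ≤ ∑ Q ∈ R, ((α + 2 / T1) + ((m : ℝ) + 1) * (8 * (bB α : ℝ) / T1)) := by
          refine Finset.sum_le_sum fun Q hQ => ?_
          rw [inner_sum, ← Finset.add_sum_erase R _ hQ]
          refine add_le_add (hcc Q hQ) ?_
          calc ∑ Q' ∈ R.erase Q, (inner ℝ (sdc α x Q) (sdc α x Q') : ℝ)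
              ≤ ∑ _Q' ∈ R.erase Q, (8 * (bB α : ℝ) / T1) :=
                Finset.sum_le_sum fun Q' hQ' => hcd Q hQ Q' (Finset.mem_of_mem_erase hQ')
                  (Finset.ne_of_mem_erase hQ').symm
            _ = ((R.erase Q).card : ℝ) * (8 * (bB α : ℝ) / T1) := by
                rw [Finset.sum_const, nsmul_eq_mul]
            _ ≤ ((m : ℝ) + 1) * (8 * (bB α : ℝ) / T1) := by
                refine mul_le_mul_of_nonneg_right ?_ hb0
                have : (R.erase Q).card ≤ m + 1 := by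
                  rw [← hRc]; exact Finset.card_le_card (Finset.erase_subset _ _)
                exact_mod_cast this
      _ = _ := by
          rw [Finset.sum_const, hRc, nsmul_eq_mul]
          push_cast; ring
  have hCS : (((m : ℝ) + 1) * α) ^ 2 ≤ (inner ℝ v v : ℝ) := by
    rw [← hxv]
    have h2 := real_inner_mul_inner_self_le x v
    have h3 : (inner ℝ x x : ℝ) = 1 := by
      rw [real_inner_self_eq_norm_sq, hS.1 x hx]; norm_num
    rw [h3, one_mul] at h2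
    calc (inner ℝ x v : ℝ) ^ 2 = inner ℝ x v * inner ℝ x v := by ring
      _ ≤ _ := h2
  have hfin : ((m : ℝ) + 1) * α * (((m : ℝ) + 1) * α - 1) * T1 ≤
      2 * ((m : ℝ) + 1) + 8 * (bB α : ℝ) * ((m : ℝ) + 1) ^ 2 := by
    have h2 : (((m : ℝ) + 1) * α) ^ 2 - ((m : ℝ) + 1) * α ≤
        (2 * ((m : ℝ) + 1) + 8 * (bB α : ℝ) * ((m : ℝ) + 1) ^ 2) / T1 := by
      have h3 : ((m : ℝ) + 1) * (α + 2 / T1) + ((m : ℝ) + 1) ^ 2 * (8 * (bB α : ℝ) / T1) =
          ((m : ℝ) + 1) * α + (2 * ((m : ℝ) + 1) + 8 * (bB α : ℝ) * ((m : ℝ) + 1) ^ 2) / T1 := by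
        field_simp
        ring
      rw [h3] at hvv
      linarith
    rw [le_div_iff₀ hT1pos] at h2
    calc ((m : ℝ) + 1) * α * (((m : ℝ) + 1) * α - 1) * T1
        = ((((m : ℝ) + 1) * α) ^ 2 - ((m : ℝ) + 1) * α) * T1 := by ring
      _ ≤ _ := h2
  rw [div_lt_iff₀ hm0] at hT2
  have hT3 : (T2 : ℝ) ≤ T1 := by exact_mod_cast hTc
  nlinarith

end Pool.Agent.Helper17.SCD
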