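import Mathlib
import Pool.Agent.Helper17.SCD.StrC
import Pool.Agent.Helper17.SCD.StrD
import Pool.Agent.Helper49.Sph.R3

set_option autoImplicit false

open scoped Classical

namespace Pool.Agent.Helper17.SCD

/-
SCD-StrE (1.0 h). Plan: T1 = the maximum of T0 (claim5), the T of claim2, claim3, (bB α + 4)², 1; R2, R3, R4 from claim2, claim3, claim4.
SS = the image of star α S on the T1-element cliques of S (filter of S.powersetCard T1). Through every x in S at most m members of SS (claim5, choose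
one clique for every member).
conflict E x y: x ≠ y and [ (some L in SS contains x and y and <x,y> ≠ α) or (<x,y> = α and no L in SS contains x and y) or (two different
L, L' in SS contain both x and y) ]. The number of y in S with E x y is ≤ m R2 + R4 + m² R3. Pool.Agent.Helper49.Sph.greedy: P ⊆ S without conflicts,
S.card ≤ (R+1) P.card. LL = (SS.image (fun L => L ∩ P)).filter (2 ≤ card).
LineSys α m P LL: sub, two clear; unit from hS; adj: first kind of conflict; non: x ≠ y in P on no common line of LL, then on no common L in SS, so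
<x,y> ≠ α (second kind), hence < 0; meet: L ∩ P ≠ L' ∩ P implies L ≠ L', two common points would be a conflict of the third kind;
deg: the lines of LL through x are images of members of SS through x.
-/
private theorem card_le_of_choice {d : ℕ} {α : ℝ} {m T1 : ℕ} {S : Finset (EuclideanSpace ℝ (Fin d))}
    (SS : Finset (Finset (EuclideanSpace ℝ (Fin d))))
    (hSS : ∀ L ∈ SS, ∃ Q, IsQ α S Q ∧ Q.card = T1 ∧ star α S Q = L) (x : EuclideanSpace ℝ (Fin d))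
    (h5 : ∀ QQ : Finset (Finset (EuclideanSpace ℝ (Fin d))),
      (∀ Q ∈ QQ, IsQ α S Q ∧ Q.card = T1 ∧ x ∈ star α S Q) →
      (∀ Q ∈ QQ, ∀ Q' ∈ QQ, Q ≠ Q' → star α S Q ≠ star α S Q') → QQ.card ≤ m) :
    (SS.filter (fun L => x ∈ L)).card ≤ m := by
  choose! q hq using hSS
  have hst : ∀ L ∈ SS.filter (fun L => x ∈ L), star α S (q L) = L := fun L hL =>
    (hq L (Finset.mem_filter.1 hL).1).2.2
  have hinj : Set.InjOn q (SS.filter (fun L => x ∈ L)) := by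
    intro L hL L' hL' h
    rw [← hst L hL, ← hst L' hL', h]
  rw [← Finset.card_image_of_injOn hinj]
  refine h5 _ ?_ ?_
  · intro Q hQ
    obtain ⟨L, hL, rfl⟩ := Finset.mem_image.1 hQ
    refine ⟨(hq L (Finset.mem_filter.1 hL).1).1, (hq L (Finset.mem_filter.1 hL).1).2.1, ?_⟩
    rw [hst L hL]
    exact (Finset.mem_filter.1 hL).2
  · intro Q hQ Q' hQ' hne
    obtain ⟨L, hL, rfl⟩ := Finset.mem_image.1 hQ
    obtain ⟨L', hL', rfl⟩ := Finset.mem_image.1 hQ'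
    rw [hst L hL, hst L' hL']
    rintro rfl
    exact hne rfl

/-- the conflict relation -/
private def Cf {d : ℕ} (α : ℝ) (SS : Finset (Finset (EuclideanSpace ℝ (Fin d))))
    (x y : EuclideanSpace ℝ (Fin d)) : Prop :=
  x ≠ y ∧ ((∃ L ∈ SS, x ∈ L ∧ y ∈ L ∧ (inner ℝ x y : ℝ) ≠ α) ∨
    ((inner ℝ x y : ℝ) = α ∧ ∀ L ∈ SS, x ∈ L → y ∉ L) ∨
    ∃ L ∈ SS, ∃ L' ∈ SS, L ≠ L' ∧ x ∈ L ∧ y ∈ L ∧ x ∈ L' ∧ y ∈ L')

private theorem Cf.symm {d : ℕ} {α : ℝ} {SS : Finset (Finset (EuclideanSpace ℝ (Fin d)))}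
    (x y : EuclideanSpace ℝ (Fin d)) (h : Cf α SS x y) : Cf α SS y x := by
  obtain ⟨hne, h | h | h⟩ := h
  · obtain ⟨L, hL, hx, hy, hi⟩ := h
    exact ⟨hne.symm, Or.inl ⟨L, hL, hy, hx, by rwa [real_inner_comm]⟩⟩
  · refine ⟨hne.symm, Or.inr (Or.inl ⟨by rw [real_inner_comm]; exact h.1, fun L hL hy hx => h.2 L hL hx hy⟩)⟩
  · obtain ⟨L, hL, L', hL', hn, h1, h2, h3, h4⟩ := h
    exact ⟨hne.symm, Or.inr (Or.inr ⟨L, hL, L', hL', hn, h2, h1, h4, h3⟩)⟩

private theorem lineSys_of {d : ℕ} {α : ℝ} {m : ℕ} {S P : Finset (EuclideanSpace ℝ (Fin d))}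
    (hS : Code α S) (hP : P ⊆ S) (SS : Finset (Finset (EuclideanSpace ℝ (Fin d))))
    (hdeg : ∀ x ∈ S, (SS.filter (fun L => x ∈ L)).card ≤ m)
    (hcf : ∀ x ∈ P, ∀ y ∈ P, x ≠ y → ¬ Cf α SS x y) :
    LineSys α m P ((SS.image (fun L => L ∩ P)).filter (fun L => 2 ≤ L.card)) where
  sub := by
    intro L hL
    obtain ⟨L0, hL0, rfl⟩ := Finset.mem_image.1 (Finset.mem_filter.1 hL).1
    exact Finset.inter_subset_right
  two := fun L hL => (Finset.mem_filter.1 hL).2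
  unit := fun x hx => hS.1 x (hP hx)
  adj := by
    intro L hL x hx y hy hne
    obtain ⟨L0, hL0, rfl⟩ := Finset.mem_image.1 (Finset.mem_filter.1 hL).1
    by_contra hcon
    rw [Finset.mem_inter] at hx hy
    exact hcf x hx.2 y hy.2 hne ⟨hne, Or.inl ⟨L0, hL0, hx.1, hy.1, hcon⟩⟩
  non := by
    intro x hx y hy hne hno
    rcases hS.2 x (hP hx) y (hP hy) hne with h | h
    · exact h.le
    · exfalso
      refine hcf x hx y hy hne ⟨hne, Or.inr (Or.inl ⟨h, fun L hL hxL hyL => ?_⟩)⟩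
      have hxL' : x ∈ L ∩ P := Finset.mem_inter.2 ⟨hxL, hx⟩
      have hyL' : y ∈ L ∩ P := Finset.mem_inter.2 ⟨hyL, hy⟩
      refine hno (L ∩ P) (Finset.mem_filter.2 ⟨Finset.mem_image.2 ⟨L, hL, rfl⟩, ?_⟩) hxL' hyL'
      exact Finset.one_lt_card.2 ⟨x, hxL', y, hyL', hne⟩
  meet := by
    intro L hL L' hL' hne
    obtain ⟨L0, hL0, rfl⟩ := Finset.mem_image.1 (Finset.mem_filter.1 hL).1
    obtain ⟨L0', hL0', rfl⟩ := Finset.mem_image.1 (Finset.mem_filter.1 hL').1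
    by_contra hcon
    push Not at hcon
    obtain ⟨x, hx, y, hy, hxy⟩ := Finset.one_lt_card.1 hcon
    simp only [Finset.mem_inter] at hx hy
    refine hcf x hx.1.2 y hy.1.2 hxy ⟨hxy, Or.inr (Or.inr ⟨L0, hL0, L0', hL0', ?_, hx.1.1, hy.1.1, hx.2.1, hy.2.1⟩)⟩
    rintro rfl
    exact hne rfl
  deg := by
    intro x hx
    refine le_trans ?_ (hdeg x (hP hx))
    refine le_trans (Finset.card_le_card (t := (SS.filter (fun L => x ∈ L)).image (fun L => L ∩ P)) ?_)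
      Finset.card_image_le
    intro L hL
    obtain ⟨hL1, hxL⟩ := Finset.mem_filter.1 hL
    obtain ⟨L0, hL0, rfl⟩ := Finset.mem_image.1 (Finset.mem_filter.1 hL1).1
    exact Finset.mem_image.2 ⟨L0, Finset.mem_filter.2 ⟨hL0, (Finset.mem_inter.1 hxL).1⟩, rfl⟩

private theorem card_cf {d : ℕ} {α : ℝ} {m R2 R3 R4 : ℕ} {S : Finset (EuclideanSpace ℝ (Fin d))}
    (SS : Finset (Finset (EuclideanSpace ℝ (Fin d)))) (x : EuclideanSpace ℝ (Fin d))
    (hdeg : (SS.filter (fun L => x ∈ L)).card ≤ m)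
    (h2 : ∀ L ∈ SS, x ∈ L → (L.filter (fun y => y ≠ x ∧ (inner ℝ x y : ℝ) ≠ α)).card ≤ R2)
    (h3 : ∀ L ∈ SS, ∀ L' ∈ SS, L ≠ L' → (L ∩ L').card ≤ R3)
    (h4 : (S.filter (fun y => (inner ℝ x y : ℝ) = α ∧ ∀ L ∈ SS, x ∈ L → y ∉ L)).card ≤ R4) :
    (S.filter (fun y => Cf α SS x y)).card ≤ m * R2 + R4 + m * m * R3 := by
  set X := SS.filter (fun L => x ∈ L) with hX
  have hsub : S.filter (fun y => Cf α SS x y) ⊆
      (X.biUnion (fun L => L.filter (fun y => y ≠ x ∧ (inner ℝ x y : ℝ) ≠ α)) ∪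
      S.filter (fun y => (inner ℝ x y : ℝ) = α ∧ ∀ L ∈ SS, x ∈ L → y ∉ L)) ∪
      ((X ×ˢ X).filter (fun p => p.1 ≠ p.2)).biUnion (fun p => p.1 ∩ p.2) := by
    intro y hy
    obtain ⟨hyS, hne, h | h | h⟩ := Finset.mem_filter.1 hy
    · obtain ⟨L, hL, hx, hy, hi⟩ := h
      exact Finset.mem_union_left _ (Finset.mem_union_left _ (Finset.mem_biUnion.2
        ⟨L, Finset.mem_filter.2 ⟨hL, hx⟩, Finset.mem_filter.2 ⟨hy, hne.symm, hi⟩⟩))
    · exact Finset.mem_union_left _ (Finset.mem_union_right _ (Finset.mem_filter.2 ⟨hyS, h⟩))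
    · obtain ⟨L, hL, L', hL', hn, h1, h2, h3, h4⟩ := h
      refine Finset.mem_union_right _ (Finset.mem_biUnion.2 ⟨(L, L'), Finset.mem_filter.2
        ⟨Finset.mem_product.2 ⟨Finset.mem_filter.2 ⟨hL, h1⟩, Finset.mem_filter.2 ⟨hL', h3⟩⟩, hn⟩,
        Finset.mem_inter.2 ⟨h2, h4⟩⟩)
  refine (Finset.card_le_card hsub).trans ((Finset.card_union_le _ _).trans (Nat.add_le_add
    ((Finset.card_union_le _ _).trans (Nat.add_le_add ?_ h4)) ?_))
  · refine (Finset.card_biUnion_le_card_mul _ _ R2 ?_).trans (Nat.mul_le_mul_right _ hdeg)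
    intro L hL
    exact h2 L (Finset.mem_filter.1 hL).1 (Finset.mem_filter.1 hL).2
  · refine (Finset.card_biUnion_le_card_mul _ _ R3 ?_).trans (Nat.mul_le_mul_right _ ?_)
    · intro p hp
      obtain ⟨hp1, hp2⟩ := Finset.mem_filter.1 hp
      obtain ⟨hp3, hp4⟩ := Finset.mem_product.1 hp1
      exact h3 _ (Finset.mem_filter.1 hp3).1 _ (Finset.mem_filter.1 hp4).1 hp2
    · refine (Finset.card_filter_le _ _).trans ?_
      rw [Finset.card_product]
      exact Nat.mul_le_mul hdeg hdeg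

theorem structure_thm (α : ℝ) (h0 : 0 < α) (h1 : α < 1) (m : ℕ) (hm : 1 < (m + 1) * α) : ∃ R : ℕ,
    ∀ {d : ℕ} {S : Finset (EuclideanSpace ℝ (Fin d))}, Code α S →
    ∃ (P : Finset (EuclideanSpace ℝ (Fin d))) (LL : Finset (Finset (EuclideanSpace ℝ (Fin d)))),
      P ⊆ S ∧ LineSys α m P LL ∧ S.card ≤ R * P.card := by
  obtain ⟨T0, h5⟩ := claim5 α h0 h1 m hm
  obtain ⟨R2, T2, h2⟩ := claim2 α h0 h1
  obtain ⟨R3, T3, h3⟩ := claim3 α h0 h1
  obtain ⟨R4, h4⟩ := claim4 α h0 h1 (T0 + T2 + T3 + 1) (by omega)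
  refine ⟨(m * R2 + R4 + m * m * R3) + 1, ?_⟩
  intro d S hS
  set T1 := T0 + T2 + T3 + 1 with hT1
  set SS : Finset (Finset (EuclideanSpace ℝ (Fin d))) :=
    ((S.powersetCard T1).filter (fun Q => IsQ α S Q)).image (star α S) with hSS
  have hmem : ∀ L ∈ SS, ∃ Q, IsQ α S Q ∧ Q.card = T1 ∧ star α S Q = L := by
    intro L hL
    obtain ⟨Q, hQ, rfl⟩ := Finset.mem_image.1 hL
    obtain ⟨hQ1, hQ2⟩ := Finset.mem_filter.1 hQ
    exact ⟨Q, hQ2, (Finset.mem_powersetCard.1 hQ1).2, rfl⟩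
  have hmem' : ∀ Q, IsQ α S Q → Q.card = T1 → star α S Q ∈ SS := by
    intro Q hQ hc
    exact Finset.mem_image.2 ⟨Q, Finset.mem_filter.2 ⟨Finset.mem_powersetCard.2 ⟨hQ.1, hc⟩, hQ⟩, rfl⟩
  have hdeg : ∀ x ∈ S, (SS.filter (fun L => x ∈ L)).card ≤ m := by
    intro x hx
    exact card_le_of_choice SS hmem x (fun QQ hQ1 hQ2 => h5 T1 (by omega) x QQ hS hx hQ1 hQ2)
  have hcount : ∀ x ∈ S, (S.filter (fun y => Cf α SS x y)).card ≤ m * R2 + R4 + m * m * R3 := by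
    intro x hx
    refine card_cf SS x (hdeg x hx) ?_ ?_ ?_
    · intro L hL hxL
      obtain ⟨Q, hQ, hc, rfl⟩ := hmem L hL
      exact h2 x hS hQ (by omega) hxL
    · intro L hL L' hL' hne
      obtain ⟨Q, hQ, hc, rfl⟩ := hmem L hL
      obtain ⟨Q', hQ', hc', rfl⟩ := hmem L' hL'
      exact h3 hS hQ (by omega) hQ' (by omega) hne
    · refine (Finset.card_le_card ?_).trans (h4 x hS hx)
      intro y hy
      obtain ⟨hyS, hi, hno⟩ := Finset.mem_filter.1 hy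
      exact Finset.mem_filter.2 ⟨hyS, hi, fun Q hQ hc hxQ => hno _ (hmem' Q hQ hc) hxQ⟩
  obtain ⟨P, hPS, hP, hc⟩ := Pool.Agent.Helper49.Sph.greedy S (Cf α SS) Cf.symm _ hcount
  exact ⟨P, _, hPS, lineSys_of hS hPS SS hdeg hP, hc⟩

end Pool.Agent.Helper17.SCD
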