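import Mathlib
import Pool.Agent.Helper17.SCD.ClassG
import Pool.Agent.Helper17.SCD.ClassE
import Pool.Agent.Helper17.SCD.Peel
import Pool.Agent.Helper17.SCD.StrE

set_option autoImplicit false

open scoped Classical

namespace Pool.Agent.Helper17.SCD

theorem upper_gen (α : ℝ) (h0 : 0 < α) (h1 : α < 1) (hn : ∀ n : ℕ, (n : ℝ) * α ≠ 1) : ∃ C : ℝ,
    ∀ {d : ℕ} {S : Finset (EuclideanSpace ℝ (Fin d))}, 1 ≤ d → Code α S →
    (S.card : ℝ) ≤ C * (d : ℝ) ^ (8 / 5 : ℝ) := by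
  obtain ⟨m, hmdef⟩ : ∃ m : ℕ, m = ⌊1 / α⌋₊ := ⟨_, rfl⟩
  have hm1 : (m : ℝ) * α < 1 := by
    have h : (m : ℝ) ≤ 1 / α := by rw [hmdef]; exact Nat.floor_le (by positivity)
    have h' : (m : ℝ) * α ≤ 1 := by rwa [le_div_iff₀ h0] at h
    exact lt_of_le_of_ne h' (hn m)
  have hm2 : 1 < (m + 1) * α := by
    have h : 1 / α < (m : ℝ) + 1 := by rw [hmdef]; exact Nat.lt_floor_add_one _
    rwa [div_lt_iff₀ h0] at h
  obtain ⟨T, hT, C, hC, hcls⟩ := class_gen α m h0 h1 hm1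
  obtain ⟨C', hC', hP⟩ := peel α m h0 h1 (6 / 5) (2 / 5) (by norm_num) (by norm_num) T hT C hC hcls
  obtain ⟨R, hR⟩ := structure_thm α h0 h1 m hm2
  refine ⟨R * C', fun {d S} hd hS => ?_⟩
  obtain ⟨P, LL, _, hsys, hc⟩ := hR hS
  have h3 := hP hd hsys
  have h4 : (S.card : ℝ) ≤ R * P.card := by exact_mod_cast hc
  have h5 : (6 / 5 + 2 / 5 : ℝ) = 8 / 5 := by norm_num
  rw [h5] at h3
  calc (S.card : ℝ) ≤ R * P.card := h4
    _ ≤ R * (C' * (d : ℝ) ^ (8 / 5 : ℝ)) := by gcongr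
    _ = R * C' * (d : ℝ) ^ (8 / 5 : ℝ) := by ring

theorem upper_exact (α : ℝ) (h0 : 1 / 3 < α) (h1 : α < 1 / 2) : ∃ C : ℝ,
    ∀ {d : ℕ} {S : Finset (EuclideanSpace ℝ (Fin d))}, 1 ≤ d → Code α S →
    (S.card : ℝ) ≤ C * (d : ℝ) ^ (3 / 2 : ℝ) := by
  have h00 : 0 < α := by linarith
  have h11 : α < 1 := by linarith
  obtain ⟨T, hT, C, hC, hcls⟩ := class_exact α h00 (by linarith)
  obtain ⟨C', hC', hP⟩ := peel α 2 h00 h11 1 (1 / 2) (by norm_num) (by norm_num) T hT C hC hcls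
  obtain ⟨R, hR⟩ := structure_thm α h00 h11 2 (by push_cast; linarith)
  refine ⟨R * C', fun {d S} hd hS => ?_⟩
  obtain ⟨P, LL, _, hsys, hc⟩ := hR hS
  have h3 := hP hd hsys
  have h4 : (S.card : ℝ) ≤ R * P.card := by exact_mod_cast hc
  have h5 : (1 + 1 / 2 : ℝ) = 3 / 2 := by norm_num
  rw [h5] at h3
  calc (S.card : ℝ) ≤ R * P.card := h4
    _ ≤ R * (C' * (d : ℝ) ^ (3 / 2 : ℝ)) := by gcongr
    _ = R * C' * (d : ℝ) ^ (3 / 2 : ℝ) := by ring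

end Pool.Agent.Helper17.SCD
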