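import Mathlib
import Pool.Agent.Helper17.SCD.Defs

set_option autoImplicit false

open scoped Classical

namespace Pool.Agent.Helper17.SCD

/-- the points of `L` which are on a big line different from `L` -/
noncomputable def tset {d : ℕ} (LL : Finset (Finset (EuclideanSpace ℝ (Fin d)))) (K : ℕ)
    (L : Finset (EuclideanSpace ℝ (Fin d))) : Finset (EuclideanSpace ℝ (Fin d)) :=
  L.filter (fun x => ∃ J ∈ bg LL K, x ∈ J ∧ J ≠ L)

/-- number of points on at least two big lines -/
noncomputable def bb {d : ℕ} (P : Finset (EuclideanSpace ℝ (Fin d)))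
    (LL : Finset (Finset (EuclideanSpace ℝ (Fin d)))) (K : ℕ) : ℕ :=
  (P.filter (fun x => 2 ≤ ((bg LL K).filter (fun J => x ∈ J)).card)).card

end Pool.Agent.Helper17.SCD
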