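import Mathlib
import Pool.Agent.Helper17.SCD.HalfDefs

set_option autoImplicit false

open scoped Classical

namespace Pool.Agent.Helper17.SCD

/-
SCD-HalfC4. No 4-cycles at inner product 1/2.
-/
theorem no_c4 {d : ℕ} {P : Finset (EuclideanSpace ℝ (Fin d))} (hP : Code (1 / 2) P)
    (x y z w : EuclideanSpace ℝ (Fin d)) (hx : x ∈ P) (hy : y ∈ P) (hz : z ∈ P) (hw : w ∈ P)
    (hxy : (inner ℝ x y : ℝ) = 1 / 2) (hyw : (inner ℝ y w : ℝ) = 1 / 2) (hwz : (inner ℝ w z : ℝ) = 1 / 2)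
    (hzx : (inner ℝ z x : ℝ) = 1 / 2) (hxw : (inner ℝ x w : ℝ) < 0) (hyz : (inner ℝ y z : ℝ) < 0) : False := by
  have e1 : (inner ℝ x x : ℝ) = 1 := by rw [real_inner_self_eq_norm_sq, hP.1 x hx]; norm_num
  have e2 : (inner ℝ y y : ℝ) = 1 := by rw [real_inner_self_eq_norm_sq, hP.1 y hy]; norm_num
  have e3 : (inner ℝ z z : ℝ) = 1 := by rw [real_inner_self_eq_norm_sq, hP.1 z hz]; norm_num
  have e4 : (inner ℝ w w : ℝ) = 1 := by rw [real_inner_self_eq_norm_sq, hP.1 w hw]; norm_num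
  have c1 : (inner ℝ y x : ℝ) = 1 / 2 := by rw [real_inner_comm]; exact hxy
  have c2 : (inner ℝ w y : ℝ) = 1 / 2 := by rw [real_inner_comm]; exact hyw
  have c3 : (inner ℝ z w : ℝ) = 1 / 2 := by rw [real_inner_comm]; exact hwz
  have c4 : (inner ℝ x z : ℝ) = 1 / 2 := by rw [real_inner_comm]; exact hzx
  have c5 : (inner ℝ w x : ℝ) = inner ℝ x w := real_inner_comm _ _
  have c6 : (inner ℝ z y : ℝ) = inner ℝ y z := real_inner_comm _ _
  have key : (inner ℝ (x - y + w - z) (x - y + w - z) : ℝ) = 2 * ((inner ℝ x w : ℝ) + inner ℝ y z) := by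
    simp only [inner_add_left, inner_sub_left, inner_add_right, inner_sub_right, e1, e2, e3, e4,
      hxy, hyw, hwz, hzx, c1, c2, c3, c4, c5, c6]
    ring
  have h0 : 0 ≤ (inner ℝ (x - y + w - z) (x - y + w - z) : ℝ) := real_inner_self_nonneg
  linarith

theorem strict {d : ℕ} {α : ℝ} {m : ℕ} {P : Finset (EuclideanSpace ℝ (Fin d))}
    {LL : Finset (Finset (EuclideanSpace ℝ (Fin d)))} (h0 : 0 < α) (h : LineSys α m P LL)
    (hP : Code α P) (x y : EuclideanSpace ℝ (Fin d)) (hx : x ∈ P) (hy : y ∈ P) (hxy : x ≠ y)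
    (hno : ∀ L ∈ LL, x ∈ L → y ∉ L) : (inner ℝ x y : ℝ) < 0 := by
  have h1 := h.non x hx y hy hxy hno
  rcases hP.2 x hx y hy hxy with h2 | h2
  · exact h2
  · exfalso
    rw [h2] at h1
    linarith

private theorem three_lines {d : ℕ} {P : Finset (EuclideanSpace ℝ (Fin d))}
    {LL : Finset (Finset (EuclideanSpace ℝ (Fin d)))} (h : LineSys (1 / 2) 2 P LL)
    {x : EuclideanSpace ℝ (Fin d)} (hx : x ∈ P) {A B C : Finset (EuclideanSpace ℝ (Fin d))}
    (hA : A ∈ LL) (hB : B ∈ LL) (hC : C ∈ LL) (xA : x ∈ A) (xB : x ∈ B) (xC : x ∈ C)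
    (hAB : A ≠ B) (hAC : A ≠ C) (hBC : B ≠ C) : False := by
  have h1 := h.deg x hx
  have h2 : ({A, B, C} : Finset (Finset (EuclideanSpace ℝ (Fin d)))) ⊆ LL.filter (fun L => x ∈ L) := by
    intro L hL
    simp only [Finset.mem_insert, Finset.mem_singleton] at hL
    rw [Finset.mem_filter]
    rcases hL with rfl | rfl | rfl
    · exact ⟨hA, xA⟩
    · exact ⟨hB, xB⟩
    · exact ⟨hC, xC⟩
  have h3 : ({A, B, C} : Finset (Finset (EuclideanSpace ℝ (Fin d)))).card = 3 :=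
    Finset.card_eq_three.2 ⟨A, B, C, hAB, hAC, hBC, rfl⟩
  have h4 := Finset.card_le_card h2
  omega

private theorem meet_eq {d : ℕ} {P : Finset (EuclideanSpace ℝ (Fin d))}
    {LL : Finset (Finset (EuclideanSpace ℝ (Fin d)))} (h : LineSys (1 / 2) 2 P LL)
    {A B : Finset (EuclideanSpace ℝ (Fin d))} (hA : A ∈ LL) (hB : B ∈ LL) (hAB : A ≠ B)
    {x y : EuclideanSpace ℝ (Fin d)} (xA : x ∈ A) (xB : x ∈ B) (yA : y ∈ A) (yB : y ∈ B) : x = y := by
  have h1 := h.meet A hA B hB hAB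
  exact Finset.card_le_one.1 h1 x (Finset.mem_inter.2 ⟨xA, xB⟩) y (Finset.mem_inter.2 ⟨yA, yB⟩)

private noncomputable def oth {d : ℕ} (LL : Finset (Finset (EuclideanSpace ℝ (Fin d)))) (K : ℕ)
    (L : Finset (EuclideanSpace ℝ (Fin d))) (x : EuclideanSpace ℝ (Fin d)) :
    Finset (EuclideanSpace ℝ (Fin d)) :=
  if h : ∃ J ∈ bg LL K, x ∈ J ∧ J ≠ L then Classical.choose h else ∅

private theorem oth_spec {d : ℕ} {LL : Finset (Finset (EuclideanSpace ℝ (Fin d)))} {K : ℕ}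
    {L : Finset (EuclideanSpace ℝ (Fin d))} {x : EuclideanSpace ℝ (Fin d)}
    (hx : x ∈ tset LL K L) :
    x ∈ L ∧ oth LL K L x ∈ bg LL K ∧ x ∈ oth LL K L x ∧ oth LL K L x ≠ L := by
  unfold tset at hx
  rw [Finset.mem_filter] at hx
  obtain ⟨h1, h2⟩ := hx
  have h3 : oth LL K L x = Classical.choose h2 := by unfold oth; rw [dif_pos h2]
  have h4 := Classical.choose_spec h2
  rw [h3]
  exact ⟨h1, h4.1, h4.2.1, h4.2.2⟩

/-- the crossing argument -/
private theorem cross {d : ℕ} {P : Finset (EuclideanSpace ℝ (Fin d))}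
    {LL : Finset (Finset (EuclideanSpace ℝ (Fin d)))} (h : LineSys (1 / 2) 2 P LL)
    (hP : Code (1 / 2) P) {L I M M' : Finset (EuclideanSpace ℝ (Fin d))}
    {x y z w : EuclideanSpace ℝ (Fin d)}
    (hL : L ∈ LL) (hI : I ∈ LL) (hM : M ∈ LL) (hM' : M' ∈ LL)
    (xL : x ∈ L) (yL : y ∈ L) (hxy : x ≠ y) (xM : x ∈ M) (yM : y ∈ M') (hML : M ≠ L) (hML' : M' ≠ L)
    (zI : z ∈ I) (wI : w ∈ I) (hzw : z ≠ w) (zM : z ∈ M) (wM : w ∈ M') (hMI : M ≠ I) (hMI' : M' ≠ I) :
    L = I ∧ x = z ∧ y = w := by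
  have hxP := h.sub L hL xL
  have hyP := h.sub L hL yL
  have hzP := h.sub I hI zI
  have hwP := h.sub I hI wI
  by_cases hLI : L = I
  · subst hLI
    exact ⟨rfl, meet_eq h hL hM (Ne.symm hML) xL xM zI zM,
      meet_eq h hL hM' (Ne.symm hML') yL yM wI wM⟩
  · exfalso
    have hMM : M ≠ M' := by
      intro e
      subst e
      exact hxy (meet_eq h hL hM (Ne.symm hML) xL xM yL yM)
    have hxz : x ≠ z := by
      intro e
      subst e
      exact three_lines h hxP hL hM hI xL xM zI (Ne.symm hML) hLI hMI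
    have hyw : y ≠ w := by
      intro e
      subst e
      exact three_lines h hyP hL hM' hI yL yM wI (Ne.symm hML') hLI hMI'
    have hxw : x ≠ w := by
      intro e
      subst e
      exact three_lines h hxP hL hM hI xL xM wI (Ne.symm hML) hLI hMI
    have hyz : y ≠ z := by
      intro e
      subst e
      exact three_lines h hyP hL hM' hI yL yM zI (Ne.symm hML') hLI hMI'
    have nxw : ∀ A ∈ LL, x ∈ A → w ∉ A := by
      intro A hA xA wA
      have h1 : A = L ∨ A = M := by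
        by_contra hc
        push Not at hc
        exact three_lines h hxP hA hL hM xA xL xM hc.1 hc.2 (Ne.symm hML)
      rcases h1 with rfl | rfl
      · exact three_lines h hwP hA hI hM' wA wI wM hLI (Ne.symm hML') (Ne.symm hMI')
      · exact three_lines h hwP hA hI hM' wA wI wM hMI hMM (Ne.symm hMI')
    have nyz : ∀ A ∈ LL, y ∈ A → z ∉ A := by
      intro A hA yA zA
      have h1 : A = L ∨ A = M' := by
        by_contra hc
        push Not at hc
        exact three_lines h hyP hA hL hM' yA yL yM hc.1 hc.2 (Ne.symm hML')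
      rcases h1 with rfl | rfl
      · exact three_lines h hzP hA hI hM zA zI zM hLI (Ne.symm hML) (Ne.symm hMI)
      · exact three_lines h hzP hA hI hM zA zI zM hMI' (Ne.symm hMM) (Ne.symm hMI)
    have half : (0 : ℝ) < 1 / 2 := by norm_num
    have s1 := strict half h hP x w hxP hwP hxw nxw
    have s2 := strict half h hP y z hyP hzP hyz nyz
    exact no_c4 hP x y z w hxP hyP hzP hwP (h.adj L hL x xL y yL hxy) (h.adj M' hM' y yM w wM hyw)
      (h.adj I hI w wI z zI (Ne.symm hzw)) (h.adj M hM z zM x xM (Ne.symm hxz)) s1 s2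

theorem cnt_pairs {d : ℕ} {K : ℕ} {P : Finset (EuclideanSpace ℝ (Fin d))}
    {LL : Finset (Finset (EuclideanSpace ℝ (Fin d)))} (h : LineSys (1 / 2) 2 P LL)
    (hP : Code (1 / 2) P) :
    ∑ L ∈ LL, ((tset LL K L).offDiag).card ≤ (bg LL K).card ^ 2 := by
  rw [← Finset.card_sigma, sq, ← Finset.card_product]
  refine Finset.card_le_card_of_injOn (fun p => (oth LL K p.1 p.2.1, oth LL K p.1 p.2.2)) ?_ ?_
  · intro p hp
    rw [Finset.mem_coe, Finset.mem_sigma, Finset.mem_offDiag] at hp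
    have h1 := oth_spec hp.2.1
    have h2 := oth_spec hp.2.2.1
    exact Finset.mem_coe.2 (Finset.mem_product.2 ⟨h1.2.1, h2.2.1⟩)
  · rintro ⟨L, x, y⟩ hp ⟨I, z, w⟩ hq heq
    rw [Finset.mem_coe, Finset.mem_sigma, Finset.mem_offDiag] at hp hq
    simp only [Prod.mk.injEq] at heq hp hq
    obtain ⟨hL, hx, hy, hxy⟩ := hp
    obtain ⟨hI, hz, hw, hzw⟩ := hq
    have sx := oth_spec hx
    have sy := oth_spec hy
    have sz := oth_spec hz
    have sw := oth_spec hw
    have hsub : ∀ J, J ∈ bg LL K → J ∈ LL := fun J hJ => (Finset.mem_filter.1 hJ).1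
    rw [← heq.1] at sz
    rw [← heq.2] at sw
    obtain ⟨e1, e2, e3⟩ := cross h hP hL hI (hsub _ sx.2.1) (hsub _ sy.2.1) sx.1 sy.1 hxy sx.2.2.1
      sy.2.2.1 sx.2.2.2 sy.2.2.2 sz.1 sw.1 hzw sz.2.2.1 sw.2.2.1 sz.2.2.2 sw.2.2.2
    subst e1 e2 e3
    rfl

end Pool.Agent.Helper17.SCD
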