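import Mathlib
import Pool.Agent.Helper17.SCD.HalfC4

set_option autoImplicit false

open scoped Classical

namespace Pool.Agent.Helper17.SCD

/-
SCD-HalfB (0.6 h). Plan: n = (bg LL K).card, b = bb P LL K, t_J = (tset LL K J).card.
(1) sum_{J in bg} t_J = 2 b: for x in P on exactly two big lines J1, J2 (at most two by h.deg) x is in tset J1 and tset J2; a point on one big line is in no
tset J, J big. (double counting; it is enough to have ≥, i.e. 2 b ≤ sum.)
(2) sum_{J in bg} (t_J² - t_J) ≤ n² (cnt_pairs restricted to bg LL K ⊆ LL, Finset.offDiag_card).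
(3) (sum t_J)² ≤ n sum t_J² (sq_sum_le_card_mul_sum_sq) ≤ n (n² + sum t_J). With s = sum t_J ≥ 2b: s² ≤ n³ + n s. If s ≥ 2n: n s ≤ s²/2, s² ≤ 2 n³,
4 b² ≤ 2 n³. If s < 2n: b < n (or b = 0), b² ≤ n² ≤ n³.
-/
theorem bb_sq {d : ℕ} {K : ℕ} {P : Finset (EuclideanSpace ℝ (Fin d))}
    {LL : Finset (Finset (EuclideanSpace ℝ (Fin d)))} (h : LineSys (1 / 2) 2 P LL)
    (hP : Code (1 / 2) P) : bb P LL K ^ 2 ≤ (bg LL K).card ^ 3 := by
  have hs1 : 2 * bb P LL K ≤ ∑ J ∈ bg LL K, (tset LL K J).card := by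
    have e1 : ∀ J ∈ bg LL K, (tset LL K J).card = ∑ x ∈ P, if x ∈ tset LL K J then 1 else 0 := by
      intro J hJ
      have hJL : J ∈ LL := (Finset.mem_filter.mp hJ).1
      rw [← Finset.sum_filter, Finset.sum_const, smul_eq_mul, mul_one]
      congr 1
      ext w
      rw [Finset.mem_filter]
      refine ⟨fun hw => ⟨h.sub J hJL (Finset.mem_filter.1 hw).1, hw⟩, fun hw => hw.2⟩
    rw [Finset.sum_congr rfl e1, Finset.sum_comm]
    have e2 : 2 * bb P LL K = ∑ x ∈ P.filter (fun x => 2 ≤ ((bg LL K).filter (fun J => x ∈ J)).card), 2 := by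
      rw [Finset.sum_const, smul_eq_mul, mul_comm]
      rfl
    rw [e2]
    refine (Finset.sum_le_sum ?_).trans (Finset.sum_le_sum_of_subset (Finset.filter_subset _ _))
    intro x hx
    rw [Finset.mem_filter] at hx
    rw [← Finset.sum_filter, Finset.sum_const, smul_eq_mul, mul_one]
    refine hx.2.trans (Finset.card_le_card ?_)
    intro J hJ
    obtain ⟨J', hJ', hne⟩ := Finset.exists_mem_ne (s := (bg LL K).filter (fun J => x ∈ J)) (by omega) J
    rw [Finset.mem_filter] at hJ hJ' ⊢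
    refine ⟨hJ.1, ?_⟩
    unfold tset
    rw [Finset.mem_filter]
    exact ⟨hJ.2, J', hJ'.1, hJ'.2, hne⟩
  have hs2 : ∑ J ∈ bg LL K, (tset LL K J).card ^ 2 ≤
      (bg LL K).card ^ 2 + ∑ J ∈ bg LL K, (tset LL K J).card := by
    have e1 : ∀ J ∈ bg LL K, (tset LL K J).card ^ 2 = ((tset LL K J).offDiag).card + (tset LL K J).card := by
      intro J _
      rw [Finset.offDiag_card, sq, Nat.sub_add_cancel (Nat.le_mul_self _)]
    rw [Finset.sum_congr rfl e1, Finset.sum_add_distrib]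
    refine Nat.add_le_add_right ?_ _
    refine le_trans (Finset.sum_le_sum_of_subset (Finset.filter_subset _ _)) (cnt_pairs h hP)
  have hs3 : (∑ J ∈ bg LL K, (tset LL K J).card) ^ 2 ≤
      (bg LL K).card * ∑ J ∈ bg LL K, (tset LL K J).card ^ 2 := sq_sum_le_card_mul_sum_sq
  obtain ⟨n, hn⟩ : ∃ n, n = (bg LL K).card := ⟨_, rfl⟩
  obtain ⟨b, hb⟩ : ∃ b, b = bb P LL K := ⟨_, rfl⟩
  obtain ⟨t, ht⟩ : ∃ t, t = ∑ J ∈ bg LL K, (tset LL K J).card := ⟨_, rfl⟩
  obtain ⟨q, hq⟩ : ∃ q, q = ∑ J ∈ bg LL K, (tset LL K J).card ^ 2 := ⟨_, rfl⟩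
  rw [← hb, ← ht] at hs1
  rw [← hn, ← ht, ← hq] at hs2
  rw [← hn, ← ht, ← hq] at hs3
  rw [← hb, ← hn]
  rcases Nat.lt_or_ge n b with hc | hc
  · have h1 : t ^ 2 ≤ n ^ 3 + n * t := by
      calc t ^ 2 ≤ n * q := hs3
        _ ≤ n * (n ^ 2 + t) := Nat.mul_le_mul_left _ hs2
        _ = n ^ 3 + n * t := by ring
    have h2 : 2 * (n * t) ≤ t ^ 2 := by nlinarith
    have h3 : (2 * b) ^ 2 ≤ t ^ 2 := Nat.pow_le_pow_left hs1 2
    have h4 : (2 * b) ^ 2 = 4 * b ^ 2 := by ring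
    omega
  · rcases Nat.eq_zero_or_pos n with h0 | h0
    · subst h0
      have : b = 0 := by omega
      subst this
      simp
    · calc b ^ 2 ≤ n ^ 2 := Nat.pow_le_pow_left hc 2
        _ ≤ n ^ 3 := Nat.pow_le_pow_right h0 (by norm_num)

end Pool.Agent.Helper17.SCD
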