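import Mathlib
import Pool.Agent.Helper17.SCD.HalfDefs
import Pool.Agent.Helper17.SCD.Clq
import Pool.Agent.Helper17.SCD.BigRow

set_option autoImplicit false

open scoped Classical

namespace Pool.Agent.Helper17.SCD

/-
SCD-HalfBig (0.5 h). Plan: sum over the standard basis u = EuclideanSpace.single i 1 of bessel: sum_J ‖cen J‖² ≤ c3 2 * d = 42 d
(‖c‖² = sum_i <c, e_i>²: OrthonormalBasis.sum_sq_norm_inner_right or EuclideanSpace.norm_sq_eq); ‖cen J‖² = 1/2 + (1/2)/|J| ≥ 1/2 (clq_norm;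
J in LL is nonempty by h.two, h.unit, h.adj).
sum_big: sum_{J in bg} |J| = sum_{x in P} #{J in bg : x in J}; by h.big and h.sys.deg the number is 1 or 2, it is 2 exactly for the points counted by bb.
-/
theorem nbig_le {d : ℕ} {K : ℕ} {P : Finset (EuclideanSpace ℝ (Fin d))}
    {LL : Finset (Finset (EuclideanSpace ℝ (Fin d)))} (hK : 1 ≤ K)
    (h : LineSys (1 / 2) 2 P LL) (hlt : ∀ L ∈ LL, L.card < 2 * K) : (bg LL K).card ≤ 84 * d := by
  have h1 : ∀ i : Fin d, ∑ J ∈ bg LL K,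
      (inner ℝ (cen (fun y => y) J) (EuclideanSpace.single i (1 : ℝ)) : ℝ) ^ 2 ≤ 42 := by
    intro i
    have h2 := bessel (by norm_num) (by norm_num) hK h hlt (EuclideanSpace.single i (1 : ℝ))
    have h3 : ‖EuclideanSpace.single i (1 : ℝ)‖ = 1 := by
      simp
    rw [h3] at h2
    unfold c3 at h2
    push_cast at h2
    linarith
  have h2 : ∀ J ∈ bg LL K, (1 / 2 : ℝ) ≤ ‖cen (fun y => y) J‖ ^ 2 := by
    intro J hJ
    have hJL : J ∈ LL := (Finset.mem_filter.1 hJ).1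
    have hne : J.Nonempty := Finset.card_pos.1 (lt_of_lt_of_le (by norm_num) (h.two J hJL))
    rw [clq_norm J hne (fun x hx => h.unit x (h.sub J hJL hx)) (h.adj J hJL)]
    have h3 : (0 : ℝ) ≤ (1 - 1 / 2) / (J.card : ℝ) := by positivity
    linarith
  have h3 : ∀ v : EuclideanSpace ℝ (Fin d), ‖v‖ ^ 2 =
      ∑ i : Fin d, (inner ℝ v (EuclideanSpace.single i (1 : ℝ)) : ℝ) ^ 2 := by
    intro v
    rw [EuclideanSpace.norm_sq_eq]
    refine Finset.sum_congr rfl fun i _ => ?_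
    rw [EuclideanSpace.inner_single_right, Real.norm_eq_abs, sq_abs]
    simp
  have h4 : ((bg LL K).card : ℝ) * (1 / 2) ≤ 42 * d := by
    calc ((bg LL K).card : ℝ) * (1 / 2) = ∑ _J ∈ bg LL K, (1 / 2 : ℝ) := by
          rw [Finset.sum_const, nsmul_eq_mul]
      _ ≤ ∑ J ∈ bg LL K, ‖cen (fun y => y) J‖ ^ 2 := Finset.sum_le_sum h2
      _ = ∑ i : Fin d, ∑ J ∈ bg LL K,
          (inner ℝ (cen (fun y => y) J) (EuclideanSpace.single i (1 : ℝ)) : ℝ) ^ 2 := by
          rw [Finset.sum_comm]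
          exact Finset.sum_congr rfl fun J _ => h3 _
      _ ≤ ∑ _i : Fin d, (42 : ℝ) := Finset.sum_le_sum fun i _ => h1 i
      _ = 42 * d := by
          rw [Finset.sum_const, Finset.card_univ, Fintype.card_fin, nsmul_eq_mul, mul_comm]
  have h5 : ((bg LL K).card : ℝ) ≤ ((84 * d : ℕ) : ℝ) := by
    push_cast
    linarith
  exact_mod_cast h5

theorem sum_big {d : ℕ} {K : ℕ} {P : Finset (EuclideanSpace ℝ (Fin d))}
    {LL : Finset (Finset (EuclideanSpace ℝ (Fin d)))} (h : Cls (1 / 2) 2 K P LL) :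
    ∑ J ∈ bg LL K, J.card = P.card + bb P LL K := by
  have h1 : ∑ J ∈ bg LL K, J.card =
      ∑ x ∈ P, ((bg LL K).filter (fun J => x ∈ J)).card := by
    have h2 : ∀ J ∈ bg LL K, J.card = ∑ x ∈ P, if x ∈ J then 1 else 0 := by
      intro J hJ
      have hJP : J ⊆ P := h.sys.sub J (Finset.mem_filter.1 hJ).1
      rw [← Finset.card_filter, Finset.filter_mem_eq_inter, Finset.inter_eq_right.2 hJP]
    rw [Finset.sum_congr rfl h2, Finset.sum_comm]
    refine Finset.sum_congr rfl fun x _ => ?_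
    rw [Finset.card_filter]
  rw [h1]
  unfold bb
  rw [Finset.card_filter, Finset.card_eq_sum_ones, ← Finset.sum_add_distrib]
  refine Finset.sum_congr rfl fun x hx => ?_
  have h3 : ((bg LL K).filter (fun J => x ∈ J)).card ≤ 2 := by
    refine le_trans (Finset.card_le_card ?_) (h.sys.deg x hx)
    exact Finset.filter_subset_filter _ (Finset.filter_subset _ _)
  have h4 : 1 ≤ ((bg LL K).filter (fun J => x ∈ J)).card := by
    obtain ⟨L, hL, hxL, hKL⟩ := h.big x hx
    refine Finset.card_pos.2 ⟨L, ?_⟩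
    exact Finset.mem_filter.2 ⟨Finset.mem_filter.2 ⟨hL, hKL⟩, hxL⟩
  by_cases h5 : 2 ≤ ((bg LL K).filter (fun J => x ∈ J)).card
  · rw [if_pos h5]
    omega
  · rw [if_neg h5]
    omega

end Pool.Agent.Helper17.SCD
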