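import Mathlib
import Pool.Agent.Helper17.SCD.H1
import Pool.Agent.Helper17.SCD.HalfC4
import Pool.Agent.Helper49.Sph.C2

set_option autoImplicit false

open scoped Classical

namespace Pool.Agent.Helper17.SCD

/-
SCD-HalfCub (0.8 h). Plan: Z(x,y) = <rr x, rr y>, |Z| ≤ (1+2)² = 9 (rr_norm), n = (bg LL K).card, N = P.card.
small_pairs: a pair x ≠ y on a common line L with |L| < K; in the class every point of L is on a big line (h.big), which is ≠ L, so tset LL K L = L;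
these pairs are contained in the union over L in LL of (tset LL K L).offDiag: their number is ≤ n² (cnt_pairs).
half_cubes: sum Z³ ≥ 0 (Pool.Agent.Helper49.Sph.tensor3 with x = ρ = rr), |Z|³ = 2 max(Z,0)³ - Z³, so
sum |Z|³ ≤ 2 sum max(Z,0)³ ≤ 2 (sum over x ≠ y not sm: ≤ C N by h_one 2) + 2 * 729 (N + n²).
-/
theorem small_pairs {d : ℕ} {K : ℕ} {P : Finset (EuclideanSpace ℝ (Fin d))}
    {LL : Finset (Finset (EuclideanSpace ℝ (Fin d)))} (h : Cls (1 / 2) 2 K P LL) (hP : Code (1 / 2) P) :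
    ((P ×ˢ P).filter (fun p => sm LL K p.1 p.2)).card ≤ (bg LL K).card ^ 2 := by
  have hsub : (P ×ˢ P).filter (fun p => sm LL K p.1 p.2) ⊆
      LL.biUnion (fun L => (tset LL K L).offDiag) := by
    rintro ⟨x, y⟩ hxy
    rw [Finset.mem_filter, Finset.mem_product] at hxy
    obtain ⟨⟨hx, hy⟩, hne, L, hL, hLK, hxL, hyL⟩ := hxy
    rw [Finset.mem_biUnion]
    refine ⟨L, hL, ?_⟩
    rw [Finset.mem_offDiag]
    have key : ∀ z ∈ P, z ∈ L → z ∈ tset LL K L := by
      intro z hz hzL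
      obtain ⟨J, hJ, hzJ, hKJ⟩ := h.big z hz
      unfold tset
      rw [Finset.mem_filter]
      refine ⟨hzL, J, ?_, hzJ, ?_⟩
      · unfold bg
        rw [Finset.mem_filter]
        exact ⟨hJ, hKJ⟩
      · rintro rfl
        omega
    exact ⟨key x hx hxL, key y hy hyL, hne⟩
  exact (Finset.card_le_card hsub).trans (Finset.card_biUnion_le.trans (cnt_pairs h.sys hP))

theorem half_cubes : ∃ C : ℝ, 0 < C ∧
    ∀ {d : ℕ} {K : ℕ} {P : Finset (EuclideanSpace ℝ (Fin d))}
    {LL : Finset (Finset (EuclideanSpace ℝ (Fin d)))}, 1 ≤ K → Cls (1 / 2) 2 K P LL → Code (1 / 2) P →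
    ∑ x ∈ P, ∑ y ∈ P, |(inner ℝ (rr LL K x) (rr LL K y) : ℝ)| ^ 3 ≤
      C * ((P.card : ℝ) + ((bg LL K).card : ℝ) ^ 2) := by
  obtain ⟨C, hC, hone⟩ := h_one 2
  refine ⟨2 * C + 1458, by positivity, ?_⟩
  intro d K P LL hK h hP
  have h1 := hone (d := d) (α := 1 / 2) (K := K) (P := P) (LL := LL) (by norm_num) (by norm_num)
    hK h.sys h.lt
  have hpairs := small_pairs h hP
  set Z : EuclideanSpace ℝ (Fin d) → EuclideanSpace ℝ (Fin d) → ℝ :=
    fun x y => (inner ℝ (rr LL K x) (rr LL K y) : ℝ) with hZ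
  have h1' : ∑ x ∈ P, ∑ y ∈ P.filter (fun y => x ≠ y ∧ ¬ sm LL K x y), (max (Z x y) 0) ^ 3 ≤
      C * P.card := h1
  have habs : ∀ t : ℝ, |t| ^ 3 = 2 * (max t 0) ^ 3 - t ^ 3 := by
    intro t
    rcases le_total 0 t with ht | ht
    · rw [abs_of_nonneg ht, max_eq_left ht]
      ring
    · rw [abs_of_nonpos ht, max_eq_right ht]
      ring
  have hZ3 : 0 ≤ ∑ x ∈ P, ∑ y ∈ P, (Z x y) ^ 3 := by
    have h2 := Pool.Agent.Helper49.Sph.tensor3 P (fun x => rr LL K x) (fun x => rr LL K x)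
    refine h2.trans (le_of_eq ?_)
    apply Finset.sum_congr rfl
    intro x _
    apply Finset.sum_congr rfl
    intro y _
    simp only [hZ]
    ring
  have hsum : ∑ x ∈ P, ∑ y ∈ P, |Z x y| ^ 3 =
      2 * (∑ x ∈ P, ∑ y ∈ P, (max (Z x y) 0) ^ 3) - ∑ x ∈ P, ∑ y ∈ P, (Z x y) ^ 3 := by
    rw [Finset.mul_sum, ← Finset.sum_sub_distrib]
    apply Finset.sum_congr rfl
    intro x _
    rw [Finset.mul_sum, ← Finset.sum_sub_distrib]
    apply Finset.sum_congr rfl
    intro y _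
    exact habs _
  have hbound : ∀ x ∈ P, ∀ y ∈ P, (max (Z x y) 0) ^ 3 ≤ 729 := by
    intro x hx y hy
    have a1 := rr_norm (K := K) h.sys x hx
    have a2 := rr_norm (K := K) h.sys y hy
    have a3 : Z x y ≤ 9 := by
      refine (real_inner_le_norm _ _).trans ?_
      have a4 : ‖rr LL K x‖ ≤ 3 := by
        refine a1.trans ?_
        norm_num
      have a5 : ‖rr LL K y‖ ≤ 3 := by
        refine a2.trans ?_
        norm_num
      calc ‖rr LL K x‖ * ‖rr LL K y‖ ≤ 3 * 3 := mul_le_mul a4 a5 (norm_nonneg _) (by norm_num)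
        _ = 9 := by norm_num
    have a6 : max (Z x y) 0 ≤ 9 := max_le a3 (by norm_num)
    calc (max (Z x y) 0) ^ 3 ≤ 9 ^ 3 := pow_le_pow_left₀ (le_max_right _ _) a6 3
      _ = 729 := by norm_num
  have hcount : ∑ x ∈ P, ((P.filter (fun y => ¬ (x ≠ y ∧ ¬ sm LL K x y))).card : ℝ) ≤
      (P.card : ℝ) + ((bg LL K).card : ℝ) ^ 2 := by
    have h3 : ∀ x ∈ P, (P.filter (fun y => ¬ (x ≠ y ∧ ¬ sm LL K x y))).card ≤
        1 + (P.filter (fun y => sm LL K x y)).card := by
      intro x _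
      have h4 : P.filter (fun y => ¬ (x ≠ y ∧ ¬ sm LL K x y)) ⊆
          {x} ∪ P.filter (fun y => sm LL K x y) := by
        intro y hy
        rw [Finset.mem_filter] at hy
        rw [Finset.mem_union, Finset.mem_singleton, Finset.mem_filter]
        by_cases hxy : x = y
        · exact Or.inl hxy.symm
        · right
          refine ⟨hy.1, ?_⟩
          by_contra hsm
          exact hy.2 ⟨hxy, hsm⟩
      refine (Finset.card_le_card h4).trans ((Finset.card_union_le _ _).trans ?_)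
      rw [Finset.card_singleton]
    have h5 : ∑ x ∈ P, (P.filter (fun y => sm LL K x y)).card =
        ((P ×ˢ P).filter (fun p => sm LL K p.1 p.2)).card := by
      rw [Finset.card_filter, Finset.sum_product]
      apply Finset.sum_congr rfl
      intro x _
      rw [Finset.card_filter]
    have h6 : ∑ x ∈ P, (P.filter (fun y => ¬ (x ≠ y ∧ ¬ sm LL K x y))).card ≤
        P.card + (bg LL K).card ^ 2 := by
      refine (Finset.sum_le_sum h3).trans ?_
      rw [Finset.sum_add_distrib, h5, Finset.sum_const, smul_eq_mul, mul_one]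
      exact Nat.add_le_add_left hpairs _
    exact_mod_cast h6
  have hsplit : ∑ x ∈ P, ∑ y ∈ P, (max (Z x y) 0) ^ 3 ≤
      C * P.card + 729 * ((P.card : ℝ) + ((bg LL K).card : ℝ) ^ 2) := by
    have h7 : ∀ x ∈ P, ∑ y ∈ P, (max (Z x y) 0) ^ 3 ≤
        ∑ y ∈ P.filter (fun y => x ≠ y ∧ ¬ sm LL K x y), (max (Z x y) 0) ^ 3 +
          729 * ((P.filter (fun y => ¬ (x ≠ y ∧ ¬ sm LL K x y))).card : ℝ) := by
      intro x hx
      rw [← Finset.sum_filter_add_sum_filter_not P (fun y => x ≠ y ∧ ¬ sm LL K x y)]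
      refine add_le_add le_rfl ?_
      refine (Finset.sum_le_card_nsmul _ _ 729 ?_).trans ?_
      · intro y hy
        exact hbound x hx y (Finset.mem_filter.1 hy).1
      · rw [nsmul_eq_mul, mul_comm]
    refine (Finset.sum_le_sum h7).trans ?_
    rw [Finset.sum_add_distrib, ← Finset.mul_sum]
    have h8 := mul_le_mul_of_nonneg_left hcount (show (0 : ℝ) ≤ 729 by norm_num)
    linarith
  have hN : (0 : ℝ) ≤ P.card := Nat.cast_nonneg _
  have hn2 : (0 : ℝ) ≤ ((bg LL K).card : ℝ) ^ 2 := by positivity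
  calc ∑ x ∈ P, ∑ y ∈ P, |Z x y| ^ 3 ≤ 2 * (∑ x ∈ P, ∑ y ∈ P, (max (Z x y) 0) ^ 3) := by
        rw [hsum]
        linarith
    _ ≤ 2 * (C * P.card + 729 * ((P.card : ℝ) + ((bg LL K).card : ℝ) ^ 2)) := by linarith
    _ ≤ (2 * C + 1458) * ((P.card : ℝ) + ((bg LL K).card : ℝ) ^ 2) := by nlinarith

end Pool.Agent.Helper17.SCD
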