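import Mathlib
import Pool.Agent.Helper17.SCD.HalfCub

set_option autoImplicit false

open scoped Classical

namespace Pool.Agent.Helper17.SCD

/-
SCD-HalfSq (0.6 h). Plan: Z = <rr x, rr y>, N = P.card, n = (bg LL K).card. N = 0: trivial. K n ≤ 2 N (num_big), so
K N (N + n²) ≤ K N² + 2 N² n ≤ 2 N² (K + n).
For s > 0: Z² ≤ (s |Z|³ + |Z|/s)/2 (fc_young in FromCubes is private, copy it), sum |Z| ≤ 9 * 10 * K N = 90 K N (Z_sum, m = 2), sum |Z|³ ≤ C (N + n²)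
(half_cubes). Take s = sqrt (K N/(N + n²)): sum Z² ≤ ((C + 90)/2) sqrt(K N (N + n²)) ≤ (C + 90) N sqrt(K + n).
(or: s = sqrt(K + n)/(..) directly: s = 1/ sqrt(K+n) * K N.../.. ; any choice is fine. Simplest: s := K / sqrt(2 (K + n)): then s (N + n²) ≤ ? :
K (N + n²) ≤ 2 N (K + n), so s (N + n²) ≤ sqrt 2 * N sqrt(K + n), and K N / s = N sqrt(2 (K + n)).)
-/
private theorem hsq_young (s z : ℝ) (hs : 0 < s) : z ^ 2 ≤ (s * |z| ^ 3 + s⁻¹ * |z|) / 2 := by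
  have h1 : 0 ≤ s⁻¹ * (|z| * (s * |z| - 1) ^ 2) := by positivity
  have h2 : s⁻¹ * (|z| * (s * |z| - 1) ^ 2) = s * |z| ^ 3 + s⁻¹ * |z| - 2 * |z| ^ 2 := by
    field_simp
    ring
  have h3 : |z| ^ 2 = z ^ 2 := sq_abs z
  linarith

theorem half_sq : ∃ C : ℝ, 0 < C ∧
    ∀ {d : ℕ} {K : ℕ} {P : Finset (EuclideanSpace ℝ (Fin d))}
    {LL : Finset (Finset (EuclideanSpace ℝ (Fin d)))}, 1 ≤ K → Cls (1 / 2) 2 K P LL → Code (1 / 2) P →
    ∑ x ∈ P, ∑ y ∈ P, (inner ℝ (rr LL K x) (rr LL K y) : ℝ) ^ 2 ≤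
      C * P.card * Real.sqrt (K + (bg LL K).card) := by
  obtain ⟨C0, hC0, hcub⟩ := half_cubes
  refine ⟨C0 + 45, by positivity, ?_⟩
  intro d K P LL hK h hP
  have hK' : (0 : ℝ) < K := by exact_mod_cast hK
  obtain ⟨n, hn⟩ : ∃ n : ℝ, n = ((bg LL K).card : ℝ) := ⟨_, rfl⟩
  obtain ⟨N, hN⟩ : ∃ N : ℝ, N = (P.card : ℝ) := ⟨_, rfl⟩
  have hn0 : 0 ≤ n := by rw [hn]; exact Nat.cast_nonneg _
  have hN0 : 0 ≤ N := by rw [hN]; exact Nat.cast_nonneg _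
  obtain ⟨q, hq⟩ : ∃ q : ℝ, q = Real.sqrt (K + n) := ⟨_, rfl⟩
  have hqpos : 0 < q := by rw [hq]; exact Real.sqrt_pos.mpr (by positivity)
  have hq2 : q ^ 2 = K + n := by rw [hq]; exact Real.sq_sqrt (by positivity)
  have hcub' := hcub hK h hP
  rw [← hn, ← hN] at hcub'
  rw [← hn, ← hN, ← hq]
  have hnum : (K : ℝ) * n ≤ 2 * N := by
    have := num_big (K := K) h.sys
    rw [hn, hN]
    exact_mod_cast this
  have hZ : ∑ x ∈ P, ∑ y ∈ P, |(inner ℝ (rr LL K x) (rr LL K y) : ℝ)| ≤ 90 * K * N := by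
    have e := Z_sum (by norm_num) (by norm_num) hK h.sys h.lt
    rw [← hN] at e
    refine e.trans (le_of_eq ?_)
    push_cast
    ring
  have hkey : (K : ℝ) * (N + n ^ 2) ≤ 2 * N * q ^ 2 := by
    rw [hq2]
    have e1 : (K : ℝ) * n * n ≤ 2 * N * n := mul_le_mul_of_nonneg_right hnum hn0
    have e2 : 0 ≤ N * K := by positivity
    nlinarith
  have hspos : 0 < (K : ℝ) / q := by positivity
  have hA : (K : ℝ) / q * (C0 * (N + n ^ 2)) ≤ 2 * C0 * N * q := by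
    rw [div_mul_eq_mul_div, div_le_iff₀ hqpos]
    calc (K : ℝ) * (C0 * (N + n ^ 2)) = C0 * (K * (N + n ^ 2)) := by ring
      _ ≤ C0 * (2 * N * q ^ 2) := by gcongr
      _ = _ := by ring
  have hB : ((K : ℝ) / q)⁻¹ * (90 * K * N) = 90 * N * q := by
    rw [inv_div]
    field_simp
  calc ∑ x ∈ P, ∑ y ∈ P, (inner ℝ (rr LL K x) (rr LL K y) : ℝ) ^ 2
      ≤ ∑ x ∈ P, ∑ y ∈ P, ((K : ℝ) / q * |(inner ℝ (rr LL K x) (rr LL K y) : ℝ)| ^ 3 +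
          ((K : ℝ) / q)⁻¹ * |(inner ℝ (rr LL K x) (rr LL K y) : ℝ)|) / 2 := by
        refine Finset.sum_le_sum (fun x _ => Finset.sum_le_sum (fun y _ => ?_))
        exact hsq_young _ _ hspos
    _ = ((K : ℝ) / q * ∑ x ∈ P, ∑ y ∈ P, |(inner ℝ (rr LL K x) (rr LL K y) : ℝ)| ^ 3 +
          ((K : ℝ) / q)⁻¹ * ∑ x ∈ P, ∑ y ∈ P, |(inner ℝ (rr LL K x) (rr LL K y) : ℝ)|) / 2 := by
        simp only [Finset.mul_sum, ← Finset.sum_div, Finset.sum_add_distrib]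
    _ ≤ ((K : ℝ) / q * (C0 * (N + n ^ 2)) + ((K : ℝ) / q)⁻¹ * (90 * K * N)) / 2 := by
        gcongr
    _ ≤ (2 * C0 * N * q + 90 * N * q) / 2 := by
        rw [hB]
        gcongr
    _ = (C0 + 45) * N * q := by ring

end Pool.Agent.Helper17.SCD
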