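import Mathlib
import Pool.Agent.Helper17.SCD.HalfBig

set_option autoImplicit false

open scoped Classical

namespace Pool.Agent.Helper17.SCD

/-
SCD-HalfTr (0.4 h). Plan: <rr x, x> = 1 - sum_{J in bg, x in J} <cen J, x>; sum over x in P, exchange: N - sum_{J in bg} sum_{x in J} <x, cen J> =
N - sum_J |J| (1/2 + (1/2)/|J|) (clq_inner; J ⊆ P, nonempty) = N - (1/2) sum_J |J| - n/2, and sum_big. (Equality holds; similar computations are in
Trace.lean.)
-/
private theorem ht_swap_sum {d : ℕ} (P : Finset (EuclideanSpace ℝ (Fin d)))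
    (F : Finset (Finset (EuclideanSpace ℝ (Fin d)))) (hF : ∀ J ∈ F, J ⊆ P)
    (g : Finset (EuclideanSpace ℝ (Fin d)) → EuclideanSpace ℝ (Fin d) → ℝ) :
    ∑ x ∈ P, ∑ J ∈ F.filter (fun L => x ∈ L), g J x = ∑ J ∈ F, ∑ x ∈ J, g J x := by
  have h1 : ∀ x ∈ P, ∑ J ∈ F.filter (fun L => x ∈ L), g J x =
      ∑ J ∈ F, if x ∈ J then g J x else 0 := fun x _ => Finset.sum_filter _ _
  rw [Finset.sum_congr rfl h1, Finset.sum_comm]
  apply Finset.sum_congr rfl
  intro J hJ
  rw [← Finset.sum_filter, Finset.filter_mem_eq_inter, Finset.inter_eq_right.2 (hF J hJ)]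

private theorem ht_sb_inner {d : ℕ} (w : EuclideanSpace ℝ (Fin d) → EuclideanSpace ℝ (Fin d))
    (F : Finset (Finset (EuclideanSpace ℝ (Fin d)))) (x u : EuclideanSpace ℝ (Fin d)) :
    (inner ℝ (sb w F x) u : ℝ) = (inner ℝ (w x) u : ℝ) -
      ∑ J ∈ F.filter (fun L => x ∈ L), (inner ℝ (cen w J) u : ℝ) := by
  unfold sb
  rw [inner_sub_left, sum_inner]

theorem half_trace {d : ℕ} {K : ℕ} {P : Finset (EuclideanSpace ℝ (Fin d))}
    {LL : Finset (Finset (EuclideanSpace ℝ (Fin d)))} (h : Cls (1 / 2) 2 K P LL) :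
    ((P.card : ℝ) - bb P LL K - (bg LL K).card) / 2 ≤ ∑ x ∈ P, (inner ℝ (rr LL K x) x : ℝ) := by
  have hbsub : ∀ J ∈ bg LL K, J ⊆ P := by
    intro J hJ
    unfold bg at hJ
    exact h.sys.sub J (Finset.mem_filter.1 hJ).1
  have e1 : ∑ x ∈ P, (inner ℝ (rr LL K x) x : ℝ) =
      P.card - ∑ J ∈ bg LL K, ∑ x ∈ J, (inner ℝ (cen (fun y => y) J) x : ℝ) := by
    have e2 : ∀ x ∈ P, (inner ℝ (rr LL K x) x : ℝ) = 1 -
        ∑ J ∈ (bg LL K).filter (fun L => x ∈ L), (inner ℝ (cen (fun y => y) J) x : ℝ) := by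
      intro x hx
      unfold rr
      rw [ht_sb_inner, real_inner_self_eq_norm_sq, h.sys.unit x hx]
      norm_num
    rw [Finset.sum_congr rfl e2, Finset.sum_sub_distrib, ht_swap_sum P _ hbsub]
    simp
  have b1 : ∀ J ∈ bg LL K, ∑ x ∈ J, (inner ℝ (cen (fun y => y) J) x : ℝ) =
      (J.card : ℝ) / 2 + 1 / 2 := by
    intro J hJ
    have hJsub := hbsub J hJ
    unfold bg at hJ
    rw [Finset.mem_filter] at hJ
    have hJ2 := h.sys.two J hJ.1
    have hJ0 : (0 : ℝ) < J.card := by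
      have : 0 < J.card := by omega
      exact_mod_cast this
    have h2 : ∀ x ∈ J, (inner ℝ (cen (fun y => y) J) x : ℝ) = 1 / 2 + (1 - 1 / 2) / J.card := by
      intro x hx
      rw [real_inner_comm]
      exact clq_inner J (fun y hy => h.sys.unit y (hJsub hy)) (h.sys.adj J hJ.1) x hx
    rw [Finset.sum_congr rfl h2, Finset.sum_const, nsmul_eq_mul]
    field_simp
    ring
  have b2 : ∑ J ∈ bg LL K, ∑ x ∈ J, (inner ℝ (cen (fun y => y) J) x : ℝ) =
      ((P.card : ℝ) + bb P LL K) / 2 + ((bg LL K).card : ℝ) / 2 := by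
    rw [Finset.sum_congr rfl b1, Finset.sum_add_distrib, ← Finset.sum_div, Finset.sum_const,
      nsmul_eq_mul]
    have h3 : ∑ J ∈ bg LL K, (J.card : ℝ) = (P.card : ℝ) + bb P LL K := by
      have := sum_big h
      exact_mod_cast this
    rw [h3]
    ring
  rw [e1, b2]
  linarith

end Pool.Agent.Helper17.SCD
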