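import Mathlib
import Pool.Agent.Helper17.SCD.HalfBig
import Pool.Agent.Helper17.SCD.HalfB
import Pool.Agent.Helper17.SCD.HalfTr
import Pool.Agent.Helper17.SCD.HalfSq
import Pool.Agent.Helper49.Sph.C2

set_option autoImplicit false

open scoped Classical

namespace Pool.Agent.Helper17.SCD

/-
SCD-HalfCls (0.8 h). Plan: N = P.card (N = 0 trivial), b = bb P LL K, n = (bg LL K).card ≤ 84 d (nbig_le), K n ≤ 2 N (num_big), b² ≤ n³ (bb_sq).
(1) 2 b ≤ N: otherwise N < 2b, K n ≤ 2 N < 4 b, so K² n² < 16 b² ≤ 16 n³, n > 0 (b > 0, b² ≤ n³), K² < 16 n ≤ 1344 d: contradiction to hKd.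
(2) n ≤ 2 N/K ≤ N/4 (K ≥ 8); half_trace: sum <rr x, x> ≥ (N - b - n)/2 ≥ (N/2 - N/4)/2 = N/8.
(3) N/8 ≤ sum <rr x, x> ≤ sqrt(sum ‖rr x‖²) sqrt N (Cauchy-Schwarz, ‖x‖ = 1), so sum ‖rr x‖² ≥ N/64; tensor2 (x = ρ = rr):
(N/64)² ≤ (sum ‖rr x‖²)² ≤ d sum Z² ≤ d C1 N sqrt(K + n) (half_sq): N ≤ 4096 C1 d sqrt(K + n).
(4) sqrt(K + n) ≤ sqrt K + sqrt n, n ≤ 2N/K, with E = 4096 C1: N ≤ E d sqrt K + E d sqrt(2N/K), and E d sqrt(2 N/K) ≤ N/2 + E² d²/K (2 a c ≤ a² + c²).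
So N ≤ 2 E d sqrt K + 2 E² d²/K.
-/
theorem half_class : ∃ C : ℝ, 0 < C ∧
    ∀ {d : ℕ} {K : ℕ} {P : Finset (EuclideanSpace ℝ (Fin d))}
    {LL : Finset (Finset (EuclideanSpace ℝ (Fin d)))}, 8 ≤ K → 1344 * d ≤ K ^ 2 →
    Cls (1 / 2) 2 K P LL → Code (1 / 2) P →
    (P.card : ℝ) ≤ C * (d * Real.sqrt K + (d : ℝ) ^ 2 / K) := by
  obtain ⟨C1, hC1, hsq⟩ := half_sq
  set E : ℝ := 4096 * C1 with hE
  have hE0 : 0 < E := by positivity
  refine ⟨2 * E + 2 * E ^ 2, by positivity, ?_⟩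
  intro d K P LL hK hKd hcls hcode
  set n : ℕ := (bg LL K).card with hn
  set b : ℕ := bb P LL K with hb
  have hnum : K * n ≤ 2 * P.card := num_big (K := K) hcls.sys
  have hnle : n ≤ 84 * d := nbig_le (by omega) hcls.sys hcls.lt
  have hbsq : b ^ 2 ≤ n ^ 3 := bb_sq (K := K) hcls.sys hcode
  have hb2 : 2 * b ≤ P.card := by
    by_contra hcon
    push Not at hcon
    have h1 : K * n < 4 * b := by omega
    have hn0 : 0 < n := by
      rcases Nat.eq_zero_or_pos n with h0 | h0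
      · rw [h0] at hbsq
        have : b = 0 := by
          rcases Nat.eq_zero_or_pos b with h2 | h2
          · exact h2
          · have : 0 < b ^ 2 := by positivity
            omega
        omega
      · exact h0
    have h2 : (K * n) ^ 2 < (4 * b) ^ 2 := Nat.pow_lt_pow_left h1 (by norm_num)
    have h3 : K ^ 2 * n ^ 2 < 16 * n * n ^ 2 := by nlinarith
    have h4 : K ^ 2 < 16 * n := lt_of_mul_lt_mul_right h3 (Nat.zero_le _)
    omega
  have hn4 : 4 * n ≤ P.card := by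
    have : 8 * n ≤ K * n := Nat.mul_le_mul_right n hK
    omega
  have hKR : (0 : ℝ) < K := by exact_mod_cast (by omega : 0 < K)
  rcases Nat.eq_zero_or_pos P.card with hP0 | hP0
  · rw [hP0]
    push_cast
    positivity
  have hN : (0 : ℝ) < P.card := by exact_mod_cast hP0
  set N : ℝ := (P.card : ℝ) with hNdef
  have hb2' : 2 * (b : ℝ) ≤ N := by rw [hNdef]; exact_mod_cast hb2
  have hn4' : 4 * (n : ℝ) ≤ N := by rw [hNdef]; exact_mod_cast hn4
  have htr := half_trace (K := K) hcls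
  rw [← hn, ← hb, ← hNdef] at htr
  have htr2 : N / 8 ≤ ∑ x ∈ P, (inner ℝ (rr LL K x) x : ℝ) := by linarith
  have hcs1 : ∑ x ∈ P, (inner ℝ (rr LL K x) x : ℝ) ≤ ∑ x ∈ P, ‖rr LL K x‖ := by
    apply Finset.sum_le_sum
    intro x hx
    have h1 := real_inner_le_norm (rr LL K x) x
    rw [hcls.sys.unit x hx, mul_one] at h1
    exact h1
  have hcs2 : (∑ x ∈ P, ‖rr LL K x‖) ^ 2 ≤ N * ∑ x ∈ P, ‖rr LL K x‖ ^ 2 :=
    sq_sum_le_card_mul_sum_sq
  set S : ℝ := ∑ x ∈ P, ‖rr LL K x‖ ^ 2 with hS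
  have hS1 : N / 64 ≤ S := by
    have h1 : (N / 8) ^ 2 ≤ (∑ x ∈ P, ‖rr LL K x‖) ^ 2 :=
      pow_le_pow_left₀ (by positivity) (htr2.trans hcs1) 2
    have h2 : N * (N / 64) ≤ N * S := by nlinarith
    exact le_of_mul_le_mul_left h2 hN
  have ht := Pool.Agent.Helper49.Sph.tensor2 P (rr LL K) (rr LL K)
  have ht1 : ∑ x ∈ P, (inner ℝ (rr LL K x) (rr LL K x) : ℝ) = S := by
    rw [hS]
    exact Finset.sum_congr rfl (fun x _ => real_inner_self_eq_norm_sq _)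
  have ht2 : ∑ x ∈ P, ∑ y ∈ P, (inner ℝ (rr LL K x) (rr LL K y) : ℝ) *
      inner ℝ (rr LL K x) (rr LL K y) =
      ∑ x ∈ P, ∑ y ∈ P, (inner ℝ (rr LL K x) (rr LL K y) : ℝ) ^ 2 := by
    refine Finset.sum_congr rfl (fun x _ => Finset.sum_congr rfl (fun y _ => ?_))
    ring
  rw [ht1, ht2] at ht
  have hq := hsq (d := d) (K := K) (P := P) (LL := LL) (by omega) hcls hcode
  rw [← hn, ← hNdef] at hq
  have hd0 : (0 : ℝ) ≤ d := Nat.cast_nonneg d
  have h5 : (N / 64) ^ 2 ≤ d * (C1 * N * Real.sqrt (K + n)) := by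
    calc (N / 64) ^ 2 ≤ S ^ 2 := pow_le_pow_left₀ (by positivity) hS1 2
      _ ≤ _ := ht
      _ ≤ _ := mul_le_mul_of_nonneg_left hq hd0
  have h6 : N ≤ E * d * Real.sqrt (K + n) := by
    have h7 : N * N ≤ N * (E * d * Real.sqrt (K + n)) := by
      rw [hE]
      nlinarith
    exact le_of_mul_le_mul_left h7 hN
  set s : ℝ := Real.sqrt (2 * N / K) with hs
  have hs0 : 0 ≤ s := Real.sqrt_nonneg _
  have hs2 : s ^ 2 = 2 * N / K := Real.sq_sqrt (by positivity)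
  have hsK : K * s ^ 2 = 2 * N := by rw [hs2]; field_simp
  have h8 : Real.sqrt (K + n) ≤ Real.sqrt K + s := by
    have h9 : (n : ℝ) ≤ 2 * N / K := by
      rw [le_div_iff₀ hKR]
      have : ((K * n : ℕ) : ℝ) ≤ ((2 * P.card : ℕ) : ℝ) := by exact_mod_cast hnum
      push_cast at this
      rw [← hNdef] at this
      linarith
    rw [Real.sqrt_le_left (by positivity)]
    have h10 : Real.sqrt K ^ 2 = K := Real.sq_sqrt hKR.le
    have h11 : 0 ≤ Real.sqrt K * s := by positivity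
    nlinarith
  have h12 : E * d * s ≤ N / 2 + E ^ 2 * (d ^ 2 / K) := by
    have h13 : 0 ≤ (K * s / 2 - E * d) ^ 2 / K := by positivity
    have h14 : (K * s / 2 - E * d) ^ 2 / K = K * s ^ 2 / 4 - E * d * s + E ^ 2 * (d ^ 2 / K) := by
      field_simp
      ring
    rw [h14, hsK] at h13
    linarith
  have h15 : N ≤ E * d * Real.sqrt K + E * d * s := by
    have : E * d * Real.sqrt (K + n) ≤ E * d * (Real.sqrt K + s) :=
      mul_le_mul_of_nonneg_left h8 (by positivity)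
    nlinarith
  have h16 : N ≤ 2 * E * (d * Real.sqrt K) + 2 * E ^ 2 * ((d : ℝ) ^ 2 / K) := by nlinarith
  have h17 : 0 ≤ (d : ℝ) * Real.sqrt K := by positivity
  have h18 : 0 ≤ (d : ℝ) ^ 2 / K := by positivity
  nlinarith [mul_nonneg (sq_nonneg E) h17, mul_nonneg hE0.le h18]

end Pool.Agent.Helper17.SCD
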