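import Mathlib
import Pool.Agent.Helper17.SCD.Restr

set_option autoImplicit false

open scoped Classical

namespace Pool.Agent.Helper17.SCD

private lemma HalfSplit_mem_rs {d : ℕ} {LL : Finset (Finset (EuclideanSpace ℝ (Fin d)))}
    {P' L' : Finset (EuclideanSpace ℝ (Fin d))} :
    L' ∈ rs LL P' ↔ (∃ L ∈ LL, L ∩ P' = L') ∧ 2 ≤ L'.card := by
  unfold rs
  simp only [Finset.mem_filter, Finset.mem_image]

theorem split_sub {d : ℕ} {α : ℝ} {m K : ℕ} {P : Finset (EuclideanSpace ℝ (Fin d))}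
    {LL : Finset (Finset (EuclideanSpace ℝ (Fin d)))} (h : LineSys α m P LL) (hK : 1 ≤ K)
    (hlt : ∀ L ∈ LL, L.card < 2 * K) :
    ∃ (P0 P1 : Finset (EuclideanSpace ℝ (Fin d))) (LL0 LL1 : Finset (Finset (EuclideanSpace ℝ (Fin d)))),
      P0 ⊆ P ∧ P1 ⊆ P ∧
      P.card = P0.card + P1.card ∧ LineSys α m P0 LL0 ∧ (∀ L ∈ LL0, L.card < K) ∧ Cls α m K P1 LL1 := by
  obtain ⟨P1, hP1⟩ : ∃ P1, P1 = (LL.filter (fun L => K ≤ L.card)).biUnion id := ⟨_, rfl⟩
  have hmem : ∀ L ∈ LL, K ≤ L.card → L ⊆ P1 := by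
    intro L hL hc
    rw [hP1]
    exact Finset.subset_biUnion_of_mem id (Finset.mem_filter.2 ⟨hL, hc⟩)
  have hsub : P1 ⊆ P := by
    rw [hP1]
    intro x hx
    simp only [Finset.mem_biUnion, Finset.mem_filter, id_eq] at hx
    obtain ⟨L, ⟨hL, _⟩, hxL⟩ := hx
    exact h.sub L hL hxL
  refine ⟨P \ P1, P1, rs LL (P \ P1), rs LL P1, Finset.sdiff_subset, hsub, ?_, restr_sys h _ Finset.sdiff_subset, ?_, ?_⟩
  · have := Finset.card_sdiff_add_card_eq_card hsub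
    omega
  · intro L hL
    obtain ⟨⟨L0, hL0, rfl⟩, h2⟩ := HalfSplit_mem_rs.1 hL
    by_contra hc
    have h1 : K ≤ L0.card := (not_lt.1 hc).trans (Finset.card_le_card Finset.inter_subset_left)
    have h3 := hmem L0 hL0 h1
    have h4 : L0 ∩ (P \ P1) = ∅ := by
      ext z
      simp only [Finset.mem_inter, Finset.mem_sdiff, Finset.notMem_empty, iff_false]
      rintro ⟨hz, _, hz2⟩
      exact hz2 (h3 hz)
    rw [h4] at h2
    simp at h2
  · refine ⟨restr_sys h _ hsub, ?_, ?_⟩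
    · intro L hL
      obtain ⟨⟨L0, hL0, rfl⟩, _⟩ := HalfSplit_mem_rs.1 hL
      exact (Finset.card_le_card Finset.inter_subset_left).trans_lt (hlt L0 hL0)
    · intro x hx
      have hx' := hx
      rw [hP1] at hx'
      simp only [Finset.mem_biUnion, Finset.mem_filter, id_eq] at hx'
      obtain ⟨L, ⟨hL, hc⟩, hxL⟩ := hx'
      have h3 : L ∩ P1 = L := Finset.inter_eq_left.2 (hmem L hL hc)
      exact ⟨L, HalfSplit_mem_rs.2 ⟨⟨L, hL, h3⟩, h.two L hL⟩, hxL, hc⟩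

end Pool.Agent.Helper17.SCD
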