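import Mathlib
import Pool.Agent.Helper17.SCD.HalfCls
import Pool.Agent.Helper17.SCD.HalfSplit
import Pool.Agent.Helper17.SCD.Peel
import Pool.Agent.Helper49.Sph.C1

set_option autoImplicit false

open scoped Classical

namespace Pool.Agent.Helper17.SCD

private lemma HalfPeel_code {d : ℕ} {α : ℝ} {S T : Finset (EuclideanSpace ℝ (Fin d))}
    (h : Code α S) (hs : T ⊆ S) : Code α T :=
  ⟨fun x hx => h.1 x (hs hx), fun x hx y hy hxy => h.2 x (hs hx) y (hs hy) hxy⟩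

private lemma HalfPeel_ind (C : ℝ)
    (hcls : ∀ {d : ℕ} {K : ℕ} {P : Finset (EuclideanSpace ℝ (Fin d))}
      {LL : Finset (Finset (EuclideanSpace ℝ (Fin d)))}, 8 ≤ K → 1344 * d ≤ K ^ 2 →
      Cls (1 / 2) 2 K P LL → Code (1 / 2) P →
      (P.card : ℝ) ≤ C * (d * Real.sqrt K + (d : ℝ) ^ 2 / K))
    {d K0 : ℕ} (hK8 : 8 ≤ K0) (hKd : 1344 * d ≤ K0 ^ 2) (j : ℕ) :
    ∀ {P : Finset (EuclideanSpace ℝ (Fin d))}
      {LL : Finset (Finset (EuclideanSpace ℝ (Fin d)))}, LineSys (1 / 2) 2 P LL → Code (1 / 2) P →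
      (∀ L ∈ LL, L.card < K0 * 2 ^ j) →
      (P.card : ℝ) ≤ 10 * K0 * d + C * (d * ∑ i ∈ Finset.range j, Real.sqrt ((K0 : ℝ) * 2 ^ i) +
        (d : ℝ) ^ 2 * ∑ i ∈ Finset.range j, ((K0 : ℝ) * 2 ^ i)⁻¹) := by
  induction j with
  | zero =>
    intro P LL h _ hlt
    rw [Finset.sum_range_zero, Finset.sum_range_zero, mul_zero, mul_zero, add_zero, mul_zero,
      add_zero]
    have h1 := base_bound (K := K0) (by norm_num) (by norm_num) (by omega) h (fun L hL => by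
      have := hlt L hL
      omega)
    refine h1.trans (le_of_eq ?_)
    push_cast
    ring
  | succ j ih =>
    intro P LL h hc hlt
    have h1 : 1 ≤ 2 ^ j := Nat.one_le_two_pow
    have hK : K0 ≤ K0 * 2 ^ j := Nat.le_mul_of_pos_right _ h1
    obtain ⟨P0, P1, LL0, LL1, hs0, hs1, hcard, hsys, hlt0, hcl⟩ := split_sub (K := K0 * 2 ^ j) h
      (by omega) (by
      intro L hL
      have := hlt L hL
      rw [pow_succ] at this
      calc L.card < K0 * (2 ^ j * 2) := this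
        _ = 2 * (K0 * 2 ^ j) := by ring)
    have h2 := ih hsys (HalfPeel_code hc hs0) hlt0
    have h3 := hcls (by omega) (hKd.trans (Nat.pow_le_pow_left hK 2)) hcl (HalfPeel_code hc hs1)
    rw [hcard, Nat.cast_add, Finset.sum_range_succ, Finset.sum_range_succ, mul_add, mul_add]
    push_cast at h3
    rw [div_eq_mul_inv] at h3
    nlinarith [h2, h3]

private lemma HalfPeel_sqrt (a : ℝ) (ha : 0 ≤ a) (j : ℕ) :
    ∑ i ∈ Finset.range j, Real.sqrt (a * 2 ^ i) ≤ 3 * Real.sqrt (a * 2 ^ j) := by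
  induction j with
  | zero =>
    rw [Finset.sum_range_zero]
    positivity
  | succ j ih =>
    have h3 : Real.sqrt (a * 2 ^ (j + 1)) = Real.sqrt (a * 2 ^ j) * Real.sqrt 2 := by
      rw [pow_succ, ← mul_assoc]
      exact Real.sqrt_mul (by positivity) 2
    rw [Finset.sum_range_succ, h3]
    have h1 : (4 / 3 : ℝ) ≤ Real.sqrt 2 := by
      apply Real.le_sqrt_of_sq_le
      norm_num
    have h2 : 0 ≤ Real.sqrt (a * 2 ^ j) := Real.sqrt_nonneg _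
    nlinarith

private lemma HalfPeel_inv (a : ℝ) (ha : 0 < a) (j : ℕ) :
    ∑ i ∈ Finset.range j, (a * 2 ^ i)⁻¹ ≤ 2 * a⁻¹ - 2 * (a * 2 ^ j)⁻¹ := by
  induction j with
  | zero =>
    rw [Finset.sum_range_zero, pow_zero, mul_one, sub_self]
  | succ j ih =>
    rw [Finset.sum_range_succ]
    have h1 : (a * 2 ^ (j + 1))⁻¹ = (a * 2 ^ j)⁻¹ / 2 := by
      rw [pow_succ]
      field_simp
    rw [h1]
    linarith

/-
SCD-HalfPeel. C from half_class, K0 = 37 * (Nat.sqrt d + 1). Induction on j (HalfPeel_ind), then j is chosen as the least number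
with d < K0 * 2^j: every line has at most d points (clique_card). Sums: HalfPeel_sqrt, HalfPeel_inv.
-/
theorem half_peel : ∃ C' : ℝ, 0 < C' ∧ ∀ {d : ℕ} {P : Finset (EuclideanSpace ℝ (Fin d))}
      {LL : Finset (Finset (EuclideanSpace ℝ (Fin d)))}, 1 ≤ d → LineSys (1 / 2) 2 P LL → Code (1 / 2) P →
      (P.card : ℝ) ≤ C' * (d : ℝ) ^ (3 / 2 : ℝ) := by
  obtain ⟨C, hC, hcls⟩ := half_class
  refine ⟨740 + C * 7, by positivity, ?_⟩
  intro d P LL hd h hc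
  have hd1 : (1 : ℝ) ≤ d := by exact_mod_cast hd
  have hd0 : (0 : ℝ) < d := by linarith
  have hpow : (d : ℝ) ^ (3 / 2 : ℝ) = d * Real.sqrt d := by
    rw [show (3 / 2 : ℝ) = 1 + 1 / 2 by norm_num, Real.rpow_add hd0, Real.rpow_one,
      Real.sqrt_eq_rpow]
  have hs1 : (1 : ℝ) ≤ Real.sqrt d := by
    apply Real.le_sqrt_of_sq_le
    linarith
  have hss : Real.sqrt d * Real.sqrt d = d := Real.mul_self_sqrt hd0.le
  obtain ⟨K0, hK0⟩ : ∃ K0, K0 = 37 * (Nat.sqrt d + 1) := ⟨_, rfl⟩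
  have hK8 : 8 ≤ K0 := by omega
  have hsq : d < (Nat.sqrt d + 1) * (Nat.sqrt d + 1) := Nat.lt_succ_sqrt d
  have hKd : 1344 * d ≤ K0 ^ 2 := by
    rw [hK0]
    nlinarith
  have hsn : (Nat.sqrt d : ℝ) ≤ Real.sqrt d := by
    apply Real.le_sqrt_of_sq_le
    have h1 : Nat.sqrt d ^ 2 ≤ d := Nat.sqrt_le' d
    exact_mod_cast h1
  have hKu : (K0 : ℝ) ≤ 74 * Real.sqrt d := by
    rw [hK0]
    push_cast
    linarith
  have hKl : Real.sqrt d ≤ K0 := by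
    rw [Real.sqrt_le_left (by positivity)]
    have h1 : d ≤ K0 ^ 2 := by omega
    exact_mod_cast h1
  have hK0p : (0 : ℝ) < K0 := by linarith
  -- the first term
  have hT1 : 10 * (K0 : ℝ) * d ≤ 740 * (d * Real.sqrt d) := by
    have h1 : (K0 : ℝ) * d ≤ 74 * Real.sqrt d * d := mul_le_mul_of_nonneg_right hKu hd0.le
    nlinarith
  have hex : ∃ j, d < K0 * 2 ^ j := by
    refine ⟨Nat.log 2 d + 1, ?_⟩
    have h4 : d < 2 ^ (Nat.log 2 d + 1) := Nat.lt_pow_succ_log_self (by norm_num) d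
    have h5 : 2 ^ (Nat.log 2 d + 1) ≤ K0 * 2 ^ (Nat.log 2 d + 1) :=
      Nat.le_mul_of_pos_left _ (by omega)
    omega
  obtain ⟨j, hj, hjmin⟩ : ∃ j, d < K0 * 2 ^ j ∧ ∀ i < j, ¬ d < K0 * 2 ^ i :=
    ⟨Nat.find hex, Nat.find_spec hex, fun i hi => Nat.find_min hex hi⟩
  have hlt : ∀ L ∈ LL, L.card < K0 * 2 ^ j := by
    intro L hL
    have h3 : L.card ≤ d := Pool.Agent.Helper49.Sph.clique_card (by norm_num) (by norm_num) L
      (fun x hx => h.unit x (h.sub L hL hx)) (fun x hx y hy hxy => h.adj L hL x hx y hy hxy)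
    omega
  have hmain := HalfPeel_ind C hcls hK8 hKd j h hc hlt
  have hS1 : ∑ i ∈ Finset.range j, Real.sqrt ((K0 : ℝ) * 2 ^ i) ≤ 5 * Real.sqrt d := by
    rcases j with _ | j
    · rw [Finset.sum_range_zero]
      positivity
    · refine (HalfPeel_sqrt (K0 : ℝ) hK0p.le (j + 1)).trans ?_
      have h1 : K0 * 2 ^ j ≤ d := not_lt.1 (hjmin j (Nat.lt_succ_self j))
      have h2 : (K0 : ℝ) * 2 ^ j ≤ d := by exact_mod_cast h1
      have h3 : (K0 : ℝ) * 2 ^ (j + 1) ≤ 2 * d := by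
        rw [pow_succ]
        linarith
      have h4 : Real.sqrt ((K0 : ℝ) * 2 ^ (j + 1)) ≤ Real.sqrt 2 * Real.sqrt d := by
        rw [← Real.sqrt_mul (by norm_num)]
        exact Real.sqrt_le_sqrt h3
      have h5 : Real.sqrt 2 ≤ 5 / 3 := by
        rw [Real.sqrt_le_left (by norm_num)]
        norm_num
      nlinarith [Real.sqrt_nonneg (d : ℝ)]
  have hS2 : (d : ℝ) * ∑ i ∈ Finset.range j, ((K0 : ℝ) * 2 ^ i)⁻¹ ≤ 2 * Real.sqrt d := by
    have h1 := HalfPeel_inv (K0 : ℝ) hK0p j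
    have h2 : 0 ≤ ((K0 : ℝ) * 2 ^ j)⁻¹ := by positivity
    have h3 : ∑ i ∈ Finset.range j, ((K0 : ℝ) * 2 ^ i)⁻¹ ≤ 2 * (K0 : ℝ)⁻¹ := by linarith
    have h4 : (d : ℝ) * (K0 : ℝ)⁻¹ ≤ Real.sqrt d := by
      rw [← div_eq_mul_inv, div_le_iff₀ hK0p]
      nlinarith
    calc (d : ℝ) * ∑ i ∈ Finset.range j, ((K0 : ℝ) * 2 ^ i)⁻¹ ≤ d * (2 * (K0 : ℝ)⁻¹) :=
          mul_le_mul_of_nonneg_left h3 hd0.le
      _ = 2 * (d * (K0 : ℝ)⁻¹) := by ring
      _ ≤ 2 * Real.sqrt d := by linarith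
  have hT2 : (d : ℝ) * ∑ i ∈ Finset.range j, Real.sqrt ((K0 : ℝ) * 2 ^ i) ≤
      5 * (d * Real.sqrt d) := by
    calc (d : ℝ) * ∑ i ∈ Finset.range j, Real.sqrt ((K0 : ℝ) * 2 ^ i) ≤ d * (5 * Real.sqrt d) :=
          mul_le_mul_of_nonneg_left hS1 hd0.le
      _ = 5 * (d * Real.sqrt d) := by ring
  have hT3 : (d : ℝ) ^ 2 * ∑ i ∈ Finset.range j, ((K0 : ℝ) * 2 ^ i)⁻¹ ≤
      2 * (d * Real.sqrt d) := by
    calc (d : ℝ) ^ 2 * ∑ i ∈ Finset.range j, ((K0 : ℝ) * 2 ^ i)⁻¹ =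
          d * (d * ∑ i ∈ Finset.range j, ((K0 : ℝ) * 2 ^ i)⁻¹) := by ring
      _ ≤ d * (2 * Real.sqrt d) := mul_le_mul_of_nonneg_left hS2 hd0.le
      _ = 2 * (d * Real.sqrt d) := by ring
  rw [hpow]
  calc (P.card : ℝ) ≤ 10 * K0 * d + C * (d * ∑ i ∈ Finset.range j, Real.sqrt ((K0 : ℝ) * 2 ^ i) +
        (d : ℝ) ^ 2 * ∑ i ∈ Finset.range j, ((K0 : ℝ) * 2 ^ i)⁻¹) := hmain
    _ ≤ 740 * (d * Real.sqrt d) + C * (5 * (d * Real.sqrt d) + 2 * (d * Real.sqrt d)) :=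
      add_le_add hT1 (mul_le_mul_of_nonneg_left (add_le_add hT2 hT3) hC.le)
    _ = (740 + C * 7) * (d * Real.sqrt d) := by ring

end Pool.Agent.Helper17.SCD
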