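import Mathlib
import Pool.Agent.Helper17.SCD.HalfPeel
import Pool.Agent.Helper17.SCD.StrE

set_option autoImplicit false

open scoped Classical

namespace Pool.Agent.Helper17.SCD

theorem upper_half : ∃ C : ℝ,
    ∀ {d : ℕ} {S : Finset (EuclideanSpace ℝ (Fin d))}, 1 ≤ d → Code (1 / 2) S →
    (S.card : ℝ) ≤ C * (d : ℝ) ^ (3 / 2 : ℝ) := by
  obtain ⟨C', hC', hP⟩ := half_peel
  obtain ⟨R, hR⟩ := structure_thm (1 / 2) (by norm_num) (by norm_num) 2 (by norm_num)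
  refine ⟨R * C', fun {d S} hd hS => ?_⟩
  obtain ⟨P, LL, hPS, hsys, hc⟩ := hR hS
  have hcode : Code (1 / 2) P := ⟨fun x hx => hS.1 x (hPS hx), fun x hx y hy => hS.2 x (hPS hx) y (hPS hy)⟩
  have h3 := hP hd hsys hcode
  have h4 : (S.card : ℝ) ≤ R * P.card := by exact_mod_cast hc
  calc (S.card : ℝ) ≤ R * P.card := h4
    _ ≤ R * (C' * (d : ℝ) ^ (3 / 2 : ℝ)) := by gcongr
    _ = R * C' * (d : ℝ) ^ (3 / 2 : ℝ) := by ring

end Pool.Agent.Helper17.SCD
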